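import Pool.Agent.WEt.Stmts

/-!
# Independent integer rows have a non-zero minor
-/

open scoped BigOperators

namespace WE.GLOB

theorem aux (G : Type) (ρ : ℕ) (b : Fin ρ → G → ℤ)
    (hb : ∀ c : Fin ρ → ℤ, (∀ g, ∑ j, c j * b j g = 0) → c = 0) :
    Submodule.span ℚ (Set.range fun (g : G) (j : Fin ρ) => (b j g : ℚ)) = ⊤ := by
  by_contra h
  obtain ⟨f, hf0, hf⟩ := Submodule.exists_le_ker_of_lt_top _ (lt_top_iff_ne_top.2 h)
  have h1 : ∀ g : G, ∑ j, f (Pi.single j 1) * (b j g : ℚ) = 0 := by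
    intro g
    have h2 : f (fun j => (b j g : ℚ)) = 0 := hf (Submodule.subset_span ⟨g, rfl⟩)
    rw [← h2, LinearMap.pi_apply_eq_sum_univ f]
    refine Finset.sum_congr rfl fun j _ => ?_
    rw [smul_eq_mul, mul_comm]
    congr 2
    funext i
    simp [Pi.single_apply, eq_comm]
  obtain ⟨d, hd⟩ := IsLocalization.exist_integer_multiples_of_finset (nonZeroDivisors ℤ)
    (Finset.univ.image fun j : Fin ρ => f (Pi.single j 1))
  have hd' : ∀ j, ∃ c : ℤ, (c : ℚ) = (d : ℤ) * f (Pi.single j 1) := by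
    intro j
    obtain ⟨c, hc⟩ := hd _ (Finset.mem_image_of_mem _ (Finset.mem_univ j))
    exact ⟨c, by simpa [Algebra.smul_def] using hc⟩
  choose c hc using hd'
  have hc0 : c = 0 := by
    apply hb
    intro g
    have h3 : ((∑ j, c j * b j g : ℤ) : ℚ) = 0 := by
      push_cast
      calc ∑ j, (c j : ℚ) * (b j g : ℚ)
          = ∑ j, ((d : ℤ) : ℚ) * (f (Pi.single j 1) * (b j g : ℚ)) := by
            refine Finset.sum_congr rfl fun j _ => ?_
            rw [hc]
            ring
        _ = 0 := by rw [← Finset.mul_sum, h1, mul_zero]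
    exact_mod_cast h3
  apply hf0
  ext j
  have h4 := hc j
  rw [hc0] at h4
  have h5 : ((d : ℤ) : ℚ) ≠ 0 := by
    have := nonZeroDivisors.ne_zero d.2
    exact_mod_cast this
  have h6 : f (Pi.single j 1) = 0 := by
    rcases mul_eq_zero.1 h4.symm with h7 | h7
    · exact absurd h7 h5
    · exact h7
  simpa using h6

end WE.GLOB

namespace WE

theorem glob : S_GLOB := by
  intro G ρ b hb
  have h1 := GLOB.aux G ρ b hb
  obtain ⟨f, hf1, hf2, hf3⟩ := Submodule.exists_fun_fin_finrank_span_eq ℚ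
    (Set.range fun (g : G) (j : Fin ρ) => (b j g : ℚ))
  have h2 : Module.finrank ℚ (Submodule.span ℚ
      (Set.range fun (g : G) (j : Fin ρ) => (b j g : ℚ))) = ρ := by
    rw [h1, finrank_top, Module.finrank_fin_fun]
  let e : Fin ρ ≃ Fin (Module.finrank ℚ (Submodule.span ℚ
      (Set.range fun (g : G) (j : Fin ρ) => (b j g : ℚ)))) := finCongr h2.symm
  have h3 : LinearIndependent ℚ (f ∘ e) := hf3.comp _ e.injective
  choose g hg using fun k => hf1 (e k)
  refine ⟨g, ?_⟩
  have h4 : LinearIndependent ℚ (Matrix.of fun j k => (b j (g k) : ℚ)).col := by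
    have h5 : (Matrix.of fun j k => (b j (g k) : ℚ)).col = f ∘ e := by
      funext k
      rw [Function.comp_apply, ← hg k]
      rfl
    rw [h5]
    exact h3
  rw [Matrix.linearIndependent_cols_iff_isUnit, Matrix.isUnit_iff_isUnit_det] at h4
  intro h5
  apply h4.ne_zero
  have h6 : (Matrix.of fun j k => (b j (g k) : ℚ)) =
      (Matrix.of fun j k => b j (g k)).map (Int.castRingHom ℚ) := by
    ext j k
    simp
  rw [h6, ← RingHom.mapMatrix_apply, ← RingHom.map_det, h5, map_zero]

end WE
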