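import Pool.Agent.WEt.SingleB
import Pool.Agent.WEt.GLOB

/-!
# Weil-etale cohomology: reducedness of the single group `H^(2n+1)_W(X, ℤ(n))` at one prime

If `2n ≤ dim X` and `H^(2n+1)_W(X, ℤ(n)) ⊗ ℤ_(ℓ)` contains no divisible subgroup `≠ 0`, for one prime
`ℓ ≠ p`, then the Tate conjecture, semisimplicity of the eigenvalue `1` and the injectivity of the
cycle map hold in codimension `n` for `ℓ`.
-/

open TensorProduct Polynomial

noncomputable section

namespace WE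

/-- `H ⊗ ℤ_(ℓ)` contains no divisible subgroup `≠ 0`. In terms of `H`: if `ℓ x_(k+1) = x_k` for all
`k`, then `x_0` is killed by an integer prime to `ℓ`. -/
def Red (ℓ : ℕ) (H : Type) [AddCommGroup H] : Prop :=
  ∀ x : ℕ → H, (∀ k, ℓ • x (k + 1) = x k) → ∃ m : ℕ, ¬ ℓ ∣ m ∧ m • x 0 = 0

namespace RED

open KL SG

/-- in a finitely generated group an element which is divisible by all powers of `ℓ` is killed by
an integer prime to `ℓ` -/
theorem krull_fg (ℓ : Nat.Primes) (H : Type) [AddCommGroup H] (hH : AddGroup.FG H) (x : H)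
    (hx : ∀ k : ℕ, ∃ y : H, (ℓ : ℕ) ^ k • y = x) : ∃ m : ℕ, ¬ (ℓ : ℕ) ∣ m ∧ m • x = 0 := by
  have fH : Module.Finite ℤ H := Module.Finite.iff_addGroup_fg.2 hH
  have hI : (Ideal.span {((ℓ : ℕ) : ℤ)}) ≠ ⊤ := by
    intro h
    rw [Ideal.span_singleton_eq_top] at h
    exact (Nat.prime_iff_prime_int.1 ℓ.2).not_isUnit h
  have h1 : x ∈ (⨅ i : ℕ, (Ideal.span {((ℓ : ℕ) : ℤ)}) ^ i • (⊤ : Submodule ℤ H)) := by
    rw [Submodule.mem_iInf]
    intro k
    obtain ⟨y, hy⟩ := hx k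
    rw [← hy, Ideal.span_singleton_pow]
    have h2 : (ℓ : ℕ) ^ k • y = (((ℓ : ℕ) : ℤ) ^ k) • y := by
      rw [← Nat.cast_pow, natCast_zsmul]
    rw [h2]
    exact Submodule.smul_mem_smul (Ideal.mem_span_singleton_self _) trivial
  rw [Ideal.mem_iInf_smul_pow_eq_bot_iff] at h1
  obtain ⟨⟨r, hr⟩, h2⟩ := h1
  obtain ⟨c, hc⟩ := Ideal.mem_span_singleton'.1 hr
  have h3 : (1 - r) • x = 0 := by
    rw [sub_smul, one_smul]
    have : r • x = x := h2
    rw [this, sub_self]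
  refine ⟨(1 - r).natAbs, ?_, ?_⟩
  · intro h
    have h4 : ((ℓ : ℕ) : ℤ) ∣ 1 - r := Int.natCast_dvd.2 h
    have h5 : ((ℓ : ℕ) : ℤ) ∣ 1 := by
      have h6 : ((ℓ : ℕ) : ℤ) ∣ r := ⟨c, by rw [← hc]; ring⟩
      have := dvd_add h4 h6
      simpa using this
    exact (Nat.prime_iff_prime_int.1 ℓ.2).not_isUnit (isUnit_of_dvd_one h5)
  · rw [← natCast_zsmul]
    rcases Int.natAbs_eq (1 - r) with h4 | h4
    · rw [← h4]
      exact h3
    · rw [h4, neg_smul, neg_eq_zero] at h3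
      exact h3

/-- finitely generated groups are reduced -/
theorem red_of_fg (ℓ : Nat.Primes) (H : Type) [AddCommGroup H] (hH : AddGroup.FG H) :
    Red ℓ H := by
  intro x hx
  have h1 : ∀ k : ℕ, (ℓ : ℕ) ^ k • x k = x 0 := by
    intro k
    induction k with
    | zero => rw [pow_zero, one_smul]
    | succ k ih => rw [pow_succ, mul_smul, hx, ih]
  exact krull_fg ℓ H hH (x 0) fun k => ⟨x k, h1 k⟩

/-- the image of a uniquely `ℓ`-divisible group in a reduced group -/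
theorem red_map {ℓ : ℕ} {H Q : Type} [AddCommGroup H] [AddCommGroup Q] (hH : Red ℓ H)
    (hQ : Function.Bijective (fun y : Q => ℓ • y)) (δ : Q →+ H) (y : Q) :
    ∃ m : ℕ, ¬ ℓ ∣ m ∧ m • δ y = 0 := by
  set g : Q → Q := fun z => (hQ.2 z).choose with hg
  have h1 : ∀ z, ℓ • g z = z := fun z => (hQ.2 z).choose_spec
  have h2 := hH (fun k => δ (g^[k] y)) (fun k => by
    rw [← map_nsmul, Function.iterate_succ_apply', h1])
  simpa using h2

theorem eq_zero_of {H : Type} [AddCommGroup H] {ℓ : ℕ} (hℓ : ℓ.Prime) {x : H} {m k : ℕ}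
    (hm : ¬ ℓ ∣ m) (h1 : m • x = 0) (h2 : ℓ ^ k • x = 0) : x = 0 := by
  have h3 : addOrderOf x ∣ m := addOrderOf_dvd_of_nsmul_eq_zero h1
  have h4 : addOrderOf x ∣ ℓ ^ k := addOrderOf_dvd_of_nsmul_eq_zero h2
  have h5 : Nat.Coprime m (ℓ ^ k) :=
    Nat.Coprime.pow_right k ((Nat.Prime.coprime_iff_not_dvd hℓ).2 hm).symm
  have h6 : addOrderOf x ∣ 1 := by
    rw [← h5.gcd_eq_one]
    exact Nat.dvd_gcd h3 h4
  rw [Nat.dvd_one, AddMonoid.addOrderOf_eq_one_iff] at h6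
  exact h6

/-- If `H'` is reduced at `ℓ` then `ℤ_ℓ ⊗ H → E` is surjective. -/
theorem surj (ℓ : Nat.Primes) (H H' E Q : Type) [AddCommGroup H] [AddCommGroup H']
    [AddCommGroup E] [Module ℤ_[ℓ] E] [Module.Finite ℤ_[ℓ] E] [AddCommGroup Q]
    (c : H →+ E) (q : E →+ Q) (δ : Q →+ H')
    (hq : ∀ e, q e = 0 ↔ ∃ h, c h = e) (hδ : ∀ y, δ y = 0 ↔ ∃ e, q e = y)
    (hQ : Function.Bijective (fun y : Q => (ℓ : ℕ) • y))
    (hH' : Red ℓ H') : Function.Surjective (tens ℓ c) := by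
  intro e
  have key : ∀ k : ℕ, ∃ (h : H) (e' : E), e = c h + ((ℓ : ℕ) ^ k) • e' := by
    intro k
    obtain ⟨y, hy⟩ := (pdiv ℓ hQ k).2 (q e)
    simp only at hy
    have h1 : ((ℓ : ℕ) ^ k) • δ y = 0 := by
      rw [← map_nsmul, hy]
      exact (hδ _).2 ⟨e, rfl⟩
    obtain ⟨m, hm, h2⟩ := red_map hH' hQ δ y
    have h3 := eq_zero_of ℓ.2 hm h2 h1
    obtain ⟨e', he'⟩ := (hδ _).1 h3
    have h4 : q (e - ((ℓ : ℕ) ^ k) • e') = 0 := by
      rw [map_sub, map_nsmul, he', hy, sub_self]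
    obtain ⟨h, hh⟩ := (hq _).1 h4
    exact ⟨h, e', by rw [hh]; abel⟩
  have hmem : e ∈ LinearMap.range (tens ℓ c) := by
    rw [← Submodule.Quotient.mk_eq_zero]
    apply krull ℓ _ _
    intro k
    obtain ⟨h, e', he⟩ := key k
    refine ⟨Submodule.Quotient.mk e', ?_⟩
    rw [← Submodule.Quotient.mk_smul, hps, Submodule.Quotient.eq]
    have : e - ((ℓ : ℕ) ^ k) • e' = c h := by rw [he]; abel
    rw [this]
    exact ⟨_, tens1 c h⟩
  obtain ⟨t, ht⟩ := hmem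
  exact ⟨t, ht⟩

/-- `ℤ_ℓ ⊗ Hom(B, ℤ) → Hom(B, ℤ_ℓ)` is injective. -/
theorem hom_inj (ℓ : Nat.Primes) {B : Type} [AddCommGroup B] (u : ℤ_[ℓ] ⊗[ℤ] (B →+ ℤ))
    (h : ∀ b : B, tens ℓ ((Int.castAddHom ℤ_[ℓ]).comp (AddMonoidHom.eval b)) u = 0) : u = 0 := by
  classical
  obtain ⟨S, hS⟩ := TensorProduct.exists_finset u
  set N : Submodule ℤ (B →+ ℤ) := Submodule.span ℤ ((S.image Prod.snd : Finset (B →+ ℤ)) : Set _)
    with hN
  have hmem : ∀ x ∈ S, x.2 ∈ N := fun x hx =>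
    Submodule.subset_span (Finset.mem_coe.2 (Finset.mem_image_of_mem _ hx))
  obtain ⟨u', hu'⟩ : ∃ u' : ℤ_[ℓ] ⊗[ℤ] N, N.subtype.lTensor ℤ_[ℓ] u' = u := by
    refine ⟨∑ x ∈ S.attach, x.1.1 ⊗ₜ[ℤ] (⟨x.1.2, hmem _ x.2⟩ : N), ?_⟩
    rw [map_sum, hS, ← Finset.sum_attach S]
    rfl
  have fN : Module.Finite ℤ N := Module.Finite.span_finset ℤ _
  have tN : Module.IsTorsionFree ℤ N := by
    refine ⟨fun r hr x y hxy => ?_⟩
    apply Subtype.ext
    ext b
    have h1 : (r • x).1 b = (r • y).1 b := by rw [show r • x = r • y from hxy]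
    have h2 : r * x.1 b = r * y.1 b := by simpa using h1
    exact hr.left h2
  have frN : Module.Free ℤ N := inferInstance
  set b := Module.finBasis ℤ N with hb
  set ρ := Module.finrank ℤ N
  set bb := b.baseChange ℤ_[ℓ]
  obtain ⟨g, hg⟩ := glob B ρ (fun j x => (b j).1 x) (by
    intro c hc
    have h1 : ∑ j, c j • b j = 0 := by
      apply Subtype.ext
      ext x
      have := hc x
      simpa [AddSubmonoid.coe_finsetSum, AddMonoidHom.finsetSum_apply] using this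
    funext j
    exact Fintype.linearIndependent_iff.1 b.linearIndependent c h1 j)
  have h1 : ∀ x : B, ∑ j, bb.repr u' j * (((b j).1 x : ℤ) : ℤ_[ℓ]) = 0 := by
    intro x
    have h2 := h x
    rw [← hu', ← bb.sum_repr u', map_sum, map_sum] at h2
    rw [← h2]
    refine Finset.sum_congr rfl fun j _ => ?_
    rw [Module.Basis.baseChange_apply, TensorProduct.smul_tmul', smul_eq_mul, mul_one,
      LinearMap.lTensor_tmul, tens_tmul, smul_eq_mul]
    rfl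
  have h3 : (fun j => bb.repr u' j) = 0 := by
    refine Matrix.eq_zero_of_vecMul_eq_zero (M := (Matrix.of fun j k =>
      (((b j).1 (g k) : ℤ) : ℤ_[ℓ]))) ?_ ?_
    · have h4 : (Matrix.of fun j k => (((b j).1 (g k) : ℤ) : ℤ_[ℓ])).det =
          (((Matrix.of fun j k => (b j).1 (g k)).det : ℤ) : ℤ_[ℓ]) := by
        exact ((Int.castRingHom ℤ_[ℓ]).map_det (Matrix.of fun j k => (b j).1 (g k))).symm
      rw [h4]
      exact int_ne hg
    · funext k
      simpa [Matrix.vecMul, dotProduct] using h1 (g k)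
  have h5 : u' = 0 := by
    rw [← bb.sum_repr u']
    refine Finset.sum_eq_zero fun j _ => ?_
    rw [congrFun h3 j]
    simp
  rw [← hu', h5, map_zero]

end RED

open SG KL RED in
/-- One group at one prime: if `H^(2n+1)_W(X, ℤ(n)) ⊗ ℤ_(ℓ)` is reduced, for a prime `ℓ ≠ p`, and the Tate
conjecture holds in the complementary codimension or `2n ≤ dim X`, then the Tate conjecture, the
semisimplicity of the eigenvalue `1` and the injectivity of the cycle map hold in codimension `n` for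
`ℓ`. -/
theorem red_aux (X : Theory) {ℓ : Nat.Primes} (hℓ : ℓ ≠ X.p) (n m : ℕ) (hd : n + m = X.d)
    (hn : n ≤ m ∨ X.T ℓ m) (hA : Red ℓ ((X.W n).H (2 * (n : ℤ) + 1))) :
    X.TC ℓ n ∧ X.SS ℓ n ∧ X.B ℓ n := by
  have hsurj : Function.Surjective (tens ℓ (X.cH ℓ n (2 * (n : ℤ)))) :=
    surj ℓ _ _ _ _ _ (X.q ℓ n (2 * (n : ℤ))) (X.δ ℓ n (2 * (n : ℤ))) (X.q_eq_zero ℓ n _)
      (X.δ_eq_zero ℓ n _) (X.Q_div ℓ n _) hA
  -- hard Lefschetz: the Tate conjecture in codimension `m`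
  have hT : X.T ℓ m := by
    rcases hn with hn | hn
    · exact T_lef X hℓ hd hn (fun e => by
        obtain ⟨t, ht⟩ := hsurj e
        exact ⟨1, one_ne_zero, t, by rw [ht, one_smul]⟩)
    · exact hn
  -- elements of the kernel of `e` have torsion image in `C`
  have hker : ∀ h : (X.W n).H (2 * (n : ℤ)), Tors (eW X n h) → Tors ((X.W n).res _ h) := by
    rintro h ⟨M, hM, h0⟩
    rw [← map_zsmul] at h0
    obtain ⟨k, hk, hk0⟩ := ORB.fix_tors (X.W n) (((X.W n).res_mem _ _).mp ⟨M • h, rfl⟩)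
      (by simpa [eW] using h0)
    refine Tors.of_zsmul hM ⟨k, by exact_mod_cast hk.ne', ?_⟩
    rw [← map_zsmul, natCast_zsmul]
    exact hk0
  -- an element with torsion image is torsion
  have hkill : ∀ x : (X.W n).H (2 * (n : ℤ) + 1), Tors (X.cH ℓ n _ x) → Tors x := by
    rintro x ⟨M, hM, h0⟩
    rw [← map_zsmul] at h0
    obtain ⟨y, hy⟩ := (X.cH_eq_zero ℓ n _ _).1 h0
    obtain ⟨m, hm, h1⟩ := red_map hA (X.Q_div ℓ n (2 * (n : ℤ))) (X.δ ℓ n _) y
    rw [hy] at h1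
    refine Tors.of_zsmul hM ⟨m, ?_, by rw [natCast_zsmul]; exact h1⟩
    rintro h2
    have h3 : m = 0 := by exact_mod_cast h2
    exact hm (h3 ▸ dvd_zero _)
  -- numerically trivial elements
  have hnum : ∀ a : (X.W n).H (2 * (n : ℤ)), X.pair n m hd (eW X n a) = 0 →
      Tors ((X.W n).res _ a) := by
    intro a ha
    apply hker
    apply hkill
    apply X.pairE_ker ℓ hℓ n m hd
    intro y
    obtain ⟨N, hN, t, ht⟩ := hT y
    have h1 : ∀ t, X.pairE ℓ n m hd (X.cH ℓ n _ (eW X n a)) (tens ℓ (X.cH ℓ m _) t) = 0 := by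
      intro t
      induction t using TensorProduct.induction_on with
      | zero => simp
      | tmul c g =>
        rw [tens_tmul, map_smul, X.pair_cH, ha]
        simp
      | add s t hs ht => rw [map_add, map_add, hs, ht, add_zero]
    have h2 := h1 t
    rw [ht, map_zsmul] at h2
    exact Tors.eq_zero (ℓ := ℓ) ⟨N, hN, h2⟩
  refine ⟨?_, ?_, ?_⟩
  · intro y hy
    obtain ⟨e, he⟩ := ((X.E ℓ n).res_mem _ _).mpr hy
    obtain ⟨t, ht⟩ := hsurj e
    refine ⟨1, one_ne_zero, ?_⟩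
    rw [one_smul, ← he, ← ht, comp_tens]
    clear he ht hy y e
    induction t using TensorProduct.induction_on with
    | zero => rw [map_zero]; exact zero_mem _
    | tmul a x =>
      rw [tens_tmul]
      refine Submodule.smul_mem _ _ (Submodule.subset_span ⟨(X.W n).res _ x, ?_, ?_⟩)
      · exact ((X.W n).res_mem _ _).mp ⟨x, rfl⟩
      · exact (X.res_cH ℓ n _ x).symm
    | add s t hs ht =>
      rw [map_add]
      exact add_mem hs ht
  · intro z hz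
    obtain ⟨e, he⟩ := ((X.E ℓ n).res_mem _ _).mpr hz
    obtain ⟨t, ht⟩ := hsurj e
    have h1 : eE X ℓ n e = 0 := by
      show (X.E ℓ n).inc _ ((X.E ℓ n).res _ e) = 0
      rw [he]
      exact ((X.E ℓ n).inc_eq_zero _ _).mpr ⟨z, rfl⟩
    set f : (X.W n).H (2 * (n : ℤ)) →+ (X.W m).H (2 * (m : ℤ)) →+ ℤ :=
      (X.pair n m hd).comp (eW X n) with hf
    have h2 : ∀ (b : (X.W m).H (2 * (m : ℤ))) (t : ℤ_[ℓ] ⊗[ℤ] (X.W n).H (2 * (n : ℤ))),
        tens ℓ ((Int.castAddHom ℤ_[ℓ]).comp (AddMonoidHom.eval b))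
          (f.toIntLinearMap.lTensor ℤ_[ℓ] t) =
        X.pairE ℓ n m hd (eE X ℓ n (tens ℓ (X.cH ℓ n (2 * (n : ℤ))) t)) (X.cH ℓ m _ b) := by
      intro b t
      induction t using TensorProduct.induction_on with
      | zero => simp
      | tmul c g =>
        rw [LinearMap.lTensor_tmul, tens_tmul, tens_tmul, map_smul, map_smul, LinearMap.smul_apply,
          eE_cH, X.pair_cH]
        rfl
      | add s t hs ht => rw [map_add, map_add, map_add, map_add, map_add, LinearMap.add_apply,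
          hs, ht]
    have h3 : f.toIntLinearMap.lTensor ℤ_[ℓ] t = 0 := by
      apply hom_inj
      intro b
      rw [h2, ht, h1, map_zero, LinearMap.zero_apply]
    rw [← he, ← ht, comp_tens]
    refine tors_of_ker f _ (fun a ha => ?_) t h3
    have h4 : ((X.E ℓ n).res (2 * (n : ℤ))).toAddMonoidHom.comp (X.cH ℓ n (2 * (n : ℤ))) a =
        X.cC ℓ n _ ((X.W n).res _ a) := X.res_cH ℓ n _ a
    rw [h4]
    exact (hnum a ha).map _
  · intro x hx hT
    obtain ⟨h, rfl⟩ := ((X.W n).res_mem _ _).mpr hx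
    apply hker
    apply hkill
    have h2 := hT.lmap ((X.E ℓ n).inc _)
    rw [← X.cH_inc] at h2
    exact h2

open KL RED in
/-- One group at one prime, `2n ≤ dim X` or `n ≥ dim X`. -/
theorem red_fwd (X : Theory) {ℓ : Nat.Primes} (hℓ : ℓ ≠ X.p) (n : ℕ) (hn : 2 * n ≤ X.d ∨ X.d ≤ n)
    (hA : Red ℓ ((X.W n).H (2 * (n : ℤ) + 1))) :
    X.TC ℓ n ∧ X.SS ℓ n ∧ X.B ℓ n := by
  by_cases h : X.d < n
  · have h1 : ∀ y : (X.E ℓ n).C (2 * (n : ℤ)), (X.E ℓ n).F _ y = y → Tors y := by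
      intro y hy
      obtain ⟨e, rfl⟩ := ((X.E ℓ n).res_mem _ _).mpr hy
      exact (tors_all X rk h ℓ _ e).lmap _
    refine ⟨fun y hy => ?_, fun z hz => h1 _ hz, fun x hx _ => ?_⟩
    · obtain ⟨N, hN, h2⟩ := h1 y hy
      exact ⟨N, hN, by rw [h2]; exact zero_mem _⟩
    · obtain ⟨M, hM, h0⟩ := tors_all X rk h ℓ _ (X.cH ℓ n _ ((X.W n).inc _ x))
      rw [← map_zsmul] at h0
      obtain ⟨y, hy⟩ := (X.cH_eq_zero ℓ n _ _).1 h0
      obtain ⟨m, hm, h3⟩ := red_map hA (X.Q_div ℓ n (2 * (n : ℤ))) (X.δ ℓ n _) y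
      rw [hy, ← natCast_zsmul, ← map_zsmul, ← map_zsmul] at h3
      obtain ⟨k, hk, hk0⟩ := ORB.fix_tors (X.W n)
        (show (X.W n).F _ ((m : ℤ) • M • x) = (m : ℤ) • M • x by
          rw [map_zsmul, map_zsmul, hx]) h3
      have hm0 : (m : ℤ) ≠ 0 := by
        rintro h7
        have h8 : m = 0 := by exact_mod_cast h7
        exact hm (h8 ▸ dvd_zero _)
      exact Tors.of_zsmul hM (Tors.of_zsmul hm0 ⟨k, by exact_mod_cast hk.ne', by
        rw [natCast_zsmul]; exact hk0⟩)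
  · obtain ⟨m, hd⟩ : ∃ m, n + m = X.d := ⟨X.d - n, by omega⟩
    refine red_aux X hℓ n m hd ?_ hA
    rcases hn with hn | hn
    · exact Or.inl (by omega)
    · have h0 : m = 0 := by omega
      subst h0
      exact Or.inr (T_zero X ℓ)

open KL RED in
/-- degrees different from `2n`, `2n + 1` -/
theorem red_deg (X : Theory) (ℓ : Nat.Primes) (n : ℕ) (i : ℤ) (h4 : i ≠ 2 * (n : ℤ))
    (h5 : i ≠ 2 * (n : ℤ) + 1) (hA : Red ℓ ((X.W n).H i)) (x : (X.W n).H i) : Tors x := by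
  obtain ⟨j, rfl⟩ : ∃ j, i = j + 1 := ⟨i - 1, by ring⟩
  obtain ⟨M, hM, h0⟩ := tors_E X rk ℓ n (j + 1) h4 h5 (X.cH ℓ n _ x)
  rw [← map_zsmul] at h0
  obtain ⟨y, hy⟩ := (X.cH_eq_zero ℓ n _ _).1 h0
  obtain ⟨m, hm, h6⟩ := red_map hA (X.Q_div ℓ n j) (X.δ ℓ n _) y
  rw [hy] at h6
  refine Tors.of_zsmul hM ⟨m, ?_, by rw [natCast_zsmul]; exact h6⟩
  rintro h7
  have h8 : m = 0 := by exact_mod_cast h7
  exact hm (h8 ▸ dvd_zero _)

/-- If all groups `H^i_W(X, ℤ(n)) ⊗ ℤ_(ℓ)` are reduced, for a prime `ℓ ≠ p`, they are finitely generated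
(`2n ≤ dim X` or `n ≥ dim X`). -/
theorem red_L (X : Theory) {ℓ : Nat.Primes} (hℓ : ℓ ≠ X.p) (n : ℕ) (hn : 2 * n ≤ X.d ∨ X.d ≤ n)
    (hvan : ∀ x : (X.W n).C (2 * (n : ℤ) + 1), (X.W n).F _ x = x → Tors x)
    (hA : ∀ i, Red ℓ ((X.W n).H i)) : X.L n := by
  obtain ⟨h1, h2, h3⟩ := red_fwd X hℓ n hn (hA _)
  exact (L_iff_single X n).2 ⟨single_bwd X hℓ n (hn.imp_right Or.inl) hvan h1 h2 h3,
    fun i h4 h5 x => red_deg X ℓ n i h4 h5 (hA i) x⟩

/-- All weights. -/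
theorem red_all (X : Theory) {ℓ : Nat.Primes} (hℓ : ℓ ≠ X.p)
    (hvan : ∀ n, ∀ x : (X.W n).C (2 * (n : ℤ) + 1), (X.W n).F _ x = x → Tors x)
    (hA : ∀ n i, Red ℓ ((X.W n).H i)) (n : ℕ) : X.L n := by
  by_cases hn : 2 * n ≤ X.d ∨ X.d ≤ n
  · exact red_L X hℓ n hn (hvan n) (hA n)
  push Not at hn
  have hm : X.TC ℓ (X.d - n) := (red_fwd X hℓ (X.d - n) (Or.inl (by omega)) (hA _ _)).1
  obtain ⟨h1, h2, h3⟩ := red_aux X hℓ n (X.d - n) (by omega) (Or.inr (T_of_TC X hℓ hm)) (hA _ _)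
  exact (L_iff_single X n).2 ⟨single_bwd X hℓ n (Or.inr (Or.inr hm)) (hvan n) h1 h2 h3,
    fun i h4 h5 x => red_deg X ℓ n i h4 h5 (hA n i) x⟩

end WE
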