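import Pool.Agent.WEt.LightFam
import Pool.Agent.WEt.RED

/-!
# Weil-etale motivic cohomology: reducedness at one prime, the statement
-/

open TensorProduct Polynomial

noncomputable section

namespace WEt

/-- `H ⊗ ℤ_(ℓ)` is reduced: it contains no divisible subgroup `≠ 0`. In terms of `H`: if
`ℓ x_(k+1) = x_k` for all `k`, then `x_0` is killed by an integer prime to `ℓ`. -/
def Ab.Red (H : Ab) (ℓ : Nat.Primes) : Prop :=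
  ∀ x : ℕ → H.T, (∀ k, (ℓ : ℕ) • x (k + 1) = x k) → ∃ m : ℕ, ¬ (ℓ : ℕ) ∣ m ∧ m • x 0 = 0

/-- The group `H^(2n+1)_W(X, ℤ(n))`. -/
def Groups.G (X : Groups) (n : ℕ) : Ab := (X.W n).H (2 * (n : ℤ) + 1)

/-- All smooth projective varieties over finite fields, and the fact that `H^(2n+1)(X̄_et, ℤ(n))` is
torsion: `H^(2n+1)(X̄_et, ℚ(n)) = CH^n(X̄, -1)_ℚ = 0`. -/
structure FamT extends Fam where
  above : ∀ X n (x : (((coh X).W n).C (2 * (n : ℤ) + 1)).T), Tors x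

variable (F : FamT)

/-- One variety. -/
theorem FamT.one (X : F.V) (n : ℕ) (hn : 2 * n ≤ (F.coh X).d ∨ (F.coh X).d ≤ n) :
    [AddGroup.FG ((F.coh X).G n).T,
      ∃ ℓ, ℓ ≠ (F.coh X).p ∧ ((F.coh X).G n).Red ℓ,
      ∃ ℓ, ℓ ≠ (F.coh X).p ∧ (F.coh X).TSB ℓ n,
      ∀ ℓ, ℓ ≠ (F.coh X).p → (F.coh X).TSB ℓ n].TFAE := by
  tfae_have 1 → 4 := fun h ℓ _ => WE.single_fwd (F.coh X).old ℓ n h
  tfae_have 4 → 3 := by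
    intro h
    obtain ⟨ℓ, hℓ⟩ := WE.Fam.exists_ne (F.coh X).p
    exact ⟨ℓ, hℓ, h ℓ hℓ⟩
  tfae_have 3 → 1 := by
    rintro ⟨ℓ, hℓ, h1, h2, h3⟩
    exact WE.single_bwd (F.coh X).old hℓ n (hn.imp_right Or.inl) (fun x _ => F.above X n x) h1 h2 h3
  tfae_have 1 → 2 := by
    intro h
    obtain ⟨ℓ, hℓ⟩ := WE.Fam.exists_ne (F.coh X).p
    exact ⟨ℓ, hℓ, WE.RED.red_of_fg ℓ _ h⟩
  tfae_have 2 → 3 := by
    rintro ⟨ℓ, hℓ, h⟩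
    exact ⟨ℓ, hℓ, WE.red_fwd (F.coh X).old hℓ n hn h⟩
  tfae_finish

/-- One variety, all degrees. -/
theorem FamT.deg (X : F.V) (n : ℕ) (hn : 2 * n ≤ (F.coh X).d ∨ (F.coh X).d ≤ n) :
    (F.coh X).L n ↔ ∃ ℓ, ℓ ≠ (F.coh X).p ∧ ∀ i, (((F.coh X).W n).H i).Red ℓ := by
  constructor
  · intro h
    obtain ⟨ℓ, hℓ⟩ := WE.Fam.exists_ne (F.coh X).p
    exact ⟨ℓ, hℓ, fun i => WE.RED.red_of_fg ℓ _ (h i)⟩
  · rintro ⟨ℓ, hℓ, h⟩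
    exact WE.red_L (F.coh X).old hℓ n hn (fun x _ => F.above X n x) h

/-- One variety, all degrees and weights. -/
theorem FamT.wts (X : F.V) : (∀ n, (F.coh X).L n) ↔
    ∃ ℓ, ℓ ≠ (F.coh X).p ∧ ∀ n i, (((F.coh X).W n).H i).Red ℓ := by
  constructor
  · intro h
    obtain ⟨ℓ, hℓ⟩ := WE.Fam.exists_ne (F.coh X).p
    exact ⟨ℓ, hℓ, fun n i => WE.RED.red_of_fg ℓ _ (h n i)⟩
  · rintro ⟨ℓ, hℓ, h⟩ n
    exact WE.red_all (F.coh X).old hℓ (fun n x _ => F.above X n x) h n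

/-- All varieties. -/
theorem FamT.all : [F.Q1,
    ∀ Y N, (F.coh Y).d = 2 * N → ∀ ℓ, ℓ ≠ (F.coh Y).p → (F.coh Y).TSB ℓ N,
    ∀ X N, F.M0 X ≤ 2 * N → ∃ ℓ, ℓ ≠ (F.coh X).p ∧ (F.coh (F.BL X (2 * N))).KQ ℓ N,
    ∀ X N, F.M0 X ≤ 2 * N → ∃ ℓ, ℓ ≠ (F.coh X).p ∧ ((F.coh (F.BL X (2 * N))).G N).Red ℓ].TFAE := by
  have h := F.toFam.main
  tfae_have 1 ↔ 2 := h.out 0 1
  tfae_have 1 ↔ 3 := h.out 0 2
  tfae_have 1 → 4 := by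
    intro h1 X N hN
    obtain ⟨ℓ, hℓ⟩ := WE.Fam.exists_ne (F.coh X).p
    exact ⟨ℓ, hℓ, WE.RED.red_of_fg ℓ _ (h1 (F.BL X (2 * N)) N _)⟩
  tfae_have 4 → 1 := by
    intro h4
    refine (h.out 3 0).1 fun X N hN => ?_
    obtain ⟨ℓ, hℓ, h5⟩ := h4 X N hN
    refine ⟨ℓ, hℓ, WE.red_fwd (F.coh (F.BL X (2 * N))).old ?_ N ?_ h5⟩
    · intro h6
      exact hℓ (h6.trans (F.blowUp X _ hN).char)
    · exact Or.inl (F.blowUp X _ hN).dim.ge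
  tfae_finish

end WEt
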