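import Pool.Agent.WEt.Stmts

/-!
# Two Cayley-Hamilton arguments
-/

open TensorProduct Polynomial

noncomputable section

namespace WE

namespace CH

theorem isUnit_of_not_dvd (ℓ : Nat.Primes) (a : ℤ) (h : ¬ ((ℓ : ℕ) : ℤ) ∣ a) :
    IsUnit ((a : ℤ_[ℓ])) := by
  rw [PadicInt.isUnit_iff]
  refine le_antisymm (PadicInt.norm_le_one _) (not_lt.mp ?_)
  intro h1
  exact h ((PadicInt.norm_int_lt_one_iff_dvd a).mp h1)

theorem decomp (ℓ : Nat.Primes) (M : Type) [AddCommGroup M] [Module ℤ_[ℓ] M]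
    (F : M →ₗ[ℤ_[ℓ]] M) (R : ℤ[X]) : ∃ S : M →ₗ[ℤ_[ℓ]] M,
      (∀ x, S (F x) = F (S x)) ∧
      ∀ x, aeval F (R.map (Int.castRingHom ℤ_[ℓ])) x =
        ((R.eval 1 : ℤ) : ℤ_[ℓ]) • x + (F (S x) - S x) := by
  obtain ⟨S, hS⟩ := Polynomial.X_sub_C_dvd_sub_C_eval (a := (1 : ℤ)) (p := R)
  refine ⟨aeval F (S.map (Int.castRingHom ℤ_[ℓ])), ?_, ?_⟩
  · intro x
    have h1 : aeval F (S.map (Int.castRingHom ℤ_[ℓ])) * F =
        F * aeval F (S.map (Int.castRingHom ℤ_[ℓ])) := by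
      have h2 : aeval F (S.map (Int.castRingHom ℤ_[ℓ]) * X) =
          aeval F (X * S.map (Int.castRingHom ℤ_[ℓ])) := by rw [mul_comm]
      simpa using h2
    exact congrArg (fun (g : M →ₗ[ℤ_[ℓ]] M) => g x) h1
  · intro x
    have h1 : R = C (R.eval 1) + (X - C 1) * S := by rw [← hS]; ring
    have h2 : R.map (Int.castRingHom ℤ_[ℓ]) = C (((R.eval 1 : ℤ) : ℤ_[ℓ])) +
        (X - C 1) * S.map (Int.castRingHom ℤ_[ℓ]) := by
      conv_lhs => rw [h1]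
      simp
    rw [h2]
    simp only [map_add, map_mul, map_sub, aeval_X, aeval_C, map_one, sub_mul, one_mul,
      LinearMap.add_apply, LinearMap.sub_apply, Module.End.mul_apply,
      Module.algebraMap_end_apply]

end CH

open CH

theorem cha : S_CHA := by
  intro ℓ M _ _ F R h1 h2
  obtain ⟨S, hS, hR⟩ := decomp ℓ M F R
  obtain ⟨u, hu⟩ := isUnit_of_not_dvd ℓ _ h2
  rw [← hu] at hR
  have h3 : ∀ x, (u : ℤ_[ℓ]) • x + (F (S x) - S x) = 0 := by
    intro x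
    rw [← hR, h1, LinearMap.zero_apply]
  constructor
  · intro x hx
    have h4 := h3 x
    rw [← hS, hx, sub_self, add_zero] at h4
    have h5 := congrArg (fun y => ((u⁻¹ : ℤ_[ℓ]ˣ) : ℤ_[ℓ]) • y) h4
    simpa [smul_smul] using h5
  · intro y
    refine ⟨-(((u⁻¹ : ℤ_[ℓ]ˣ) : ℤ_[ℓ]) • S y), ?_⟩
    have h4 := h3 y
    rw [add_eq_zero_iff_eq_neg] at h4
    have h5 := congrArg (fun y => ((u⁻¹ : ℤ_[ℓ]ˣ) : ℤ_[ℓ]) • y) h4
    simp only [smul_smul, Units.inv_mul, one_smul] at h5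
    refine h5.trans ?_
    rw [map_neg, map_smul, smul_neg, smul_sub]
    abel

theorem chb : S_CHB := by
  intro ℓ M _ _ F r R htf h1 h2 hss x y N hN hxy
  obtain ⟨S, hS, hR⟩ := decomp ℓ M F R
  obtain ⟨u, hu⟩ := isUnit_of_not_dvd ℓ _ h2
  rw [← hu] at hR
  -- `(F - 1) R(F) = 0`
  have h3 : ∀ (r : ℕ) (w : M), ((F - 1) ^ r) w = 0 → F w - w = 0 := by
    intro r
    induction r with
    | zero =>
      intro w hw
      have : w = 0 := by simpa using hw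
      rw [this, map_zero, sub_zero]
    | succ r ih =>
      intro w hw
      rw [pow_succ, Module.End.mul_apply] at hw
      have h4 := ih _ hw
      have h5 : (F - 1) w = F w - w := rfl
      rw [h5, sub_eq_zero] at h4
      exact hss w h4
  have h4 : ∀ z, F (aeval F (R.map (Int.castRingHom ℤ_[ℓ])) z) -
      aeval F (R.map (Int.castRingHom ℤ_[ℓ])) z = 0 := by
    intro z
    apply h3 r
    have h5 := congrArg (fun (g : M →ₗ[ℤ_[ℓ]] M) => g z) h1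
    simpa using h5
  -- apply it to `y`
  have h5 := h4 y
  rw [hR] at h5
  have h6 : F (S y) - S y = N • S x := by
    rw [← hS, ← map_sub, ← hxy, map_zsmul]
  rw [h6] at h5
  have h7 : F ((u : ℤ_[ℓ]) • y + N • S x) - ((u : ℤ_[ℓ]) • y + N • S x) =
      N • ((u : ℤ_[ℓ]) • x + (F (S x) - S x)) := by
    rw [map_add, map_smul, map_zsmul, smul_add, smul_comm N (u : ℤ_[ℓ]) x, hxy, smul_sub, smul_sub]
    abel
  rw [h7] at h5
  have h8 := htf _ ⟨N, hN, h5⟩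
  refine ⟨-(((u⁻¹ : ℤ_[ℓ]ˣ) : ℤ_[ℓ]) • S x), ?_⟩
  rw [add_eq_zero_iff_eq_neg] at h8
  have h9 := congrArg (fun y => ((u⁻¹ : ℤ_[ℓ]ˣ) : ℤ_[ℓ]) • y) h8
  simp only [smul_smul, Units.inv_mul, one_smul] at h9
  refine h9.trans ?_
  rw [map_neg, map_smul, smul_neg, smul_sub]
  abel

end WE
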