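import Pool.Agent.WEt.Stmts

/-! Finite generation from an integral pairing. -/

noncomputable section

namespace WE

namespace FG

lemma hom_tors {A : Type} [AddCommGroup A] (f : A →+ ℤ) {x : A} (h : Tors x) : f x = 0 := by
  obtain ⟨N, hN, hx⟩ := h
  have h1 : N * f x = 0 := by
    have := congrArg f hx
    rwa [map_zsmul, map_zero, smul_eq_mul] at this
  exact (mul_eq_zero.1 h1).resolve_left hN

end FG

theorem fg : S_FG := by
  intro A _ ρ a φ hdet hgen hfin
  classical
  let Φ : A →ₗ[ℤ] (Fin ρ → ℤ) := LinearMap.pi (fun k => (φ k).toIntLinearMap)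
  have hΦ : ∀ x k, Φ x k = φ k x := fun x k => rfl
  have hker : ∀ x : A, Φ x = 0 → Tors x := by
    intro x hx
    obtain ⟨N, hN, c, M, hM, hMc⟩ := hgen x
    have ht : Tors (N • x - ∑ j, c j • a j) := ⟨M, hM, hMc⟩
    have h1 : ∀ k, ∑ j, c j * φ k (a j) = 0 := by
      intro k
      have h2 := FG.hom_tors (φ k) ht
      rw [map_sub, map_zsmul, map_sum] at h2
      have h3 : φ k x = 0 := by rw [← hΦ, hx]; rfl
      rw [h3, smul_zero, zero_sub, neg_eq_zero] at h2
      simpa [map_zsmul, smul_eq_mul] using h2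
    have hc : c = 0 := by
      have h4 : Matrix.vecMul c (Matrix.of fun j k => φ k (a j)) = 0 := by
        ext k
        rw [Matrix.vecMul, dotProduct]
        exact h1 k
      exact Matrix.eq_zero_of_vecMul_eq_zero hdet h4
    rw [hc] at hMc
    refine ⟨M * N, mul_ne_zero hM hN, ?_⟩
    simpa [mul_smul] using hMc
  have hkfin : Module.Finite ℤ (LinearMap.ker Φ) := by
    have h5 : Set.Finite (LinearMap.ker Φ : Set A) := hfin.subset (fun x hx => hker x hx)
    have : Finite (LinearMap.ker Φ) := h5.to_subtype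
    infer_instance
  have hrfin : Module.Finite ℤ (LinearMap.range Φ) := inferInstance
  have hq : Module.Finite ℤ (A ⧸ LinearMap.ker Φ) :=
    Module.Finite.equiv (Φ.quotKerEquivRange).symm
  have hA : Module.Finite ℤ A := Module.Finite.of_submodule_quotient (LinearMap.ker Φ)
  exact Module.Finite.iff_addGroup_fg.1 hA

end WE
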