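import Pool.Agent.WEt.Stmts

/-!
# WET_FIN: the primary torsion from the long exact sequence (by helper97)
-/

noncomputable section

namespace WE

namespace FIN

variable (ℓ : Nat.Primes)

theorem approx (z : ℤ_[ℓ]) (n : ℕ) :
    ∃ m : ℕ, m < (ℓ : ℕ) ^ n ∧ ∃ b : ℤ_[ℓ], z = (m : ℤ_[ℓ]) + (((ℓ : ℕ) : ℤ_[ℓ]) ^ n) * b := by
  refine ⟨z.appr n, z.appr_lt n, ?_⟩
  have h := z.appr_spec n
  rw [Ideal.mem_span_singleton'] at h
  obtain ⟨b, hb⟩ := h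
  exact ⟨b, by rw [mul_comm, hb]; ring⟩

theorem pow_smul_eq {M : Type} [AddCommGroup M] [Module ℤ_[ℓ] M] (n : ℕ) (x : M) :
    ((ℓ : ℕ) ^ n) • x = (((ℓ : ℕ) : ℤ_[ℓ]) ^ n) • x := by
  rw [← Nat.cast_pow, Nat.cast_smul_eq_nsmul]

/-- the image of a finitely generated module under an additive map killing `ℓ ^ a` is finite -/
theorem fin_range {E X : Type} [AddCommGroup E] [Module ℤ_[ℓ] E] [Module.Finite ℤ_[ℓ] E]
    [AddCommGroup X] (Φ : E →+ X) (a : ℕ) (h : ∀ e : E, Φ (((ℓ : ℕ) ^ a) • e) = 0) :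
    (Set.range Φ).Finite := by
  obtain ⟨n, f, hf⟩ := Module.Finite.exists_fin' ℤ_[ℓ] E
  have : Set.range Φ ⊆ Set.range (fun t : Fin n → Fin ((ℓ : ℕ) ^ a) =>
      Φ (f (fun i => (((t i : Fin _) : ℕ) : ℤ_[ℓ])))) := by
    rintro _ ⟨e, rfl⟩
    obtain ⟨v, rfl⟩ := hf e
    have h1 : ∀ i, ∃ m : ℕ, m < (ℓ : ℕ) ^ a ∧ ∃ b : ℤ_[ℓ],
        v i = (m : ℤ_[ℓ]) + (((ℓ : ℕ) : ℤ_[ℓ]) ^ a) * b := fun i => approx ℓ (v i) a
    choose m hm b hb using h1
    refine ⟨fun i => ⟨m i, hm i⟩, ?_⟩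
    have h2 : v = (fun i => ((m i : ℕ) : ℤ_[ℓ])) + (((ℓ : ℕ) : ℤ_[ℓ]) ^ a) • b := by
      funext i
      rw [Pi.add_apply, Pi.smul_apply, smul_eq_mul]
      exact hb i
    change Φ (f fun i => ((m i : ℕ) : ℤ_[ℓ])) = Φ (f v)
    conv_rhs => rw [h2]
    rw [map_add, map_smul, map_add, ← pow_smul_eq, h, add_zero]
  exact (Set.finite_range _).subset this

/-- a uniform exponent -/
theorem uniform {M : Type} [AddCommGroup M] [Module ℤ_[ℓ] M] [Module.Finite ℤ_[ℓ] M]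
    (S : Submodule ℤ_[ℓ] M) (h : ∀ e : M, ∃ k : ℕ, ((ℓ : ℕ) ^ k) • e ∈ S) :
    ∃ a : ℕ, ∀ e : M, ((ℓ : ℕ) ^ a) • e ∈ S := by
  classical
  obtain ⟨n, f, hf⟩ := Module.Finite.exists_fin' ℤ_[ℓ] M
  choose k hk using fun i : Fin n => h (f (Pi.single i 1))
  refine ⟨∑ i, k i, fun e => ?_⟩
  obtain ⟨v, rfl⟩ := hf e
  have h1 : ∀ i, ((ℓ : ℕ) ^ (∑ i, k i)) • f (Pi.single i 1) ∈ S := by
    intro i
    obtain ⟨c, hc⟩ : ∃ c, ∑ i, k i = c + k i :=
      ⟨_, (Finset.sum_erase_add Finset.univ k (Finset.mem_univ i)).symm⟩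
    rw [hc, pow_add, mul_smul]
    exact S.smul_of_tower_mem ((ℓ : ℕ) ^ c) (hk i)
  have h2 : f v = ∑ i, v i • f (Pi.single i 1) := by
    conv_lhs => rw [← Finset.univ_sum_single v]
    rw [map_sum]
    refine Finset.sum_congr rfl fun i _ => ?_
    rw [← map_smul]
    congr 1
    rw [← Pi.single_smul, smul_eq_mul, mul_one]
  rw [h2, Finset.smul_sum]
  refine S.sum_mem fun i _ => ?_
  rw [smul_comm]
  exact S.smul_mem _ (h1 i)

theorem of_int {M : Type} [AddCommGroup M] [Module ℤ_[ℓ] M] (S : Submodule ℤ_[ℓ] M) (e : M)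
    (N : ℤ) (hN : N ≠ 0) (h : N • e ∈ S) : ∃ k : ℕ, ((ℓ : ℕ) ^ k) • e ∈ S := by
  have h1 : ((N : ℤ) : ℤ_[ℓ]) ≠ 0 := by exact_mod_cast hN
  obtain ⟨u, k, h2⟩ : ∃ (u : ℤ_[ℓ]ˣ) (k : ℕ),
      ((N : ℤ) : ℤ_[ℓ]) = (u : ℤ_[ℓ]) * ((ℓ : ℕ) : ℤ_[ℓ]) ^ k :=
    ⟨_, _, PadicInt.unitCoeff_spec h1⟩
  refine ⟨k, ?_⟩
  rw [pow_smul_eq]
  have h3 : (((ℓ : ℕ) : ℤ_[ℓ]) ^ k) • e = ((u⁻¹ : ℤ_[ℓ]ˣ) : ℤ_[ℓ]) • (N • e) := by
    rw [← Int.cast_smul_eq_zsmul ℤ_[ℓ] N e, h2, smul_smul, ← mul_assoc, Units.inv_mul, one_mul]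
  rw [h3]
  exact S.smul_mem _ h

/-- the primary torsion of a finitely generated module is finite -/
theorem tors_fin (E : Type) [AddCommGroup E] [Module ℤ_[ℓ] E] [Module.Finite ℤ_[ℓ] E] :
    {x : E | ∃ k : ℕ, ((ℓ : ℕ) ^ k) • x = 0}.Finite := by
  let P : Submodule ℤ_[ℓ] E :=
    { carrier := {x : E | ∃ k : ℕ, ((ℓ : ℕ) ^ k) • x = 0}
      zero_mem' := ⟨0, by simp⟩
      add_mem' := by
        rintro x y ⟨k, hk⟩ ⟨m, hm⟩
        refine ⟨k + m, ?_⟩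
        have h1 : ((ℓ : ℕ) ^ (k + m)) • x = 0 := by
          rw [pow_add, mul_comm, mul_smul, hk, smul_zero]
        have h2 : ((ℓ : ℕ) ^ (k + m)) • y = 0 := by
          rw [pow_add, mul_smul, hm, smul_zero]
        rw [smul_add, h1, h2, add_zero]
      smul_mem' := by
        rintro z x ⟨k, hk⟩
        exact ⟨k, by rw [smul_comm, hk, smul_zero]⟩ }
  have hnoe : IsNoetherian ℤ_[ℓ] E := isNoetherian_of_isNoetherianRing_of_finite ℤ_[ℓ] E
  have hfin : Module.Finite ℤ_[ℓ] P := Module.Finite.of_fg (hnoe.noetherian P)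
  have h1 : ∀ e : P, ∃ k : ℕ, ((ℓ : ℕ) ^ k) • e ∈ (⊥ : Submodule ℤ_[ℓ] P) := by
    rintro ⟨e, k, hk⟩
    refine ⟨k, ?_⟩
    rw [Submodule.mem_bot]
    exact Subtype.ext hk
  obtain ⟨a, ha⟩ := uniform ℓ (⊥ : Submodule ℤ_[ℓ] P) h1
  have h2 := fin_range ℓ (P.subtype.toAddMonoidHom) a (by
    intro e
    have h3 := ha e
    rw [Submodule.mem_bot] at h3
    rw [h3, map_zero])
  refine h2.subset ?_
  rintro x hx
  exact ⟨⟨x, hx⟩, rfl⟩

/-- integral combinations are dense -/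
theorem dense {H E : Type} [AddCommGroup H] [AddCommGroup E] [Module ℤ_[ℓ] E] (c : H →+ E)
    (k : ℕ) (s : E) (hs : s ∈ Submodule.span ℤ_[ℓ] (Set.range c)) :
    ∃ (h : H) (e : E), s = c h + ((ℓ : ℕ) ^ k) • e := by
  induction hs using Submodule.span_induction with
  | mem x hx =>
    obtain ⟨h, rfl⟩ := hx
    exact ⟨h, 0, by rw [smul_zero, add_zero]⟩
  | zero => exact ⟨0, 0, by rw [smul_zero, add_zero, map_zero]⟩
  | add x y _ _ hx hy =>
    obtain ⟨h1, e1, rfl⟩ := hx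
    obtain ⟨h2, e2, rfl⟩ := hy
    exact ⟨h1 + h2, e1 + e2, by rw [map_add, smul_add]; abel⟩
  | smul z x _ hx =>
    obtain ⟨h1, e1, hx1⟩ := hx
    obtain ⟨m, -, b, hz⟩ := approx ℓ z k
    refine ⟨m • h1, m • e1 + b • x, ?_⟩
    conv_lhs => rw [hz]
    rw [add_smul, Nat.cast_smul_eq_nsmul, mul_smul, ← pow_smul_eq, map_nsmul, smul_add,
      ← add_assoc, smul_comm ((ℓ : ℕ) ^ k) m e1, ← smul_add, ← hx1]

theorem div_pow {Q : Type} [AddCommGroup Q]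
    (h : Function.Bijective (fun y : Q => (ℓ : ℕ) • y)) (a : ℕ) :
    Function.Bijective (fun y : Q => ((ℓ : ℕ) ^ a) • y) := by
  induction a with
  | zero =>
    simp only [pow_zero, one_smul]
    exact Function.bijective_id
  | succ n ih =>
    have : (fun y : Q => ((ℓ : ℕ) ^ (n + 1)) • y) =
        (fun y : Q => ((ℓ : ℕ) ^ n) • y) ∘ (fun y : Q => (ℓ : ℕ) • y) := by
      funext y
      simp only [Function.comp_apply]
      rw [pow_succ, mul_smul]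
    rw [this]
    exact ih.comp h

end FIN

open FIN in
theorem fin : S_FIN := by
  intro ℓ H H' E E' Q _ _ _ _ _ _ _ _ _ c q δ c' hq hδ hc' hdiv hN
  -- the torsion killed by `c'`
  have key : ∀ a : ℕ, (∀ e : E, ((ℓ : ℕ) ^ a) • e ∈ Submodule.span ℤ_[ℓ] (Set.range c)) →
      ∀ x : H', (∃ k : ℕ, ((ℓ : ℕ) ^ k) • x = 0) → c' x = 0 → ((ℓ : ℕ) ^ a) • x = 0 := by
    intro a ha x ⟨k, hk⟩ hx
    obtain ⟨y, rfl⟩ := (hc' x).1 hx
    rw [← map_nsmul] at hk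
    obtain ⟨e, he⟩ := (hδ _).1 hk
    obtain ⟨h, e', h1⟩ := dense ℓ c k _ (ha e)
    have h2 : ((ℓ : ℕ) ^ k) • (((ℓ : ℕ) ^ a) • y) = ((ℓ : ℕ) ^ k) • q e' := by
      rw [smul_comm, ← he, ← map_nsmul, h1, map_add, map_nsmul, (hq (c h)).2 ⟨h, rfl⟩, zero_add]
    have h3 := (div_pow ℓ hdiv k).1 h2
    rw [← map_nsmul, h3]
    exact (hδ _).2 ⟨e', rfl⟩
  -- a uniform exponent
  obtain ⟨a, ha⟩ := uniform ℓ (Submodule.span ℤ_[ℓ] (Set.range c)) (fun e => by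
    obtain ⟨N, hN0, hN1⟩ := hN e
    exact of_int ℓ _ e N hN0 hN1)
  refine ⟨?_, fun htop htf x hx => ?_⟩
  · -- the torsion killed by `c'` is finite
    let D := Equiv.ofBijective _ (div_pow ℓ hdiv a)
    have hD : ∀ y : Q, ((ℓ : ℕ) ^ a) • D.symm y = y := fun y => D.apply_symm_apply y
    let Φ : E →+ H' :=
      { toFun := fun e => δ (D.symm (q e))
        map_zero' := by
          have h1 : D.symm (q 0) = 0 := by
            apply (div_pow ℓ hdiv a).1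
            change ((ℓ : ℕ) ^ a) • D.symm (q 0) = ((ℓ : ℕ) ^ a) • 0
            rw [hD, map_zero, smul_zero]
          rw [h1, map_zero]
        map_add' := by
          intro e1 e2
          have h1 : D.symm (q (e1 + e2)) = D.symm (q e1) + D.symm (q e2) := by
            apply (div_pow ℓ hdiv a).1
            change ((ℓ : ℕ) ^ a) • D.symm (q (e1 + e2)) =
              ((ℓ : ℕ) ^ a) • (D.symm (q e1) + D.symm (q e2))
            rw [smul_add, hD, hD, hD, map_add]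
          rw [h1, map_add] }
    have hΦ : (Set.range Φ).Finite := by
      apply fin_range ℓ Φ a
      intro e
      change δ (D.symm (q (((ℓ : ℕ) ^ a) • e))) = 0
      have h1 : D.symm (q (((ℓ : ℕ) ^ a) • e)) = q e := by
        apply (div_pow ℓ hdiv a).1
        change ((ℓ : ℕ) ^ a) • D.symm (q (((ℓ : ℕ) ^ a) • e)) = ((ℓ : ℕ) ^ a) • q e
        rw [hD, map_nsmul]
      rw [h1]
      exact (hδ _).2 ⟨e, rfl⟩
    -- the kernel part is contained in the range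
    have hker : ∀ x : H', (∃ k : ℕ, ((ℓ : ℕ) ^ k) • x = 0) → c' x = 0 → x ∈ Set.range Φ := by
      intro x hx hx0
      have h1 := key a ha x hx hx0
      obtain ⟨y, rfl⟩ := (hc' x).1 hx0
      rw [← map_nsmul] at h1
      obtain ⟨e, he⟩ := (hδ _).1 h1
      refine ⟨e, ?_⟩
      change δ (D.symm (q e)) = δ y
      have h2 : D.symm (q e) = y := by
        apply (div_pow ℓ hdiv a).1
        change ((ℓ : ℕ) ^ a) • D.symm (q e) = ((ℓ : ℕ) ^ a) • y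
        rw [hD, he]
      rw [h2]
    -- the fibres over the finite torsion of `E'`
    have hT := tors_fin ℓ E'
    have hmaps : Set.MapsTo c' {x : H' | ∃ k : ℕ, ((ℓ : ℕ) ^ k) • x = 0}
        {x : E' | ∃ k : ℕ, ((ℓ : ℕ) ^ k) • x = 0} := by
      rintro x ⟨k, hk⟩
      exact ⟨k, by rw [← map_nsmul, hk, map_zero]⟩
    refine Set.Finite.of_finite_fibers c' (hT.subset hmaps.image_subset) ?_
    rintro t ⟨x0, hx0, rfl⟩
    refine (hΦ.image (fun z => x0 + z)).subset ?_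
    rintro x ⟨hx, hxt⟩
    refine ⟨x - x0, ?_, add_sub_cancel x0 x⟩
    apply hker
    · obtain ⟨k, hk⟩ := hx
      obtain ⟨m, hm⟩ := hx0
      refine ⟨k + m, ?_⟩
      have h1 : ((ℓ : ℕ) ^ (k + m)) • x = 0 := by
        rw [pow_add, mul_comm, mul_smul, hk, smul_zero]
      have h2 : ((ℓ : ℕ) ^ (k + m)) • x0 = 0 := by
        rw [pow_add, mul_smul, hm, smul_zero]
      rw [smul_sub, h1, h2, sub_zero]
    · rw [map_sub, sub_eq_zero]
      exact hxt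
  · obtain ⟨k, hk⟩ := hx
    have h1 : c' x = 0 := by
      apply htf
      refine ⟨(((ℓ : ℕ) ^ k : ℕ) : ℤ), ?_, ?_⟩
      · have := ℓ.2.pos
        positivity
      · rw [natCast_zsmul, ← map_nsmul, hk, map_zero]
    have h2 := key 0 (fun e => by rw [htop]; trivial) x ⟨k, hk⟩ h1
    rwa [pow_zero, one_smul] at h2

end WE
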