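import Pool.Agent.WEt.Stmts

/-!
# Weil-etale cohomology: `L` implies `K`
-/

open TensorProduct Polynomial

noncomputable section

namespace WE

namespace KL

/-- Krull intersection over `ℤ_ℓ`. -/
theorem krull (ℓ : Nat.Primes) (M : Type) [AddCommGroup M] [Module ℤ_[ℓ] M]
    [Module.Finite ℤ_[ℓ] M] (x : M) (h : ∀ k : ℕ, ∃ y : M, x = ((ℓ : ℕ) : ℤ_[ℓ]) ^ k • y) :
    x = 0 := by
  have hI : Ideal.span {(((ℓ : ℕ) : ℤ_[ℓ]))} ≠ ⊤ := by
    rw [Ne, Ideal.span_singleton_eq_top]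
    exact PadicInt.prime_p.not_isUnit
  have h1 := Ideal.iInf_pow_smul_eq_bot_of_isLocalRing (M := M)
    (Ideal.span {(((ℓ : ℕ) : ℤ_[ℓ]))}) hI
  have h2 : x ∈ (⨅ i : ℕ, (Ideal.span {(((ℓ : ℕ) : ℤ_[ℓ]))}) ^ i • (⊤ : Submodule ℤ_[ℓ] M)) := by
    rw [Submodule.mem_iInf]
    intro k
    obtain ⟨y, hy⟩ := h k
    rw [hy]
    exact Submodule.smul_mem_smul
      (Ideal.pow_mem_pow (Ideal.mem_span_singleton_self _) k) Submodule.mem_top
  rw [h1] at h2
  exact (Submodule.mem_bot _).1 h2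

/-- density -/
theorem dens (ℓ : Nat.Primes) (H : Type) [AddCommGroup H] (k : ℕ) (t : ℤ_[ℓ] ⊗[ℤ] H) :
    ∃ (h : H) (t' : ℤ_[ℓ] ⊗[ℤ] H), t = (1 : ℤ_[ℓ]) ⊗ₜ[ℤ] h + ((ℓ : ℕ) : ℤ_[ℓ]) ^ k • t' := by
  induction t using TensorProduct.induction_on with
  | zero => exact ⟨0, 0, by simp⟩
  | tmul a h =>
    have h1 := PadicInt.appr_spec k a
    rw [Ideal.mem_span_singleton] at h1
    obtain ⟨b, hb⟩ := h1
    refine ⟨(PadicInt.appr a k) • h, b ⊗ₜ[ℤ] h, ?_⟩
    have ha : a = (PadicInt.appr a k : ℤ_[ℓ]) + ((ℓ : ℕ) : ℤ_[ℓ]) ^ k * b := by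
      rw [← hb]; ring
    have e1 : (1 : ℤ_[ℓ]) ⊗ₜ[ℤ] ((PadicInt.appr a k) • h)
        = ((PadicInt.appr a k : ℕ) : ℤ_[ℓ]) ⊗ₜ[ℤ] h := by
      have : ((PadicInt.appr a k) • h : H) = ((PadicInt.appr a k : ℕ) : ℤ) • h := by
        simp
      rw [this, ← TensorProduct.smul_tmul]
      congr 1
      simp
    rw [e1, TensorProduct.smul_tmul', ← TensorProduct.add_tmul, smul_eq_mul, ← ha]
  | add x y hx hy =>
    obtain ⟨h1, t1, e1⟩ := hx
    obtain ⟨h2, t2, e2⟩ := hy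
    refine ⟨h1 + h2, t1 + t2, ?_⟩
    rw [e1, e2, TensorProduct.tmul_add, smul_add]
    abel

theorem pdiv {A : Type} [AddCommGroup A] (ℓ : ℕ) (hb : Function.Bijective (fun y : A => ℓ • y))
    (k : ℕ) : Function.Bijective (fun y : A => ℓ ^ k • y) := by
  induction k with
  | zero =>
    have : (fun y : A => ℓ ^ 0 • y) = id := by
      funext y
      simp
    rw [this]
    exact Function.bijective_id
  | succ k ih =>
    have : (fun y : A => ℓ ^ (k + 1) • y) = (fun y : A => ℓ ^ k • y) ∘ (fun y : A => ℓ • y) := by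
      funext y
      simp [pow_succ, mul_smul]
    rw [this]
    exact ih.comp hb

end KL

open KL

theorem kl : S_KL := by
  intro ℓ H H' E Q₀ Q _ _ _ _ _ _ _ δ₀ c q δ hc hq hδ hQ0 hQ hH hH'
  have fH : Module.Finite ℤ H := Module.Finite.iff_addGroup_fg.2 hH
  have fH' : Module.Finite ℤ H' := Module.Finite.iff_addGroup_fg.2 hH'
  have tens1 : ∀ h : H, tens ℓ c ((1 : ℤ_[ℓ]) ⊗ₜ[ℤ] h) = c h := by
    intro h
    simp [tens]
  have hps : ∀ (M : Type) [AddCommGroup M] [Module ℤ_[ℓ] M] (k : ℕ) (x : M),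
      (((ℓ : ℕ) : ℤ_[ℓ]) ^ k) • x = ((ℓ : ℕ) ^ k) • x := by
    intro M _ _ k x
    rw [← Nat.cast_pow, Nat.cast_smul_eq_nsmul]
  constructor
  · -- injective
    rw [injective_iff_map_eq_zero]
    intro t ht
    apply krull ℓ _ t
    intro k
    obtain ⟨h, t', e⟩ := dens ℓ H k t
    have e1 : c h + ((ℓ : ℕ) ^ k) • tens ℓ c t' = 0 := by
      rw [← hps, ← tens1, ← map_smul, ← map_add, ← e, ht]
    have e2 : q (tens ℓ c t') = 0 := by
      have hz : (ℓ : ℕ) ^ k • q (tens ℓ c t') = 0 := by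
        have : q (c h + ((ℓ : ℕ) ^ k) • tens ℓ c t') = 0 := by rw [e1, map_zero]
        rw [map_add, map_nsmul, (hq (c h)).2 ⟨h, rfl⟩, zero_add] at this
        exact this
      apply (pdiv ℓ hQ k).1
      simp only [smul_zero]
      exact hz
    obtain ⟨h', e3⟩ := (hq _).1 e2
    have e4 : c (h + ((ℓ : ℕ) ^ k) • h') = 0 := by
      rw [map_add, map_nsmul, e3, e1]
    obtain ⟨y, e5⟩ := (hc _).1 e4
    obtain ⟨y', e6⟩ := (pdiv ℓ hQ0 k).2 y
    simp only at e6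
    refine ⟨(1 : ℤ_[ℓ]) ⊗ₜ[ℤ] (δ₀ y' - h') + t', ?_⟩
    rw [e, smul_add]
    congr 1
    rw [hps, ← TensorProduct.tmul_smul, smul_sub, ← map_nsmul, e6, e5]
    congr 1
    abel
  · -- surjective
    intro e
    have hN : IsNoetherian ℤ H' := inferInstance
    -- kernels
    let K : ℕ →o Submodule ℤ H' :=
      { toFun := fun k => LinearMap.ker (LinearMap.lsmul ℤ H' (((ℓ : ℕ) : ℤ) ^ k))
        monotone' := by
          intro a b hab x hx
          simp only [LinearMap.mem_ker, LinearMap.lsmul_apply] at hx ⊢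
          obtain ⟨m, rfl⟩ := Nat.exists_eq_add_of_le hab
          rw [pow_add, mul_comm, mul_smul, hx, smul_zero] }
    obtain ⟨a, ha⟩ := (monotone_stabilizes_iff_noetherian.2 hN) K
    have hstab : ∀ (k : ℕ) (x : H'), ((ℓ : ℕ) ^ k) • x = 0 → ((ℓ : ℕ) ^ a) • x = 0 := by
      intro k x hx
      have h1 : x ∈ K (k + a) := by
        simp only [K, OrderHom.coe_mk, LinearMap.mem_ker, LinearMap.lsmul_apply]
        have : (((ℓ : ℕ) : ℤ) ^ (k + a)) • x = ((ℓ : ℕ) ^ a) • (((ℓ : ℕ) ^ k) • x) := by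
          rw [← mul_smul, ← pow_add, add_comm a k]
          norm_cast
        rw [this, hx, smul_zero]
      rw [← ha (k + a) (Nat.le_add_left _ _)] at h1
      simp only [K, OrderHom.coe_mk, LinearMap.mem_ker, LinearMap.lsmul_apply] at h1
      have : (((ℓ : ℕ) : ℤ) ^ a) • x = ((ℓ : ℕ) ^ a) • x := by norm_cast
      rw [← this, h1]
    have key : ∀ k : ℕ, ∃ (h : H) (e' : E), e = c h + ((ℓ : ℕ) ^ k) • e' := by
      intro k
      obtain ⟨y, hy⟩ := (pdiv ℓ hQ (k + a)).2 (q e)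
      simp only at hy
      have h1 : ((ℓ : ℕ) ^ (k + a)) • δ y = 0 := by
        rw [← map_nsmul, hy]
        exact (hδ _).2 ⟨e, rfl⟩
      have h2 := hstab _ _ h1
      rw [← map_nsmul] at h2
      obtain ⟨e', he'⟩ := (hδ _).1 h2
      have h3 : q (e - ((ℓ : ℕ) ^ k) • e') = 0 := by
        rw [map_sub, map_nsmul, he', ← mul_smul, ← pow_add, hy, sub_self]
      obtain ⟨h, hh⟩ := (hq _).1 h3
      exact ⟨h, e', by rw [hh]; abel⟩
    have hmem : e ∈ LinearMap.range (tens ℓ c) := by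
      rw [← Submodule.Quotient.mk_eq_zero]
      apply krull ℓ _ _
      intro k
      obtain ⟨h, e', he⟩ := key k
      refine ⟨Submodule.Quotient.mk e', ?_⟩
      rw [← Submodule.Quotient.mk_smul, hps, Submodule.Quotient.eq]
      have : e - ((ℓ : ℕ) ^ k) • e' = c h := by rw [he]; abel
      rw [this]
      exact ⟨_, tens1 h⟩
    obtain ⟨t, ht⟩ := hmem
    exact ⟨t, ht⟩

end WE
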