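import Pool.Agent.WEt.Stmts

/-!
# Cramer's rule modulo torsion
-/

noncomputable section

namespace WE

namespace LOC

open Matrix

variable (ℓ : Nat.Primes)

/-- torsion over `ℤ_ℓ` is torsion over `ℤ` -/
theorem tors_of_smul {E : Type} [AddCommGroup E] [Module ℤ_[ℓ] E] {a : ℤ_[ℓ]} (ha : a ≠ 0)
    {y : E} (h : a • y = 0) : Tors y := by
  refine ⟨((ℓ : ℕ) : ℤ) ^ a.valuation, ?_, ?_⟩
  · exact pow_ne_zero _ (by exact_mod_cast ℓ.2.ne_zero)
  · have h1 := PadicInt.unitCoeff_spec ha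
    have h2 : (((ℓ : ℕ) : ℤ_[ℓ]) ^ a.valuation) • y = 0 := by
      have h3 : (((ℓ : ℕ) : ℤ_[ℓ]) ^ a.valuation) =
          ((PadicInt.unitCoeff ha)⁻¹ : (ℤ_[ℓ])ˣ) * a := by
        have h5 := congrArg (fun t => (((PadicInt.unitCoeff ha)⁻¹ : (ℤ_[ℓ])ˣ) : ℤ_[ℓ]) * t) h1
        rw [h5, ← mul_assoc, Units.inv_mul, one_mul]
      rw [h3, mul_smul, h, smul_zero]
    have h4 : ((((ℓ : ℕ) : ℤ) ^ a.valuation : ℤ) : ℤ_[ℓ]) • y = (((ℓ : ℕ) : ℤ) ^ a.valuation) • y :=
      Int.cast_smul_eq_zsmul _ _ _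
    rw [← h4]
    push_cast
    exact h2

theorem loc : S_LOC := by
  intro ℓ E _ _ _ ρ e φ Δ hΔ hdet hrank x
  set A : Matrix (Fin ρ) (Fin ρ) ℤ_[ℓ] := Matrix.of fun j k => φ k (e j) with hA
  have hΔ' : (Δ : ℤ_[ℓ]) ≠ 0 := by exact_mod_cast hΔ
  let c : Fin ρ → ℤ_[ℓ] := (fun k => φ k x) ᵥ* A.adjugate
  have hc : c ᵥ* A = (Δ : ℤ_[ℓ]) • (fun k => φ k x) := by
    show ((fun k => φ k x) ᵥ* A.adjugate) ᵥ* A = _
    rw [Matrix.vecMul_vecMul, Matrix.adjugate_mul, hdet, Matrix.vecMul_smul, Matrix.vecMul_one]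
  refine ⟨c, ?_⟩
  set y : E := Δ • x - ∑ j, c j • e j with hy
  have hφy : ∀ k, φ k y = 0 := by
    intro k
    have h1 := congrFun hc k
    have h2 : (c ᵥ* A) k = ∑ j, c j * φ k (e j) := rfl
    rw [h2] at h1
    rw [hy, map_sub, map_zsmul, map_sum]
    simp only [map_smul, smul_eq_mul]
    rw [h1]
    simp
  by_contra hnt
  have hli : LinearIndependent ℤ_[ℓ] (fun o : Option (Fin ρ) => o.elim y e) := by
    rw [Fintype.linearIndependent_iff]
    intro g hg
    rw [Fintype.sum_option] at hg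
    simp only [Option.elim_none, Option.elim_some] at hg
    have h1 : ∀ k, ((fun j => g (some j)) ᵥ* A) k = 0 := by
      intro k
      have h2 : ((fun j => g (some j)) ᵥ* A) k = ∑ j, g (some j) * φ k (e j) := rfl
      rw [h2]
      have h3 := congrArg (φ k) hg
      rw [map_add, map_smul, hφy, map_sum, map_zero, smul_zero, zero_add] at h3
      simpa using h3
    have h4 : (fun j => g (some j)) = 0 := by
      apply Matrix.eq_zero_of_vecMul_eq_zero (M := A)
      · rw [hdet]; exact hΔ'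
      · funext k; exact h1 k
    have h5 : g none = 0 := by
      by_contra h6
      apply hnt
      have h7 : g none • y = 0 := by
        have h8 : ∀ j, g (some j) = 0 := fun j => congrFun h4 j
        simpa [h8] using hg
      exact tors_of_smul ℓ h6 h7
    intro i
    cases i with
    | none => exact h5
    | some j => exact congrFun h4 j
  have h9 := hli.fintype_card_le_finrank
  simp at h9
  omega

end LOC

theorem loc : S_LOC := LOC.loc

end WE
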