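import Pool.Agent.WEt.Stmts

/-!
# The map `e = inc ∘ res` (module WET_ORB, helper38)
-/

noncomputable section

namespace WE

namespace ORB

variable (W : Weil) {i : ℤ}

/-- if `F y = y + z` and `F z = z` then `F^k y = y + k z` -/
theorem iter_add {y z : W.C i} (hz : W.F i z = z) (hy : W.F i y = y + z) (k : ℕ) :
    (fun z => W.F i z)^[k] y = y + k • z := by
  induction k with
  | zero => simp
  | succ k ih =>
    rw [Function.iterate_succ_apply', ih, map_add, map_nsmul, hy, hz, add_assoc, ← succ_nsmul']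

/-- a fixed element which is killed by `inc` is torsion -/
theorem fix_tors {z : W.C i} (hz : W.F i z = z) (h : W.inc i z = 0) :
    ∃ k : ℕ, 0 < k ∧ k • z = 0 := by
  obtain ⟨y, hy⟩ := (W.inc_eq_zero i z).1 h
  obtain ⟨k, hk, hky⟩ := W.orbit i y
  refine ⟨k, hk, ?_⟩
  have h1 : W.F i y = y + z := by rw [hy]; abel
  rw [iter_add W hz h1 k] at hky
  simpa using hky

theorem inc_F (x : W.C i) : W.inc i (W.F i x) = W.inc i x := by
  have h : W.inc i (W.F i x - x) = 0 := (W.inc_eq_zero i _).2 ⟨x, rfl⟩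
  rwa [map_sub, sub_eq_zero] at h

theorem inc_iter (x : W.C i) (s : ℕ) : W.inc i ((fun z => W.F i z)^[s] x) = W.inc i x := by
  induction s with
  | zero => rfl
  | succ s ih => rw [Function.iterate_succ_apply', inc_F, ih]

/-- the trace of an element -/
theorem trace (w : W.C i) : ∃ (k : ℕ) (t : W.H i), 0 < k ∧ W.inc i (W.res i t) = k • W.inc i w := by
  obtain ⟨k, hk, hkw⟩ := W.orbit i w
  set t : W.C i := ∑ s ∈ Finset.range k, (fun z => W.F i z)^[s] w with ht
  have hfix : W.F i t = t := by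
    rw [ht, map_sum]
    have h1 : ∀ s, W.F i ((fun z => W.F i z)^[s] w) = (fun z => W.F i z)^[s + 1] w := fun s => by
      rw [Function.iterate_succ_apply']
    simp only [h1]
    have h2 := Finset.sum_range_succ (fun s => (fun z => W.F i z)^[s] w) k
    have h3 := Finset.sum_range_succ' (fun s => (fun z => W.F i z)^[s] w) k
    rw [h2, hkw] at h3
    simp only [Function.iterate_zero, id] at h3
    exact (add_right_cancel h3).symm
  obtain ⟨u, hu⟩ := (W.res_mem i t).2 hfix
  refine ⟨k, u, hk, ?_⟩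
  rw [hu, ht, map_sum]
  simp only [inc_iter]
  simp

end ORB

open ORB in
theorem orb : S_ORB := by
  intro W j
  constructor
  · intro hyp h hT
    obtain ⟨i, rfl⟩ : ∃ i, j = i + 1 := ⟨j - 1, by ring⟩
    have e : i + 1 - 1 = i := by ring
    rw [e] at hyp
    obtain ⟨N, hN, hNh⟩ := hT
    have h1 : W.F (i + 1) (W.res (i + 1) (N • h)) = W.res (i + 1) (N • h) :=
      (W.res_mem (i + 1) _).1 ⟨_, rfl⟩
    have h2 : W.inc (i + 1) (W.res (i + 1) (N • h)) = 0 := by rw [map_zsmul, map_zsmul, hNh]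
    obtain ⟨k, hk, hk0⟩ := fix_tors W h1 h2
    rw [← map_nsmul] at hk0
    obtain ⟨w, hw⟩ := (W.res_eq_zero i _).1 hk0
    obtain ⟨k', t, hk', ht⟩ := trace W w
    obtain ⟨M, hM, hMt⟩ := hyp t
    refine ⟨M * (k' * (k * N)), ?_, ?_⟩
    · have : (k : ℤ) ≠ 0 := by exact_mod_cast hk.ne'
      have : (k' : ℤ) ≠ 0 := by exact_mod_cast hk'.ne'
      positivity
    · have h3 : M • W.inc i (W.res i t) = 0 := by
        rw [← map_zsmul, ← map_zsmul, hMt, map_zero, map_zero]
      rw [ht, hw] at h3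
      rw [mul_smul, mul_smul, mul_smul, natCast_zsmul, natCast_zsmul]
      exact h3
  · intro hyp h
    obtain ⟨N, hN, hNh⟩ := hyp (W.inc (j + 1) (W.res (j + 1) h))
    have h1 : W.F (j + 1) (W.res (j + 1) (N • h)) = W.res (j + 1) (N • h) :=
      (W.res_mem (j + 1) _).1 ⟨_, rfl⟩
    have h2 : W.inc (j + 1) (W.res (j + 1) (N • h)) = 0 := by rw [map_zsmul, map_zsmul, hNh]
    obtain ⟨k, hk, hk0⟩ := fix_tors W h1 h2
    rw [← map_nsmul] at hk0
    obtain ⟨w, hw⟩ := (W.res_eq_zero j _).1 hk0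
    obtain ⟨k', t, hk', ht⟩ := trace W w
    refine ⟨k' * (k * N), ?_, t, ?_⟩
    · have : (k : ℤ) ≠ 0 := by exact_mod_cast hk.ne'
      have : (k' : ℤ) ≠ 0 := by exact_mod_cast hk'.ne'
      positivity
    · rw [ht, hw, mul_smul, mul_smul, natCast_zsmul, natCast_zsmul]

end WE
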