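import Pool.Agent.WEt.Stmts

set_option autoImplicit false

/-!
# Clearing denominators and annihilation
-/

open TensorProduct Polynomial

noncomputable section

namespace WE

namespace PA

/-- an element killed by a nonzero `ℓ`-adic integer is killed by a nonzero integer -/
theorem tors_of_smul_eq_zero {ℓ : Nat.Primes} {M : Type} [AddCommGroup M] [Module ℤ_[ℓ] M]
    {a : ℤ_[ℓ]} (ha : a ≠ 0) {x : M} (h : a • x = 0) : Tors x := by
  refine ⟨((ℓ : ℕ) : ℤ) ^ a.valuation, pow_ne_zero _ (by exact_mod_cast ℓ.2.ne_zero), ?_⟩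
  rw [PadicInt.unitCoeff_spec ha, mul_smul, ← Units.smul_def, smul_eq_zero_iff_eq] at h
  have h2 : (((((ℓ : ℕ) : ℤ) ^ a.valuation : ℤ)) : ℤ_[ℓ]) • x = 0 := by
    push_cast
    exact h
  rwa [Int.cast_smul_eq_zsmul] at h2

/-- a torsion free module embeds into its rationalisation -/
theorem mk_eq_zero {ℓ : Nat.Primes} {M : Type} [AddCommGroup M] [Module ℤ_[ℓ] M]
    (hM : ∀ x : M, Tors x → x = 0) {x : M} (h : (1 : ℚ_[ℓ]) ⊗ₜ[ℤ_[ℓ]] x = 0) : x = 0 := by
  have h1 : (TensorProduct.mk ℤ_[ℓ] ℚ_[ℓ] M 1) x = 0 := h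
  rw [IsLocalizedModule.eq_zero_iff (nonZeroDivisors ℤ_[ℓ])] at h1
  obtain ⟨c, hc⟩ := h1
  exact hM x (tors_of_smul_eq_zero (nonZeroDivisors.ne_zero c.2) hc)

end PA

/-- Clearing denominators. -/
theorem pq : S_PQ := by
  intro P hP
  obtain ⟨q, hq, hnd⟩ := P.exists_eq_pow_rootMultiplicity_mul_and_not_dvd hP 1
  obtain ⟨b, hbm, hb⟩ := IsLocalization.integerNormalization_spec (nonZeroDivisors ℤ) q
  have hb0 : (b : ℤ) ≠ 0 := nonZeroDivisors.ne_zero hbm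
  have hb' : (IsLocalization.integerNormalization (nonZeroDivisors ℤ) q).map (Int.castRingHom ℚ) =
      C ((b : ℤ) : ℚ) * q := by
    rw [← algebraMap_int_eq, hb]
    ext n
    simp [zsmul_eq_mul]
  refine ⟨b, IsLocalization.integerNormalization (nonZeroDivisors ℤ) q, hb0, ?_, ?_⟩
  · intro h0
    have h1 : (C ((b : ℤ) : ℚ) * q).eval 1 = 0 := by
      rw [← hb']
      have h2 := Polynomial.eval_map_apply (f := Int.castRingHom ℚ)
        (p := IsLocalization.integerNormalization (nonZeroDivisors ℤ) q) (1 : ℤ)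
      rw [h0] at h2
      simpa using h2
    rw [eval_mul, eval_C] at h1
    rcases mul_eq_zero.1 h1 with h2 | h2
    · exact hb0 (by exact_mod_cast h2)
    · exact hnd (dvd_iff_isRoot.2 h2)
  · rw [Polynomial.map_mul, hb']
    conv_lhs => rw [hq]
    simp only [Polynomial.map_pow, Polynomial.map_sub, Polynomial.map_X, Polynomial.map_one,
      Polynomial.C_1]
    ring

/-- The characteristic polynomial, cleared of denominators, annihilates. -/
theorem ann : S_ANN := by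
  intro ℓ M _ _ _ F P N R hM hP hN
  have h1 : aeval (F.baseChange ℚ_[ℓ]) (R.map (Int.castRingHom ℚ_[ℓ])) = 0 := by
    have h2 : R.map (Int.castRingHom ℚ_[ℓ]) =
        C ((N : ℤ) : ℚ_[ℓ]) * (F.baseChange ℚ_[ℓ]).charpoly := by
      have h3 : R.map (Int.castRingHom ℚ_[ℓ]) =
          (R.map (Int.castRingHom ℚ)).map (algebraMap ℚ ℚ_[ℓ]) := by
        rw [Polynomial.map_map]
        congr 1
      rw [h3, ← hN, Polynomial.map_mul, hP]
      simp
    rw [h2, map_mul, LinearMap.aeval_self_charpoly, mul_zero]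
  have h4 : aeval (F.baseChange ℚ_[ℓ]) (R.map (Int.castRingHom ℤ_[ℓ])) = 0 := by
    rw [← Polynomial.aeval_map_algebraMap ℚ_[ℓ], Polynomial.map_map]
    have h5 : (algebraMap ℤ_[ℓ] ℚ_[ℓ]).comp (Int.castRingHom ℤ_[ℓ]) = Int.castRingHom ℚ_[ℓ] :=
      RingHom.ext_int _ _
    rw [h5, h1]
  have h6 : Module.End.baseChangeHom ℤ_[ℓ] ℚ_[ℓ] M (aeval F (R.map (Int.castRingHom ℤ_[ℓ]))) = 0 := by
    rw [← Polynomial.aeval_algHom_apply]
    exact h4
  refine LinearMap.ext fun x => ?_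
  rw [LinearMap.zero_apply]
  refine PA.mk_eq_zero (ℓ := ℓ) hM ?_
  have h7 := LinearMap.congr_fun h6 ((1 : ℚ_[ℓ]) ⊗ₜ[ℤ_[ℓ]] x)
  have h8 : Module.End.baseChangeHom ℤ_[ℓ] ℚ_[ℓ] M (aeval F (R.map (Int.castRingHom ℤ_[ℓ])))
      ((1 : ℚ_[ℓ]) ⊗ₜ[ℤ_[ℓ]] x) = (1 : ℚ_[ℓ]) ⊗ₜ[ℤ_[ℓ]] (aeval F (R.map (Int.castRingHom ℤ_[ℓ])) x) :=
    LinearMap.baseChange_tmul _ _ _
  rw [h8] at h7
  simpa using h7

end WE
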