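import Pool.Agent.WEt.Stmts

/-! Ranks of `A` and of `E` when `A ⊗ ℤ_ℓ → E` has torsion kernel and cokernel. -/

open TensorProduct

noncomputable section

namespace WE

namespace RAT

lemma tens_one {ℓ : Nat.Primes} {A E : Type} [AddCommGroup A] [AddCommGroup E]
    [Module ℤ_[ℓ] E] (c : A →+ E) (a : ℤ_[ℓ]) (x : A) : tens ℓ c (a ⊗ₜ[ℤ] x) = a • c x := by
  simp [tens]

lemma int_cast_ne {ℓ : Nat.Primes} {N : ℤ} (hN : N ≠ 0) : (N : ℤ_[ℓ]) ≠ 0 := by
  exact_mod_cast hN

lemma indep_image {ℓ : Nat.Primes} {A E : Type} [AddCommGroup A] [AddCommGroup E]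
    [Module ℤ_[ℓ] E] (c : A →+ E) (hk : ∀ t, tens ℓ c t = 0 → Tors t) {k : ℕ} {w : Fin k → A}
    (hw : LinearIndependent ℤ w) : LinearIndependent ℤ_[ℓ] (fun j => c (w j)) := by
  have h1 := Module.Flat.linearIndependent_one_tmul (S := ℤ_[ℓ]) hw
  rw [Fintype.linearIndependent_iff] at h1 ⊢
  intro g hg
  have h2 : tens ℓ c (∑ j, g j • ((1 : ℤ_[ℓ]) ⊗ₜ[ℤ] w j)) = 0 := by
    rw [map_sum]
    rw [← hg]
    apply Finset.sum_congr rfl
    intro j _
    rw [map_smul, tens_one, one_smul]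
  obtain ⟨N, hN, h3⟩ := hk _ h2
  have h4 : ∑ j, ((N : ℤ_[ℓ]) * g j) • ((1 : ℤ_[ℓ]) ⊗ₜ[ℤ] w j) = 0 := by
    rw [← h3, Finset.smul_sum]
    apply Finset.sum_congr rfl
    intro j _
    rw [mul_smul, Int.cast_smul_eq_zsmul]
  intro j
  have h5 := h1 _ h4 j
  exact (mul_eq_zero.1 h5).resolve_left (int_cast_ne hN)

/-- a maximal independent family spans up to torsion -/
lemma exists_of_not_indep {A : Type} [AddCommGroup A] {k : ℕ} {w : Fin k → A}
    (hw : LinearIndependent ℤ w) (x : A) (hx : ¬ LinearIndependent ℤ (Fin.cons x w : Fin (k + 1) → A)) :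
    ∃ N : ℤ, N ≠ 0 ∧ ∃ a : Fin k → ℤ, N • x = ∑ j, a j • w j := by
  rw [Fintype.not_linearIndependent_iff] at hx
  obtain ⟨g, hg, i, hi⟩ := hx
  rw [Fin.sum_univ_succ] at hg
  simp only [Fin.cons_zero, Fin.cons_succ] at hg
  refine ⟨g 0, ?_, fun j => - g j.succ, ?_⟩
  · intro h0
    rw [h0, zero_smul, zero_add] at hg
    have h1 := Fintype.linearIndependent_iff.1 hw _ hg
    refine Fin.cases ?_ (fun j => ?_) i hi
    · exact fun h => h h0
    · exact fun h => h (h1 j)
  · have h2 : g 0 • x = - ∑ j : Fin k, g j.succ • w j := eq_neg_of_add_eq_zero_left hg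
    rw [h2, ← Finset.sum_neg_distrib]
    apply Finset.sum_congr rfl
    intro j _
    rw [neg_smul]

end RAT

open RAT in
theorem rat : S_RAT := by
  intro ℓ A E _ _ _ _ c hk hc
  classical
  have hbound : ∀ (k : ℕ) (w : Fin k → A), LinearIndependent ℤ w →
      k ≤ Module.finrank ℤ_[ℓ] E := by
    intro k w hw
    have h1 := (indep_image c hk hw).fintype_card_le_finrank
    rwa [Fintype.card_fin] at h1
  refine ⟨?_, ?_⟩
  · intro x hx
    by_contra hnt
    have hw : LinearIndependent ℤ (fun _ : Fin 1 => x) := by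
      rw [Fintype.linearIndependent_iff]
      intro g hg i
      rw [Fin.sum_univ_one] at hg
      by_contra hgi
      apply hnt
      refine ⟨g 0, ?_, hg⟩
      rwa [Subsingleton.elim i 0] at hgi
    have h1 := Fintype.linearIndependent_iff.1 (indep_image c hk hw)
    obtain ⟨N, hN, hNx⟩ := hx
    have h2 := h1 (fun _ => (N : ℤ_[ℓ])) (by
      rw [Fin.sum_univ_one, Int.cast_smul_eq_zsmul]
      exact hNx) 0
    exact int_cast_ne hN h2
  · let P : ℕ → Prop := fun k => ∃ w : Fin k → A, LinearIndependent ℤ w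
    have hP0 : P 0 := ⟨fun i => i.elim0, linearIndependent_empty_type⟩
    obtain ⟨k, hkP, hkmax⟩ : ∃ k, P k ∧ ∀ m, P m → m ≤ k :=
      ⟨Nat.findGreatest P (Module.finrank ℤ_[ℓ] E),
        Nat.findGreatest_spec (m := 0) (Nat.zero_le _) hP0,
        fun m hm => Nat.le_findGreatest (by obtain ⟨w, hw⟩ := hm; exact hbound m w hw) hm⟩
    obtain ⟨w, hw⟩ := hkP
    have hspan : ∀ x : A, ∃ N : ℤ, N ≠ 0 ∧ ∃ a : Fin k → ℤ, N • x = ∑ j, a j • w j := by
      intro x
      apply exists_of_not_indep hw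
      intro h
      have := hkmax (k + 1) ⟨_, h⟩
      omega
    -- every element of the tensor product is torsion modulo the span
    set S : Submodule ℤ_[ℓ] E := Submodule.span ℤ_[ℓ] (Set.range (fun j => c (w j))) with hS
    have hT : ∀ t : ℤ_[ℓ] ⊗[ℤ] A, ∃ N : ℤ, N ≠ 0 ∧ N • tens ℓ c t ∈ S := by
      intro t
      induction t using TensorProduct.induction_on with
      | zero => exact ⟨1, one_ne_zero, by simp⟩
      | tmul a x =>
        obtain ⟨N, hN, b, hb⟩ := hspan x
        refine ⟨N, hN, ?_⟩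
        rw [tens_one, smul_comm, ← map_zsmul, hb, map_sum]
        apply S.smul_mem
        apply S.sum_mem
        intro j _
        rw [map_zsmul, ← Int.cast_smul_eq_zsmul ℤ_[ℓ]]
        exact S.smul_mem _ (Submodule.subset_span ⟨j, rfl⟩)
      | add t u ht hu =>
        obtain ⟨N, hN, h1⟩ := ht
        obtain ⟨M, hM, h2⟩ := hu
        refine ⟨M * N, mul_ne_zero hM hN, ?_⟩
        rw [map_add, smul_add, mul_smul, mul_comm, mul_smul]
        have e1 : M • N • tens ℓ c t ∈ S := by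
          rw [← Int.cast_smul_eq_zsmul ℤ_[ℓ] M]
          exact S.smul_mem _ h1
        have e2 : N • M • tens ℓ c u ∈ S := by
          rw [← Int.cast_smul_eq_zsmul ℤ_[ℓ] N]
          exact S.smul_mem _ h2
        exact S.add_mem e1 e2
    have hE : Module.IsTorsion ℤ_[ℓ] (E ⧸ S) := by
      intro q
      obtain ⟨e, rfl⟩ := Submodule.Quotient.mk_surjective S q
      obtain ⟨N, hN, t, ht⟩ := hc e
      obtain ⟨M, hM, hMt⟩ := hT t
      rw [ht] at hMt
      refine ⟨⟨(M : ℤ_[ℓ]) * N, mem_nonZeroDivisors_of_ne_zero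
        (mul_ne_zero (int_cast_ne hM) (int_cast_ne hN))⟩, ?_⟩
      show ((M : ℤ_[ℓ]) * N) • (Submodule.Quotient.mk e : E ⧸ S) = 0
      rw [← Submodule.Quotient.mk_smul, Submodule.Quotient.mk_eq_zero, mul_smul,
        Int.cast_smul_eq_zsmul ℤ_[ℓ] M, Int.cast_smul_eq_zsmul ℤ_[ℓ] N]
      exact hMt
    have hfr : Module.finrank ℤ_[ℓ] E ≤ k := by
      have h1 := Submodule.finrank_quotient_add_finrank S
      have h2 : Module.finrank ℤ_[ℓ] (E ⧸ S) = 0 := hE.finrank_eq_zero
      have h3 : Module.finrank ℤ_[ℓ] S ≤ Fintype.card (Fin k) :=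
        finrank_range_le_card (fun j => c (w j))
      rw [Fintype.card_fin] at h3
      omega
    have hkE : k = Module.finrank ℤ_[ℓ] E := le_antisymm (hbound k w hw) hfr
    rw [← hkE]
    refine ⟨w, ?_, ?_⟩
    · intro a ha
      obtain ⟨N, hN, h1⟩ := ha
      have h2 : ∑ j, (N * a j) • w j = 0 := by
        rw [← h1, Finset.smul_sum]
        apply Finset.sum_congr rfl
        intro j _
        rw [mul_smul]
      funext j
      have h3 := Fintype.linearIndependent_iff.1 hw _ h2 j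
      exact (mul_eq_zero.1 h3).resolve_left hN
    · intro x
      obtain ⟨N, hN, a, ha⟩ := hspan x
      refine ⟨N, hN, a, 1, one_ne_zero, ?_⟩
      rw [ha, sub_self, smul_zero]

end WE
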