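import Pool.Agent.WEt.Stmts

/-!
# Ranks of invariants and coinvariants
-/

open TensorProduct Polynomial Module

noncomputable section

namespace WE.RK

variable {p : ℕ} [Fact p.Prime] {M : Type} [AddCommGroup M] [Module ℤ_[p] M]

lemma map_eq (g : M →ₗ[ℤ_[p]] M) :
    IsLocalizedModule.map (nonZeroDivisors ℤ_[p]) (TensorProduct.mk ℤ_[p] ℚ_[p] M 1)
      (TensorProduct.mk ℤ_[p] ℚ_[p] M 1) g = (g.baseChange ℚ_[p]).restrictScalars ℤ_[p] := by
  refine IsLocalizedModule.ext (nonZeroDivisors ℤ_[p]) (TensorProduct.mk ℤ_[p] ℚ_[p] M 1)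
    (IsLocalizedModule.map_units (S := nonZeroDivisors ℤ_[p])
      (TensorProduct.mk ℤ_[p] ℚ_[p] M 1)) ?_
  rw [IsLocalizedModule.map_comp]
  refine LinearMap.ext fun x => ?_
  simp

lemma finrank_ker (g : M →ₗ[ℤ_[p]] M) :
    finrank ℚ_[p] (LinearMap.ker (g.baseChange ℚ_[p])) = finrank ℤ_[p] (LinearMap.ker g) := by
  rw [IsFractionRing.finrank_right_eq ℤ_[p] ℚ_[p] (LinearMap.ker (g.baseChange ℚ_[p]))]
  have := LinearMap.toKerLocalized_isLocalizedModule ℚ_[p] (nonZeroDivisors ℤ_[p])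
    (TensorProduct.mk ℤ_[p] ℚ_[p] M 1) (TensorProduct.mk ℤ_[p] ℚ_[p] M 1) g
  have h1 := IsLocalizedModule.finrank_eq (nonZeroDivisors ℤ_[p])
    (LinearMap.toKerIsLocalized (nonZeroDivisors ℤ_[p]) (TensorProduct.mk ℤ_[p] ℚ_[p] M 1)
      (TensorProduct.mk ℤ_[p] ℚ_[p] M 1) g) le_rfl
  rw [← h1, map_eq]
  rfl

lemma finrank_coker [Module.Finite ℤ_[p] M] (g : M →ₗ[ℤ_[p]] M) :
    finrank ℤ_[p] (M ⧸ LinearMap.range g) = finrank ℤ_[p] (LinearMap.ker g) := by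
  have h1 := Submodule.finrank_quotient_add_finrank (LinearMap.range g)
  have h2 := Submodule.finrank_quotient_add_finrank (LinearMap.ker g)
  have h3 := (g.quotKerEquivRange).finrank_eq
  omega

lemma mult (P : ℚ[X]) : (P.map (algebraMap ℚ ℚ_[p])).rootMultiplicity 1 =
    P.rootMultiplicity 1 := by
  have h := Polynomial.eq_rootMultiplicity_map (p := P)
    (f := algebraMap ℚ ℚ_[p]) (algebraMap ℚ ℚ_[p]).injective 1
  rw [h, map_one]

lemma sub_one (F : M →ₗ[ℤ_[p]] M) :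
    (F - 1).baseChange ℚ_[p] = F.baseChange ℚ_[p] - 1 := by
  rw [LinearMap.baseChange_sub]
  congr 1
  exact LinearMap.baseChange_id

lemma eig (F : M →ₗ[ℤ_[p]] M) : Module.End.eigenspace (F.baseChange ℚ_[p]) 1 =
    LinearMap.ker ((F - 1).baseChange ℚ_[p]) := by
  rw [sub_one, Module.End.eigenspace_def, one_smul]

lemma maxeig (F : M →ₗ[ℤ_[p]] M)
    (h : ∀ w, (F - 1).baseChange ℚ_[p] ((F - 1).baseChange ℚ_[p] w) = 0 →
      (F - 1).baseChange ℚ_[p] w = 0) :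
    Module.End.maxGenEigenspace (F.baseChange ℚ_[p]) 1 =
      LinearMap.ker ((F - 1).baseChange ℚ_[p]) := by
  apply le_antisymm
  · intro w hw
    rw [Module.End.mem_maxGenEigenspace] at hw
    obtain ⟨k, hk⟩ := hw
    rw [one_smul, ← sub_one] at hk
    have hk' : ∀ k : ℕ, ∀ w, ((F - 1).baseChange ℚ_[p] ^ k) w = 0 →
        (F - 1).baseChange ℚ_[p] w = 0 := by
      intro k
      induction k with
      | zero => intro w hw; rw [pow_zero, Module.End.one_apply] at hw; rw [hw, map_zero]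
      | succ k ih =>
        intro w hw
        apply h
        apply ih
        rw [pow_succ, Module.End.mul_apply] at hw
        exact hw
    exact hk' k w hk
  · rw [← eig]
    exact Module.End.genEigenspace_le_maximal _ _ _

lemma ker_eq (F : M →ₗ[ℤ_[p]] M) (h : ∀ z, F (F z - z) = F z - z → Tors (F z - z))
    (w : ℚ_[p] ⊗[ℤ_[p]] M)
    (hw : (F - 1).baseChange ℚ_[p] ((F - 1).baseChange ℚ_[p] w) = 0) :
    (F - 1).baseChange ℚ_[p] w = 0 := by
  set ι := TensorProduct.mk ℤ_[p] ℚ_[p] M 1 with hι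
  obtain ⟨⟨z, s⟩, hz⟩ := IsLocalizedModule.surj (nonZeroDivisors ℤ_[p]) ι w
  have hzz : (s : ℤ_[p]) • w = ι z := hz
  have hcomm : ∀ (g : M →ₗ[ℤ_[p]] M) (x : M), g.baseChange ℚ_[p] (ι x) = ι (g x) := by
    intro g x
    simp [hι]
  have hsm : ∀ (g : M →ₗ[ℤ_[p]] M) (a : ℤ_[p]) (x : ℚ_[p] ⊗[ℤ_[p]] M),
      g.baseChange ℚ_[p] (a • x) = a • g.baseChange ℚ_[p] x := by
    intro g a x
    rw [← algebraMap_smul ℚ_[p] a x, map_smul, algebraMap_smul]
  have h1 : ι ((F - 1) ((F - 1) z)) = 0 := by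
    rw [← hcomm, ← hcomm, ← hzz, hsm, hsm, hw, smul_zero]
  obtain ⟨s', hs'⟩ := (IsLocalizedModule.eq_zero_iff (nonZeroDivisors ℤ_[p]) ι).1 h1
  have hs2 : (s' : ℤ_[p]) • (F - 1) ((F - 1) z) = 0 := hs'
  have h2 : (F - 1) ((F - 1) ((s' : ℤ_[p]) • z)) = 0 := by
    rw [map_smul, map_smul, hs2]
  obtain ⟨N, hN, hN2⟩ := h ((s' : ℤ_[p]) • z) (by
    simp only [LinearMap.sub_apply, Module.End.one_apply] at h2
    exact sub_eq_zero.1 h2)
  have h3 : (N : ℤ_[p]) • (s' : ℤ_[p]) • (F - 1) z = 0 := by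
    rw [← map_smul, Int.cast_smul_eq_zsmul]
    simpa only [LinearMap.sub_apply, Module.End.one_apply] using hN2
  have h4 : (N : ℤ_[p]) • (s' : ℤ_[p]) • (s : ℤ_[p]) • (F - 1).baseChange ℚ_[p] w = 0 := by
    rw [← hsm, hzz, hcomm, ← map_smul, ← map_smul, h3, map_zero]
  rw [smul_smul, smul_smul, ← algebraMap_smul ℚ_[p], smul_eq_zero] at h4
  rcases h4 with h4 | h4
  · exfalso
    rw [map_eq_zero_iff _ (IsFractionRing.injective ℤ_[p] ℚ_[p])] at h4
    have hs0 : (s : ℤ_[p]) ≠ 0 := nonZeroDivisors.coe_ne_zero s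
    have hs0' : (s' : ℤ_[p]) ≠ 0 := nonZeroDivisors.coe_ne_zero s'
    have hN0 : (N : ℤ_[p]) ≠ 0 := by exact_mod_cast hN
    exact mul_ne_zero (mul_ne_zero hN0 hs0') hs0 h4
  · exact h4

lemma main [Module.Finite ℤ_[p] M] (F : M →ₗ[ℤ_[p]] M) (P : ℚ[X])
    (hP : (F.baseChange ℚ_[p]).charpoly = P.map (algebraMap ℚ ℚ_[p])) :
    finrank ℤ_[p] (LinearMap.ker (F - 1)) ≤ P.rootMultiplicity 1 ∧
      finrank ℤ_[p] (M ⧸ LinearMap.range (F - 1)) ≤ P.rootMultiplicity 1 ∧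
      ((∀ z, F (F z - z) = F z - z → Tors (F z - z)) →
        finrank ℤ_[p] (LinearMap.ker (F - 1)) = P.rootMultiplicity 1) := by
  have hmax := LinearMap.finrank_maxGenEigenspace_eq (F.baseChange ℚ_[p]) 1
  rw [hP, mult] at hmax
  have hle := LinearMap.finrank_eigenspace_le (F.baseChange ℚ_[p]) 1
  rw [hP, mult, eig] at hle
  have h1 : finrank ℤ_[p] (LinearMap.ker (F - 1)) ≤ P.rootMultiplicity 1 := by
    rw [← finrank_ker]
    exact hle
  refine ⟨h1, by rw [finrank_coker]; exact h1, fun h => ?_⟩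
  rw [← finrank_ker, ← hmax, maxeig F (ker_eq F h)]

end WE.RK

theorem WE.rk : WE.S_RK := by
  intro ℓ M _ _ _ F P hP
  exact WE.RK.main F P hP
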