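import Pool.Agent.WEt.Stmts

/-!
# WET_TOR: the torsion subgroup is finite if the primary parts are finite and almost all zero
-/

noncomputable section

namespace WE

namespace TOR

variable {A : Type} [AddCommGroup A]

/-- The `ℓ`-primary part. -/
def prim (A : Type) [AddCommGroup A] (ℓ : ℕ) : AddSubgroup A where
  carrier := {x : A | ∃ k : ℕ, (ℓ ^ k) • x = 0}
  zero_mem' := ⟨0, by simp⟩
  add_mem' := by
    rintro x y ⟨k, hk⟩ ⟨m, hm⟩
    refine ⟨k + m, ?_⟩
    have h1 : (ℓ ^ (k + m)) • x = 0 := by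
      rw [pow_add, mul_comm, mul_smul, hk, smul_zero]
    have h2 : (ℓ ^ (k + m)) • y = 0 := by
      rw [pow_add, mul_smul, hm, smul_zero]
    rw [smul_add, h1, h2, add_zero]
  neg_mem' := by
    rintro x ⟨k, hk⟩
    exact ⟨k, by rw [smul_neg, hk, neg_zero]⟩

/-- The sum of the primary parts over `S`. -/
def tot (A : Type) [AddCommGroup A] (S : Finset Nat.Primes) : AddSubgroup A :=
  S.sup fun ℓ => prim A (ℓ : ℕ)

lemma tot_finite (S : Finset Nat.Primes)
    (h : ∀ ℓ : Nat.Primes, {x : A | ∃ k : ℕ, ((ℓ : ℕ) ^ k) • x = 0}.Finite) :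
    ((tot A S : AddSubgroup A) : Set A).Finite := by
  classical
  induction S using Finset.induction_on with
  | empty =>
    have : tot A ∅ = ⊥ := by simp [tot]
    rw [this]
    simp
  | insert a s ha ih =>
    have : tot A (insert a s) = prim A (a : ℕ) ⊔ tot A s := by
      simp [tot, Finset.sup_insert]
    rw [this]
    rw [AddSubgroup.add_normal]
    exact Set.Finite.add (h a) ih

lemma mem_tot (S : Finset Nat.Primes)
    (h : ∀ ℓ : Nat.Primes, ℓ ∉ S → ∀ x : A, (∃ k : ℕ, ((ℓ : ℕ) ^ k) • x = 0) → x = 0)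
    (n : ℕ) : 0 < n → ∀ x : A, n • x = 0 → x ∈ tot A S := by
  induction n using Nat.recOnPosPrimePosCoprime with
  | prime_pow p k hp hk =>
    intro _ x hx
    by_cases hS : (⟨p, hp⟩ : Nat.Primes) ∈ S
    · have h1 : prim A p ≤ tot A S := by
        have := Finset.le_sup (f := fun ℓ : Nat.Primes => prim A (ℓ : ℕ)) hS
        exact this
      exact h1 ⟨k, hx⟩
    · rw [h ⟨p, hp⟩ hS x ⟨k, hx⟩]
      exact zero_mem _
  | zero => intro h0; exact absurd h0 (lt_irrefl _)
  | one =>
    intro _ x hx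
    rw [one_smul] at hx
    rw [hx]; exact zero_mem _
  | coprime a b ha hb hab iha ihb =>
    intro _ x hx
    have h1 : a • x ∈ tot A S := ihb (by omega) _ (by rw [← mul_smul, mul_comm]; exact hx)
    have h2 : b • x ∈ tot A S := iha (by omega) _ (by rw [← mul_smul]; exact hx)
    have h3 : IsCoprime (a : ℤ) (b : ℤ) := Nat.isCoprime_iff_coprime.2 hab
    obtain ⟨u, v, huv⟩ := h3
    have h4 : x = u • (a • x) + v • (b • x) := by
      have h5 : u • (a • x) = (u * a) • x := by
        rw [mul_smul, natCast_zsmul]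
      have h6 : v • (b • x) = (v * b) • x := by
        rw [mul_smul, natCast_zsmul]
      rw [h5, h6, ← add_smul, huv, one_smul]
    rw [h4]
    exact add_mem (zsmul_mem h1 _) (zsmul_mem h2 _)

end TOR

theorem tor : S_TOR := by
  intro A _ S h1 h2
  refine (TOR.tot_finite S h1).subset ?_
  rintro x ⟨N, hN, hx⟩
  refine TOR.mem_tot S h2 N.natAbs (Int.natAbs_pos.2 hN) x ?_
  rcases Int.natAbs_eq N with h | h
  · rw [h, natCast_zsmul] at hx
    exact hx
  · rw [h, neg_smul, natCast_zsmul, neg_eq_zero] at hx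
    exact hx

end WE
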