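import Pool.Agent.WEt.AsmD
import Pool.Agent.WEt.CH
import Pool.Agent.WEt.FG
import Pool.Agent.WEt.FIN
import Pool.Agent.WEt.GLOB
import Pool.Agent.WEt.KL
import Pool.Agent.WEt.LOC
import Pool.Agent.WEt.ORB
import Pool.Agent.WEt.PA
import Pool.Agent.WEt.RAT
import Pool.Agent.WEt.RK
import Pool.Agent.WEt.TOR

/-!
# Weil-etale cohomology: the theorem
-/

namespace WE

/-- Let `ℓ ≠ p`. If `2 n ≤ d` or `d ≤ n` or the Tate conjecture in codimension `d - n` holds for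
`ℓ`, then `L^n`, `K^n` and `K^n` rationally for the single prime `ℓ` are equivalent. -/
theorem final (X : Theory) (ℓ : Nat.Primes) (hℓ : ℓ ≠ X.p) (n : ℕ)
    (h : 2 * n ≤ X.d ∨ X.d ≤ n ∨ X.T ℓ (X.d - n)) : [X.L n, X.K n, X.KQ ℓ n].TFAE :=
  main' glob orb rat loc rk pq ann cha chb fin tor fg kl X ℓ hℓ n h

end WE
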