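import Pool.Agent.WEt.FamDefs
import Pool.Agent.WEt.Final

set_option autoImplicit false

/-!
# Weil-etale cohomology: MODULE FWD

`K^n` rationally at one prime `ℓ ≠ p` and the Tate conjecture in codimension `d - n` imply the
Tate conjecture, semisimplicity and injectivity of the rational cycle map in codimension `n`.
-/

open TensorProduct Polynomial

noncomputable section

namespace WE

namespace FWD

/-- the kernel of `res` on `H^(2n)(X, ℤ_ℓ(n))` is torsion -/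
theorem ker_res (X : Theory) {ℓ : Nat.Primes} (hℓ : ℓ ≠ X.p) (n : ℕ) (k : ℤ)
    (hk : k = 2 * (n : ℤ)) (x : (X.E ℓ n).H k) (hx : (X.E ℓ n).res k x = 0) : Tors x := by
  obtain ⟨j, rfl⟩ : ∃ j, k = j + 1 := ⟨k - 1, by ring⟩
  obtain ⟨y, hy⟩ := ((X.E ℓ n).res_eq_zero j _).mp hx
  rw [← hy]
  exact inc_tors X rk hℓ n j (by omega) y

/-- an element of `H^(2n)(X, ℤ_ℓ(n))` is torsion if its image in `H^(2n)(X̄, ℤ_ℓ(n))` is -/
theorem tors_of_res (X : Theory) {ℓ : Nat.Primes} (hℓ : ℓ ≠ X.p) (n : ℕ) (k : ℤ)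
    (hk : k = 2 * (n : ℤ)) (x : (X.E ℓ n).H k) (hx : Tors ((X.E ℓ n).res k x)) : Tors x := by
  obtain ⟨N, hN, h⟩ := hx
  rw [← map_zsmul] at h
  exact Tors.of_zsmul hN (ker_res X hℓ n k hk _ h)

theorem tc (X : Theory) (ℓ : Nat.Primes) (n : ℕ) (hK : X.KQ ℓ n) : X.TC ℓ n := by
  intro y hy
  obtain ⟨y', rfl⟩ := ((X.E ℓ n).res_mem _ y).mpr hy
  obtain ⟨N, hN, t, ht⟩ := (hK _).2 y'
  refine ⟨N, hN, ?_⟩
  rw [← map_zsmul, ← ht]
  clear ht
  induction t using TensorProduct.induction_on with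
  | zero => rw [map_zero, map_zero]; exact zero_mem _
  | tmul a h =>
    rw [tens_tmul, map_smul, X.res_cH]
    exact Submodule.smul_mem _ _
      (Submodule.subset_span ⟨_, ((X.W n).res_mem _ _).mp ⟨h, rfl⟩, rfl⟩)
  | add s t hs ht => rw [map_add, map_add]; exact add_mem hs ht

theorem b (X : Theory) (ℓ : Nat.Primes) (hℓ : ℓ ≠ X.p) (n : ℕ) (hK : X.KQ ℓ n) :
    X.B ℓ n := by
  intro x hx hc
  obtain ⟨h, rfl⟩ := ((X.W n).res_mem _ x).mpr hx
  rw [← X.res_cH] at hc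
  have h1 := tors_of_res X hℓ n _ rfl _ hc
  exact ((rat ℓ _ _ (X.cH ℓ n _) (hK _).1 (hK _).2).1 h h1).map _

end FWD

/-- MODULE FWD -/
theorem fwd : S_FWD := by
  intro X ℓ hℓ n m hd hK hT
  refine ⟨FWD.tc X ℓ n hK, ?_, FWD.b X ℓ hℓ n hK⟩
  obtain ⟨G, hG⟩ := exists_good X glob orb rk rat hℓ hd hK hT
  exact fun z hz => G.ss loc ℓ hG.ge z hz

end WE
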