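import Pool.Agent.WEt.Basic

/-!
# Weil-etale cohomology: assembly, part A (`ℓ`-adic cohomology)
-/

open TensorProduct Polynomial Filter

noncomputable section

namespace WE

theorem ev_notMem (S : Finset Nat.Primes) : ∀ᶠ ℓ : Nat.Primes in cofinite, ℓ ∉ S := by
  rw [Filter.eventually_cofinite]
  refine S.finite_toSet.subset fun x hx => ?_
  simpa using hx

theorem ev_not_dvd {N : ℤ} (hN : N ≠ 0) :
    ∀ᶠ ℓ : Nat.Primes in cofinite, ¬ ((ℓ : ℕ) : ℤ) ∣ N := by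
  rw [Filter.eventually_cofinite]
  have h : (Set.Iic N.natAbs).Finite := Set.finite_Iic _
  refine Set.Finite.of_finite_image (f := fun ℓ : Nat.Primes => (ℓ : ℕ)) (h.subset ?_)
    (fun a _ b _ hab => Subtype.ext hab)
  rintro _ ⟨ℓ, hℓ, rfl⟩
  have h1 : ((ℓ : ℕ) : ℤ) ∣ N := by simpa using hℓ
  have h2 : (ℓ : ℕ) ∣ N.natAbs := Int.natCast_dvd.mp h1
  exact Nat.le_of_dvd (Int.natAbs_pos.mpr hN) h2

section AdicLemmas

variable {ℓ : Nat.Primes} (E : Adic ℓ)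

theorem Adic.F_res (i : ℤ) (x : E.H i) : E.F i (E.res i x) = E.res i x :=
  (E.res_mem i _).mp ⟨x, rfl⟩

theorem Adic.inc_F (i : ℤ) (x : E.C i) : E.inc i (E.F i x) = E.inc i x := by
  have h : E.inc i (E.F i x - x) = 0 := (E.inc_eq_zero i _).mpr ⟨x, rfl⟩
  rw [map_sub] at h
  exact sub_eq_zero.mp h

theorem Adic.tors_of (i : ℤ) (hres : ∀ x : E.C (i + 1), E.F _ x = x → Tors x)
    (hinc : ∀ x : E.C i, Tors (E.inc i x)) (x : E.H (i + 1)) : Tors x := by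
  obtain ⟨N, hN, h⟩ := hres _ (E.F_res _ x)
  rw [← map_zsmul] at h
  obtain ⟨y, hy⟩ := (E.res_eq_zero i _).mp h
  exact Tors.of_zsmul hN (hy ▸ hinc y)

theorem Adic.zero_of (i : ℤ) (hres : ∀ x : E.C (i + 1), E.F _ x = x → x = 0)
    (hinc : ∀ y : E.C i, ∃ z, y = E.F i z - z) (x : E.H (i + 1)) : x = 0 := by
  have h := hres _ (E.F_res _ x)
  obtain ⟨y, hy⟩ := (E.res_eq_zero i _).mp h
  rw [← hy]
  exact (E.inc_eq_zero i _).mpr (hinc y)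

end AdicLemmas

variable (X : Theory)

theorem mult_zero {P : ℚ[X]} (h : P.eval 1 ≠ 0) : P.rootMultiplicity 1 = 0 :=
  rootMultiplicity_eq_zero (by simpa [IsRoot] using h)

theorem rootMul (n : ℕ) (i : ℤ) (hi : i ≠ 2 * (n : ℤ)) : (X.P n i).rootMultiplicity 1 = 0 :=
  mult_zero (X.P_one n i hi)

/-- invariants of `C i`, `i ≠ 2n`, are torsion -/
theorem fixed_tors (hRK : S_RK) {ℓ : Nat.Primes} (hℓ : ℓ ≠ X.p) (n : ℕ) (i : ℤ)
    (hi : i ≠ 2 * (n : ℤ)) (x : (X.E ℓ n).C i) (hx : (X.E ℓ n).F i x = x) : Tors x := by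
  have := X.finC ℓ hℓ n i
  obtain ⟨h1, -, -⟩ := hRK ℓ _ ((X.E ℓ n).F i) (X.P n i) (X.charpoly ℓ hℓ n i)
  rw [rootMul X n i hi] at h1
  have h2 := tors_of_finrank_zero (ℓ := ℓ) (Nat.le_zero.mp h1)
    (⟨x, by simp [LinearMap.mem_ker, hx]⟩ : LinearMap.ker ((X.E ℓ n).F i - 1))
  exact h2.lmap (Submodule.subtype _)

/-- coinvariants of `C i`, `i ≠ 2n`, are torsion -/
theorem inc_tors (hRK : S_RK) {ℓ : Nat.Primes} (hℓ : ℓ ≠ X.p) (n : ℕ) (i : ℤ)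
    (hi : i ≠ 2 * (n : ℤ)) (x : (X.E ℓ n).C i) : Tors ((X.E ℓ n).inc i x) := by
  have := X.finC ℓ hℓ n i
  obtain ⟨-, h1, -⟩ := hRK ℓ _ ((X.E ℓ n).F i) (X.P n i) (X.charpoly ℓ hℓ n i)
  rw [rootMul X n i hi] at h1
  obtain ⟨N, hN, h2⟩ := tors_of_finrank_zero (ℓ := ℓ) (Nat.le_zero.mp h1)
    ((LinearMap.range ((X.E ℓ n).F i - 1)).mkQ x)
  rw [← map_zsmul, Submodule.mkQ_apply, Submodule.Quotient.mk_eq_zero] at h2
  obtain ⟨z, hz⟩ := h2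
  refine ⟨N, hN, ?_⟩
  rw [← map_zsmul]
  exact ((X.E ℓ n).inc_eq_zero i _).mpr ⟨z, by rw [← hz]; simp⟩

/-- Step 1: `E i` is torsion for `i ≠ 2n, 2n+1`. -/
theorem tors_E (hRK : S_RK) (ℓ : Nat.Primes) (n : ℕ) (i : ℤ) (h1 : i ≠ 2 * (n : ℤ))
    (h2 : i ≠ 2 * (n : ℤ) + 1) (x : (X.E ℓ n).H i) : Tors x := by
  by_cases hℓ : ℓ = X.p
  · subst hℓ
    exact X.tors_p n i h1 h2 x
  · obtain ⟨j, rfl⟩ : ∃ j, i = j + 1 := ⟨i - 1, by ring⟩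
    exact (X.E ℓ n).tors_of j (fixed_tors X hRK hℓ n _ h1)
      (inc_tors X hRK hℓ n j (by omega)) x

/-- `C i` is torsion free for almost all `ℓ`. -/
theorem ev_tf (n : ℕ) (i : ℤ) :
    ∀ᶠ ℓ : Nat.Primes in cofinite, ∀ x : (X.E ℓ n).C i, Tors x → x = 0 := by
  obtain ⟨S, hS⟩ := X.gabber n i
  filter_upwards [ev_notMem S] with ℓ hℓ
  exact hS ℓ hℓ

theorem ev_ne : ∀ᶠ ℓ : Nat.Primes in cofinite, ℓ ≠ X.p := by
  simpa using ev_notMem {X.p}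

/-- Step A: `F - 1` is bijective on `C i`, `i ≠ 2n`, for almost all `ℓ`. -/
theorem ev_bij' (hPQ : S_PQ) (hANN : S_ANN) (hCHA : S_CHA) (n : ℕ) (i : ℤ)
    (hi : (X.P n i).eval 1 ≠ 0) :
    ∀ᶠ ℓ : Nat.Primes in cofinite, (∀ x : (X.E ℓ n).C i, (X.E ℓ n).F i x = x → x = 0) ∧
      ∀ y : (X.E ℓ n).C i, ∃ z, y = (X.E ℓ n).F i z - z := by
  have hP : X.P n i ≠ 0 := by
    intro h
    apply hi
    rw [h, eval_zero]
  obtain ⟨N, R, hN, hR, hNR⟩ := hPQ (X.P n i) hP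
  rw [mult_zero hi, pow_zero, one_mul] at hNR
  filter_upwards [ev_tf X n i, ev_ne X, ev_not_dvd hR] with ℓ h1 h2 h3
  have := X.finC ℓ h2 n i
  exact hCHA ℓ _ _ R (hANN ℓ _ _ _ N R h1 (X.charpoly ℓ h2 n i) hNR) h3

/-- Step A: `F - 1` is bijective on `C i`, `i ≠ 2n`, for almost all `ℓ`. -/
theorem ev_bij (hPQ : S_PQ) (hANN : S_ANN) (hCHA : S_CHA) (n : ℕ) (i : ℤ)
    (hi : i ≠ 2 * (n : ℤ)) :
    ∀ᶠ ℓ : Nat.Primes in cofinite, (∀ x : (X.E ℓ n).C i, (X.E ℓ n).F i x = x → x = 0) ∧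
      ∀ y : (X.E ℓ n).C i, ∃ z, y = (X.E ℓ n).F i z - z :=
  ev_bij' X hPQ hANN hCHA n i (X.P_one n i hi)

/-- Step 2: `E i = 0` for `i ≠ 2n, 2n+1` and almost all `ℓ`. -/
theorem ev_zero (hPQ : S_PQ) (hANN : S_ANN) (hCHA : S_CHA) (n : ℕ) (i : ℤ)
    (h1 : i ≠ 2 * (n : ℤ)) (h2 : i ≠ 2 * (n : ℤ) + 1) :
    ∀ᶠ ℓ : Nat.Primes in cofinite, ∀ x : (X.E ℓ n).H i, x = 0 := by
  obtain ⟨j, rfl⟩ : ∃ j, i = j + 1 := ⟨i - 1, by ring⟩
  filter_upwards [ev_bij X hPQ hANN hCHA n _ h1, ev_bij X hPQ hANN hCHA n j (by omega)]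
    with ℓ h3 h4
  exact (X.E ℓ n).zero_of j h3.1 h4.2

/-- Step 3: `E (2n)` is torsion free for almost all `ℓ`. -/
theorem ev_tf_even (hPQ : S_PQ) (hANN : S_ANN) (hCHA : S_CHA) (n : ℕ) (k : ℤ)
    (hk : k = 2 * (n : ℤ)) :
    ∀ᶠ ℓ : Nat.Primes in cofinite, ∀ x : (X.E ℓ n).H k, Tors x → x = 0 := by
  obtain ⟨j, rfl⟩ : ∃ j, k = j + 1 := ⟨k - 1, by ring⟩
  filter_upwards [ev_tf X n (j + 1), ev_bij X hPQ hANN hCHA n j (by omega)] with ℓ h3 h4 x hx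
  have h5 := h3 _ (hx.lmap ((X.E ℓ n).res (j + 1)))
  obtain ⟨y, hy⟩ := ((X.E ℓ n).res_eq_zero j _).mp h5
  rw [← hy]
  exact ((X.E ℓ n).inc_eq_zero j _).mpr (h4.2 y)

/-- Step 4a: the rank of `E (2n)`. -/
theorem rank_even (hRK : S_RK) (ℓ : Nat.Primes) (n : ℕ) (k : ℤ) (hk : k = 2 * (n : ℤ)) :
    Module.finrank ℤ_[ℓ] ((X.E ℓ n).H k) ≤ (X.P n k).rootMultiplicity 1 := by
  by_cases hℓ : ℓ = X.p
  · subst hℓ
    subst hk
    exact X.rank_p n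
  · have := X.finC ℓ hℓ n k
    obtain ⟨h1, -, -⟩ := hRK ℓ _ ((X.E ℓ n).F k) (X.P n k) (X.charpoly ℓ hℓ n k)
    refine le_trans ?_ h1
    refine finrank_le_of_ker ((((X.E ℓ n).res k)).codRestrict (LinearMap.ker ((X.E ℓ n).F k - 1))
      (fun x => by simp [LinearMap.mem_ker, (X.E ℓ n).F_res])) ?_
    intro x hx
    have hx' : (X.E ℓ n).res k x = 0 := by simpa using congrArg Subtype.val hx
    obtain ⟨j, rfl⟩ : ∃ j, k = j + 1 := ⟨k - 1, by ring⟩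
    obtain ⟨y, hy⟩ := ((X.E ℓ n).res_eq_zero j _).mp hx'
    rw [← hy]
    exact inc_tors X hRK hℓ n j (by omega) y

/-- Step 4b: the rank of `E (2n+1)`. -/
theorem rank_odd (hRK : S_RK) (ℓ : Nat.Primes) (n : ℕ) (k : ℤ) (hk : k = 2 * (n : ℤ)) :
    Module.finrank ℤ_[ℓ] ((X.E ℓ n).H (k + 1)) ≤ (X.P n k).rootMultiplicity 1 := by
  by_cases hℓ : ℓ = X.p
  · subst hℓ
    subst hk
    exact X.rank_p' n
  · have := X.finC ℓ hℓ n k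
    obtain ⟨-, h1, -⟩ := hRK ℓ _ ((X.E ℓ n).F k) (X.P n k) (X.charpoly ℓ hℓ n k)
    refine le_trans ?_ h1
    have hle : LinearMap.range ((X.E ℓ n).F k - 1) ≤ LinearMap.ker ((X.E ℓ n).inc k) := by
      rintro _ ⟨z, rfl⟩
      exact ((X.E ℓ n).inc_eq_zero k _).mpr ⟨z, by simp⟩
    set f := (LinearMap.range ((X.E ℓ n).F k - 1)).liftQ ((X.E ℓ n).inc k) hle with hf
    have h2 : Module.finrank ℤ_[ℓ] ((X.E ℓ n).H (k + 1) ⧸ LinearMap.range f) = 0 := by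
      apply finrank_zero_of_tors
      intro x
      obtain ⟨x, rfl⟩ := Submodule.mkQ_surjective _ x
      obtain ⟨N, hN, h3⟩ := fixed_tors X hRK hℓ n (k + 1) (by omega) _
        ((X.E ℓ n).F_res (k + 1) x)
      rw [← map_zsmul] at h3
      obtain ⟨y, hy⟩ := ((X.E ℓ n).res_eq_zero k _).mp h3
      refine ⟨N, hN, ?_⟩
      rw [← map_zsmul, Submodule.mkQ_apply, Submodule.Quotient.mk_eq_zero, ← hy]
      exact ⟨(LinearMap.range ((X.E ℓ n).F k - 1)).mkQ y, by simp [hf]⟩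
    have h4 := (LinearMap.range f).finrank_quotient_add_finrank
    rw [h2, zero_add] at h4
    rw [← h4]
    exact LinearMap.finrank_le_finrank_of_surjective f.surjective_rangeRestrict

/-- Step 9: at a prime where `1` is a semisimple eigenvalue the rank of `E (2n)` is the
algebraic multiplicity. -/
theorem rank_even_eq (hRK : S_RK) {ℓ : Nat.Primes} (hℓ : ℓ ≠ X.p) (n : ℕ) (k : ℤ)
    (hss : ∀ z : (X.E ℓ n).C k, (X.E ℓ n).F k ((X.E ℓ n).F k z - z) = (X.E ℓ n).F k z - z →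
      Tors ((X.E ℓ n).F k z - z)) :
    (X.P n k).rootMultiplicity 1 ≤ Module.finrank ℤ_[ℓ] ((X.E ℓ n).H k) := by
  have := X.finC ℓ hℓ n k
  obtain ⟨-, -, h1⟩ := hRK ℓ _ ((X.E ℓ n).F k) (X.P n k) (X.charpoly ℓ hℓ n k)
  rw [← h1 hss]
  refine LinearMap.finrank_le_finrank_of_surjective
    (f := (((X.E ℓ n).res k)).codRestrict (LinearMap.ker ((X.E ℓ n).F k - 1))
      (fun x => by simp [LinearMap.mem_ker, (X.E ℓ n).F_res])) ?_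
  rintro ⟨x, hx⟩
  obtain ⟨h, hh⟩ := ((X.E ℓ n).res_mem k x).mpr (by
    have : (X.E ℓ n).F k x - x = 0 := by simpa [LinearMap.mem_ker] using hx
    exact sub_eq_zero.mp this)
  exact ⟨h, Subtype.ext (by simpa using hh)⟩

end WE
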