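import Pool.Agent.WEt.Stmts

/-!
# Weil-etale cohomology: elementary lemmas on torsion elements and ranks
-/

open TensorProduct Polynomial

noncomputable section

namespace WE

section Tors

variable {A B : Type} [AddCommGroup A] [AddCommGroup B]

theorem Tors.zero : Tors (0 : A) := ⟨1, one_ne_zero, by simp⟩

theorem Tors.of_eq_zero {x : A} (h : x = 0) : Tors x := by subst h; exact Tors.zero

theorem Tors.add {x y : A} (hx : Tors x) (hy : Tors y) : Tors (x + y) := by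
  obtain ⟨N, hN, h1⟩ := hx
  obtain ⟨M, hM, h2⟩ := hy
  refine ⟨M * N, mul_ne_zero hM hN, ?_⟩
  rw [smul_add, mul_smul, h1, smul_zero, mul_comm, mul_smul, h2, smul_zero, add_zero]

theorem Tors.neg {x : A} (hx : Tors x) : Tors (-x) := by
  obtain ⟨N, hN, h1⟩ := hx
  exact ⟨N, hN, by rw [smul_neg, h1, neg_zero]⟩

theorem Tors.sub {x y : A} (hx : Tors x) (hy : Tors y) : Tors (x - y) := by
  rw [sub_eq_add_neg]; exact hx.add hy.neg

theorem Tors.zsmul {x : A} (hx : Tors x) (n : ℤ) : Tors (n • x) := by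
  obtain ⟨N, hN, h1⟩ := hx
  exact ⟨N, hN, by rw [smul_comm, h1, smul_zero]⟩

theorem Tors.of_zsmul {x : A} {n : ℤ} (hn : n ≠ 0) (hx : Tors (n • x)) : Tors x := by
  obtain ⟨N, hN, h1⟩ := hx
  exact ⟨N * n, mul_ne_zero hN hn, by rw [mul_smul, h1]⟩

theorem Tors.map {x : A} (hx : Tors x) (f : A →+ B) : Tors (f x) := by
  obtain ⟨N, hN, h1⟩ := hx
  exact ⟨N, hN, by rw [← map_zsmul, h1, map_zero]⟩

theorem Tors.sum {ι : Type} (s : Finset ι) {f : ι → A} (h : ∀ i ∈ s, Tors (f i)) :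
    Tors (∑ i ∈ s, f i) := by
  classical
  induction s using Finset.induction_on with
  | empty => simpa using Tors.zero
  | insert a s ha ih =>
    rw [Finset.sum_insert ha]
    exact (h a (by simp)).add (ih fun i hi => h i (by simp [hi]))

end Tors

section Padic

variable {ℓ : Nat.Primes} {E E' : Type} [AddCommGroup E] [Module ℤ_[ℓ] E]
  [AddCommGroup E'] [Module ℤ_[ℓ] E']

theorem Tors.lmap {x : E} (hx : Tors x) (f : E →ₗ[ℤ_[ℓ]] E') : Tors (f x) :=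
  hx.map f.toAddMonoidHom

theorem Tors.smul {x : E} (hx : Tors x) (a : ℤ_[ℓ]) : Tors (a • x) := by
  obtain ⟨N, hN, h1⟩ := hx
  exact ⟨N, hN, by rw [smul_comm, h1, smul_zero]⟩

theorem zsmul_eq (N : ℤ) (x : E) : N • x = (N : ℤ_[ℓ]) • x := (Int.cast_smul_eq_zsmul _ N x).symm

theorem int_ne {N : ℤ} (hN : N ≠ 0) : (N : ℤ_[ℓ]) ≠ 0 := by exact_mod_cast hN

theorem Tors.of_smul {x : E} {a : ℤ_[ℓ]} (ha : a ≠ 0) (h : Tors (a • x)) : Tors x := by
  obtain ⟨N, hN, h1⟩ := h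
  rw [PadicInt.unitCoeff_spec ha] at h1
  have h2 : (N * (ℓ : ℤ) ^ a.valuation) • x = 0 := by
    have h3 : ((PadicInt.unitCoeff ha : ℤ_[ℓ]ˣ) : ℤ_[ℓ]) • ((N * (ℓ : ℤ) ^ a.valuation) • x)
        = 0 := by
      rw [← h1, zsmul_eq (ℓ := ℓ), zsmul_eq (ℓ := ℓ), smul_smul, smul_smul]
      congr 1
      push_cast
      ring
    have h4 : (((PadicInt.unitCoeff ha)⁻¹ : ℤ_[ℓ]ˣ) : ℤ_[ℓ]) •
        (((PadicInt.unitCoeff ha : ℤ_[ℓ]ˣ) : ℤ_[ℓ]) • ((N * (ℓ : ℤ) ^ a.valuation) • x)) = 0 := by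
      rw [h3, smul_zero]
    rwa [smul_smul, Units.inv_mul, one_smul] at h4
  exact ⟨_, mul_ne_zero hN (pow_ne_zero _ (by exact_mod_cast ℓ.2.ne_zero)), h2⟩

theorem Tors.eq_zero {x : ℤ_[ℓ]} (h : Tors x) : x = 0 := by
  obtain ⟨N, hN, h1⟩ := h
  rw [zsmul_eq (ℓ := ℓ), smul_eq_mul] at h1
  exact (mul_eq_zero.mp h1).resolve_left (int_ne hN)

theorem not_tors_linInd {x : E} (h : ¬ Tors x) : LinearIndependent ℤ_[ℓ] (fun _ : Fin 1 => x) := by
  rw [Fintype.linearIndependent_iff]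
  intro g hg i
  by_contra hne
  apply h
  have : g 0 • x = 0 := by simpa using hg
  fin_cases i
  exact Tors.of_smul (ℓ := ℓ) hne (Tors.of_eq_zero this)

theorem tors_of_finrank_zero [Module.Finite ℤ_[ℓ] E] (h : Module.finrank ℤ_[ℓ] E = 0) (x : E) :
    Tors x := by
  by_contra hx
  have := (not_tors_linInd (ℓ := ℓ) hx).fintype_card_le_finrank
  simp [h] at this

theorem finrank_zero_of_tors [Module.Finite ℤ_[ℓ] E] (h : ∀ x : E, Tors x) :
    Module.finrank ℤ_[ℓ] E = 0 := by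
  by_contra hne
  obtain ⟨s, hs, hli⟩ := exists_set_linearIndependent ℤ_[ℓ] E
  have hfr : (0 : Cardinal) < Module.rank ℤ_[ℓ] E := by
    rw [← Module.finrank_eq_rank]
    exact_mod_cast Nat.pos_of_ne_zero hne
  rw [← hs] at hfr
  obtain ⟨y⟩ : Nonempty s := Cardinal.mk_ne_zero_iff.mp hfr.ne'
  obtain ⟨N, hN, h1⟩ := h y.1
  have h2 := linearIndependent_iff.mp hli (Finsupp.single y (N : ℤ_[ℓ])) (by
    rw [Finsupp.linearCombination_single, ← zsmul_eq (ℓ := ℓ)]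
    exact h1)
  have h3 := Finsupp.single_eq_zero.mp h2
  exact int_ne hN h3

theorem finrank_le_of_ker [Module.Finite ℤ_[ℓ] E] [Module.Finite ℤ_[ℓ] E']
    (f : E →ₗ[ℤ_[ℓ]] E') (h : ∀ x, f x = 0 → Tors x) :
    Module.finrank ℤ_[ℓ] E ≤ Module.finrank ℤ_[ℓ] E' := by
  have h1 : Module.finrank ℤ_[ℓ] (LinearMap.ker f) = 0 := by
    apply finrank_zero_of_tors
    intro x
    obtain ⟨N, hN, hx⟩ := h x.1 x.2
    exact ⟨N, hN, Subtype.ext (by simpa using hx)⟩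
  have h2 := (LinearMap.ker f).finrank_quotient_add_finrank
  rw [h1, add_zero] at h2
  rw [← h2]
  exact LinearMap.finrank_le_finrank_of_injective (f := (LinearMap.ker f).liftQ f le_rfl)
    (LinearMap.ker_eq_bot.mp (Submodule.ker_liftQ_eq_bot _ _ _ le_rfl))

theorem finrank_le_of_surj [Module.Finite ℤ_[ℓ] E] [Module.Finite ℤ_[ℓ] E']
    (f : E →ₗ[ℤ_[ℓ]] E') (h : Function.Surjective f) :
    Module.finrank ℤ_[ℓ] E' ≤ Module.finrank ℤ_[ℓ] E :=
  LinearMap.finrank_le_finrank_of_surjective h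

end Padic

end WE
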