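import Pool.Agent.WEt.FamDefs
import Pool.Agent.WEt.Basic
import Pool.Agent.WEt.AsmA
import Pool.Agent.WEt.PA
import Pool.Agent.WEt.RK

/-!
# Parshin's conjecture from correspondences (module WEF_PAR, helper87)
-/

open TensorProduct Polynomial

noncomputable section

namespace WE

namespace PAR

section LinAlg

variable {K : Type} [Field K] {M : Type} [AddCommGroup M] [Module K M]

lemma aeval_fixed (f : Module.End K M) (S : K[X]) {v : M} (hv : f v = v) :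
    aeval f S v = S.eval 1 • v := by
  induction S using Polynomial.induction_on with
  | C a => simp
  | add p q hp hq => rw [map_add, LinearMap.add_apply, hp, hq, eval_add, add_smul]
  | monomial n a h =>
    rw [pow_succ, ← mul_assoc, map_mul, Module.End.mul_apply, aeval_X, hv, h]
    simp

lemma aeval_functional (f : Module.End K M) (S : K[X]) (ψ : M →ₗ[K] K)
    (hψ : ∀ y, ψ (f y) = ψ y) (y : M) : ψ (aeval f S y) = S.eval 1 * ψ y := by
  induction S using Polynomial.induction_on generalizing y with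
  | C a => simp
  | add p q hp hq => rw [map_add, LinearMap.add_apply, map_add, hp, hq, eval_add, add_mul]
  | monomial n a h =>
    rw [pow_succ, ← mul_assoc, map_mul, Module.End.mul_apply, aeval_X, h, hψ]
    simp

variable [FiniteDimensional K M]

/-- the projection onto the fixed vectors -/
lemma key (f : Module.End K M) {ρ : ℕ} (z : Fin ρ → M) (hz : ∀ j, f (z j) = z j)
    (ψ : Fin ρ → M →ₗ[K] K) (hψ : ∀ k y, ψ k (f y) = ψ k y) (U : Matrix (Fin ρ) (Fin ρ) K)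
    (hU : (Matrix.of fun j k => ψ k (z j)) * U = 1) (hρ : f.charpoly.rootMultiplicity 1 ≤ ρ)
    (S : K[X]) (r : ℕ) (hS : f.charpoly ∣ (X - 1) ^ r * S) (y : M) :
    aeval f S y = S.eval 1 • ∑ l, (∑ k, U k l * ψ k y) • z l := by
  set D : Matrix (Fin ρ) (Fin ρ) K := Matrix.of fun j k => ψ k (z j) with hD
  have hlin : LinearIndependent K z := by
    rw [Fintype.linearIndependent_iff]
    intro c hc
    have h1 : Matrix.vecMul c D = 0 := by
      ext k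
      have h2 := congrArg (ψ k) hc
      rw [map_sum, map_zero] at h2
      simp only [map_smul, smul_eq_mul] at h2
      simpa [Matrix.vecMul, dotProduct, hD] using h2
    have h3 : c = 0 := by
      have h4 : Matrix.vecMul (Matrix.vecMul c D) U = c := by
        rw [Matrix.vecMul_vecMul, hU, Matrix.vecMul_one]
      rw [← h4, h1, Matrix.zero_vecMul]
    intro i
    rw [h3]
    rfl
  have hle : Submodule.span K (Set.range z) ≤ f.maxGenEigenspace 1 := by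
    rw [Submodule.span_le]
    rintro _ ⟨j, rfl⟩
    rw [SetLike.mem_coe, Module.End.mem_maxGenEigenspace]
    refine ⟨1, ?_⟩
    simp [hz j]
  have heq : Submodule.span K (Set.range z) = f.maxGenEigenspace 1 := by
    apply Submodule.eq_of_le_of_finrank_le hle
    rw [LinearMap.finrank_maxGenEigenspace_eq, finrank_span_eq_card hlin, Fintype.card_fin]
    exact hρ
  have hmem : aeval f S y ∈ f.maxGenEigenspace 1 := by
    rw [Module.End.mem_maxGenEigenspace]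
    refine ⟨r, ?_⟩
    obtain ⟨Q, hQ⟩ := hS
    have h1 : aeval f ((X - 1) ^ r * S) = 0 := by
      rw [hQ, map_mul, LinearMap.aeval_self_charpoly, zero_mul]
    have h2 : ((f - (1 : K) • (1 : Module.End K M)) ^ r) (aeval f S y) = aeval f ((X - 1) ^ r * S) y := by
      rw [map_mul, Module.End.mul_apply, map_pow, map_sub, aeval_X, map_one, one_smul]
    rw [h2, h1, LinearMap.zero_apply]
  rw [← heq, Submodule.mem_span_range_iff_exists_fun] at hmem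
  obtain ⟨c, hc⟩ := hmem
  have h5 : ∀ k, (Matrix.vecMul c D) k = S.eval 1 * ψ k y := by
    intro k
    rw [← aeval_functional f S (ψ k) (hψ k) y, ← hc, map_sum]
    simp [Matrix.vecMul, dotProduct, hD]
  have h6 : ∀ l, c l = S.eval 1 * ∑ k, U k l * ψ k y := by
    intro l
    have h7 : c = Matrix.vecMul (Matrix.vecMul c D) U := by
      rw [Matrix.vecMul_vecMul, hU, Matrix.vecMul_one]
    rw [h7]
    show ∑ k, (Matrix.vecMul c D) k * U k l = _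
    rw [Finset.mul_sum]
    refine Finset.sum_congr rfl fun k _ => ?_
    rw [h5]
    ring
  rw [← hc, Finset.smul_sum]
  refine Finset.sum_congr rfl fun l _ => ?_
  rw [h6 l, mul_smul]

end LinAlg

section Tensor

variable {A : Type} [AddCommGroup A]

lemma Q_zero {x : A} (h : (1 : ℚ) ⊗ₜ[ℤ] x = 0) : Tors x := by
  have h1 : (TensorProduct.mk ℤ ℚ A 1) x = 0 := h
  rw [IsLocalizedModule.eq_zero_iff (nonZeroDivisors ℤ)] at h1
  obtain ⟨c, hc⟩ := h1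
  exact ⟨c.1, nonZeroDivisors.ne_zero c.2, hc⟩

lemma Q_of_tors {x : A} (h : Tors x) : (1 : ℚ) ⊗ₜ[ℤ] x = 0 := by
  obtain ⟨N, hN, hx⟩ := h
  have h1 : (N : ℚ) • ((1 : ℚ) ⊗ₜ[ℤ] x) = 0 := by
    rw [smul_tmul', smul_eq_mul, mul_one]
    have : ((N : ℚ)) = N • (1 : ℚ) := by simp
    rw [this, ← smul_tmul', ← tmul_smul, hx, tmul_zero]
  exact (smul_eq_zero.1 h1).resolve_left (by exact_mod_cast hN)

lemma Q_exists (t : ℚ ⊗[ℤ] A) : ∃ k : ℤ, k ≠ 0 ∧ ∃ x : A, (k : ℚ) • t = (1 : ℚ) ⊗ₜ[ℤ] x := by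
  induction t using TensorProduct.induction_on with
  | zero => exact ⟨1, one_ne_zero, 0, by simp⟩
  | tmul r x =>
    refine ⟨r.den, by exact_mod_cast r.den_ne_zero, r.num • x, ?_⟩
    rw [smul_tmul', smul_eq_mul, tmul_smul, smul_tmul']
    congr 1
    rw [zsmul_eq_mul, mul_one]
    push_cast
    exact Rat.den_mul_eq_num r
  | add s t hs ht =>
    obtain ⟨k, hk, x, hx⟩ := hs
    obtain ⟨l, hl, y, hy⟩ := ht
    refine ⟨k * l, mul_ne_zero hk hl, l • x + k • y, ?_⟩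
    rw [tmul_add, tmul_smul, tmul_smul, ← hx, ← hy, smul_add]
    push_cast
    rw [← Int.cast_smul_eq_zsmul ℚ l, ← Int.cast_smul_eq_zsmul ℚ k, smul_smul, smul_smul,
      mul_comm (k : ℚ) (l : ℚ)]

variable {ℓ : Nat.Primes} {E : Type} [AddCommGroup E] [Module ℤ_[ℓ] E]

lemma E_zero {x : E} (h : (1 : ℚ_[ℓ]) ⊗ₜ[ℤ_[ℓ]] x = 0) : Tors x := by
  have h1 : (TensorProduct.mk ℤ_[ℓ] ℚ_[ℓ] E 1) x = 0 := h
  rw [IsLocalizedModule.eq_zero_iff (nonZeroDivisors ℤ_[ℓ])] at h1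
  obtain ⟨c, hc⟩ := h1
  exact PA.tors_of_smul_eq_zero (nonZeroDivisors.ne_zero c.2) hc

lemma ratMap_tmul (c : A →+ E) (r : ℚ) (x : A) :
    ratMap ℓ c (r ⊗ₜ x) = (r : ℚ_[ℓ]) ⊗ₜ[ℤ_[ℓ]] c x := rfl

/-- injectivity on invariant elements -/
lemma ratInj (F : A →+ A) (c : A →+ E) (hB : ∀ x, F x = x → Tors (c x) → Tors x)
    (t : ℚ ⊗[ℤ] A) (ht : F.toIntLinearMap.baseChange ℚ t = t) (h0 : ratMap ℓ c t = 0) : t = 0 := by
  obtain ⟨k, hk, x, hx⟩ := Q_exists t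
  have hk' : (k : ℚ) ≠ 0 := by exact_mod_cast hk
  have h1 : (1 : ℚ) ⊗ₜ[ℤ] (F x) = (1 : ℚ) ⊗ₜ[ℤ] x := by
    have h2 : F.toIntLinearMap.baseChange ℚ ((1 : ℚ) ⊗ₜ[ℤ] x) = (1 : ℚ) ⊗ₜ[ℤ] (F x) := rfl
    rw [← h2, ← hx, map_smul, ht]
  obtain ⟨M, hM, hMx⟩ : Tors (F x - x) := by
    apply Q_zero
    rw [tmul_sub, h1, sub_self]
  have h3 : F (M • x) = M • x := by
    rw [map_zsmul]
    rw [smul_sub, sub_eq_zero] at hMx
    exact hMx
  have h4 : Tors (c (M • x)) := by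
    apply E_zero (ℓ := ℓ)
    have h5 : ratMap ℓ c ((1 : ℚ) ⊗ₜ[ℤ] (M • x)) = (1 : ℚ_[ℓ]) ⊗ₜ[ℤ_[ℓ]] c (M • x) := by
      rw [ratMap_tmul, Rat.cast_one]
    rw [← h5, tmul_smul, ← hx]
    have h6 : M • ((k : ℚ) • t) = (M * k) • t := by
      rw [mul_smul, Int.cast_smul_eq_zsmul]
    rw [h6, map_zsmul, h0, smul_zero]
  have h7 := Tors.of_zsmul hM (hB _ h3 h4)
  have h8 := Q_of_tors h7
  rw [← hx] at h8
  exact (smul_eq_zero.1 h8).resolve_left hk'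

end Tensor

section Ring

variable {A : Type} [Ring A] [Algebra ℚ A] {K : Type} [Field K] [CharZero K] {B : Type} [Ring B]
  [Algebra K B]

lemma hom_smul (φ : A →+* B) (r : ℚ) (a : A) : φ (r • a) = (r : K) • φ a := by
  have h : φ.comp (algebraMap ℚ A) = (algebraMap K B).comp (algebraMap ℚ K) := RingHom.ext_rat _ _
  have h1 : φ (algebraMap ℚ A r) = algebraMap K B (r : K) := by
    have := RingHom.congr_fun h r
    simpa using this
  rw [Algebra.smul_def, map_mul, h1, Algebra.smul_def]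

lemma hom_aeval (φ : A →+* B) (g : A) (S : ℚ[X]) :
    φ (aeval g S) = aeval (φ g) (S.map (algebraMap ℚ K)) := by
  have h : φ.comp (algebraMap ℚ A) = (algebraMap K B).comp (algebraMap ℚ K) := RingHom.ext_rat _ _
  rw [aeval_def, hom_eval₂, h, aeval_def, eval₂_map]

end Ring

section Main

variable (F : Fam) (Y : F.V) {ℓ : Nat.Primes} (hℓ : ℓ ≠ (F.th Y).p) {n m : ℕ}
  {hd : n + m = (F.th Y).d}

/-- the polynomial which kills the other degrees -/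
lemma exists_S (T : Theory) (n : ℕ) (I : Finset ℤ) : ∃ (S : ℚ[X]) (r : ℕ), S.eval 1 ≠ 0 ∧
    (∀ i ∈ I, i ≠ 2 * (n : ℤ) → T.P n i ∣ S) ∧ T.P n (2 * (n : ℤ)) ∣ (X - 1) ^ r * S := by
  have hP : T.P n (2 * (n : ℤ)) ≠ 0 := by
    intro h
    obtain ⟨ℓ, hℓ⟩ := (ev_ne T).exists
    have := T.finC ℓ hℓ n (2 * (n : ℤ))
    have h2 := T.charpoly ℓ hℓ n (2 * (n : ℤ))
    rw [h, Polynomial.map_zero] at h2
    exact (LinearMap.charpoly_monic _).ne_zero h2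
  obtain ⟨R, hR, hnd⟩ := (T.P n (2 * (n : ℤ))).exists_eq_pow_rootMultiplicity_mul_and_not_dvd hP 1
  refine ⟨(∏ i ∈ I.filter (fun i => i ≠ 2 * (n : ℤ)), T.P n i) * R,
    (T.P n (2 * (n : ℤ))).rootMultiplicity 1, ?_, ?_, ?_⟩
  · rw [eval_mul, eval_prod]
    refine mul_ne_zero (Finset.prod_ne_zero_iff.2 fun i hi => ?_) fun h => ?_
    · exact T.P_one n i (Finset.mem_filter.1 hi).2
    · exact hnd (dvd_iff_isRoot.2 h)
  · intro i hi h
    exact Dvd.dvd.mul_right (Finset.dvd_prod_of_mem _ (Finset.mem_filter.2 ⟨hi, h⟩)) _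
  · conv_lhs => rw [hR]
    rw [C_1]
    exact mul_dvd_mul_left _ (Dvd.intro_left _ rfl)

/-- the functional `y ↦ ⟨y, g⟩` on `H^(2n)(X̄, ℚ_ℓ(n))` -/
def psi (T : Theory) (ℓ : Nat.Primes) (n m : ℕ) (hd : n + m = T.d) (g : (T.W m).H (2 * (m : ℤ))) :
    ℚ_[ℓ] ⊗[ℤ_[ℓ]] (T.E ℓ n).C (2 * (n : ℤ)) →ₗ[ℚ_[ℓ]] ℚ_[ℓ] :=
  LinearMap.liftBaseChange ℚ_[ℓ] ((Algebra.linearMap ℤ_[ℓ] ℚ_[ℓ]).comp
    (((T.pairE ℓ n m hd).flip (T.cH ℓ m _ g)).comp ((T.E ℓ n).inc _)))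

lemma psi_tmul (T : Theory) (ℓ : Nat.Primes) (n m : ℕ) (hd : n + m = T.d)
    (g : (T.W m).H (2 * (m : ℤ))) (r : ℚ_[ℓ]) (y : (T.E ℓ n).C (2 * (n : ℤ))) :
    psi T ℓ n m hd g (r ⊗ₜ y) =
      r * ((T.pairE ℓ n m hd ((T.E ℓ n).inc _ y) (T.cH ℓ m _ g) : ℤ_[ℓ]) : ℚ_[ℓ]) := by
  rw [psi, LinearMap.liftBaseChange_tmul]
  rfl

lemma psi_F (T : Theory) (ℓ : Nat.Primes) (n m : ℕ) (hd : n + m = T.d)
    (g : (T.W m).H (2 * (m : ℤ))) (y : ℚ_[ℓ] ⊗[ℤ_[ℓ]] (T.E ℓ n).C (2 * (n : ℤ))) :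
    psi T ℓ n m hd g (((T.E ℓ n).F _).baseChange ℚ_[ℓ] y) = psi T ℓ n m hd g y := by
  induction y using TensorProduct.induction_on with
  | zero => simp
  | tmul r y => rw [LinearMap.baseChange_tmul, psi_tmul, psi_tmul, (T.E ℓ n).inc_F]
  | add a b ha hb => rw [map_add, map_add, ha, hb, map_add]

lemma actE_ext_apply (h : n + m = (F.th Y).d) (z : ((F.th Y).W n).H (2 * (n : ℤ)))
    (g : ((F.th Y).W m).H (2 * (m : ℤ)))
    (y : ℚ_[ℓ] ⊗[ℤ_[ℓ]] ((F.th Y).E ℓ n).C (2 * (n : ℤ))) :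
    F.actE Y ℓ hℓ n (2 * (n : ℤ)) (F.ext Y n m h z g) y =
      psi (F.th Y) ℓ n m h g y • ((1 : ℚ_[ℓ]) ⊗ₜ (F.th Y).cC ℓ n _ (((F.th Y).W n).res _ z)) := by
  induction y using TensorProduct.induction_on with
  | zero => simp
  | tmul r y =>
    have h1 : r ⊗ₜ[ℤ_[ℓ]] y = r • ((1 : ℚ_[ℓ]) ⊗ₜ[ℤ_[ℓ]] y) := by
      rw [smul_tmul', smul_eq_mul, mul_one]
    rw [h1, map_smul, map_smul, F.actE_ext', psi_tmul, one_mul, smul_assoc]
  | add a b ha hb => rw [map_add, map_add, ha, hb, add_smul]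

/-- the classes `z_l` -/
def zz (G : Pre (F.th Y) n m hd) (ℓ : Nat.Primes) (l : Fin G.ρ) :
    ℚ_[ℓ] ⊗[ℤ_[ℓ]] ((F.th Y).E ℓ n).C (2 * (n : ℤ)) :=
  (1 : ℚ_[ℓ]) ⊗ₜ (F.th Y).cC ℓ n _ (((F.th Y).W n).res _ (G.a l))

theorem main (hℓ : ℓ ≠ (F.th Y).p) (G : Pre (F.th Y) n m hd)
    (hB : (F.th (F.sq Y)).B ℓ (F.th Y).d) (i : ℤ)
    (hi : i ≠ 2 * (n : ℤ)) (x : ((F.th Y).W n).C i) (hx : ((F.th Y).W n).F i x = x) : Tors x := by
  classical
  obtain ⟨S, r, hS1, hS2, hS3⟩ := exists_S (F.th Y) n (Finset.Icc 0 (2 * ((F.th Y).d : ℤ)))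
  -- matrices
  set DZ : Matrix (Fin G.ρ) (Fin G.ρ) ℤ := Matrix.of fun j k =>
    (F.th Y).pair n m hd (((F.th Y).W n).inc _ (((F.th Y).W n).res _ (G.a j))) (G.g k) with hDZ
  set DQ : Matrix (Fin G.ρ) (Fin G.ρ) ℚ := DZ.map (Int.castRingHom ℚ) with hDQ
  have hdetQ : DQ.det ≠ 0 := by
    have : DQ.det = ((DZ.det : ℤ) : ℚ) := ((Int.castRingHom ℚ).map_det DZ).symm
    rw [this]
    exact_mod_cast G.det_ne
  set U : Matrix (Fin G.ρ) (Fin G.ρ) ℚ := DQ⁻¹ with hU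
  have hDU : DQ * U = 1 := Matrix.mul_nonsing_inv _ (isUnit_iff_ne_zero.2 hdetQ)
  set UK : Matrix (Fin G.ρ) (Fin G.ρ) ℚ_[ℓ] := U.map (algebraMap ℚ ℚ_[ℓ]) with hUK
  have hDUK : DQ.map (algebraMap ℚ ℚ_[ℓ]) * UK = 1 := by
    rw [hUK, ← Matrix.map_mul, hDU]
    exact Matrix.map_one _ (map_zero _) (map_one _)
  -- the correspondence
  set g0 : F.A Y := (((F.q Y : ℚ) ^ n)⁻¹) • F.γ Y with hg0
  set a : F.A Y := aeval g0 S - S.eval 1 • ∑ l, ∑ k, U k l • F.ext Y n m hd (G.a l) (G.g k) with ha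
  have hq : ((F.q Y : ℚ) ^ n) ≠ 0 := pow_ne_zero _ (by exact_mod_cast (F.q_pos Y).ne')
  have hgE : ∀ j : ℤ, F.actE Y ℓ hℓ n j g0 = (((F.th Y).E ℓ n).F j).baseChange ℚ_[ℓ] := by
    intro j
    rw [hg0, hom_smul (K := ℚ_[ℓ]), F.actE_γ, smul_smul]
    have h1 : ((((F.q Y : ℚ) ^ n)⁻¹ : ℚ) : ℚ_[ℓ]) * (F.q Y : ℚ_[ℓ]) ^ n = 1 := by
      have h2 : (F.q Y : ℚ_[ℓ]) ^ n = (((F.q Y : ℚ) ^ n : ℚ) : ℚ_[ℓ]) := by push_cast; rfl
      rw [h2, ← Rat.cast_mul, inv_mul_cancel₀ hq, Rat.cast_one]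
    rw [h1, one_smul]
  have haE : ∀ j : ℤ, 0 ≤ j → j ≤ 2 * ((F.th Y).d : ℤ) → F.actE Y ℓ hℓ n j a = 0 := by
    intro j hj0 hj1
    have := (F.th Y).finC ℓ hℓ n j
    have hch := (F.th Y).charpoly ℓ hℓ n j
    have e1 : F.actE Y ℓ hℓ n j a = aeval ((((F.th Y).E ℓ n).F j).baseChange ℚ_[ℓ])
        (S.map (algebraMap ℚ ℚ_[ℓ])) - ((S.eval 1 : ℚ) : ℚ_[ℓ]) •
          ∑ l, ∑ k, (U k l : ℚ_[ℓ]) • F.actE Y ℓ hℓ n j (F.ext Y n m hd (G.a l) (G.g k)) := by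
      rw [ha, map_sub, hom_aeval (K := ℚ_[ℓ]), hgE, hom_smul (K := ℚ_[ℓ]), map_sum]
      simp only [map_sum, hom_smul (K := ℚ_[ℓ])]
    rw [e1]
    by_cases hj : j = 2 * (n : ℤ)
    · subst hj
      refine LinearMap.ext fun y => ?_
      have hS1K : (S.map (algebraMap ℚ ℚ_[ℓ])).eval 1 = ((S.eval 1 : ℚ) : ℚ_[ℓ]) := by
        have h1 := Polynomial.eval_map_apply (f := algebraMap ℚ ℚ_[ℓ]) (p := S) (1 : ℚ)
        rw [map_one] at h1
        exact h1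
      have hmul : ((((F.th Y).E ℓ n).F (2 * (n : ℤ))).baseChange ℚ_[ℓ]).charpoly.rootMultiplicity 1
          ≤ G.ρ := by
        rw [hch, RK.mult]
        exact G.big
      have hdvd : ((((F.th Y).E ℓ n).F (2 * (n : ℤ))).baseChange ℚ_[ℓ]).charpoly ∣
          (X - 1) ^ r * S.map (algebraMap ℚ ℚ_[ℓ]) := by
        rw [hch]
        have h1 := Polynomial.map_dvd (algebraMap ℚ ℚ_[ℓ]) hS3
        rw [Polynomial.map_mul, Polynomial.map_pow, Polynomial.map_sub, Polynomial.map_X,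
          Polynomial.map_one] at h1
        exact h1
      have hk := key ((((F.th Y).E ℓ n).F (2 * (n : ℤ))).baseChange ℚ_[ℓ])
        (zz F Y G ℓ) (fun l => by
          rw [zz, LinearMap.baseChange_tmul, ← (F.th Y).res_cH, ((F.th Y).E ℓ n).F_res])
        (fun k => psi (F.th Y) ℓ n m hd (G.g k)) (fun k y => psi_F _ _ _ _ _ _ _) UK (by
          rw [← hDUK]
          congr 1
          ext j k
          rw [Matrix.of_apply, zz, psi_tmul, one_mul, ← (F.th Y).cH_inc, (F.th Y).pair_cH]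
          rw [hDQ, hDZ, Matrix.map_apply, Matrix.map_apply, Matrix.of_apply]
          simp) hmul (S.map (algebraMap ℚ ℚ_[ℓ])) r hdvd y
      rw [LinearMap.sub_apply, hk, hS1K, LinearMap.smul_apply, LinearMap.zero_apply, sub_eq_zero]
      congr 1
      rw [LinearMap.sum_apply]
      refine Finset.sum_congr rfl fun l _ => ?_
      rw [LinearMap.sum_apply, Finset.sum_smul]
      refine Finset.sum_congr rfl fun k _ => ?_
      rw [LinearMap.smul_apply, actE_ext_apply, mul_smul]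
      rfl
    · have h1 : aeval ((((F.th Y).E ℓ n).F j).baseChange ℚ_[ℓ]) (S.map (algebraMap ℚ ℚ_[ℓ])) = 0 := by
        obtain ⟨Q, hQ⟩ := hS2 j (Finset.mem_Icc.2 ⟨hj0, hj1⟩) hj
        rw [hQ, Polynomial.map_mul, map_mul, ← hch, LinearMap.aeval_self_charpoly, zero_mul]
      rw [h1]
      simp only [F.actE_ext Y ℓ hℓ n m hd _ _ j hj, smul_zero, Finset.sum_const_zero, sub_zero]
  have ha0 : a = 0 := by
    apply F.cyc_inj Y
    rw [map_zero]
    exact ratInj (ℓ := ℓ) _ _ hB _ (F.cyc_F Y a) (F.faithful Y ℓ hℓ n a haE)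
  have hact : F.act Y n i a = aeval ((((F.th Y).W n).F i).toIntLinearMap.baseChange ℚ) S := by
    have h1 : F.act Y n i g0 = (((F.th Y).W n).F i).toIntLinearMap.baseChange ℚ := by
      rw [hg0, map_smul, F.act_γ, smul_smul, inv_mul_cancel₀ hq, one_smul]
    rw [ha, map_sub, ← aeval_algHom_apply, h1, map_smul, map_sum]
    simp only [map_sum, map_smul, F.act_ext Y n m hd _ _ i hi, smul_zero, Finset.sum_const_zero,
      sub_zero]
  rw [ha0, map_zero] at hact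
  have hfix : ((((F.th Y).W n).F i).toIntLinearMap.baseChange ℚ) ((1 : ℚ) ⊗ₜ[ℤ] x)
      = (1 : ℚ) ⊗ₜ[ℤ] x := by
    rw [LinearMap.baseChange_tmul]
    exact congrArg (fun y => (1 : ℚ) ⊗ₜ[ℤ] y) hx
  have h2 := aeval_fixed _ S hfix
  rw [← hact, LinearMap.zero_apply] at h2
  exact Q_zero ((smul_eq_zero.1 h2.symm).resolve_left hS1)

end Main

end PAR

/-- Parshin's conjecture for `X` in weight `n` from correspondences. -/
theorem par : S_PAR := fun F X _ hℓ _ _ _ ⟨G⟩ hB i hi x hx => PAR.main F X hℓ G hB i hi x hx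

end WE
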