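import Pool.Agent.WEt.FamDefs
import Pool.Agent.WEt.Final
import Pool.Agent.WEt.PAR

/-!
# Weil-etale motivic cohomology: reduction of the whole conjecture to one prime and to the middle
degree of blow-ups of projective spaces
-/

open TensorProduct Polynomial

noncomputable section

namespace WE

namespace Fam

variable (F : Fam)

/-- the conjecture: `L^n(X)` for all `X` and `n` -/
def Q1 : Prop := ∀ X n, (F.th X).L n

/-- Tate, semisimplicity, and rational = homological equivalence, in codimension `n` at `ℓ` -/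
def TSB (Y : F.V) (ℓ : Nat.Primes) (n : ℕ) : Prop :=
  (F.th Y).TC ℓ n ∧ (F.th Y).SS ℓ n ∧ (F.th Y).B ℓ n

theorem fg_of_inj {A B : Type} [AddCommGroup A] [AddCommGroup B] (f : A →+ B)
    (hf : Function.Injective f) (h : AddGroup.FG B) : AddGroup.FG A := by
  have : Module.Finite ℤ B := Module.Finite.iff_addGroup_fg.2 h
  exact Module.Finite.iff_addGroup_fg.1 (Module.Finite.of_injective f.toIntLinearMap hf)

/-- finite generation for `X` in weight `n` from the middle degree of a blow-up -/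
theorem L_of_BL (X : F.V) (n : ℕ)
    (h : ∀ N, F.M0 X ≤ 2 * N → (F.th (F.BL X (2 * N))).L N) : (F.th X).L n := by
  intro i
  set N := F.M0 X + (F.th X).d + n + 1 with hN
  have hadm : Adm (F.M0 X) (F.th X).d (2 * N) n (F.M0 X + (F.th X).d + 1) N i
      (i + 2 * ((F.M0 X + (F.th X).d + 1 : ℕ) : ℤ)) := ⟨by omega, by omega, by omega, by omega, rfl⟩
  exact fg_of_inj _ (F.blH_inj X _ _ _ _ _ _ hadm) (h N (by omega) _)

/-- rational = homological equivalence for `X` in codimension `n` from a blow-up -/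
theorem B_of_BL (X : F.V) (n M j n' : ℕ) (hM : F.M0 X ≤ M) (hj : 1 ≤ j)
    (hle : j + (F.th X).d + 1 ≤ M) (hn : n' = n + j) (ℓ : Nat.Primes)
    (h : (F.th (F.BL X M)).B ℓ n') : (F.th X).B ℓ n := by
  intro x hx hc
  have hadm : Adm (F.M0 X) (F.th X).d M n j n' (2 * (n : ℤ)) (2 * (n' : ℤ)) :=
    ⟨hM, hj, hle, hn, by rw [hn]; push_cast; ring⟩
  obtain ⟨K, hK, hKx⟩ := h (F.blC X M n j n' _ _ hadm x) (by rw [F.blC_F, hx])
    (by rw [F.blE_cC]; exact hc.map _)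
  refine ⟨K, hK, F.blC_inj X M n j n' _ _ hadm ?_⟩
  rw [map_zsmul, hKx, map_zero]

theorem exists_ne (p : Nat.Primes) : ∃ ℓ : Nat.Primes, ℓ ≠ p := by
  by_cases h : p = ⟨2, Nat.prime_two⟩
  · refine ⟨⟨3, Nat.prime_three⟩, fun h' => ?_⟩
    rw [h] at h'
    have := congrArg (fun q : Nat.Primes => (q : ℕ)) h'
    norm_num at this
  · exact ⟨⟨2, Nat.prime_two⟩, fun h' => h h'.symm⟩

/-- the key step: the middle degree of one blow-up from `TSB` at one prime for all blow-ups -/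
theorem L_mid (hPRE : S_PRE) (hPAR : S_PAR) (hPGD : S_PGD)
    (h : ∀ X N, F.M0 X ≤ 2 * N → ∃ ℓ, ℓ ≠ (F.th X).p ∧ F.TSB (F.BL X (2 * N)) ℓ N)
    (X : F.V) (N : ℕ) (hN : F.M0 X ≤ 2 * N) : (F.th (F.BL X (2 * N))).L N := by
  obtain ⟨ℓ, hℓ, hT, hS, hB⟩ := h X N hN
  set Y := F.BL X (2 * N) with hY
  have hdY : (F.th Y).d = 2 * N := F.d_BL X _ hN
  have hd : N + N = (F.th Y).d := by rw [hdY]; ring
  have hpY : (F.th Y).p = (F.th X).p := F.p_BL X _ hN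
  have hPre : Nonempty (Pre (F.th Y) N N hd) := hPRE (F.th Y) ℓ (by rw [hpY]; exact hℓ) N N hd hT hS hB hT
  -- the product `Y × Y` and a blow-up of a projective space along it
  set N' := F.M0 (F.sq Y) + (F.th (F.sq Y)).d + (F.th Y).d + 1 with hN'
  obtain ⟨ℓ', hℓ', -, -, hB'⟩ := h (F.sq Y) N' (by omega)
  have hB2 : (F.th (F.sq Y)).B ℓ' (F.th Y).d :=
    F.B_of_BL (F.sq Y) (F.th Y).d (2 * N') (F.M0 (F.sq Y) + (F.th (F.sq Y)).d + 1) N'
      (by omega) (by omega) (by omega) (by omega) ℓ' hB'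
  rw [F.p_sq] at hℓ'
  exact hPGD (F.th Y) N N hd hPre
    (hPAR F Y ℓ' hℓ' N N hd hPre hB2)

theorem main (hPRE : S_PRE) (hPAR : S_PAR) (hPGD : S_PGD) (hFWD : S_FWD) :
    [F.Q1,
      ∀ Y N, (F.th Y).d = 2 * N → ∀ ℓ, ℓ ≠ (F.th Y).p → F.TSB Y ℓ N,
      ∀ X N, F.M0 X ≤ 2 * N → ∃ ℓ, ℓ ≠ (F.th X).p ∧ (F.th (F.BL X (2 * N))).KQ ℓ N,
      ∀ X N, F.M0 X ≤ 2 * N → ∃ ℓ, ℓ ≠ (F.th X).p ∧ F.TSB (F.BL X (2 * N)) ℓ N].TFAE := by
  have hTSB : ∀ (Y : F.V) (N : ℕ), (F.th Y).d = 2 * N → ∀ ℓ, ℓ ≠ (F.th Y).p →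
      (F.th Y).KQ ℓ N → F.TSB Y ℓ N := by
    intro Y N hd ℓ hℓ hK
    have hd' : N + N = (F.th Y).d := by rw [hd]; ring
    exact hFWD (F.th Y) ℓ hℓ N N hd' hK (T_of_KQ _ hℓ hd' le_rfl hK)
  tfae_have 1 → 2 := by
    intro h Y N hd ℓ hℓ
    exact hTSB Y N hd ℓ hℓ ((final (F.th Y) ℓ hℓ N (Or.inl hd.ge)).out 0 2 |>.1 (h Y N))
  tfae_have 1 → 3 := by
    intro h X N hN
    obtain ⟨ℓ, hℓ⟩ := exists_ne (F.th X).p
    exact ⟨ℓ, hℓ, (final (F.th (F.BL X (2 * N))) ℓ (by rw [F.p_BL X _ hN]; exact hℓ) N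
      (Or.inl (F.d_BL X _ hN).ge)).out 0 2 |>.1 (h _ N)⟩
  tfae_have 3 → 4 := by
    intro h X N hN
    obtain ⟨ℓ, hℓ, hK⟩ := h X N hN
    exact ⟨ℓ, hℓ, hTSB _ N (F.d_BL X _ hN) ℓ (by rw [F.p_BL X _ hN]; exact hℓ) hK⟩
  tfae_have 2 → 4 := by
    intro h X N hN
    obtain ⟨ℓ, hℓ⟩ := exists_ne (F.th X).p
    exact ⟨ℓ, hℓ, h _ N (F.d_BL X _ hN) ℓ (by rw [F.p_BL X _ hN]; exact hℓ)⟩
  tfae_have 4 → 1 := fun h X n => F.L_of_BL X n (fun N hN => F.L_mid hPRE hPAR hPGD h X N hN)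
  tfae_finish

end Fam

end WE
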