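import Pool.Agent.WEt.FamDefs
import Pool.Agent.WEt.Final

set_option autoImplicit false

/-!
# Weil-etale cohomology: MODULE PGD

Parshin's conjecture in weight `n` and nonsingular intersection matrices imply `L^n`.
-/

open TensorProduct Polynomial

noncomputable section

namespace WE

namespace PGD

variable (W : Weil)

/-- if all Frobenius invariant elements of `C i` are torsion, then so are all elements `inc w` -/
theorem inc_tors' {i : ℤ} (h : ∀ x : W.C i, W.F i x = x → Tors x) (w : W.C i) :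
    Tors (W.inc i w) := by
  obtain ⟨k, t, hk, ht⟩ := ORB.trace W w
  have h1 : Tors (W.inc i (W.res i t)) := (h _ ((W.res_mem i _).mp ⟨t, rfl⟩)).map _
  rw [ht, ← natCast_zsmul] at h1
  exact Tors.of_zsmul (by exact_mod_cast hk.ne') h1

/-- an element of `H (i + 1)` with torsion restriction is torsion -/
theorem tors_of_res {i : ℤ} (h : ∀ x : W.C i, W.F i x = x → Tors x) {j : ℤ} (hj : j = i + 1)
    (x : W.H j) (hx : Tors (W.res j x)) : Tors x := by
  subst hj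
  obtain ⟨N, hN, h1⟩ := hx
  rw [← map_zsmul] at h1
  obtain ⟨w, hw⟩ := (W.res_eq_zero i _).mp h1
  exact Tors.of_zsmul hN (hw ▸ inc_tors' W h w)

end PGD

/-- MODULE PGD -/
theorem pgd : S_PGD := by
  intro X n m hd ⟨P⟩ hpar
  have hmax : ∀ x : (X.W n).H (2 * (n : ℤ)),
      ∃ N : ℤ, N ≠ 0 ∧ ∃ c : Fin P.ρ → ℤ, Tors (N • x - ∑ j, c j • P.a j) := by
    intro x
    obtain ⟨N, hN, c, hc⟩ := P.maxC _ (((X.W n).res_mem _ _).mp ⟨x, rfl⟩)
    refine ⟨N, hN, c, ?_⟩
    refine PGD.tors_of_res (X.W n) (i := 2 * (n : ℤ) - 1) (hpar _ (by omega)) (by ring) _ ?_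
    rw [map_sub, map_zsmul, map_sum]
    simpa only [map_zsmul] using hc
  have hmax' : ∀ x : (X.W n).H (2 * (n : ℤ) + 1),
      ∃ N : ℤ, N ≠ 0 ∧ ∃ c : Fin P.ρ → ℤ, Tors (N • x - ∑ j, c j • eW X n (P.a j)) := by
    intro x
    obtain ⟨M, hM, h1⟩ := hpar (2 * (n : ℤ) + 1) (by omega) _
      (((X.W n).res_mem _ _).mp ⟨x, rfl⟩)
    rw [← map_zsmul] at h1
    obtain ⟨w, hw⟩ := ((X.W n).res_eq_zero _ _).mp h1
    obtain ⟨k, h, hk, hh⟩ := ORB.trace (X.W n) w
    obtain ⟨N, hN, c, hc⟩ := hmax h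
    refine ⟨N * ((k : ℤ) * M), mul_ne_zero hN (mul_ne_zero (by exact_mod_cast hk.ne') hM), c, ?_⟩
    have h2 := hc.map (eW X n)
    have h3 : (eW X n) (N • h - ∑ j, c j • P.a j) =
        (N * ((k : ℤ) * M)) • x - ∑ j, c j • eW X n (P.a j) := by
      rw [map_sub, map_zsmul, map_sum, mul_smul, mul_smul, ← hw, natCast_zsmul, ← hh]
      simp only [map_zsmul]
      rfl
    rwa [h3] at h2
  let G : Good X n m hd := ⟨P.ρ, P.a, P.g, P.det_ne, hmax, hmax'⟩
  have hG : G.Big := ⟨fun ℓ => (rank_even X rk ℓ n _ rfl).trans P.big,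
    fun ℓ => (rank_odd X rk ℓ n _ rfl).trans P.big⟩
  refine G.fg loc rk pq ann cha chb fin tor fg hG fun i h1 h2 x => ?_
  refine PGD.tors_of_res (X.W n) (i := i - 1) (hpar _ (by omega)) (by ring) x ?_
  exact hpar i h1 _ (((X.W n).res_mem _ _).mp ⟨x, rfl⟩)

end WE
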