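import Pool.Agent.WEt.FamDefs
import Pool.Agent.WEt.Final

/-!
# Module WEF_PRE (MP_cb388a_ag): the data `Pre` from the Tate conjecture, semisimplicity and
injectivity of the cycle class map at one prime
-/

open TensorProduct Polynomial

noncomputable section

namespace WE

namespace PRE

section Fam

variable {ℓ : Nat.Primes} {A E : Type} [AddCommGroup A] [AddCommGroup E] [Module ℤ_[ℓ] E]

/-- independence modulo torsion -/
def Ind (c : A →+ E) {ρ : ℕ} (a : Fin ρ → A) : Prop :=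
  ∀ x : Fin ρ → ℤ_[ℓ], Tors (∑ j, x j • c (a j)) → x = 0

theorem Ind.le [Module.Finite ℤ_[ℓ] E] {c : A →+ E} {ρ : ℕ} {a : Fin ρ → A} (h : Ind (ℓ := ℓ) c a) :
    ρ ≤ Module.finrank ℤ_[ℓ] E := by
  have h1 : LinearIndependent ℤ_[ℓ] (fun j => c (a j)) := by
    rw [Fintype.linearIndependent_iff]
    intro x hx i
    rw [h x (Tors.of_eq_zero hx)]
    rfl
  simpa using h1.fintype_card_le_finrank

theorem span_comb (c : A →+ E) {ρ : ℕ} (a : Fin ρ → A)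
    (h : ∀ y : A, ∃ u : ℤ_[ℓ], u ≠ 0 ∧ ∃ x : Fin ρ → ℤ_[ℓ],
      Tors (u • c y - ∑ j, x j • c (a j))) (s : E)
    (hs : s ∈ Submodule.span ℤ_[ℓ] (Set.range c)) :
    ∃ u : ℤ_[ℓ], u ≠ 0 ∧ ∃ x : Fin ρ → ℤ_[ℓ], Tors (u • s - ∑ j, x j • c (a j)) := by
  induction hs using Submodule.span_induction with
  | mem s hs =>
    obtain ⟨y, rfl⟩ := hs
    exact h y
  | zero => exact ⟨1, one_ne_zero, 0, Tors.of_eq_zero (by simp)⟩
  | add s t _ _ hs ht =>
    obtain ⟨u, hu, x, hx⟩ := hs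
    obtain ⟨v, hv, y, hy⟩ := ht
    refine ⟨v * u, mul_ne_zero hv hu, v • x + u • y, ?_⟩
    have h1 := (hx.smul v).add (hy.smul u)
    convert h1 using 1
    simp only [smul_sub, smul_add, Finset.smul_sum, smul_smul, Pi.add_apply, Pi.smul_apply,
      smul_eq_mul, add_smul, Finset.sum_add_distrib, mul_comm u v]
    abel
  | smul b s _ hs =>
    obtain ⟨u, hu, x, hx⟩ := hs
    refine ⟨u, hu, b • x, ?_⟩
    have h1 := hx.smul b
    convert h1 using 1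
    simp only [smul_sub, Finset.smul_sum, smul_smul, Pi.smul_apply, smul_eq_mul, mul_comm u b]

theorem exists_fam [Module.Finite ℤ_[ℓ] E] (c : A →+ E)
    (hsp : ∀ e : E, ∃ u : ℤ_[ℓ], u ≠ 0 ∧ ∃ s ∈ Submodule.span ℤ_[ℓ] (Set.range c),
      Tors (u • e - s)) :
    ∃ (ρ : ℕ) (a : Fin ρ → A), Ind (ℓ := ℓ) c a ∧
      (∀ e : E, ∃ u : ℤ_[ℓ], u ≠ 0 ∧ ∃ x : Fin ρ → ℤ_[ℓ],
        Tors (u • e - ∑ j, x j • c (a j))) ∧
      Module.finrank ℤ_[ℓ] E ≤ ρ := by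
  classical
  have hex : ∃ ρ : ℕ, ∃ a : Fin ρ → A, Ind (ℓ := ℓ) c a :=
    ⟨0, fun j => j.elim0, fun x _ => funext fun j => j.elim0⟩
  obtain ⟨ρ, ⟨a, ha⟩, hmax⟩ : ∃ ρ : ℕ, (∃ a : Fin ρ → A, Ind (ℓ := ℓ) c a) ∧
      ∀ ρ', (∃ a : Fin ρ' → A, Ind (ℓ := ℓ) c a) → ρ' ≤ ρ := by
    have hb : ∀ ρ', (∃ a : Fin ρ' → A, Ind (ℓ := ℓ) c a) → ρ' ≤ Module.finrank ℤ_[ℓ] E :=
      fun ρ' ⟨a, ha⟩ => ha.le
    obtain ⟨ρ₀, h0⟩ := hex
    exact ⟨Nat.findGreatest (fun ρ => ∃ a : Fin ρ → A, Ind (ℓ := ℓ) c a)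
        (Module.finrank ℤ_[ℓ] E),
      Nat.findGreatest_spec (P := fun ρ => ∃ a : Fin ρ → A, Ind (ℓ := ℓ) c a) (hb _ h0) h0,
      fun ρ' h' => Nat.le_findGreatest (hb _ h') h'⟩
  have h1 : ∀ y : A, ∃ u : ℤ_[ℓ], u ≠ 0 ∧ ∃ x : Fin ρ → ℤ_[ℓ],
      Tors (u • c y - ∑ j, x j • c (a j)) := by
    intro y
    have h2 : ¬ Ind (ℓ := ℓ) c (Fin.cons y a : Fin (ρ + 1) → A) := by
      intro h
      have := hmax _ ⟨_, h⟩
      omega
    unfold Ind at h2
    push Not at h2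
    obtain ⟨x, hx, hne⟩ := h2
    rw [Fin.sum_univ_succ] at hx
    simp only [Fin.cons_zero, Fin.cons_succ] at hx
    refine ⟨x 0, ?_, fun j => - x j.succ, ?_⟩
    · intro h0
      apply hne
      rw [h0, zero_smul, zero_add] at hx
      have h3 := ha (fun j => x j.succ) hx
      funext j
      refine Fin.cases h0 (fun i => ?_) j
      exact congrFun h3 i
    · simpa using hx
  have h2 : ∀ e : E, ∃ u : ℤ_[ℓ], u ≠ 0 ∧ ∃ x : Fin ρ → ℤ_[ℓ],
      Tors (u • e - ∑ j, x j • c (a j)) := by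
    intro e
    obtain ⟨u, hu, s, hs, hus⟩ := hsp e
    obtain ⟨v, hv, x, hx⟩ := span_comb c a h1 s hs
    refine ⟨v * u, mul_ne_zero hv hu, x, ?_⟩
    have h3 := (hus.smul v).add hx
    convert h3 using 1
    rw [smul_sub, smul_smul]
    abel
  refine ⟨ρ, a, ha, h2, ?_⟩
  have h3 : Module.finrank ℤ_[ℓ] (E ⧸ Submodule.span ℤ_[ℓ] (Set.range fun j => c (a j))) = 0 := by
    apply finrank_zero_of_tors
    intro e
    obtain ⟨e, rfl⟩ := Submodule.mkQ_surjective _ e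
    obtain ⟨u, hu, x, hx⟩ := h2 e
    apply Tors.of_smul hu
    have h4 := hx.lmap (Submodule.span ℤ_[ℓ] (Set.range fun j => c (a j))).mkQ
    rw [map_sub, map_smul] at h4
    have h5 : (Submodule.span ℤ_[ℓ] (Set.range fun j => c (a j))).mkQ
        (∑ j, x j • c (a j)) = 0 := by
      rw [Submodule.mkQ_apply, Submodule.Quotient.mk_eq_zero]
      exact Submodule.sum_mem _ fun j _ =>
        Submodule.smul_mem _ _ (Submodule.subset_span ⟨j, rfl⟩)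
    rwa [h5, sub_zero] at h4
  have h4 := (Submodule.span ℤ_[ℓ] (Set.range fun j => c (a j))).finrank_quotient_add_finrank
  rw [h3, zero_add] at h4
  rw [← h4]
  have h5 := finrank_range_le_card (R := ℤ_[ℓ]) (fun j => c (a j))
  simpa [Set.finrank] using h5

end Fam

variable (X : Theory)

theorem res_ker {ℓ : Nat.Primes} (hℓ : ℓ ≠ X.p) (n : ℕ) (k : ℤ) (hk : k = 2 * (n : ℤ))
    (x : (X.E ℓ n).H k) (hx : (X.E ℓ n).res k x = 0) : Tors x := by
  obtain ⟨j, rfl⟩ : ∃ j, k = j + 1 := ⟨k - 1, by ring⟩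
  obtain ⟨y, hy⟩ := ((X.E ℓ n).res_eq_zero j _).mp hx
  rw [← hy]
  exact inc_tors X rk hℓ n j (by omega) y

theorem res_tors {ℓ : Nat.Primes} (hℓ : ℓ ≠ X.p) (n : ℕ) (x : (X.E ℓ n).H (2 * (n : ℤ)))
    (hx : Tors ((X.E ℓ n).res _ x)) : Tors x := by
  obtain ⟨N, hN, h⟩ := hx
  rw [← map_zsmul] at h
  exact Tors.of_zsmul hN (res_ker X hℓ n _ rfl _ h)

/-- the classes `cH h` span up to torsion -/
theorem span_cH {ℓ : Nat.Primes} (hℓ : ℓ ≠ X.p) (n : ℕ) (hT : X.TC ℓ n)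
    (e : (X.E ℓ n).H (2 * (n : ℤ))) : ∃ u : ℤ_[ℓ], u ≠ 0 ∧
      ∃ s ∈ Submodule.span ℤ_[ℓ] (Set.range (X.cH ℓ n (2 * (n : ℤ)))), Tors (u • e - s) := by
  obtain ⟨N, hN, hy⟩ := hT _ ((X.E ℓ n).F_res _ e)
  have hle : Submodule.span ℤ_[ℓ] {z | ∃ x, (X.W n).F _ x = x ∧ X.cC ℓ n _ x = z} ≤
      (Submodule.span ℤ_[ℓ] (Set.range (X.cH ℓ n (2 * (n : ℤ))))).map ((X.E ℓ n).res _) := by
    rw [Submodule.span_le]
    rintro z ⟨x, hx, rfl⟩
    obtain ⟨h, rfl⟩ := ((X.W n).res_mem _ x).mpr hx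
    exact ⟨X.cH ℓ n _ h, Submodule.subset_span ⟨h, rfl⟩, X.res_cH ℓ n _ h⟩
  obtain ⟨s, hs, hse⟩ := hle hy
  refine ⟨(N : ℤ_[ℓ]), int_ne hN, s, hs, ?_⟩
  apply res_ker X hℓ n _ rfl
  rw [map_sub, hse, map_smul, ← zsmul_eq, sub_self]

/-- `e x` torsion implies `x` torsion, on the `ℓ`-adic side -/
theorem eE_tors {ℓ : Nat.Primes} (hℓ : ℓ ≠ X.p) (n : ℕ) (hS : X.SS ℓ n)
    (x : (X.E ℓ n).H (2 * (n : ℤ))) (hx : Tors (eE X ℓ n x)) : Tors x := by
  obtain ⟨N, hN, h⟩ := hx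
  have h' : (X.E ℓ n).inc _ (N • (X.E ℓ n).res _ x) = 0 := by
    rw [map_zsmul]
    exact h
  obtain ⟨z, hz⟩ := ((X.E ℓ n).inc_eq_zero _ _).mp h'
  have h1 : Tors ((X.E ℓ n).F _ z - z) := by
    apply hS
    rw [← hz, map_zsmul, (X.E ℓ n).F_res]
  rw [← hz] at h1
  exact res_tors X hℓ n x (Tors.of_zsmul hN h1)

end PRE

open PRE in
theorem pre : S_PRE := by
  intro X ℓ hℓ n m hd hTn hS hB hTm
  have := (X.E ℓ n).finH (2 * (n : ℤ))
  obtain ⟨ρ, a, ha1, ha2, ha3⟩ := exists_fam (X.cH ℓ n (2 * (n : ℤ))) (span_cH X hℓ n hTn)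
  -- independence of the rows
  have hrow : ∀ c : Fin ρ → ℤ, (∀ g, ∑ j, c j * X.pair n m hd (eW X n (a j)) g = 0) → c = 0 := by
    intro c hc
    have h1 : ∀ g, X.pair n m hd (eW X n (∑ j, c j • a j)) g = 0 := by
      intro g
      rw [← hc g]
      simp [map_sum, map_zsmul]
    have h1' : ∀ s ∈ Submodule.span ℤ_[ℓ] (Set.range (X.cH ℓ m (2 * (m : ℤ)))),
        X.pairE ℓ n m hd (X.cH ℓ n _ (eW X n (∑ j, c j • a j))) s = 0 := by
      intro s hs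
      induction hs using Submodule.span_induction with
      | mem s hs =>
        obtain ⟨g, rfl⟩ := hs
        rw [X.pair_cH, h1]
        simp
      | zero => simp
      | add s t _ _ hs ht => rw [map_add, hs, ht, add_zero]
      | smul b s _ hs => rw [map_smul, hs, smul_zero]
    have h2 : Tors (X.cH ℓ n _ (eW X n (∑ j, c j • a j))) := by
      refine X.pairE_ker ℓ hℓ n m hd _ fun y => ?_
      obtain ⟨u, hu, s, hs, hus⟩ := span_cH X hℓ m hTm y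
      have h3 := h1' s hs
      have h4 := (hus.lmap (X.pairE ℓ n m hd (X.cH ℓ n _ (eW X n (∑ j, c j • a j))))).eq_zero
      rw [map_sub, h3, sub_zero, map_smul, smul_eq_mul] at h4
      exact (mul_eq_zero.mp h4).resolve_left hu
    rw [← eE_cH] at h2
    have h3 := eE_tors X hℓ n hS _ h2
    have h4 : Tors (∑ j, ((c j : ℤ) : ℤ_[ℓ]) • X.cH ℓ n _ (a j)) := by
      convert h3 using 1
      rw [map_sum]
      refine Finset.sum_congr rfl fun j _ => ?_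
      rw [map_zsmul, zsmul_eq (ℓ := ℓ)]
    have h5 := ha1 _ h4
    funext j
    have h6 := congrFun h5 j
    simpa using h6
  obtain ⟨g, hg⟩ := glob ((X.W m).H (2 * (m : ℤ))) ρ
    (fun j g => X.pair n m hd (eW X n (a j)) g) hrow
  refine ⟨⟨ρ, a, g, hg, ?_, (rank_even_eq X rk hℓ n _ hS).trans ha3⟩⟩
  intro x hx
  obtain ⟨h, rfl⟩ := ((X.W n).res_mem _ x).mpr hx
  set M : Matrix (Fin ρ) (Fin ρ) ℤ :=
    Matrix.of fun j k => X.pair n m hd (eW X n (a j)) (g k) with hM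
  set p : Fin ρ → ℤ := fun k => X.pair n m hd (eW X n h) (g k) with hp
  set c : Fin ρ → ℤ := Matrix.vecMul p M.adjugate with hc
  have hcM : Matrix.vecMul c M = M.det • p := by
    rw [hc, Matrix.vecMul_vecMul, Matrix.adjugate_mul]
    simp
  refine ⟨M.det, hg, c, ?_⟩
  set h' := M.det • h - ∑ j, c j • a j with hh'
  have hres : M.det • (X.W n).res _ h - ∑ j, c j • (X.W n).res _ (a j) =
      (X.W n).res _ h' := by
    rw [hh', map_sub, map_zsmul, map_sum]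
    simp only [map_zsmul]
  rw [hres]
  have hz : ∀ k, X.pair n m hd (eW X n h') (g k) = 0 := by
    intro k
    have h1 := congrFun hcM k
    have h1 : ∑ j, c j * X.pair n m hd (eW X n (a j)) (g k) =
        M.det * X.pair n m hd (eW X n h) (g k) := h1
    have h2 : X.pair n m hd (eW X n h') (g k) = M.det * X.pair n m hd (eW X n h) (g k) -
        ∑ j, c j * X.pair n m hd (eW X n (a j)) (g k) := by
      rw [hh']
      simp [map_sub, map_zsmul, map_sum]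
    rw [h2, h1, sub_self]
  -- at the prime `ℓ`
  obtain ⟨u, hu, b, hb⟩ := ha2 (X.cH ℓ n _ h')
  have hφ : ∀ (k : Fin ρ) (y : (X.W n).H (2 * (n : ℤ))),
      X.pairE ℓ n m hd (eE X ℓ n (X.cH ℓ n _ y)) (X.cH ℓ m _ (g k)) =
        ((X.pair n m hd (eW X n y) (g k) : ℤ) : ℤ_[ℓ]) := by
    intro k y
    rw [eE_cH, X.pair_cH]
  have hb0 : b = 0 := by
    have h3 : (Matrix.of fun j k : Fin ρ =>
        ((X.pair n m hd (eW X n (a j)) (g k) : ℤ) : ℤ_[ℓ])).det ≠ 0 := by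
      have h4 : (Matrix.of fun j k : Fin ρ =>
          ((X.pair n m hd (eW X n (a j)) (g k) : ℤ) : ℤ_[ℓ])).det = (M.det : ℤ_[ℓ]) :=
        ((Int.castRingHom ℤ_[ℓ]).map_det M).symm
      rw [h4]
      exact int_ne hg
    refine Matrix.eq_zero_of_vecMul_eq_zero h3 ?_
    ext k
    have h5 := (hb.lmap (((X.pairE ℓ n m hd).flip (X.cH ℓ m _ (g k))).comp
      (eE X ℓ n))).eq_zero
    rw [map_sub, map_smul, map_sum] at h5
    simp only [LinearMap.comp_apply, LinearMap.flip_apply, map_smul, hφ, hz, Int.cast_zero,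
      smul_eq_mul] at h5
    simpa [Matrix.vecMul, dotProduct] using h5
  rw [hb0] at hb
  simp only [Pi.zero_apply, zero_smul, Finset.sum_const_zero, sub_zero] at hb
  have h6 := (Tors.of_smul hu hb).lmap ((X.E ℓ n).res _)
  rw [X.res_cH] at h6
  exact hB _ (((X.W n).res_mem _ _).mp ⟨_, rfl⟩) h6

end WE
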