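import Pool.Agent.WEt.FamDefs
import Pool.Agent.WEt.Final

/-!
# Weil-etale cohomology: the single group `H^(2n+1)_W(X, ℤ(n))`

If `H^(2n+1)_W(X, ℤ(n))` is finitely generated then, for every prime `ℓ`, the Tate conjecture,
semisimplicity of the eigenvalue `1` and the injectivity of the cycle map hold in codimension `n`.
-/

open TensorProduct Polynomial

noncomputable section

namespace WE

namespace SG

open KL

theorem hps {ℓ : Nat.Primes} (M : Type) [AddCommGroup M] [Module ℤ_[ℓ] M] (k : ℕ) (x : M) :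
    (((ℓ : ℕ) : ℤ_[ℓ]) ^ k) • x = ((ℓ : ℕ) ^ k) • x := by
  rw [← Nat.cast_pow, Nat.cast_smul_eq_nsmul]

theorem tens1 {ℓ : Nat.Primes} {H E : Type} [AddCommGroup H] [AddCommGroup E]
    [Module ℤ_[ℓ] E] (c : H →+ E) (h : H) : tens ℓ c ((1 : ℤ_[ℓ]) ⊗ₜ[ℤ] h) = c h := by
  simp [tens]

/-- If `H` is finitely generated then `ℤ_ℓ ⊗ H → E` is injective. -/
theorem kl_inj (ℓ : Nat.Primes) (H E Q₀ Q : Type) [AddCommGroup H] [AddCommGroup E]
    [Module ℤ_[ℓ] E] [AddCommGroup Q₀] [AddCommGroup Q]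
    (δ₀ : Q₀ →+ H) (c : H →+ E) (q : E →+ Q)
    (hc : ∀ h, c h = 0 ↔ ∃ y, δ₀ y = h) (hq : ∀ e, q e = 0 ↔ ∃ h, c h = e)
    (hQ0 : Function.Bijective (fun y : Q₀ => (ℓ : ℕ) • y))
    (hQ : Function.Bijective (fun y : Q => (ℓ : ℕ) • y))
    (hH : AddGroup.FG H) : Function.Injective (tens ℓ c) := by
  have fH : Module.Finite ℤ H := Module.Finite.iff_addGroup_fg.2 hH
  rw [injective_iff_map_eq_zero]
  intro t ht
  apply krull ℓ _ t
  intro k
  obtain ⟨h, t', e⟩ := dens ℓ H k t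
  have e1 : c h + ((ℓ : ℕ) ^ k) • tens ℓ c t' = 0 := by
    rw [← hps (ℓ := ℓ), ← tens1 (ℓ := ℓ) c, ← map_smul, ← map_add, ← e, ht]
  have e2 : q (tens ℓ c t') = 0 := by
    have hz : (ℓ : ℕ) ^ k • q (tens ℓ c t') = 0 := by
      have : q (c h + ((ℓ : ℕ) ^ k) • tens ℓ c t') = 0 := by rw [e1, map_zero]
      rw [map_add, map_nsmul, (hq (c h)).2 ⟨h, rfl⟩, zero_add] at this
      exact this
    apply (pdiv ℓ hQ k).1
    simp only [smul_zero]
    exact hz
  obtain ⟨h', e3⟩ := (hq _).1 e2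
  have e4 : c (h + ((ℓ : ℕ) ^ k) • h') = 0 := by
    rw [map_add, map_nsmul, e3, e1]
  obtain ⟨y, e5⟩ := (hc _).1 e4
  obtain ⟨y', e6⟩ := (pdiv ℓ hQ0 k).2 y
  simp only at e6
  refine ⟨(1 : ℤ_[ℓ]) ⊗ₜ[ℤ] (δ₀ y' - h') + t', ?_⟩
  rw [e, smul_add]
  congr 1
  rw [hps, ← TensorProduct.tmul_smul, smul_sub, ← map_nsmul, e6, e5]
  congr 1
  abel

/-- If `H'` is finitely generated then `ℤ_ℓ ⊗ H → E` is surjective. -/
theorem kl_surj (ℓ : Nat.Primes) (H H' E Q : Type) [AddCommGroup H] [AddCommGroup H']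
    [AddCommGroup E] [Module ℤ_[ℓ] E] [Module.Finite ℤ_[ℓ] E] [AddCommGroup Q]
    (c : H →+ E) (q : E →+ Q) (δ : Q →+ H')
    (hq : ∀ e, q e = 0 ↔ ∃ h, c h = e) (hδ : ∀ y, δ y = 0 ↔ ∃ e, q e = y)
    (hQ : Function.Bijective (fun y : Q => (ℓ : ℕ) • y))
    (hH' : AddGroup.FG H') : Function.Surjective (tens ℓ c) := by
  have fH' : Module.Finite ℤ H' := Module.Finite.iff_addGroup_fg.2 hH'
  intro e
  have hN : IsNoetherian ℤ H' := inferInstance
  -- kernels
  let K : ℕ →o Submodule ℤ H' :=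
    { toFun := fun k => LinearMap.ker (LinearMap.lsmul ℤ H' (((ℓ : ℕ) : ℤ) ^ k))
      monotone' := by
        intro a b hab x hx
        simp only [LinearMap.mem_ker, LinearMap.lsmul_apply] at hx ⊢
        obtain ⟨m, rfl⟩ := Nat.exists_eq_add_of_le hab
        rw [pow_add, mul_comm, mul_smul, hx, smul_zero] }
  obtain ⟨a, ha⟩ := (monotone_stabilizes_iff_noetherian.2 hN) K
  have hstab : ∀ (k : ℕ) (x : H'), ((ℓ : ℕ) ^ k) • x = 0 → ((ℓ : ℕ) ^ a) • x = 0 := by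
    intro k x hx
    have h1 : x ∈ K (k + a) := by
      simp only [K, OrderHom.coe_mk, LinearMap.mem_ker, LinearMap.lsmul_apply]
      have : (((ℓ : ℕ) : ℤ) ^ (k + a)) • x = ((ℓ : ℕ) ^ a) • (((ℓ : ℕ) ^ k) • x) := by
        rw [← mul_smul, ← pow_add, add_comm a k]
        norm_cast
      rw [this, hx, smul_zero]
    rw [← ha (k + a) (Nat.le_add_left _ _)] at h1
    simp only [K, OrderHom.coe_mk, LinearMap.mem_ker, LinearMap.lsmul_apply] at h1
    have : (((ℓ : ℕ) : ℤ) ^ a) • x = ((ℓ : ℕ) ^ a) • x := by norm_cast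
    rw [← this, h1]
  have key : ∀ k : ℕ, ∃ (h : H) (e' : E), e = c h + ((ℓ : ℕ) ^ k) • e' := by
    intro k
    obtain ⟨y, hy⟩ := (pdiv ℓ hQ (k + a)).2 (q e)
    simp only at hy
    have h1 : ((ℓ : ℕ) ^ (k + a)) • δ y = 0 := by
      rw [← map_nsmul, hy]
      exact (hδ _).2 ⟨e, rfl⟩
    have h2 := hstab _ _ h1
    rw [← map_nsmul] at h2
    obtain ⟨e', he'⟩ := (hδ _).1 h2
    have h3 : q (e - ((ℓ : ℕ) ^ k) • e') = 0 := by
      rw [map_sub, map_nsmul, he', ← mul_smul, ← pow_add, hy, sub_self]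
    obtain ⟨h, hh⟩ := (hq _).1 h3
    exact ⟨h, e', by rw [hh]; abel⟩
  have hmem : e ∈ LinearMap.range (tens ℓ c) := by
    rw [← Submodule.Quotient.mk_eq_zero]
    apply krull ℓ _ _
    intro k
    obtain ⟨h, e', he⟩ := key k
    refine ⟨Submodule.Quotient.mk e', ?_⟩
    rw [← Submodule.Quotient.mk_smul, hps, Submodule.Quotient.eq]
    have : e - ((ℓ : ℕ) ^ k) • e' = c h := by rw [he]; abel
    rw [this]
    exact ⟨_, tens1 c h⟩
  obtain ⟨t, ht⟩ := hmem
  exact ⟨t, ht⟩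

/-- functoriality of `tens` in the group -/
theorem tens_comp {ℓ : Nat.Primes} {A B E : Type} [AddCommGroup A] [AddCommGroup B]
    [AddCommGroup E] [Module ℤ_[ℓ] E] (f : A →+ B) (c : B →+ E) (t : ℤ_[ℓ] ⊗[ℤ] A) :
    tens ℓ c (f.toIntLinearMap.lTensor ℤ_[ℓ] t) = tens ℓ (c.comp f) t := by
  induction t using TensorProduct.induction_on with
  | zero => simp
  | tmul a x => rw [LinearMap.lTensor_tmul, tens_tmul, tens_tmul]; rfl
  | add s t hs ht => rw [map_add, map_add, map_add, hs, ht]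

/-- functoriality of `tens` in the module -/
theorem comp_tens {ℓ : Nat.Primes} {A E E' : Type} [AddCommGroup A]
    [AddCommGroup E] [Module ℤ_[ℓ] E] [AddCommGroup E'] [Module ℤ_[ℓ] E']
    (c : A →+ E) (g : E →ₗ[ℤ_[ℓ]] E') (t : ℤ_[ℓ] ⊗[ℤ] A) :
    g (tens ℓ c t) = tens ℓ (g.toAddMonoidHom.comp c) t := by
  induction t using TensorProduct.induction_on with
  | zero => simp
  | tmul a x => rw [tens_tmul, tens_tmul, map_smul]; rfl
  | add s t hs ht => rw [map_add, map_add, map_add, hs, ht]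

/-- `tens` of a map with torsion values has torsion values -/
theorem tens_tors {ℓ : Nat.Primes} {A E : Type} [AddCommGroup A]
    [AddCommGroup E] [Module ℤ_[ℓ] E] (c : A →+ E) (h : ∀ a, Tors (c a)) (t : ℤ_[ℓ] ⊗[ℤ] A) :
    Tors (tens ℓ c t) := by
  induction t using TensorProduct.induction_on with
  | zero => rw [map_zero]; exact Tors.zero
  | tmul a x => rw [tens_tmul]; exact (h x).smul a
  | add s t hs ht => rw [map_add]; exact hs.add ht

/-- if `f t = 0` in `ℤ_ℓ ⊗ B` and `c` is torsion valued on the kernel of `f : A → B` then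
`c t` is torsion -/
theorem tors_of_ker {ℓ : Nat.Primes} {A B E : Type} [AddCommGroup A] [AddCommGroup B]
    [AddCommGroup E] [Module ℤ_[ℓ] E] (f : A →+ B) (c : A →+ E) (h : ∀ a, f a = 0 → Tors (c a))
    (t : ℤ_[ℓ] ⊗[ℤ] A) (ht : f.toIntLinearMap.lTensor ℤ_[ℓ] t = 0) : Tors (tens ℓ c t) := by
  set g : f.ker →+ A := f.ker.subtype with hg
  have hex : Function.Exact g.toIntLinearMap f.toIntLinearMap := by
    intro x
    constructor
    · intro hx
      exact ⟨⟨x, hx⟩, rfl⟩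
    · rintro ⟨y, rfl⟩
      exact y.2
  have h1 := (Module.Flat.lTensor_exact ℤ_[ℓ] hex t).mp ht
  obtain ⟨s, hs⟩ := h1
  have h2 := tens_comp (ℓ := ℓ) g c s
  rw [← hs]
  refine h2 ▸ ?_
  exact tens_tors (c.comp g) (fun a => h _ a.2) s

end SG

open SG in
/-- The single group: `H^(2n+1)_W(X, ℤ(n))` finitely generated implies the Tate conjecture, the
semisimplicity of the eigenvalue `1` and the injectivity of the cycle map in codimension `n`, for
every prime `ℓ`. -/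
theorem single_fwd (X : Theory) (ℓ : Nat.Primes) (n : ℕ)
    (hA : AddGroup.FG ((X.W n).H (2 * (n : ℤ) + 1))) :
    X.TC ℓ n ∧ X.SS ℓ n ∧ X.B ℓ n := by
  have hsurj : Function.Surjective (tens ℓ (X.cH ℓ n (2 * (n : ℤ)))) :=
    kl_surj ℓ _ _ _ _ _ (X.q ℓ n (2 * (n : ℤ))) (X.δ ℓ n (2 * (n : ℤ))) (X.q_eq_zero ℓ n _)
      (X.δ_eq_zero ℓ n _) (X.Q_div ℓ n _) hA
  have hinj : Function.Injective (tens ℓ (X.cH ℓ n (2 * (n : ℤ) + 1))) :=
    kl_inj ℓ _ _ _ _ (X.δ ℓ n (2 * (n : ℤ))) _ (X.q ℓ n (2 * (n : ℤ) + 1)) (X.cH_eq_zero ℓ n _)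
      (X.q_eq_zero ℓ n _) (X.Q_div ℓ n _) (X.Q_div ℓ n _) hA
  -- elements of the kernel of `e` have torsion image in `C`
  have hker : ∀ h : (X.W n).H (2 * (n : ℤ)), eW X n h = 0 →
      Tors ((X.W n).res _ h) := by
    intro h hh
    obtain ⟨k, hk, hk0⟩ := ORB.fix_tors (X.W n) (((X.W n).res_mem _ _).mp ⟨h, rfl⟩)
      (by simpa [eW] using hh)
    exact ⟨k, by exact_mod_cast hk.ne', by rw [natCast_zsmul]; exact hk0⟩
  refine ⟨?_, ?_, ?_⟩
  · intro y hy
    obtain ⟨e, he⟩ := ((X.E ℓ n).res_mem _ _).mpr hy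
    obtain ⟨t, ht⟩ := hsurj e
    refine ⟨1, one_ne_zero, ?_⟩
    rw [one_smul, ← he, ← ht, comp_tens]
    clear he ht hy y e
    induction t using TensorProduct.induction_on with
    | zero => rw [map_zero]; exact zero_mem _
    | tmul a x =>
      rw [tens_tmul]
      refine Submodule.smul_mem _ _ (Submodule.subset_span ⟨(X.W n).res _ x, ?_, ?_⟩)
      · exact ((X.W n).res_mem _ _).mp ⟨x, rfl⟩
      · exact (X.res_cH ℓ n _ x).symm
    | add s t hs ht =>
      rw [map_add]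
      exact add_mem hs ht
  · intro z hz
    obtain ⟨e, he⟩ := ((X.E ℓ n).res_mem _ _).mpr hz
    obtain ⟨t, ht⟩ := hsurj e
    have h1 : eE X ℓ n e = 0 := by
      show (X.E ℓ n).inc _ ((X.E ℓ n).res _ e) = 0
      rw [he]
      exact ((X.E ℓ n).inc_eq_zero _ _).mpr ⟨z, rfl⟩
    have h2 : tens ℓ (X.cH ℓ n (2 * (n : ℤ) + 1))
        ((eW X n).toIntLinearMap.lTensor ℤ_[ℓ] t) = 0 := by
      rw [tens_comp, ← h1, ← ht, comp_tens]
      congr 2
      ext x
      exact (eE_cH X ℓ n x).symm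
    have h3 : (eW X n).toIntLinearMap.lTensor ℤ_[ℓ] t = 0 := hinj (by rw [h2, map_zero])
    rw [← he, ← ht, comp_tens]
    refine tors_of_ker (eW X n) _ (fun a ha => ?_) t h3
    have h4 : ((X.E ℓ n).res (2 * (n : ℤ))).toAddMonoidHom.comp (X.cH ℓ n (2 * (n : ℤ))) a =
        X.cC ℓ n _ ((X.W n).res _ a) := X.res_cH ℓ n _ a
    rw [h4]
    exact (hker a ha).map _
  · intro x hx hT
    obtain ⟨h, rfl⟩ := ((X.W n).res_mem _ _).mpr hx
    have h1 : Tors (X.cH ℓ n (2 * (n : ℤ) + 1) (eW X n h)) := by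
      have h2 := hT.lmap ((X.E ℓ n).inc _)
      rw [← X.cH_inc] at h2
      exact h2
    obtain ⟨N, hN, h3⟩ := h1
    have h4 : (1 : ℤ_[ℓ]) ⊗ₜ[ℤ] (N • eW X n h) = 0 := by
      apply hinj
      rw [tens1, map_zero, map_zsmul, h3]
    have h5 : Tors (N • eW X n h) := by
      by_contra hne
      -- a non torsion element gives an injection `ℤ → H`
      have hli : LinearIndependent ℤ (fun _ : Fin 1 => N • eW X n h) := by
        rw [Fintype.linearIndependent_iff]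
        intro g hg i
        by_contra hgi
        fin_cases i
        exact hne ⟨g 0, hgi, by simpa using hg⟩
      have h6 := Module.Flat.linearIndependent_one_tmul (S := ℤ_[ℓ]) hli
      exact h6.ne_zero 0 h4
    obtain ⟨M, hM, h7⟩ := Tors.of_zsmul hN h5
    have h8 : eW X n (M • h) = 0 := by rw [map_zsmul, h7]
    have h9 := hker _ h8
    rw [map_zsmul] at h9
    exact Tors.of_zsmul hM h9

end WE
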