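import Pool.Agent.WEt.LightQ
import Pool.Agent.WEt.FamFinal
import Pool.Agent.WEt.PRE
import Pool.Agent.WEt.PGD
import Pool.Agent.WEt.FWD
import Pool.Agent.WEt.Single

/-!
# Weil-etale motivic cohomology: all smooth projective varieties, the statement

`Fam` extends the set-up `Coh` of `Light.lean` to all smooth projective varieties over finite
fields: blow-ups of projective spaces along smooth subvarieties, and the ring of correspondences
(rational algebraic cycles of codimension `d` on `X × X`) acting on the motivic and on the `ℓ`-adic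
cohomology of `X̄`.
-/

open TensorProduct Polynomial

noncomputable section

namespace WEt

/-! ### Blow-ups -/

/-- The numerical conditions in the blow-up formula for a subvariety of dimension `d` of `ℙ^M`. -/
structure Adm (d M n j n' : ℕ) (i i' : ℤ) : Prop where
  one_le : 1 ≤ j
  le : j + d + 1 ≤ M
  hn : n' = n + j
  hi : i' = i + 2 * (j : ℤ)

/-- The cohomology of weight `n` and degree `i` of `X` is a direct summand of the cohomology of
weight `n'` and degree `i'` of `Y`. -/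
structure Summand (X Y : Groups) (n n' : ℕ) (i i' : ℤ) where
  H : ((X.W n).H i).Hom ((Y.W n').H i')
  H_inj : Function.Injective H.ap
  C : ((X.W n).C i).Hom ((Y.W n').C i')
  C_inj : Function.Injective C.ap
  C_F : ∀ x, ((Y.W n').F i').ap (C.ap x) = C.ap (((X.W n).F i).ap x)
  E : ∀ ℓ, ((X.E ℓ n).C i).Hom ((Y.E ℓ n').C i')
  comm : ∀ ℓ x, ((Y.c ℓ n').cC i').ap (C.ap x) = (E ℓ).ap (((X.c ℓ n).cC i).ap x)

/-- `Y` is the blow-up of `ℙ^M` along `X`: its dimension, characteristic, and the blow-up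
formula. -/
structure BlowUp (X Y : Groups) (M : ℕ) where
  dim : Y.d = M
  char : Y.p = X.p
  formula : ∀ n j n' i i', Adm X.d M n j n' i i' → Summand X Y n n' i i'

/-! ### Correspondences -/

/-- The ring `A = CH^d(X × X) ⊗ ℚ` of correspondences of `X`, where `Y = X × X`, and its actions. -/
structure Actions (X : Groups) where
  A : QAlg
  /-- the action on `H^i(X̄, ℚ(n))` -/
  act : ∀ n i, A.Act ((X.W n).C i)
  /-- the action on `H^i(X̄, ℚ_ℓ(n))`, `ℓ ≠ p` -/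
  actE : ∀ ℓ, ℓ ≠ X.p → ∀ n i, A.ActE ((X.E ℓ n).C i)

/-- The correspondence `a` acts as zero on the cohomology of `X̄` with coefficients `ℚ_ℓ(n)`. -/
def Actions.Trivial {X : Groups} (D : Actions X) (ℓ : Nat.Primes) (hℓ : ℓ ≠ X.p) (n : ℕ)
    (a : D.A.T) : Prop :=
  ∀ i : ℤ, 0 ≤ i → i ≤ 2 * (X.d : ℤ) → (D.actE ℓ hℓ n i).ap a = 0

/-- `Y = X × X`, with the inclusion `CH^d(X × X) ⊗ ℚ ⊆ H^(2d)(X̄ × X̄, ℚ(d))` of the ring of
correspondences. -/
structure Corr (X Y : Groups) extends Actions X where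
  dim : Y.d = 2 * X.d
  char : Y.p = X.p
  cyc : A.Lin ((Y.W X.d).C (2 * (X.d : ℤ)))
  cyc_inj : Function.Injective cyc.ap
  cyc_F : ∀ a, ((Y.W X.d).F (2 * (X.d : ℤ))).Fixes (cyc.ap a)
  /-- Künneth formula and Poincare duality: a correspondence which acts as zero on the `ℓ`-adic
  cohomology of `X̄` is homologically equivalent to zero -/
  faithful : ∀ ℓ hℓ n a, toActions.Trivial ℓ hℓ n a →
    ((Y.c ℓ X.d).cC (2 * (X.d : ℤ))).Kills (cyc.ap a)

/-- The graph of the `q`-Frobenius of `X`. -/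
structure Frob {X : Groups} (D : Actions X) where
  /-- the number of elements of the base field -/
  q : ℕ
  q_pos : 0 < q
  γ : D.A.T
  act : ∀ n i x, ((D.act n i).ap γ).ap (Ab.one _ x) = q ^ n • Ab.one _ (((X.W n).F i).ap x)
  actE : ∀ ℓ hℓ n i x, ((D.actE ℓ hℓ n i).ap γ).ap (Zl.one _ x) =
    q ^ n • Zl.one _ (((X.E ℓ n).F i).ap x)

/-- The exterior products `z × g` of cycles of codimensions `n` and `m`, `n + m = d`. -/
structure Ext {X : Groups} (D : Actions X) {n m : ℕ} (P : Duality X n m) where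
  ext : X.Cyc n → X.Cyc m → D.A.T
  act : ∀ z g (i : ℤ), i ≠ 2 * (n : ℤ) → (D.act n i).ap (ext z g) = 0
  actE : ∀ ℓ hℓ z g (i : ℤ), i ≠ 2 * (n : ℤ) → (D.actE ℓ hℓ n i).ap (ext z g) = 0
  actE' : ∀ ℓ hℓ z g y, ((D.actE ℓ hℓ n (2 * (n : ℤ))).ap (ext z g)).ap (Zl.one _ y) =
    Zl.one _ (P.num ℓ y g • X.cl ℓ n z)

/-- All smooth projective varieties over finite fields, with their cohomology, the blow-ups of
projective spaces and the rings of correspondences. -/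
structure Fam where
  /-- the smooth projective varieties over finite fields -/
  V : Type
  coh : V → Coh
  /-- `X` has a closed embedding in `ℙ^M` for all `M ≥ M0 X` -/
  M0 : V → ℕ
  /-- for `M ≥ M0 X`: the blow-up of `ℙ^M` along `X` -/
  BL : V → ℕ → V
  blowUp : ∀ X M, M0 X ≤ M → BlowUp (coh X).toGroups (coh (BL X M)).toGroups M
  /-- the product `X × X` -/
  sq : V → V
  corr : ∀ X, Corr (coh X).toGroups (coh (sq X)).toGroups
  frob : ∀ X, Frob (corr X).toActions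
  ext : ∀ X n m h, Ext (corr X).toActions ((coh X).duality n m h)

namespace Groups

variable (X : Groups)

/-- Frobenius invariant classes in `H^(2n)(X̄, ℤ_ℓ(n))` which come from Frobenius invariant elements
of `H^(2n)(X̄_et, ℤ(n))`, i.e. (up to multiples) from algebraic cycles on `X`. -/
def Alg (ℓ : Nat.Primes) (n : ℕ) : Set ((X.E ℓ n).C (2 * (n : ℤ))).T :=
  {z | ∃ x, ((X.W n).F _).ap x = x ∧ ((X.c ℓ n).cC _).ap x = z}

/-- The Tate conjecture in codimension `n` for `ℓ`: every Frobenius invariant class in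
`H^(2n)(X̄, ℤ_ℓ(n))` is, up to a multiple, a `ℤ_ℓ`-combination of algebraic classes. -/
def TC (ℓ : Nat.Primes) (n : ℕ) : Prop :=
  ∀ y, ((X.E ℓ n).F (2 * (n : ℤ))).ap y = y → ∃ N : ℤ, N ≠ 0 ∧
    N • y ∈ Submodule.span ℤ_[ℓ] (X.Alg ℓ n)

/-- The eigenvalue `1` of Frobenius on `H^(2n)(X̄, ℚ_ℓ(n))` is semisimple. -/
def SS (ℓ : Nat.Primes) (n : ℕ) : Prop :=
  ∀ z, ((X.E ℓ n).F (2 * (n : ℤ))).ap (((X.E ℓ n).F _).ap z - z) = ((X.E ℓ n).F _).ap z - z →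
    Tors (((X.E ℓ n).F _).ap z - z)

/-- Rational and `ℓ`-adic homological equivalence agree up to torsion in codimension `n`:
`CH^n(X) ⊗ ℚ → H^(2n)(X̄, ℚ_ℓ(n))` is injective. -/
def B (ℓ : Nat.Primes) (n : ℕ) : Prop :=
  ∀ x, ((X.W n).F (2 * (n : ℤ))).ap x = x → Tors (((X.c ℓ n).cC _).ap x) → Tors x

/-- The Tate conjecture, semisimplicity, and rational = homological equivalence in codimension `n`
for the prime `ℓ`. -/
def TSB (ℓ : Nat.Primes) (n : ℕ) : Prop := X.TC ℓ n ∧ X.SS ℓ n ∧ X.B ℓ n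

end Groups

/-- the conjecture: `L^n(X)` for all `X` and `n` -/
def Fam.Q1 (F : Fam) : Prop := ∀ X n, (F.coh X).L n

/-! ### Conversion to the structure `WE.Fam` used in the proofs -/

section Conversion

theorem kills_aux {ℓ : Nat.Primes} {A M : Type} [AddCommGroup A] [AddCommGroup M]
    [Module ℤ_[ℓ] M] (c : A →+ M) (t : ℚ ⊗[ℤ] A)
    (h : ∀ (k : ℤ) (x : A), k • t = (1 : ℚ) ⊗ₜ[ℤ] x → WE.Tors (c x)) : WE.ratMap ℓ c t = 0 := by
  obtain ⟨k, hk, x, hx⟩ := WE.PAR.Q_exists t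
  rw [Int.cast_smul_eq_zsmul] at hx
  obtain ⟨N, hN, hNx⟩ := h k x hx
  have h1 : WE.ratMap ℓ c (k • t) = (1 : ℚ_[ℓ]) ⊗ₜ[ℤ_[ℓ]] c x := by
    rw [hx, WE.PAR.ratMap_tmul, Rat.cast_one]
  have h2 : ((N * k : ℤ) : ℚ_[ℓ]) • WE.ratMap ℓ c t = 0 := by
    rw [Int.cast_smul_eq_zsmul, mul_smul, ← map_zsmul (WE.ratMap ℓ c) k, h1, ← tmul_smul, hNx,
      tmul_zero]
  exact (smul_eq_zero.1 h2).resolve_left (by exact_mod_cast mul_ne_zero hN hk)

theorem kills_ratMap {ℓ : Nat.Primes} {A : Ab} {M : Zl ℓ} (c : A.HomZl M) (t : A.Q)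
    (h : c.Kills t) : WE.ratMap ℓ (show A.T →+ M.T from c) t = 0 :=
  kills_aux _ _ h

theorem one_smul' {ℓ : Nat.Primes} {M : Type} [AddCommGroup M] [Module ℤ_[ℓ] M] (a : ℤ_[ℓ])
    (v : M) : (1 : ℚ_[ℓ]) ⊗ₜ[ℤ_[ℓ]] (a • v) = (a : ℚ_[ℓ]) • ((1 : ℚ_[ℓ]) ⊗ₜ[ℤ_[ℓ]] v) := by
  rw [tmul_smul, smul_tmul', smul_tmul', smul_eq_mul, mul_one]
  congr 1
  rw [Algebra.smul_def, mul_one]
  rfl

theorem fixes_aux {A : Type} [AddCommGroup A] (f : A →+ A) (t : ℚ ⊗[ℤ] A)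
    (h : ∀ (k : ℤ) (x : A), k • t = (1 : ℚ) ⊗ₜ[ℤ] x → WE.Tors (f x - x)) :
    f.toIntLinearMap.baseChange ℚ t = t := by
  obtain ⟨k, hk, x, hx⟩ := WE.PAR.Q_exists t
  rw [Int.cast_smul_eq_zsmul] at hx
  have h1 := WE.PAR.Q_of_tors (h k x hx)
  rw [tmul_sub, sub_eq_zero] at h1
  have h2 : (k : ℚ) • (f.toIntLinearMap.baseChange ℚ t) = (k : ℚ) • t := by
    rw [← map_smul, Int.cast_smul_eq_zsmul, hx]
    exact h1
  exact smul_right_injective _ (show (k : ℚ) ≠ 0 by exact_mod_cast hk) h2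

theorem endo_aux {A : Type} [AddCommGroup A] (f : A →+ A) (q n : ℕ)
    {φ : Module.End ℚ (ℚ ⊗[ℤ] A)}
    (h : ∀ x, φ ((1 : ℚ) ⊗ₜ[ℤ] x) = q ^ n • ((1 : ℚ) ⊗ₜ[ℤ] f x)) :
    φ = ((q : ℚ) ^ n) • f.toIntLinearMap.baseChange ℚ := by
  refine LinearMap.ext fun v => ?_
  induction v using TensorProduct.induction_on with
  | zero => simp
  | tmul r x =>
    have h1 : r ⊗ₜ[ℤ] x = r • ((1 : ℚ) ⊗ₜ[ℤ] x) := by rw [smul_tmul', smul_eq_mul, mul_one]
    rw [h1, map_smul, map_smul, h, LinearMap.smul_apply, LinearMap.baseChange_tmul,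
      ← Nat.cast_smul_eq_nsmul ℚ, Nat.cast_pow]
    rfl
  | add a b ha hb => rw [map_add, map_add, ha, hb]

theorem endoE_aux {ℓ : Nat.Primes} {M : Type} [AddCommGroup M] [Module ℤ_[ℓ] M]
    (f : M →ₗ[ℤ_[ℓ]] M) (q n : ℕ) {φ : Module.End ℚ_[ℓ] (ℚ_[ℓ] ⊗[ℤ_[ℓ]] M)}
    (h : ∀ x, φ ((1 : ℚ_[ℓ]) ⊗ₜ[ℤ_[ℓ]] x) = q ^ n • ((1 : ℚ_[ℓ]) ⊗ₜ[ℤ_[ℓ]] f x)) :
    φ = ((q : ℚ_[ℓ]) ^ n) • f.baseChange ℚ_[ℓ] := by
  refine LinearMap.ext fun v => ?_
  induction v using TensorProduct.induction_on with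
  | zero => simp
  | tmul r x =>
    have h1 : r ⊗ₜ[ℤ_[ℓ]] x = r • ((1 : ℚ_[ℓ]) ⊗ₜ[ℤ_[ℓ]] x) := by
      rw [smul_tmul', smul_eq_mul, mul_one]
    rw [h1, map_smul, map_smul, h, LinearMap.smul_apply, LinearMap.baseChange_tmul,
      ← Nat.cast_smul_eq_nsmul ℚ_[ℓ], Nat.cast_pow]
  | add a b ha hb => rw [map_add, map_add, ha, hb]

variable (F : Fam)

/-- conversion -/
def Fam.old : WE.Fam where
  V := F.V
  th X := (F.coh X).old
  q X := (F.frob X).q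
  q_pos X := (F.frob X).q_pos
  M0 := F.M0
  BL := F.BL
  d_BL X M h := (F.blowUp X M h).dim
  p_BL X M h := (F.blowUp X M h).char
  blH X M n j n' i i' h := ((F.blowUp X M h.hM).formula n j n' i i' ⟨h.one_le, h.le, h.hn, h.hi⟩).H
  blH_inj X M n j n' i i' h :=
    ((F.blowUp X M h.hM).formula n j n' i i' ⟨h.one_le, h.le, h.hn, h.hi⟩).H_inj
  blC X M n j n' i i' h := ((F.blowUp X M h.hM).formula n j n' i i' ⟨h.one_le, h.le, h.hn, h.hi⟩).C
  blC_inj X M n j n' i i' h :=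
    ((F.blowUp X M h.hM).formula n j n' i i' ⟨h.one_le, h.le, h.hn, h.hi⟩).C_inj
  blC_F X M n j n' i i' h x :=
    ((F.blowUp X M h.hM).formula n j n' i i' ⟨h.one_le, h.le, h.hn, h.hi⟩).C_F x
  blE X ℓ M n j n' i i' h := LinearMap.toAddMonoidHom
    (((F.blowUp X M h.hM).formula n j n' i i' ⟨h.one_le, h.le, h.hn, h.hi⟩).E ℓ)
  blE_cC X ℓ M n j n' i i' h x :=
    ((F.blowUp X M h.hM).formula n j n' i i' ⟨h.one_le, h.le, h.hn, h.hi⟩).comm ℓ x
  sq := F.sq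
  p_sq X := (F.corr X).char
  d_sq X := (F.corr X).dim
  A X := (F.corr X).A.T
  rA X := (F.corr X).A.r
  aA X := (F.corr X).A.a
  cyc X := (F.corr X).cyc
  cyc_inj X := (F.corr X).cyc_inj
  cyc_F X a := fixes_aux _ _ ((F.corr X).cyc_F a)
  act X n i := RingHom.toRatAlgHom ((F.corr X).act n i)
  actE X ℓ h n i := (F.corr X).actE ℓ h n i
  faithful X ℓ h n a ha := kills_ratMap _ _ ((F.corr X).faithful ℓ h n a ha)
  γ X := (F.frob X).γ
  act_γ X n i := endo_aux _ _ _ ((F.frob X).act n i)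
  actE_γ X ℓ h n i := endoE_aux _ _ _ ((F.frob X).actE ℓ h n i)
  ext X n m h := (F.ext X n m h).ext
  act_ext X n m h z g i hi := (F.ext X n m h).act z g i hi
  actE_ext X ℓ hℓ n m h z g i hi := (F.ext X n m h).actE ℓ hℓ z g i hi
  actE_ext' X ℓ hℓ n m h z g y := by
    refine ((F.ext X n m h).actE' ℓ hℓ z g y).trans ?_
    exact one_smul' _ _

theorem TSB_iff (X : F.V) (ℓ : Nat.Primes) (n : ℕ) :
    (F.coh X).TSB ℓ n ↔ F.old.TSB X ℓ n := Iff.rfl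

/-- The theorem. -/
theorem Fam.main : [F.Q1,
    ∀ Y N, (F.coh Y).d = 2 * N → ∀ ℓ, ℓ ≠ (F.coh Y).p → (F.coh Y).TSB ℓ N,
    ∀ X N, F.M0 X ≤ 2 * N → ∃ ℓ, ℓ ≠ (F.coh X).p ∧ (F.coh (F.BL X (2 * N))).KQ ℓ N,
    ∀ X N, F.M0 X ≤ 2 * N → ∃ ℓ, ℓ ≠ (F.coh X).p ∧ (F.coh (F.BL X (2 * N))).TSB ℓ N,
    ∀ X N, F.M0 X ≤ 2 * N →
      AddGroup.FG (((F.coh (F.BL X (2 * N))).W N).H (2 * (N : ℤ) + 1)).T].TFAE := by
  have h := WE.Fam.main F.old WE.pre WE.par WE.pgd WE.fwd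
  tfae_have 1 ↔ 2 := h.out 0 1
  tfae_have 1 ↔ 3 := by
    refine (h.out 0 2).trans ?_
    refine forall_congr' fun X => forall_congr' fun N => forall_congr' fun hN =>
      exists_congr fun ℓ => and_congr_right fun hℓ => ?_
    exact (KQ_iff (F.coh (F.BL X (2 * N))) ℓ N).symm
  tfae_have 1 ↔ 4 := h.out 0 3
  tfae_have 1 → 5 := fun h X N _ => h (F.BL X (2 * N)) N _
  tfae_have 5 → 4 := by
    intro h X N hN
    obtain ⟨ℓ, hℓ⟩ := WE.Fam.exists_ne (F.coh X).p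
    exact ⟨ℓ, hℓ, WE.single_fwd (F.coh (F.BL X (2 * N))).old ℓ N (h X N hN)⟩
  tfae_finish

end Conversion

end WEt
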