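import Pool.Agent.WEt.SingleA
import Pool.Agent.WEt.PRE
import Pool.Agent.WEt.PGD

/-!
# Weil-etale cohomology: `L^n` and the single group `H^(2n+1)_W(X, ℤ(n))`, part B
-/

open TensorProduct Polynomial Filter

noncomputable section

namespace WE

open SG

variable (X : Theory)

/-- if `H^(2n+1)_W` is finitely generated, then `H^i_W ⊗ ℤ_ℓ → E^i` is surjective for all `i` and
all `ℓ` -/
theorem span_all (n : ℕ) (hA : AddGroup.FG ((X.W n).H (2 * (n : ℤ) + 1))) (ℓ : Nat.Primes)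
    (i : ℤ) : Submodule.span ℤ_[ℓ] (Set.range (X.cH ℓ n i)) = ⊤ :=
  sat ℓ _ _ _ (X.cH ℓ n i) (X.q ℓ n i) (X.q_eq_zero ℓ n i) (X.Q_div ℓ n i)
    (idx_all X rk n hA ℓ i)

/-- finiteness of the torsion of `H^(j+1)_W` -/
theorem tors_finite_of (n : ℕ) (j : ℤ)
    (hidx : ∀ (ℓ : Nat.Primes) (e : (X.E ℓ n).H j),
      ∃ N : ℤ, N ≠ 0 ∧ N • e ∈ Submodule.span ℤ_[ℓ] (Set.range (X.cH ℓ n j)))
    (htf : ∀ᶠ ℓ : Nat.Primes in cofinite, ∀ x : (X.E ℓ n).H (j + 1), Tors x → x = 0) :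
    {x : (X.W n).H (j + 1) | Tors x}.Finite := by
  have hfin := fun ℓ : Nat.Primes => fin ℓ _ _ _ _ _ (X.cH ℓ n j) (X.q ℓ n j) (X.δ ℓ n j)
    (X.cH ℓ n (j + 1)) (X.q_eq_zero ℓ n j) (X.δ_eq_zero ℓ n j) (X.cH_eq_zero ℓ n j)
    (X.Q_div ℓ n j) (hidx ℓ)
  have hev : ∀ᶠ ℓ : Nat.Primes in cofinite,
      ∀ x : (X.W n).H (j + 1), (∃ k : ℕ, ((ℓ : ℕ) ^ k) • x = 0) → x = 0 := by
    filter_upwards [htf] with ℓ h2
    exact (hfin ℓ).2 (sat ℓ _ _ _ (X.cH ℓ n j) (X.q ℓ n j) (X.q_eq_zero ℓ n j) (X.Q_div ℓ n j)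
      (hidx ℓ)) h2
  rw [Filter.eventually_cofinite] at hev
  refine tor _ hev.toFinset (fun ℓ => (hfin ℓ).1) fun ℓ hℓ x hx => ?_
  by_contra hne
  apply hℓ
  rw [Set.Finite.mem_toFinset]
  intro h
  exact hne (h x hx)

/-- if `H^(2n+1)_W` is finitely generated, then the torsion of all other `H^i_W` is finite -/
theorem single_tors_finite (n : ℕ) (hA : AddGroup.FG ((X.W n).H (2 * (n : ℤ) + 1))) (i : ℤ)
    (h1 : i ≠ 2 * (n : ℤ) + 1) : {x : (X.W n).H i | Tors x}.Finite := by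
  obtain ⟨j, rfl⟩ : ∃ j, i = j + 1 := ⟨i - 1, by ring⟩
  refine tors_finite_of X n j (fun ℓ => idx_all X rk n hA ℓ j) ?_
  by_cases h2 : j + 1 = 2 * (n : ℤ)
  · exact ev_tf_even X pq ann cha n (j + 1) h2
  · filter_upwards [ev_zero X pq ann cha n (j + 1) h2 h1] with ℓ h3 x _
    exact h3 x

/-- `L^n` and the single group -/
theorem L_iff_single (n : ℕ) : X.L n ↔ AddGroup.FG ((X.W n).H (2 * (n : ℤ) + 1)) ∧
    ∀ i : ℤ, i ≠ 2 * (n : ℤ) → i ≠ 2 * (n : ℤ) + 1 → ∀ x : (X.W n).H i, Tors x := by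
  constructor
  · intro hL
    obtain ⟨ℓ, -⟩ := (ev_ne X).exists
    exact ⟨hL _, tors_A X rk rat (KQ_of_K X (K_of_L kl X hL) ℓ)⟩
  · rintro ⟨hA, hT⟩ i
    by_cases h1 : i = 2 * (n : ℤ) + 1
    · subst h1
      exact hA
    by_cases h2 : i = 2 * (n : ℤ)
    · subst h2
      refine fg_of_ker_finite (eW X n) hA ?_
      refine (single_tors_finite X n hA _ h1).subset fun x hx => ?_
      refine (orb (X.W n) (2 * (n : ℤ))).1 (hT _ (by omega) (by omega)) x ?_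
      exact Tors.of_eq_zero hx
    · exact fg_of_finite_tors (hT i h2 h1) (single_tors_finite X n hA i h1)

section Converse

variable {X} {n m : ℕ} {hd : n + m = X.d} (P : Pre X n m hd)

/-- the functional `pairE (·, c g_k)` on `E^(2n+1)` -/
def Pre.φ' (ℓ : Nat.Primes) (k : Fin P.ρ) : (X.E ℓ n).H (2 * (n : ℤ) + 1) →ₗ[ℤ_[ℓ]] ℤ_[ℓ] :=
  (X.pairE ℓ n m hd).flip (X.cH ℓ m _ (P.g k))

/-- the functional `pairE (e ·, c g_k)` on `E^(2n)` -/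
def Pre.φ (ℓ : Nat.Primes) (k : Fin P.ρ) : (X.E ℓ n).H (2 * (n : ℤ)) →ₗ[ℤ_[ℓ]] ℤ_[ℓ] :=
  (P.φ' ℓ k).comp (eE X ℓ n)

/-- the intersection matrix -/
def Pre.mat : Matrix (Fin P.ρ) (Fin P.ρ) ℤ :=
  Matrix.of fun j k => X.pair n m hd (eW X n (P.a j)) (P.g k)

theorem Pre.mat_ne : P.mat.det ≠ 0 := P.det_ne

theorem Pre.φ'_cH (ℓ : Nat.Primes) (k : Fin P.ρ) (x : (X.W n).H (2 * (n : ℤ) + 1)) :
    P.φ' ℓ k (X.cH ℓ n _ x) = ((X.pair n m hd x (P.g k) : ℤ) : ℤ_[ℓ]) := by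
  simp [Pre.φ', X.pair_cH]

theorem Pre.φ_cH (ℓ : Nat.Primes) (k : Fin P.ρ) (x : (X.W n).H (2 * (n : ℤ))) :
    P.φ ℓ k (X.cH ℓ n _ x) = ((X.pair n m hd (eW X n x) (P.g k) : ℤ) : ℤ_[ℓ]) := by
  rw [← P.φ'_cH, ← eE_cH]
  rfl

theorem Pre.det_cast (ℓ : Nat.Primes) :
    (Matrix.of fun j k : Fin P.ρ =>
      ((X.pair n m hd (eW X n (P.a j)) (P.g k) : ℤ) : ℤ_[ℓ])).det = (P.mat.det : ℤ_[ℓ]) :=
  ((Int.castRingHom ℤ_[ℓ]).map_det P.mat).symm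

theorem Pre.loc_even (ℓ : Nat.Primes) (x : (X.E ℓ n).H (2 * (n : ℤ))) :
    ∃ c : Fin P.ρ → ℤ_[ℓ], Tors (P.mat.det • x - ∑ j, c j • X.cH ℓ n _ (P.a j)) := by
  refine loc ℓ _ P.ρ (fun j => X.cH ℓ n _ (P.a j)) (P.φ ℓ) P.mat.det P.mat_ne ?_
    ((rank_even X rk ℓ n _ rfl).trans P.big) x
  rw [← P.det_cast ℓ]
  congr 1
  ext j k
  simp only [Matrix.of_apply]
  rw [P.φ_cH]

theorem Pre.coef_zero (ℓ : Nat.Primes) (x : Fin P.ρ → ℤ_[ℓ])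
    (h : Tors (∑ j, x j • X.cH ℓ n _ (eW X n (P.a j)))) : x = 0 := by
  have h1 : ∀ k, ∑ j, x j * ((X.pair n m hd (eW X n (P.a j)) (P.g k) : ℤ) : ℤ_[ℓ]) = 0 := by
    intro k
    have h2 := (h.lmap (P.φ' ℓ k)).eq_zero
    rw [map_sum] at h2
    rw [← h2]
    refine Finset.sum_congr rfl fun j _ => ?_
    rw [map_smul, P.φ'_cH, smul_eq_mul]
  have h3 : (Matrix.of fun j k : Fin P.ρ =>
      ((X.pair n m hd (eW X n (P.a j)) (P.g k) : ℤ) : ℤ_[ℓ])).det ≠ 0 := by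
    rw [P.det_cast]
    exact int_ne P.mat_ne
  refine Matrix.eq_zero_of_vecMul_eq_zero h3 ?_
  ext k
  simpa [Matrix.vecMul, dotProduct] using h1 k

include P

/-- semisimplicity of the eigenvalue `1` at all primes -/
theorem Pre.ss (ℓ : Nat.Primes) : X.SS ℓ n := by
  intro z hz
  obtain ⟨e0, he0⟩ := ((X.E ℓ n).res_mem _ _).mpr hz
  obtain ⟨c, hc⟩ := P.loc_even ℓ e0
  have h1 : eE X ℓ n e0 = 0 := by
    show (X.E ℓ n).inc _ ((X.E ℓ n).res _ e0) = 0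
    rw [he0]
    exact ((X.E ℓ n).inc_eq_zero _ _).mpr ⟨z, rfl⟩
  have h2 := hc.lmap (eE X ℓ n)
  rw [map_sub, map_zsmul, h1, smul_zero, zero_sub, map_sum] at h2
  have h3 : c = 0 := by
    apply P.coef_zero
    have h4 := h2.neg
    rw [neg_neg] at h4
    convert h4 using 3 with j
    rw [map_smul, eE_cH]
  rw [h3] at hc
  simp only [Pi.zero_apply, zero_smul, Finset.sum_const_zero, sub_zero] at hc
  rw [← he0]
  exact (Tors.of_zsmul P.mat_ne hc).lmap _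

theorem Pre.idx_even (ℓ : Nat.Primes) (e : (X.E ℓ n).H (2 * (n : ℤ))) :
    ∃ N : ℤ, N ≠ 0 ∧ N • e ∈ Submodule.span ℤ_[ℓ] (Set.range (X.cH ℓ n (2 * (n : ℤ)))) := by
  obtain ⟨c, N, hN, h⟩ := P.loc_even ℓ e
  refine ⟨N * P.mat.det, mul_ne_zero hN P.mat_ne, ?_⟩
  rw [smul_sub, sub_eq_zero, ← mul_smul] at h
  rw [h]
  exact Submodule.smul_of_tower_mem _ N (sum_mem_span _ _ _)

end Converse

/-- torsion freeness of `E^(2n+1)` for almost all primes from semisimplicity -/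
theorem ev_tf_odd' (n : ℕ) (hss : ∀ ℓ, X.SS ℓ n) :
    ∀ᶠ ℓ : Nat.Primes in cofinite, ∀ x : (X.E ℓ n).H (2 * (n : ℤ) + 1), Tors x → x = 0 := by
  have hP : X.P n (2 * (n : ℤ)) ≠ 0 := by
    intro h
    obtain ⟨ℓ, hℓ⟩ := (ev_ne X).exists
    have := X.finC ℓ hℓ n (2 * (n : ℤ))
    have h2 := X.charpoly ℓ hℓ n (2 * (n : ℤ))
    rw [h, Polynomial.map_zero] at h2
    exact (LinearMap.charpoly_monic _).ne_zero h2
  obtain ⟨N, R, hN, hR, hNR⟩ := pq _ hP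
  filter_upwards [ev_tf X n (2 * (n : ℤ)), ev_tf X n (2 * (n : ℤ) + 1), ev_ne X, ev_not_dvd hR]
    with ℓ h1 h2 h3 h4 x hx
  have := X.finC ℓ h3 n (2 * (n : ℤ))
  have h5 := h2 _ (hx.lmap ((X.E ℓ n).res _))
  obtain ⟨y, hy⟩ := ((X.E ℓ n).res_eq_zero _ _).mp h5
  obtain ⟨M, hM, hMx⟩ := hx
  rw [← hy, ← map_zsmul] at hMx
  obtain ⟨w, hw⟩ := ((X.E ℓ n).inc_eq_zero _ _).mp hMx
  rw [← hy]
  refine ((X.E ℓ n).inc_eq_zero _ _).mpr ?_
  exact chb ℓ _ _ _ R h1 (ann ℓ _ _ _ N _ h1 (X.charpoly ℓ h3 n _) hNR) h4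
    (fun z hz => h1 _ (hss ℓ z hz)) y w M hM hw

/-- the converse, from the data `Pre` -/
theorem Pre.single {X : Theory} {n m : ℕ} {hd : n + m = X.d} (P : Pre X n m hd)
    (hvan : ∀ x : (X.W n).C (2 * (n : ℤ) + 1), (X.W n).F _ x = x → Tors x) :
    AddGroup.FG ((X.W n).H (2 * (n : ℤ) + 1)) := by
  refine fg _ P.ρ (fun j => eW X n (P.a j)) (fun k => (X.pair n m hd).flip (P.g k)) P.det_ne ?_
    (tors_finite_of X n _ P.idx_even (ev_tf_odd' X n P.ss))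
  intro x
  obtain ⟨M, hM, h1⟩ := hvan _ (((X.W n).res_mem _ _).mp ⟨x, rfl⟩)
  rw [← map_zsmul] at h1
  obtain ⟨w, hw⟩ := ((X.W n).res_eq_zero _ _).mp h1
  obtain ⟨k, h, hk, hh⟩ := ORB.trace (X.W n) w
  obtain ⟨N, hN, c, hc⟩ := P.maxC _ (((X.W n).res_mem _ _).mp ⟨h, rfl⟩)
  refine ⟨N * ((k : ℤ) * M), mul_ne_zero hN (mul_ne_zero (by exact_mod_cast hk.ne') hM), c, ?_⟩
  have h2 := hc.map ((X.W n).inc _)
  have h3 : (X.W n).inc _ (N • (X.W n).res _ h - ∑ j, c j • (X.W n).res _ (P.a j)) =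
      (N * ((k : ℤ) * M)) • x - ∑ j, c j • eW X n (P.a j) := by
    rw [map_sub, map_zsmul, map_sum, mul_smul, mul_smul, ← hw, natCast_zsmul, ← hh]
    simp only [map_zsmul]
    rfl
  rwa [h3] at h2

/-- the Tate conjecture `T` implies the form `TC` -/
theorem TC_of_T {ℓ : Nat.Primes} {m : ℕ} (hT : X.T ℓ m) : X.TC ℓ m := by
  intro y hy
  obtain ⟨e, he⟩ := ((X.E ℓ m).res_mem _ _).mpr hy
  obtain ⟨N, hN, t, ht⟩ := hT e
  refine ⟨N, hN, ?_⟩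
  rw [← he, ← map_zsmul, ← ht, comp_tens]
  clear ht he hy
  induction t using TensorProduct.induction_on with
  | zero => rw [map_zero]; exact zero_mem _
  | tmul a x =>
    rw [tens_tmul]
    refine Submodule.smul_mem _ _ (Submodule.subset_span ⟨(X.W m).res _ x, ?_, ?_⟩)
    · exact ((X.W m).res_mem _ _).mp ⟨x, rfl⟩
    · exact (X.res_cH ℓ m _ x).symm
  | add s t hs ht =>
    rw [map_add]
    exact add_mem hs ht

/-- the form `TC` implies the Tate conjecture `T`, `ℓ ≠ p` -/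
theorem T_of_TC {ℓ : Nat.Primes} (hℓ : ℓ ≠ X.p) {m : ℕ} (hT : X.TC ℓ m) : X.T ℓ m := by
  intro e
  obtain ⟨N, hN, h⟩ := hT _ ((X.E ℓ m).F_res _ e)
  have key : ∀ z ∈ Submodule.span ℤ_[ℓ]
      {z | ∃ x, (X.W m).F _ x = x ∧ X.cC ℓ m (2 * (m : ℤ)) x = z},
      ∃ t, (X.E ℓ m).res _ (tens ℓ (X.cH ℓ m _) t) = z := by
    intro z hz
    induction hz using Submodule.span_induction with
    | mem z hz =>
      obtain ⟨x, hx, rfl⟩ := hz
      obtain ⟨h, rfl⟩ := ((X.W m).res_mem _ _).mpr hx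
      exact ⟨1 ⊗ₜ h, by rw [tens_tmul, one_smul, X.res_cH]⟩
    | zero => exact ⟨0, by rw [map_zero, map_zero]⟩
    | add s t _ _ hs ht =>
      obtain ⟨u, hu⟩ := hs
      obtain ⟨v, hv⟩ := ht
      exact ⟨u + v, by rw [map_add, map_add, hu, hv]⟩
    | smul b s _ hs =>
      obtain ⟨u, hu⟩ := hs
      exact ⟨b • u, by rw [map_smul, map_smul, hu]⟩
  obtain ⟨t, ht⟩ := key _ h
  have h1 : (X.E ℓ m).res _ (N • e - tens ℓ (X.cH ℓ m _) t) = 0 := by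
    rw [map_sub, map_zsmul, ht, sub_self]
  obtain ⟨j, hj⟩ : ∃ j, 2 * (m : ℤ) = j + 1 := ⟨2 * (m : ℤ) - 1, by ring⟩
  have h4 : ∀ (k : ℤ), k = j + 1 → ∀ y : (X.E ℓ m).H k, (X.E ℓ m).res k y = 0 → Tors y := by
    rintro k rfl y hy
    obtain ⟨w, rfl⟩ := ((X.E ℓ m).res_eq_zero j _).mp hy
    exact inc_tors X rk hℓ m j (by omega) w
  obtain ⟨M, hM, h5⟩ := h4 _ hj _ h1
  refine ⟨M * N, mul_ne_zero hM hN, (M : ℤ_[ℓ]) • t, ?_⟩
  rw [smul_sub, sub_eq_zero] at h5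
  rw [mul_smul, h5, map_smul, zsmul_eq (ℓ := ℓ)]

/-- Hard Lefschetz: the Tate conjecture in codimension `n` implies it in codimension `m ≥ n`,
`n + m = d`. -/
theorem T_lef {ℓ : Nat.Primes} (hℓ : ℓ ≠ X.p) {n m : ℕ} (hd : n + m = X.d)
    (hnm : n ≤ m) (hK : X.T ℓ n) : X.T ℓ m := by
  intro y
  obtain ⟨N, hN, x, hx⟩ := X.lefE_coker ℓ hℓ n m hd hnm y
  obtain ⟨M, hM, t, ht⟩ := hK x
  refine ⟨M * N, mul_ne_zero hM hN, ?_⟩
  have h1 : (M * N) • y = X.lefE ℓ n m hd hnm (tens ℓ (X.cH ℓ n _) t) := by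
    rw [ht, map_zsmul, hx, mul_smul]
  rw [h1]
  clear h1 ht
  induction t using TensorProduct.induction_on with
  | zero => exact ⟨0, by simp⟩
  | tmul a x =>
    exact ⟨a ⊗ₜ X.lef n m hd hnm x, by rw [tens_tmul, tens_tmul, map_smul, X.lefE_cH]⟩
  | add s t hs ht =>
    obtain ⟨u, hu⟩ := hs
    obtain ⟨v, hv⟩ := ht
    exact ⟨u + v, by rw [map_add, map_add, map_add, hu, hv]⟩

/-- the converse for weights larger than the dimension -/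
theorem single_big {ℓ : Nat.Primes} {n : ℕ} (hn : X.d < n) (hB : X.B ℓ n)
    (hvan : ∀ x : (X.W n).C (2 * (n : ℤ) + 1), (X.W n).F _ x = x → Tors x) :
    AddGroup.FG ((X.W n).H (2 * (n : ℤ) + 1)) := by
  have hinv : ∀ x : (X.W n).C (2 * (n : ℤ)), (X.W n).F _ x = x → Tors x := by
    intro x hx
    refine hB x hx ?_
    obtain ⟨h, rfl⟩ := ((X.W n).res_mem _ _).mpr hx
    rw [← X.res_cH]
    exact (tors_all X rk hn ℓ _ _).lmap _
  refine fg_of_finite_tors (fun x => ?_) (tors_finite_of X n _ (fun ℓ' e => ?_) ?_)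
  · exact PGD.tors_of_res (X.W n) hinv rfl x (hvan _ (((X.W n).res_mem _ _).mp ⟨x, rfl⟩))
  · obtain ⟨N, hN, h⟩ := tors_all X rk hn ℓ' _ e
    exact ⟨N, hN, by rw [h]; exact zero_mem _⟩
  · filter_upwards [ev_zero_all X pq ann cha hn (2 * (n : ℤ) + 1)] with ℓ' h x _
    exact h x

/-- The converse: the Tate conjecture, semisimplicity and injectivity of the cycle map in
codimension `n` at one prime `ℓ ≠ p` imply that `H^(2n+1)_W` is finitely generated. -/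
theorem single_bwd {ℓ : Nat.Primes} (hℓ : ℓ ≠ X.p) (n : ℕ)
    (h : 2 * n ≤ X.d ∨ X.d ≤ n ∨ X.TC ℓ (X.d - n))
    (hvan : ∀ x : (X.W n).C (2 * (n : ℤ) + 1), (X.W n).F _ x = x → Tors x)
    (hTC : X.TC ℓ n) (hSS : X.SS ℓ n) (hB : X.B ℓ n) :
    AddGroup.FG ((X.W n).H (2 * (n : ℤ) + 1)) := by
  by_cases hn : X.d < n
  · exact single_big X hn hB hvan
  have hd : n + (X.d - n) = X.d := by omega
  have hm : X.TC ℓ (X.d - n) := by
    rcases h with h | h | h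
    · exact TC_of_T X (T_lef X hℓ hd (by omega) (T_of_TC X hℓ hTC))
    · have h0 : X.d - n = 0 := by omega
      rw [h0]
      exact TC_of_T X (T_zero X ℓ)
    · exact h
  obtain ⟨P⟩ := pre X ℓ hℓ n _ hd hTC hSS hB hm
  exact P.single hvan

end WE
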