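import Pool.Agent.WEt.AsmA

/-!
# Weil-etale cohomology: assembly, part B
-/

open TensorProduct Polynomial Filter

noncomputable section

namespace WE

section Tens

variable {ℓ : Nat.Primes} {A E : Type} [AddCommGroup A] [AddCommGroup E] [Module ℤ_[ℓ] E]

theorem tens_tmul (c : A →+ E) (a : ℤ_[ℓ]) (x : A) : tens ℓ c (a ⊗ₜ x) = a • c x := by
  simp [tens]

theorem mem_span_iff (c : A →+ E) (e : E) :
    e ∈ Submodule.span ℤ_[ℓ] (Set.range c) ↔ ∃ t, tens ℓ c t = e := by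
  constructor
  · intro h
    have hle : Submodule.span ℤ_[ℓ] (Set.range c) ≤ LinearMap.range (tens ℓ c) := by
      rw [Submodule.span_le]
      rintro _ ⟨x, rfl⟩
      exact ⟨1 ⊗ₜ x, by rw [tens_tmul, one_smul]⟩
    exact hle h
  · rintro ⟨t, rfl⟩
    induction t using TensorProduct.induction_on with
    | zero => simp
    | tmul a x =>
      rw [tens_tmul]
      exact Submodule.smul_mem _ _ (Submodule.subset_span ⟨x, rfl⟩)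
    | add s t hs ht => rw [map_add]; exact add_mem hs ht

end Tens

variable (X : Theory)

/-- Step 5: `H i` is torsion for `i ≠ 2n, 2n+1`. -/
theorem tors_A (hRK : S_RK) (hRAT : S_RAT) {ℓ : Nat.Primes} {n : ℕ} (hK : X.KQ ℓ n) (i : ℤ)
    (h1 : i ≠ 2 * (n : ℤ)) (h2 : i ≠ 2 * (n : ℤ) + 1) (x : (X.W n).H i) : Tors x :=
  (hRAT ℓ _ _ (X.cH ℓ n i) (hK i).1 (hK i).2).1 x (tors_E X hRK ℓ n i h1 h2 _)

/-- Step 8: the left kernel of the pairing is torsion. -/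
theorem pair_ker (hRAT : S_RAT) {ℓ : Nat.Primes} (hℓ : ℓ ≠ X.p) {n m : ℕ} (hd : n + m = X.d)
    (hK : X.KQ ℓ n) (hT : X.T ℓ m) (x : (X.W n).H (2 * (n : ℤ) + 1))
    (hx : ∀ g, X.pair n m hd x g = 0) : Tors x := by
  refine (hRAT ℓ _ _ (X.cH ℓ n _) (hK _).1 (hK _).2).1 x ?_
  refine X.pairE_ker ℓ hℓ n m hd _ fun y => ?_
  obtain ⟨N, hN, t, ht⟩ := hT y
  have h1 : ∀ t, X.pairE ℓ n m hd (X.cH ℓ n _ x) (tens ℓ (X.cH ℓ m _) t) = 0 := by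
    intro t
    induction t using TensorProduct.induction_on with
    | zero => simp
    | tmul a g =>
      rw [tens_tmul, map_smul, X.pair_cH, hx]
      simp
    | add s t hs ht => rw [map_add, map_add, hs, ht, add_zero]
  have h2 := h1 t
  rw [ht, map_zsmul] at h2
  exact Tors.eq_zero (ℓ := ℓ) ⟨N, hN, h2⟩

/-- The map `e = inc ∘ res : H^(2n)_W → H^(2n+1)_W`. -/
def eW (n : ℕ) : (X.W n).H (2 * (n : ℤ)) →+ (X.W n).H (2 * (n : ℤ) + 1) :=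
  ((X.W n).inc _).comp ((X.W n).res _)

/-- The map `e = inc ∘ res : E^(2n) → E^(2n+1)`. -/
def eE (ℓ : Nat.Primes) (n : ℕ) :
    (X.E ℓ n).H (2 * (n : ℤ)) →ₗ[ℤ_[ℓ]] (X.E ℓ n).H (2 * (n : ℤ) + 1) :=
  ((X.E ℓ n).inc _).comp ((X.E ℓ n).res _)

theorem eE_cH (ℓ : Nat.Primes) (n : ℕ) (x : (X.W n).H (2 * (n : ℤ))) :
    eE X ℓ n (X.cH ℓ n _ x) = X.cH ℓ n _ (eW X n x) := by
  simp only [eE, eW, LinearMap.comp_apply, AddMonoidHom.comp_apply]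
  rw [X.res_cH, X.cH_inc]

/-- The data extracted from one prime. -/
structure Good (n m : ℕ) (hd : n + m = X.d) where
  ρ : ℕ
  a : Fin ρ → (X.W n).H (2 * (n : ℤ))
  g : Fin ρ → (X.W m).H (2 * (m : ℤ))
  det_ne : (Matrix.of fun j k => X.pair n m hd (eW X n (a j)) (g k)).det ≠ 0
  max : ∀ x, ∃ N : ℤ, N ≠ 0 ∧ ∃ c : Fin ρ → ℤ, Tors (N • x - ∑ j, c j • a j)
  max' : ∀ x, ∃ N : ℤ, N ≠ 0 ∧ ∃ c : Fin ρ → ℤ, Tors (N • x - ∑ j, c j • eW X n (a j))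

/-- Steps 5, 6, 7. -/
theorem exists_good (hGLOB : S_GLOB) (hORB : S_ORB) (hRK : S_RK) (hRAT : S_RAT)
    {ℓ : Nat.Primes} (hℓ : ℓ ≠ X.p) {n m : ℕ} (hd : n + m = X.d) (hK : X.KQ ℓ n)
    (hT : X.T ℓ m) : ∃ G : Good X n m hd,
      G.ρ = Module.finrank ℤ_[ℓ] ((X.E ℓ n).H (2 * (n : ℤ))) := by
  obtain ⟨hR1, v, hv1, hv2⟩ := hRAT ℓ _ _ (X.cH ℓ n (2 * (n : ℤ))) (hK _).1 (hK _).2
  obtain ⟨hO1, hO2⟩ := hORB (X.W n) (2 * (n : ℤ))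
  have hO1' := hO1 (tors_A X hRK hRAT hK _ (by omega) (by omega))
  have hO2' := hO2 (tors_A X hRK hRAT hK _ (by omega) (by omega))
  obtain ⟨g, hg⟩ := hGLOB ((X.W m).H (2 * (m : ℤ))) _
    (fun j g => X.pair n m hd (eW X n (v j)) g) (by
      intro c hc
      apply hv1 c
      apply hO1'
      have h1 : Tors (eW X n (∑ j, c j • v j)) := by
        apply pair_ker X hRAT hℓ hd hK hT
        intro g
        rw [← hc g]
        simp [map_sum, map_zsmul]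
      exact h1)
  refine ⟨⟨_, v, g, hg, hv2, ?_⟩, rfl⟩
  intro x
  obtain ⟨N, hN, h', hh'⟩ := hO2' x
  obtain ⟨M, hM, c, hc⟩ := hv2 h'
  refine ⟨M * N, mul_ne_zero hM hN, c, ?_⟩
  have h2 := hc.map (eW X n)
  have h3 : (eW X n) (M • h' - ∑ j, c j • v j) = (M * N) • x - ∑ j, c j • eW X n (v j) := by
    rw [map_sub, map_zsmul, map_sum, mul_smul, ← hh']
    simp [eW, map_zsmul]
  rwa [h3] at h2

section Loc

variable {X} {n m : ℕ} {hd : n + m = X.d} (G : Good X n m hd)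

/-- the determinant -/
def Good.Δ : ℤ := (Matrix.of fun j k => X.pair n m hd (eW X n (G.a j)) (G.g k)).det

theorem Good.Δ_ne : G.Δ ≠ 0 := G.det_ne

/-- the functional `pairE (·, c g_k)` on `E^(2n+1)` -/
def Good.φ' (ℓ : Nat.Primes) (k : Fin G.ρ) : (X.E ℓ n).H (2 * (n : ℤ) + 1) →ₗ[ℤ_[ℓ]] ℤ_[ℓ] :=
  (X.pairE ℓ n m hd).flip (X.cH ℓ m _ (G.g k))

/-- the functional `pairE (e ·, c g_k)` on `E^(2n)` -/
def Good.φ (ℓ : Nat.Primes) (k : Fin G.ρ) : (X.E ℓ n).H (2 * (n : ℤ)) →ₗ[ℤ_[ℓ]] ℤ_[ℓ] :=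
  (G.φ' ℓ k).comp (eE X ℓ n)

theorem Good.φ'_cH (ℓ : Nat.Primes) (k : Fin G.ρ) (x : (X.W n).H (2 * (n : ℤ) + 1)) :
    G.φ' ℓ k (X.cH ℓ n _ x) = ((X.pair n m hd x (G.g k) : ℤ) : ℤ_[ℓ]) := by
  simp [Good.φ', X.pair_cH]

theorem Good.φ_cH (ℓ : Nat.Primes) (k : Fin G.ρ) (x : (X.W n).H (2 * (n : ℤ))) :
    G.φ ℓ k (X.cH ℓ n _ x) = ((X.pair n m hd (eW X n x) (G.g k) : ℤ) : ℤ_[ℓ]) := by
  rw [← G.φ'_cH, ← eE_cH]
  rfl

theorem Good.det_cast (ℓ : Nat.Primes) :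
    (Matrix.of fun j k : Fin G.ρ =>
      ((X.pair n m hd (eW X n (G.a j)) (G.g k) : ℤ) : ℤ_[ℓ])).det = (G.Δ : ℤ_[ℓ]) := by
  exact ((Int.castRingHom ℤ_[ℓ]).map_det
    (Matrix.of fun j k => X.pair n m hd (eW X n (G.a j)) (G.g k))).symm

/-- Step 9, degree `2n`. -/
theorem Good.loc_even (hLOC : S_LOC) (ℓ : Nat.Primes)
    (hr : Module.finrank ℤ_[ℓ] ((X.E ℓ n).H (2 * (n : ℤ))) ≤ G.ρ)
    (x : (X.E ℓ n).H (2 * (n : ℤ))) :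
    ∃ c : Fin G.ρ → ℤ_[ℓ], Tors (G.Δ • x - ∑ j, c j • X.cH ℓ n _ (G.a j)) := by
  refine hLOC ℓ _ G.ρ (fun j => X.cH ℓ n _ (G.a j)) (G.φ ℓ) G.Δ G.Δ_ne ?_ hr x
  rw [← G.det_cast ℓ]
  congr 1
  ext j k
  simp only [Matrix.of_apply]
  rw [G.φ_cH]

/-- Step 9, degree `2n+1`. -/
theorem Good.loc_odd (hLOC : S_LOC) (ℓ : Nat.Primes)
    (hr : Module.finrank ℤ_[ℓ] ((X.E ℓ n).H (2 * (n : ℤ) + 1)) ≤ G.ρ)
    (x : (X.E ℓ n).H (2 * (n : ℤ) + 1)) :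
    ∃ c : Fin G.ρ → ℤ_[ℓ], Tors (G.Δ • x - ∑ j, c j • X.cH ℓ n _ (eW X n (G.a j))) := by
  refine hLOC ℓ _ G.ρ (fun j => X.cH ℓ n _ (eW X n (G.a j))) (G.φ' ℓ) G.Δ G.Δ_ne ?_ hr x
  rw [← G.det_cast ℓ]
  congr 1
  ext j k
  simp only [Matrix.of_apply]
  rw [G.φ'_cH]

/-- `Σ x_j c(e a_j)` torsion implies `x = 0`. -/
theorem Good.coef_zero (ℓ : Nat.Primes) (x : Fin G.ρ → ℤ_[ℓ])
    (h : Tors (∑ j, x j • X.cH ℓ n _ (eW X n (G.a j)))) : x = 0 := by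
  have h1 : ∀ k, ∑ j, x j * ((X.pair n m hd (eW X n (G.a j)) (G.g k) : ℤ) : ℤ_[ℓ]) = 0 := by
    intro k
    have h2 := (h.lmap (G.φ' ℓ k)).eq_zero
    rw [map_sum] at h2
    rw [← h2]
    refine Finset.sum_congr rfl fun j _ => ?_
    rw [map_smul, G.φ'_cH, smul_eq_mul]
  have h3 : (Matrix.of fun j k : Fin G.ρ =>
      ((X.pair n m hd (eW X n (G.a j)) (G.g k) : ℤ) : ℤ_[ℓ])).det ≠ 0 := by
    rw [G.det_cast]
    exact int_ne G.Δ_ne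
  refine Matrix.eq_zero_of_vecMul_eq_zero h3 ?_
  ext k
  simpa [Matrix.vecMul, dotProduct] using h1 k

/-- Semisimplicity of the eigenvalue `1`. -/
theorem Good.ss (hLOC : S_LOC) (ℓ : Nat.Primes)
    (hr : Module.finrank ℤ_[ℓ] ((X.E ℓ n).H (2 * (n : ℤ))) ≤ G.ρ)
    (z : (X.E ℓ n).C (2 * (n : ℤ)))
    (hz : (X.E ℓ n).F _ ((X.E ℓ n).F _ z - z) = (X.E ℓ n).F _ z - z) :
    Tors ((X.E ℓ n).F _ z - z) := by
  obtain ⟨e0, he0⟩ := ((X.E ℓ n).res_mem _ _).mpr hz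
  obtain ⟨c, hc⟩ := G.loc_even hLOC ℓ hr e0
  have h1 : eE X ℓ n e0 = 0 := by
    show (X.E ℓ n).inc _ ((X.E ℓ n).res _ e0) = 0
    rw [he0]
    exact ((X.E ℓ n).inc_eq_zero _ _).mpr ⟨z, rfl⟩
  have h2 := hc.lmap (eE X ℓ n)
  rw [map_sub, map_zsmul, h1, smul_zero, zero_sub, map_sum] at h2
  have h3 : c = 0 := by
    apply G.coef_zero
    have h4 := h2.neg
    rw [neg_neg] at h4
    convert h4 using 3 with j
    rw [map_smul, eE_cH]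
  rw [h3] at hc
  simp only [Pi.zero_apply, zero_smul, Finset.sum_const_zero, sub_zero] at hc
  rw [← he0]
  exact (Tors.of_zsmul G.Δ_ne hc).lmap _

/-- Step 9: the algebraic multiplicity is at most `ρ`, hence all ranks are at most `ρ`. -/
theorem Good.mult_le (hLOC : S_LOC) (hRK : S_RK) {ℓ : Nat.Primes} (hℓ : ℓ ≠ X.p)
    (hr : G.ρ = Module.finrank ℤ_[ℓ] ((X.E ℓ n).H (2 * (n : ℤ)))) :
    (X.P n (2 * (n : ℤ))).rootMultiplicity 1 ≤ G.ρ := by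
  rw [hr]
  exact rank_even_eq X hRK hℓ n _ (G.ss hLOC ℓ hr.ge)

end Loc

end WE
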