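import Pool.Agent.WEt.AsmB

/-!
# Weil-etale cohomology: assembly, part C
-/

open TensorProduct Polynomial Filter

noncomputable section

namespace WE

variable {X : Theory} {n m : ℕ} {hd : n + m = X.d} (G : Good X n m hd)

/-- All ranks are at most `ρ`. -/
structure Good.Big (G : Good X n m hd) : Prop where
  even : ∀ ℓ : Nat.Primes, Module.finrank ℤ_[ℓ] ((X.E ℓ n).H (2 * (n : ℤ))) ≤ G.ρ
  odd : ∀ ℓ : Nat.Primes, Module.finrank ℤ_[ℓ] ((X.E ℓ n).H (2 * (n : ℤ) + 1)) ≤ G.ρ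

theorem Good.big (hLOC : S_LOC) (hRK : S_RK) {ℓ : Nat.Primes} (hℓ : ℓ ≠ X.p)
    (hr : G.ρ = Module.finrank ℤ_[ℓ] ((X.E ℓ n).H (2 * (n : ℤ)))) : G.Big :=
  ⟨fun ℓ' => (rank_even X hRK ℓ' n _ rfl).trans (G.mult_le hLOC hRK hℓ hr),
    fun ℓ' => (rank_odd X hRK ℓ' n _ rfl).trans (G.mult_le hLOC hRK hℓ hr)⟩

theorem sum_mem_span {ℓ : Nat.Primes} {A E : Type} [AddCommGroup A] [AddCommGroup E]
    [Module ℤ_[ℓ] E] (c : A →+ E) {ρ : ℕ} (x : Fin ρ → ℤ_[ℓ]) (a : Fin ρ → A) :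
    ∑ j, x j • c (a j) ∈ Submodule.span ℤ_[ℓ] (Set.range c) :=
  Submodule.sum_mem _ fun j _ => Submodule.smul_mem _ _ (Submodule.subset_span ⟨a j, rfl⟩)

/-- Step 11. -/
theorem Good.idx (hLOC : S_LOC) (hRK : S_RK) (hG : G.Big) (ℓ : Nat.Primes) (i : ℤ)
    (e : (X.E ℓ n).H i) :
    ∃ N : ℤ, N ≠ 0 ∧ N • e ∈ Submodule.span ℤ_[ℓ] (Set.range (X.cH ℓ n i)) := by
  by_cases h1 : i = 2 * (n : ℤ)
  · subst h1
    obtain ⟨c, N, hN, h⟩ := G.loc_even hLOC ℓ (hG.even ℓ) e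
    refine ⟨N * G.Δ, mul_ne_zero hN G.Δ_ne, ?_⟩
    rw [smul_sub, sub_eq_zero, ← mul_smul] at h
    rw [h]
    exact Submodule.smul_of_tower_mem _ N (sum_mem_span _ _ _)
  by_cases h2 : i = 2 * (n : ℤ) + 1
  · subst h2
    obtain ⟨c, N, hN, h⟩ := G.loc_odd hLOC ℓ (hG.odd ℓ) e
    refine ⟨N * G.Δ, mul_ne_zero hN G.Δ_ne, ?_⟩
    rw [smul_sub, sub_eq_zero, ← mul_smul] at h
    rw [h]
    exact Submodule.smul_of_tower_mem _ N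
      (sum_mem_span (X.cH ℓ n (2 * (n : ℤ) + 1)) c (fun j => eW X n (G.a j)))
  obtain ⟨N, hN, h⟩ := tors_E X hRK ℓ n i h1 h2 e
  exact ⟨N, hN, by rw [h]; exact zero_mem _⟩

theorem unit_of_not_dvd {ℓ : Nat.Primes} {N : ℤ} (h : ¬ ((ℓ : ℕ) : ℤ) ∣ N) :
    IsUnit (N : ℤ_[ℓ]) := by
  rw [PadicInt.isUnit_iff]
  by_contra hne
  exact h ((PadicInt.norm_int_lt_one_iff_dvd N).mp (lt_of_le_of_ne (PadicInt.norm_le_one _) hne))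

/-- Step 12, the case of degree `2n+1`: torsion freeness. -/
theorem Good.ev_tf_odd (hLOC : S_LOC) (hPQ : S_PQ) (hANN : S_ANN) (hCHB : S_CHB)
    (hG : G.Big) :
    ∀ᶠ ℓ : Nat.Primes in cofinite, ∀ x : (X.E ℓ n).H (2 * (n : ℤ) + 1), Tors x → x = 0 := by
  have hP : X.P n (2 * (n : ℤ)) ≠ 0 := by
    intro h
    have h1 := X.charpoly
    obtain ⟨ℓ, hℓ⟩ := (ev_ne X).exists
    have := X.finC ℓ hℓ n (2 * (n : ℤ))
    have h2 := X.charpoly ℓ hℓ n (2 * (n : ℤ))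
    rw [h, Polynomial.map_zero] at h2
    exact (LinearMap.charpoly_monic _).ne_zero h2
  obtain ⟨N, R, hN, hR, hNR⟩ := hPQ _ hP
  filter_upwards [ev_tf X n (2 * (n : ℤ)), ev_tf X n (2 * (n : ℤ) + 1), ev_ne X, ev_not_dvd hR]
    with ℓ h1 h2 h3 h4 x hx
  have := X.finC ℓ h3 n (2 * (n : ℤ))
  have h5 := h2 _ (hx.lmap ((X.E ℓ n).res _))
  obtain ⟨y, hy⟩ := ((X.E ℓ n).res_eq_zero _ _).mp h5
  obtain ⟨M, hM, hMx⟩ := hx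
  rw [← hy, ← map_zsmul] at hMx
  obtain ⟨w, hw⟩ := ((X.E ℓ n).inc_eq_zero _ _).mp hMx
  rw [← hy]
  refine ((X.E ℓ n).inc_eq_zero _ _).mpr ?_
  exact hCHB ℓ _ _ _ R h1 (hANN ℓ _ _ _ N _ h1 (X.charpoly ℓ h3 n _) hNR) h4
    (fun z hz => h1 _ (G.ss hLOC ℓ (hG.even ℓ) z hz)) y w M hM hw

/-- Step 12. -/
theorem Good.ev_idx (hLOC : S_LOC) (hPQ : S_PQ) (hANN : S_ANN) (hCHA : S_CHA)
    (hCHB : S_CHB) (hG : G.Big) (i : ℤ) :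
    ∀ᶠ ℓ : Nat.Primes in cofinite,
      Submodule.span ℤ_[ℓ] (Set.range (X.cH ℓ n i)) = ⊤ ∧
        ∀ e : (X.E ℓ n).H i, Tors e → e = 0 := by
  by_cases h1 : i = 2 * (n : ℤ)
  · subst h1
    filter_upwards [ev_tf_even X hPQ hANN hCHA n _ rfl, ev_not_dvd G.Δ_ne] with ℓ h2 h3
    refine ⟨?_, h2⟩
    rw [eq_top_iff]
    intro e _
    obtain ⟨c, hc⟩ := G.loc_even hLOC ℓ (hG.even ℓ) e
    have h4 := sub_eq_zero.mp (h2 _ hc)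
    rw [zsmul_eq (ℓ := ℓ)] at h4
    have h5 := sum_mem_span (X.cH ℓ n (2 * (n : ℤ))) c G.a
    rw [← h4] at h5
    exact (Submodule.smul_mem_iff_of_isUnit _ (unit_of_not_dvd h3)).mp h5
  by_cases h2 : i = 2 * (n : ℤ) + 1
  · subst h2
    filter_upwards [G.ev_tf_odd hLOC hPQ hANN hCHB hG, ev_not_dvd G.Δ_ne] with ℓ h2 h3
    refine ⟨?_, h2⟩
    rw [eq_top_iff]
    intro e _
    obtain ⟨c, hc⟩ := G.loc_odd hLOC ℓ (hG.odd ℓ) e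
    have h4 := sub_eq_zero.mp (h2 _ hc)
    rw [zsmul_eq (ℓ := ℓ)] at h4
    have h5 := sum_mem_span (X.cH ℓ n (2 * (n : ℤ) + 1)) c (fun j => eW X n (G.a j))
    rw [← h4] at h5
    exact (Submodule.smul_mem_iff_of_isUnit _ (unit_of_not_dvd h3)).mp h5
  filter_upwards [ev_zero X hPQ hANN hCHA n i h1 h2] with ℓ h3
  refine ⟨?_, fun e _ => h3 e⟩
  rw [eq_top_iff]
  intro e _
  rw [h3 e]
  exact zero_mem _

/-- Step 13. -/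
theorem Good.tors_finite (hLOC : S_LOC) (hRK : S_RK) (hPQ : S_PQ) (hANN : S_ANN)
    (hCHA : S_CHA) (hCHB : S_CHB) (hFIN : S_FIN) (hTOR : S_TOR) (hG : G.Big) (i : ℤ) :
    {x : (X.W n).H i | Tors x}.Finite := by
  obtain ⟨j, rfl⟩ : ∃ j, i = j + 1 := ⟨i - 1, by ring⟩
  have hfin := fun ℓ : Nat.Primes => hFIN ℓ _ _ _ _ _ (X.cH ℓ n j) (X.q ℓ n j) (X.δ ℓ n j)
    (X.cH ℓ n (j + 1)) (X.q_eq_zero ℓ n j) (X.δ_eq_zero ℓ n j) (X.cH_eq_zero ℓ n j)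
    (X.Q_div ℓ n j) (G.idx hLOC hRK hG ℓ j)
  have hev : ∀ᶠ ℓ : Nat.Primes in cofinite,
      ∀ x : (X.W n).H (j + 1), (∃ k : ℕ, ((ℓ : ℕ) ^ k) • x = 0) → x = 0 := by
    filter_upwards [G.ev_idx hLOC hPQ hANN hCHA hCHB hG j,
      G.ev_idx hLOC hPQ hANN hCHA hCHB hG (j + 1)] with ℓ h1 h2
    exact (hfin ℓ).2 h1.1 h2.2
  rw [Filter.eventually_cofinite] at hev
  refine hTOR _ hev.toFinset (fun ℓ => (hfin ℓ).1) fun ℓ hℓ x hx => ?_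
  by_contra hne
  apply hℓ
  rw [Set.Finite.mem_toFinset]
  intro h
  exact hne (h x hx)

/-- Step 14. -/
theorem Good.fg (hLOC : S_LOC) (hRK : S_RK) (hPQ : S_PQ) (hANN : S_ANN)
    (hCHA : S_CHA) (hCHB : S_CHB) (hFIN : S_FIN) (hTOR : S_TOR) (hFG : S_FG) (hG : G.Big)
    (hA : ∀ i : ℤ, i ≠ 2 * (n : ℤ) → i ≠ 2 * (n : ℤ) + 1 → ∀ x : (X.W n).H i, Tors x) :
    X.L n := by
  intro i
  have hfin := G.tors_finite hLOC hRK hPQ hANN hCHA hCHB hFIN hTOR hG i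
  by_cases h1 : i = 2 * (n : ℤ)
  · subst h1
    exact hFG _ G.ρ G.a (fun k => ((X.pair n m hd).flip (G.g k)).comp (eW X n)) G.det_ne
      G.max hfin
  by_cases h2 : i = 2 * (n : ℤ) + 1
  · subst h2
    exact hFG _ G.ρ (fun j => eW X n (G.a j)) (fun k => (X.pair n m hd).flip (G.g k)) G.det_ne
      G.max' hfin
  refine hFG _ 0 (fun j => j.elim0) (fun k => k.elim0) (by simp) (fun x => ⟨1, one_ne_zero,
    fun j => j.elim0, ?_⟩) hfin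
  simpa using hA i h1 h2 x

/-- `K^n` rationally at one prime and the Tate conjecture in codimension `m` imply `L^n`. -/
theorem L_of_KQ (hGLOB : S_GLOB) (hORB : S_ORB) (hRAT : S_RAT) (hLOC : S_LOC) (hRK : S_RK)
    (hPQ : S_PQ) (hANN : S_ANN) (hCHA : S_CHA) (hCHB : S_CHB) (hFIN : S_FIN) (hTOR : S_TOR)
    (hFG : S_FG) (X : Theory) {ℓ : Nat.Primes} (hℓ : ℓ ≠ X.p) {n m : ℕ} (hd : n + m = X.d)
    (hK : X.KQ ℓ n) (hT : X.T ℓ m) : X.L n := by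
  obtain ⟨G, hG⟩ := exists_good X hGLOB hORB hRK hRAT hℓ hd hK hT
  exact G.fg hLOC hRK hPQ hANN hCHA hCHB hFIN hTOR hFG (G.big hLOC hRK hℓ hG)
    (tors_A X hRK hRAT hK)

/-- Hard Lefschetz: `K^n` rationally implies the Tate conjecture in codimension `m ≥ n`. -/
theorem T_of_KQ (X : Theory) {ℓ : Nat.Primes} (hℓ : ℓ ≠ X.p) {n m : ℕ} (hd : n + m = X.d)
    (hnm : n ≤ m) (hK : X.KQ ℓ n) : X.T ℓ m := by
  intro y
  obtain ⟨N, hN, x, hx⟩ := X.lefE_coker ℓ hℓ n m hd hnm y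
  obtain ⟨M, hM, t, ht⟩ := (hK _).2 x
  refine ⟨M * N, mul_ne_zero hM hN, ?_⟩
  have h1 : (M * N) • y = X.lefE ℓ n m hd hnm (tens ℓ (X.cH ℓ n _) t) := by
    rw [ht, map_zsmul, hx, mul_smul]
  rw [h1]
  clear h1 ht
  induction t using TensorProduct.induction_on with
  | zero => exact ⟨0, by simp⟩
  | tmul a x =>
    exact ⟨a ⊗ₜ X.lef n m hd hnm x, by rw [tens_tmul, tens_tmul, map_smul, X.lefE_cH]⟩
  | add s t hs ht =>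
    obtain ⟨u, hu⟩ := hs
    obtain ⟨v, hv⟩ := ht
    exact ⟨u + v, by rw [map_add, map_add, map_add, hu, hv]⟩

/-- `L` implies `K`. -/
theorem K_of_L (hKL : S_KL) (X : Theory) {n : ℕ} (hL : X.L n) : X.K n := by
  intro ℓ i
  obtain ⟨j, rfl⟩ : ∃ j, i = j + 1 := ⟨i - 1, by ring⟩
  exact hKL ℓ _ _ _ _ _ (X.δ ℓ n j) (X.cH ℓ n (j + 1)) (X.q ℓ n (j + 1)) (X.δ ℓ n (j + 1))
    (X.cH_eq_zero ℓ n j) (X.q_eq_zero ℓ n (j + 1)) (X.δ_eq_zero ℓ n (j + 1)) (X.Q_div ℓ n j)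
    (X.Q_div ℓ n (j + 1)) (hL _) (hL _)

/-- `K` implies rational `K` at every prime. -/
theorem KQ_of_K (X : Theory) {n : ℕ} (hK : X.K n) (ℓ : Nat.Primes) : X.KQ ℓ n := by
  intro i
  refine ⟨fun t ht => ?_, fun e => ⟨1, one_ne_zero, ?_⟩⟩
  · exact Tors.of_eq_zero ((hK ℓ i).1 (by rw [ht, map_zero]))
  · obtain ⟨t, ht⟩ := (hK ℓ i).2 e
    exact ⟨t, by rw [ht, one_smul]⟩

theorem main (hGLOB : S_GLOB) (hORB : S_ORB) (hRAT : S_RAT) (hLOC : S_LOC) (hRK : S_RK)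
    (hPQ : S_PQ) (hANN : S_ANN) (hCHA : S_CHA) (hCHB : S_CHB) (hFIN : S_FIN) (hTOR : S_TOR)
    (hFG : S_FG) (hKL : S_KL) (X : Theory) (ℓ : Nat.Primes) (hℓ : ℓ ≠ X.p) (n m : ℕ)
    (hd : n + m = X.d) :
    (X.KQ ℓ n → X.T ℓ m → X.L n) ∧ (n ≤ m → [X.L n, X.K n, X.KQ ℓ n].TFAE) := by
  refine ⟨fun hK hT => L_of_KQ hGLOB hORB hRAT hLOC hRK hPQ hANN hCHA hCHB hFIN hTOR hFG X hℓ
    hd hK hT, fun hnm => ?_⟩
  tfae_have 1 → 2 := fun h => K_of_L hKL X h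
  tfae_have 2 → 3 := fun h => KQ_of_K X h ℓ
  tfae_have 3 → 1 := fun h => L_of_KQ hGLOB hORB hRAT hLOC hRK hPQ hANN hCHA hCHB hFIN hTOR
    hFG X hℓ hd h (T_of_KQ X hℓ hd hnm h)
  tfae_finish

end WE
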