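import Pool.Agent.WEt.AsmC

/-!
# Weil-etale cohomology: assembly, part D (weights larger than the dimension)
-/

open TensorProduct Polynomial Filter

noncomputable section

namespace WE

variable (X : Theory) {n : ℕ}

theorem P_all (hn : X.d < n) (i : ℤ) : (X.P n i).eval 1 ≠ 0 := by
  by_cases hi : i = 2 * (n : ℤ)
  · subst hi
    exact X.P_big n hn
  · exact X.P_one n i hi

theorem tors_all (hRK : S_RK) (hn : X.d < n) (ℓ : Nat.Primes) (i : ℤ) (x : (X.E ℓ n).H i) :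
    Tors x := by
  have h0 := mult_zero (P_all X hn (2 * (n : ℤ)))
  by_cases h1 : i = 2 * (n : ℤ)
  · subst h1
    have h2 := rank_even X hRK ℓ n _ rfl
    rw [h0] at h2
    exact tors_of_finrank_zero (Nat.le_zero.mp h2) x
  by_cases h3 : i = 2 * (n : ℤ) + 1
  · subst h3
    have h2 := rank_odd X hRK ℓ n _ rfl
    rw [h0] at h2
    exact tors_of_finrank_zero (Nat.le_zero.mp h2) x
  exact tors_E X hRK ℓ n i h1 h3 x

theorem ev_zero_all (hPQ : S_PQ) (hANN : S_ANN) (hCHA : S_CHA) (hn : X.d < n) (i : ℤ) :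
    ∀ᶠ ℓ : Nat.Primes in cofinite, ∀ x : (X.E ℓ n).H i, x = 0 := by
  obtain ⟨j, rfl⟩ : ∃ j, i = j + 1 := ⟨i - 1, by ring⟩
  filter_upwards [ev_bij' X hPQ hANN hCHA n _ (P_all X hn (j + 1)),
    ev_bij' X hPQ hANN hCHA n j (P_all X hn j)] with ℓ h3 h4
  exact (X.E ℓ n).zero_of j h3.1 h4.2

/-- Weights larger than the dimension: `K^n` rationally at one prime implies `L^n`. -/
theorem L_of_KQ_big (hRAT : S_RAT) (hRK : S_RK) (hPQ : S_PQ) (hANN : S_ANN) (hCHA : S_CHA)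
    (hFIN : S_FIN) (hTOR : S_TOR) (hFG : S_FG) {ℓ₀ : Nat.Primes} (hn : X.d < n)
    (hK : X.KQ ℓ₀ n) : X.L n := by
  intro i
  have hA : ∀ x : (X.W n).H i, Tors x := fun x =>
    (hRAT ℓ₀ _ _ (X.cH ℓ₀ n i) (hK i).1 (hK i).2).1 x (tors_all X hRK hn ℓ₀ i _)
  refine hFG _ 0 (fun j => j.elim0) (fun k => k.elim0) (by simp) (fun x => ⟨1, one_ne_zero,
    fun j => j.elim0, ?_⟩) ?_
  · simpa using hA x
  clear hA
  obtain ⟨j, rfl⟩ : ∃ j, i = j + 1 := ⟨i - 1, by ring⟩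
  have hfin := fun ℓ : Nat.Primes => hFIN ℓ _ _ _ _ _ (X.cH ℓ n j) (X.q ℓ n j) (X.δ ℓ n j)
    (X.cH ℓ n (j + 1)) (X.q_eq_zero ℓ n j) (X.δ_eq_zero ℓ n j) (X.cH_eq_zero ℓ n j)
    (X.Q_div ℓ n j) (fun e => by
      obtain ⟨N, hN, h⟩ := tors_all X hRK hn ℓ j e
      exact ⟨N, hN, by rw [h]; exact zero_mem _⟩)
  have hev : ∀ᶠ ℓ : Nat.Primes in cofinite,
      ∀ x : (X.W n).H (j + 1), (∃ k : ℕ, ((ℓ : ℕ) ^ k) • x = 0) → x = 0 := by
    filter_upwards [ev_zero_all X hPQ hANN hCHA hn j,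
      ev_zero_all X hPQ hANN hCHA hn (j + 1)] with ℓ h1 h2
    refine (hfin ℓ).2 ?_ fun e _ => h2 e
    rw [eq_top_iff]
    intro e _
    rw [h1 e]
    exact zero_mem _
  rw [Filter.eventually_cofinite] at hev
  refine hTOR _ hev.toFinset (fun ℓ => (hfin ℓ).1) fun ℓ hℓ x hx => ?_
  by_contra hne
  apply hℓ
  rw [Set.Finite.mem_toFinset]
  intro h
  exact hne (h x hx)

theorem T_zero (ℓ : Nat.Primes) : X.T ℓ 0 := by
  intro e
  obtain ⟨N, hN, h⟩ := X.deg_zero ℓ e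
  obtain ⟨t, ht⟩ := (mem_span_iff _ _).mp h
  exact ⟨N, hN, t, ht⟩

/-- The theorem, with the algebraic lemmas as hypotheses. -/
theorem main' (hGLOB : S_GLOB) (hORB : S_ORB) (hRAT : S_RAT) (hLOC : S_LOC) (hRK : S_RK)
    (hPQ : S_PQ) (hANN : S_ANN) (hCHA : S_CHA) (hCHB : S_CHB) (hFIN : S_FIN) (hTOR : S_TOR)
    (hFG : S_FG) (hKL : S_KL) (X : Theory) (ℓ : Nat.Primes) (hℓ : ℓ ≠ X.p) (n : ℕ)
    (h : 2 * n ≤ X.d ∨ X.d ≤ n ∨ X.T ℓ (X.d - n)) : [X.L n, X.K n, X.KQ ℓ n].TFAE := by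
  tfae_have 1 → 2 := fun h => K_of_L hKL X h
  tfae_have 2 → 3 := fun h => KQ_of_K X h ℓ
  tfae_have 3 → 1 := fun hK => by
    by_cases hn : X.d < n
    · exact L_of_KQ_big X hRAT hRK hPQ hANN hCHA hFIN hTOR hFG hn hK
    have hd : n + (X.d - n) = X.d := by omega
    refine L_of_KQ hGLOB hORB hRAT hLOC hRK hPQ hANN hCHA hCHB hFIN hTOR hFG X hℓ hd hK ?_
    rcases h with h | h | h
    · exact T_of_KQ X hℓ hd (by omega) hK
    · have h0 : X.d - n = 0 := by omega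
      rw [h0]
      exact T_zero X ℓ
    · exact h
  tfae_finish

end WE
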