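import Pool.Agent.WEt.LightCorr

/-!
# Weil-etale motivic cohomology: from integral to rational correspondences
-/

open TensorProduct Polynomial

noncomputable section

namespace WEt

namespace Conv

open WE.PAR

/-- the extension of a ring homomorphism to `ℚ ⊗ R` -/
def liftRing {R : Type} [Ring R] (K : Type) [Field K] [CharZero K] {B : Type} [Ring B]
    [Algebra K B] (ρ : R →+* B) : ℚ ⊗[ℤ] R →+* B :=
  letI : Algebra ℚ B := ((algebraMap K B).comp (algebraMap ℚ K)).toAlgebra' (by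
    intro c x
    exact Algebra.commutes _ _)
  (Algebra.TensorProduct.lift (Algebra.ofId ℚ B) ρ.toIntAlgHom
    (fun r _ => Algebra.commutes r _)).toRingHom

theorem liftRing_one {R : Type} [Ring R] (K : Type) [Field K] [CharZero K] {B : Type} [Ring B]
    [Algebra K B] (ρ : R →+* B) (a : R) : liftRing K ρ ((1 : ℚ) ⊗ₜ[ℤ] a) = ρ a := by
  let _ : Algebra ℚ B := ((algebraMap K B).comp (algebraMap ℚ K)).toAlgebra' (by
    intro c x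
    exact Algebra.commutes _ _)
  show (Algebra.TensorProduct.lift (Algebra.ofId ℚ B) ρ.toIntAlgHom
    (fun r _ => Algebra.commutes r _)) ((1 : ℚ) ⊗ₜ[ℤ] a) = ρ a
  rw [Algebra.TensorProduct.lift_tmul, map_one, one_mul]
  rfl

theorem liftRing_inv {R : Type} [Ring R] (K : Type) [Field K] [CharZero K] {B : Type} [Ring B]
    [Algebra K B] (ρ : R →+* B) (N : ℤ) (a : R) :
    liftRing K ρ ((N : ℚ)⁻¹ ⊗ₜ[ℤ] a) = (N : K)⁻¹ • ρ a := by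
  let _ : Algebra ℚ B := ((algebraMap K B).comp (algebraMap ℚ K)).toAlgebra' (by
    intro c x
    exact Algebra.commutes _ _)
  show (Algebra.TensorProduct.lift (Algebra.ofId ℚ B) ρ.toIntAlgHom
    (fun r _ => Algebra.commutes r _)) ((N : ℚ)⁻¹ ⊗ₜ[ℤ] a) = (N : K)⁻¹ • ρ a
  rw [Algebra.TensorProduct.lift_tmul]
  show algebraMap K B (algebraMap ℚ K (N : ℚ)⁻¹) * ρ a = (N : K)⁻¹ • ρ a
  rw [map_inv₀, map_intCast, Algebra.smul_def]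

/-- the extension of a ring homomorphism to `ℚ ⊗ R`, `ℚ`-linear version -/
def liftAlg {R : Type} [Ring R] {B : Type} [Ring B] [Algebra ℚ B] (ρ : R →+* B) :
    ℚ ⊗[ℤ] R →ₐ[ℚ] B :=
  Algebra.TensorProduct.lift (Algebra.ofId ℚ B) ρ.toIntAlgHom (fun r _ => Algebra.commutes r _)

theorem liftAlg_one {R : Type} [Ring R] {B : Type} [Ring B] [Algebra ℚ B] (ρ : R →+* B) (a : R) :
    liftAlg ρ ((1 : ℚ) ⊗ₜ[ℤ] a) = ρ a := by
  rw [liftAlg, Algebra.TensorProduct.lift_tmul, map_one, one_mul]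
  rfl

theorem liftAlg_inv {R : Type} [Ring R] {B : Type} [Ring B] [Algebra ℚ B] (ρ : R →+* B) (N : ℤ)
    (a : R) : liftAlg ρ ((N : ℚ)⁻¹ ⊗ₜ[ℤ] a) = (N : ℚ)⁻¹ • ρ a := by
  rw [liftAlg, Algebra.TensorProduct.lift_tmul, Algebra.smul_def]
  rfl

variable {R : Rg} {A : Ab} {ℓ : Nat.Primes} {M : Zl ℓ}

/-- the additive map given by an element -/
def addEnd (D : Act R A) (a : R.T) : A.T →+ A.T :=
  AddMonoidHom.mk' (D.ap a) (D.add_right a)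

theorem Q_eqv {x y : A.T} (h : Eqv x y) : (1 : ℚ) ⊗ₜ[ℤ] x = (1 : ℚ) ⊗ₜ[ℤ] y := by
  have h1 := Q_of_tors (x := x - y) h
  rwa [tmul_sub, sub_eq_zero] at h1

theorem E_of_tors {M : Type} [AddCommGroup M] [Module ℤ_[ℓ] M] {x : M} (h : Tors x) :
    (1 : ℚ_[ℓ]) ⊗ₜ[ℤ_[ℓ]] x = 0 := by
  obtain ⟨N, hN, h1⟩ := h
  have h2 : (N : ℚ_[ℓ]) • ((1 : ℚ_[ℓ]) ⊗ₜ[ℤ_[ℓ]] x) = 0 := by
    rw [Int.cast_smul_eq_zsmul, ← tmul_smul, h1, tmul_zero]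
  exact (smul_eq_zero.1 h2).resolve_left (by exact_mod_cast hN)

theorem E_eqv {M : Type} [AddCommGroup M] [Module ℤ_[ℓ] M] {x y : M} (h : Eqv x y) :
    (1 : ℚ_[ℓ]) ⊗ₜ[ℤ_[ℓ]] x = (1 : ℚ_[ℓ]) ⊗ₜ[ℤ_[ℓ]] y := by
  have h1 := E_of_tors (ℓ := ℓ) (x := x - y) h
  rwa [tmul_sub, sub_eq_zero] at h1


/-- the action on `ℚ ⊗ A` -/
def rho (D : Act R A) : R.T →+* Module.End ℚ (ℚ ⊗[ℤ] A.T) where
  toFun a := (addEnd D a).toIntLinearMap.baseChange ℚ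
  map_one' := by
    refine TensorProduct.AlgebraTensorModule.curry_injective (LinearMap.ext_ring
      (LinearMap.ext fun x => ?_))
    exact Q_eqv (D.one x)
  map_mul' a b := by
    refine TensorProduct.AlgebraTensorModule.curry_injective (LinearMap.ext_ring
      (LinearMap.ext fun x => ?_))
    exact Q_eqv (D.mul a b x)
  map_zero' := by
    refine TensorProduct.AlgebraTensorModule.curry_injective (LinearMap.ext_ring
      (LinearMap.ext fun x => ?_))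
    have h : D.ap 0 x = 0 := by
      have h1 := D.add_left 0 0 x
      rw [add_zero] at h1
      exact left_eq_add.1 h1
    show (1 : ℚ) ⊗ₜ[ℤ] (D.ap 0 x) = 0
    rw [h, tmul_zero]
  map_add' a b := by
    refine TensorProduct.AlgebraTensorModule.curry_injective (LinearMap.ext_ring
      (LinearMap.ext fun x => ?_))
    show (1 : ℚ) ⊗ₜ[ℤ] (D.ap (a + b) x) = (1 : ℚ) ⊗ₜ[ℤ] (D.ap a x) + (1 : ℚ) ⊗ₜ[ℤ] (D.ap b x)
    rw [D.add_left, tmul_add]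

/-- the linear map given by an element -/
def linEnd (D : ActE R M) (a : R.T) : M.T →ₗ[ℤ_[ℓ]] M.T where
  toFun x := D.ap a x
  map_add' := D.add_right a
  map_smul' c x := D.smul a c x

/-- the action on `ℚ_ℓ ⊗ M` -/
def rhoE (D : ActE R M) : R.T →+* Module.End ℚ_[ℓ] (ℚ_[ℓ] ⊗[ℤ_[ℓ]] M.T) where
  toFun a := (linEnd D a).baseChange ℚ_[ℓ]
  map_one' := by
    refine TensorProduct.AlgebraTensorModule.curry_injective (LinearMap.ext_ring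
      (LinearMap.ext fun x => ?_))
    exact E_eqv (D.one x)
  map_mul' a b := by
    refine TensorProduct.AlgebraTensorModule.curry_injective (LinearMap.ext_ring
      (LinearMap.ext fun x => ?_))
    exact E_eqv (D.mul a b x)
  map_zero' := by
    refine TensorProduct.AlgebraTensorModule.curry_injective (LinearMap.ext_ring
      (LinearMap.ext fun x => ?_))
    have h : (show M.T from D.ap 0 x) = 0 := by
      have h1 : D.ap (0 + 0) x = D.ap 0 x + D.ap 0 x := D.add_left 0 0 x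
      rw [add_zero] at h1
      exact left_eq_add.1 h1
    show (1 : ℚ_[ℓ]) ⊗ₜ[ℤ_[ℓ]] (show M.T from D.ap 0 x) = 0
    rw [h, tmul_zero]
  map_add' a b := by
    refine TensorProduct.AlgebraTensorModule.curry_injective (LinearMap.ext_ring
      (LinearMap.ext fun x => ?_))
    have h : (show M.T from D.ap (a + b) x) = (show M.T from D.ap a x) +
      (show M.T from D.ap b x) := D.add_left a b x
    show (1 : ℚ_[ℓ]) ⊗ₜ[ℤ_[ℓ]] (show M.T from D.ap (a + b) x) =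
      (1 : ℚ_[ℓ]) ⊗ₜ[ℤ_[ℓ]] (show M.T from D.ap a x) +
        (1 : ℚ_[ℓ]) ⊗ₜ[ℤ_[ℓ]] (show M.T from D.ap b x)
    rw [h, tmul_add]

/-- `ℚ ⊗ f` for an additive map -/
def cycQ {R A : Type} [AddCommGroup R] [AddCommGroup A] (f : R → A)
    (hf : ∀ a b, f (a + b) = f a + f b) : ℚ ⊗[ℤ] R →ₗ[ℚ] ℚ ⊗[ℤ] A :=
  (AddMonoidHom.mk' f hf).toIntLinearMap.baseChange ℚ

theorem cycQ_one {R A : Type} [AddCommGroup R] [AddCommGroup A] (f : R → A)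
    (hf : ∀ a b, f (a + b) = f a + f b) (a : R) :
    cycQ f hf ((1 : ℚ) ⊗ₜ[ℤ] a) = (1 : ℚ) ⊗ₜ[ℤ] f a := rfl

theorem cycQ_inj {R A : Type} [AddCommGroup R] [AddCommGroup A] (f : R → A)
    (hf : ∀ a b, f (a + b) = f a + f b) (h : ∀ a, Tors (f a) → Tors a) :
    Function.Injective (cycQ f hf) := by
  rw [injective_iff_map_eq_zero]
  intro t ht
  obtain ⟨k, hk, a, ha⟩ := Q_exists t
  have hk' : (k : ℚ) ≠ 0 := by exact_mod_cast hk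
  have h1 : (1 : ℚ) ⊗ₜ[ℤ] f a = 0 := by
    rw [← cycQ_one f hf, ← ha, map_smul, ht, smul_zero]
  have h2 := Q_of_tors (h a (Q_zero h1))
  rw [← ha] at h2
  exact (smul_eq_zero.1 h2).resolve_left hk'

theorem actE_tors (D : ActE R M) (a : ℚ ⊗[ℤ] R.T) (k : ℤ) (r : R.T)
    (hr : (k : ℚ) • a = (1 : ℚ) ⊗ₜ[ℤ] r) (h : liftRing ℚ_[ℓ] (rhoE D) a = 0) (x : M.T) :
    Tors (show M.T from D.ap r x) := by
  have h2 : liftRing ℚ_[ℓ] (rhoE D) ((1 : ℚ) ⊗ₜ[ℤ] r) = 0 := by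
    rw [← hr, Int.cast_smul_eq_zsmul, map_zsmul, h, smul_zero]
  rw [liftRing_one] at h2
  have h3 : (1 : ℚ_[ℓ]) ⊗ₜ[ℤ_[ℓ]] (show M.T from D.ap r x) = 0 :=
    LinearMap.congr_fun h2 ((1 : ℚ_[ℓ]) ⊗ₜ[ℤ_[ℓ]] x)
  exact E_zero h3

theorem ratMap_zero {R' C E : Type} [AddCommGroup R'] [AddCommGroup C] [AddCommGroup E]
    [Module ℤ_[ℓ] E] (c : C →+ E) (f : R' → C) (hf : ∀ a b, f (a + b) = f a + f b)
    (a : ℚ ⊗[ℤ] R') (k : ℤ) (hk : k ≠ 0) (r : R') (hr : (k : ℚ) • a = (1 : ℚ) ⊗ₜ[ℤ] r)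
    (h : Tors (c (f r))) : WE.ratMap ℓ c (cycQ f hf a) = 0 := by
  have h1 : WE.ratMap ℓ c (cycQ f hf ((1 : ℚ) ⊗ₜ[ℤ] r)) = 0 := by
    rw [cycQ_one, ratMap_tmul, Rat.cast_one]
    exact E_of_tors h
  rw [← hr, Int.cast_smul_eq_zsmul, map_zsmul, map_zsmul] at h1
  have h2 : (k : ℚ_[ℓ]) • WE.ratMap ℓ c (cycQ f hf a) = 0 := by
    rw [Int.cast_smul_eq_zsmul]
    exact h1
  exact (smul_eq_zero.1 h2).resolve_left (by exact_mod_cast hk)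

theorem rho_gamma (D : Act R A) (F : A.T →+ A.T) (q n : ℕ) (γ : R.T)
    (h : ∀ x, Eqv (D.ap γ x) (q ^ n • F x)) :
    liftAlg (rho D) ((1 : ℚ) ⊗ₜ[ℤ] γ) = ((q : ℚ) ^ n) • F.toIntLinearMap.baseChange ℚ := by
  rw [liftAlg_one]
  refine TensorProduct.AlgebraTensorModule.curry_injective (LinearMap.ext_ring
    (LinearMap.ext fun x => ?_))
  show (1 : ℚ) ⊗ₜ[ℤ] (D.ap γ x) = ((q : ℚ) ^ n) • ((1 : ℚ) ⊗ₜ[ℤ] (F x))
  rw [Q_eqv (h x), ← natCast_zsmul, tmul_smul, ← Int.cast_smul_eq_zsmul ℚ]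
  push_cast
  rfl

theorem rhoE_gamma (D : ActE R M) (F : M.T →ₗ[ℤ_[ℓ]] M.T) (q n : ℕ) (γ : R.T)
    (h : ∀ x : M.T, Eqv (show M.T from D.ap γ x) (q ^ n • F x)) :
    liftRing ℚ_[ℓ] (rhoE D) ((1 : ℚ) ⊗ₜ[ℤ] γ) = ((q : ℚ_[ℓ]) ^ n) • F.baseChange ℚ_[ℓ] := by
  rw [liftRing_one]
  refine TensorProduct.AlgebraTensorModule.curry_injective (LinearMap.ext_ring
    (LinearMap.ext fun x => ?_))
  show (1 : ℚ_[ℓ]) ⊗ₜ[ℤ_[ℓ]] (show M.T from D.ap γ x) =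
    ((q : ℚ_[ℓ]) ^ n) • ((1 : ℚ_[ℓ]) ⊗ₜ[ℤ_[ℓ]] (F x))
  rw [E_eqv (h x), ← natCast_zsmul, tmul_smul, ← Int.cast_smul_eq_zsmul ℚ_[ℓ]]
  push_cast
  rfl

theorem rho_zero (D : Act R A) (N : ℤ) (a : R.T) (h : ∀ x, Eqv (D.ap a x) 0) :
    liftAlg (rho D) ((N : ℚ)⁻¹ ⊗ₜ[ℤ] a) = 0 := by
  rw [liftAlg_inv]
  have h1 : rho D a = 0 := by
    refine TensorProduct.AlgebraTensorModule.curry_injective (LinearMap.ext_ring
      (LinearMap.ext fun x => ?_))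
    show (1 : ℚ) ⊗ₜ[ℤ] (D.ap a x) = 0
    rw [Q_eqv (h x), tmul_zero]
  rw [h1, smul_zero]

theorem rhoE_zero (D : ActE R M) (N : ℤ) (a : R.T)
    (h : ∀ x : M.T, Eqv (show M.T from D.ap a x) 0) :
    liftRing ℚ_[ℓ] (rhoE D) ((N : ℚ)⁻¹ ⊗ₜ[ℤ] a) = 0 := by
  rw [liftRing_inv]
  have h1 : rhoE D a = 0 := by
    refine TensorProduct.AlgebraTensorModule.curry_injective (LinearMap.ext_ring
      (LinearMap.ext fun x => ?_))
    show (1 : ℚ_[ℓ]) ⊗ₜ[ℤ_[ℓ]] (show M.T from D.ap a x) = 0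
    rw [E_eqv (h x), tmul_zero]
  rw [h1, smul_zero]

theorem rhoE_ext (D : ActE R M) (N : ℤ) (hN : N ≠ 0) (a : R.T) (y w w' : M.T) (c : ℤ_[ℓ])
    (hw : w' = N • w) (h : Eqv (show M.T from D.ap a y) (c • w')) :
    liftRing ℚ_[ℓ] (rhoE D) ((N : ℚ)⁻¹ ⊗ₜ[ℤ] a) ((1 : ℚ_[ℓ]) ⊗ₜ[ℤ_[ℓ]] y) =
      (c : ℚ_[ℓ]) • ((1 : ℚ_[ℓ]) ⊗ₜ[ℤ_[ℓ]] w) := by
  have hN' : (N : ℚ_[ℓ]) ≠ 0 := by exact_mod_cast hN
  rw [liftRing_inv]
  show (N : ℚ_[ℓ])⁻¹ • ((1 : ℚ_[ℓ]) ⊗ₜ[ℤ_[ℓ]] (show M.T from D.ap a y)) = _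
  rw [E_eqv h, hw, smul_comm c N w, tmul_smul, ← Int.cast_smul_eq_zsmul ℚ_[ℓ] N, smul_smul,
    inv_mul_cancel₀ hN', one_smul, tmul_smul]
  rfl

theorem ap_zsmul {B : Ab} (c : A.HomZl M) (r : B.Hom A) (N : ℤ) (z : B.T) :
    c.ap (r.ap (N • z)) = N • c.ap (r.ap z) := by
  show (show A.T →+ M.T from c) ((show B.T →+ A.T from r) (N • z)) =
    N • (show A.T →+ M.T from c) ((show B.T →+ A.T from r) z)
  rw [map_zsmul, map_zsmul]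

end Conv

open Conv WE.PAR

variable {X Y : Coh}

/-- conversion to rational coefficients -/
def toSq (D : Corr X.toGroups Y.toGroups) (Φ : Frob D)
    (S : ∀ n m h, Ext D (X.duality n m h)) : WE.Sq X.old Y.old where
  q := Φ.q
  q_pos := Φ.q_pos
  A := ℚ ⊗[ℤ] D.R.T
  cyc := cycQ D.cyc D.cyc_add
  cyc_inj := cycQ_inj D.cyc D.cyc_add D.cyc_tors
  cyc_F a := by
    have h : ((((Y.W X.d).F (2 * (X.d : ℤ))).toIntLinearMap.baseChange ℚ).comp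
        (cycQ D.cyc D.cyc_add)) = cycQ D.cyc D.cyc_add := by
      refine TensorProduct.AlgebraTensorModule.curry_injective (LinearMap.ext_ring
        (LinearMap.ext fun x => ?_))
      show (1 : ℚ) ⊗ₜ[ℤ] (((Y.W X.d).F (2 * (X.d : ℤ))).ap (D.cyc x)) = (1 : ℚ) ⊗ₜ[ℤ] D.cyc x
      rw [D.cyc_F]
    exact LinearMap.congr_fun h a
  act n i := liftAlg (rho (D.act n i))
  actE ℓ h n i := liftRing ℚ_[ℓ] (rhoE (D.actE ℓ h n i))
  faithful ℓ hℓ n a ha := by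
    obtain ⟨k, hk, r, hr⟩ := Q_exists a
    refine ratMap_zero _ D.cyc D.cyc_add a k hk r hr (D.faithful ℓ hℓ n r fun i hi0 hi1 x => ?_)
    have h4 := actE_tors (D.actE ℓ hℓ n i) a k r hr (ha i hi0 hi1) x
    show Tors ((D.actE ℓ hℓ n i).ap r x - 0)
    rw [sub_zero]
    exact h4
  γ := (1 : ℚ) ⊗ₜ[ℤ] Φ.γ
  act_γ n i := rho_gamma (D.act n i) ((X.W n).F i) Φ.q n Φ.γ (Φ.act n i)
  actE_γ ℓ hℓ n i := rhoE_gamma (D.actE ℓ hℓ n i) ((X.E ℓ n).F i) Φ.q n Φ.γ (Φ.actE ℓ hℓ n i)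
  ext n m h z g := (((S n m h).N z g : ℤ) : ℚ)⁻¹ ⊗ₜ[ℤ] (S n m h).ext z g
  act_ext n m h z g i hi := rho_zero (D.act n i) _ _ ((S n m h).act z g i hi)
  actE_ext ℓ hℓ n m h z g i hi := rhoE_zero (D.actE ℓ hℓ n i) _ _ ((S n m h).actE ℓ hℓ z g i hi)
  actE_ext' ℓ hℓ n m h z g y := rhoE_ext (D.actE ℓ hℓ n _) _ ((S n m h).N_ne z g) _ y _ _ _
    (ap_zsmul _ _ _ _) ((S n m h).actE' ℓ hℓ z g y)

end WEt
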