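import Mathlib

/-!
# Weil-etale motivic cohomology: the abstract set-up

`Theory` collects, for a smooth projective variety `X` of dimension `d` over a finite field of
characteristic `p`, its Weil-etale motivic cohomology, its continuous `ℓ`-adic etale cohomology,
the comparison maps between them, and the theorems of the literature about them that are used.
-/

open TensorProduct Polynomial

noncomputable section

namespace WE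

instance primeFact (ℓ : Nat.Primes) : Fact (ℓ : ℕ).Prime := ⟨ℓ.2⟩

/-- `x` is killed by a non-zero integer. -/
def Tors {A : Type} [AddCommGroup A] (x : A) : Prop := ∃ N : ℤ, N ≠ 0 ∧ N • x = 0

/-- For a fixed weight `n`: `C i = H^i(X̄_et, ℤ(n))` with the Frobenius `F`, and
`H i = H^i_W(X, ℤ(n))`, with the short exact sequences
`0 → H^(i-1)(X̄_et, ℤ(n))_F → H^i_W(X, ℤ(n)) → H^i(X̄_et, ℤ(n))^F → 0`.
Every class on `X̄` is defined over a finite extension of the finite field (`orbit`). -/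
structure Weil where
  C : ℤ → Type
  H : ℤ → Type
  [gC : ∀ i, AddCommGroup (C i)]
  [gH : ∀ i, AddCommGroup (H i)]
  F : ∀ i, C i →+ C i
  inc : ∀ i, C i →+ H (i + 1)
  res : ∀ i, H i →+ C i
  inc_eq_zero : ∀ i x, inc i x = 0 ↔ ∃ y, x = F i y - y
  res_mem : ∀ i x, (∃ h, res i h = x) ↔ F i x = x
  res_eq_zero : ∀ i h, res (i + 1) h = 0 ↔ ∃ x, inc i x = h
  orbit : ∀ i x, ∃ k : ℕ, 0 < k ∧ (fun z => F i z)^[k] x = x

attribute [instance] Weil.gC Weil.gH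

/-- For a fixed weight `n` and a prime `ℓ`: `C i = H^i(X̄_et, ℤ_ℓ(n))` with the Frobenius `F`,
and `H i = H^i(X_et, ℤ_ℓ(n))`, with the short exact sequences
`0 → H^(i-1)(X̄_et, ℤ_ℓ(n))_F → H^i(X_et, ℤ_ℓ(n)) → H^i(X̄_et, ℤ_ℓ(n))^F → 0`. -/
structure Adic (ℓ : Nat.Primes) where
  C : ℤ → Type
  H : ℤ → Type
  [gC : ∀ i, AddCommGroup (C i)]
  [mC : ∀ i, Module ℤ_[ℓ] (C i)]
  [gH : ∀ i, AddCommGroup (H i)]
  [mH : ∀ i, Module ℤ_[ℓ] (H i)]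
  F : ∀ i, C i →ₗ[ℤ_[ℓ]] C i
  inc : ∀ i, C i →ₗ[ℤ_[ℓ]] H (i + 1)
  res : ∀ i, H i →ₗ[ℤ_[ℓ]] C i
  inc_eq_zero : ∀ i x, inc i x = 0 ↔ ∃ y, x = F i y - y
  res_mem : ∀ i x, (∃ h, res i h = x) ↔ F i x = x
  res_eq_zero : ∀ i h, res (i + 1) h = 0 ↔ ∃ x, inc i x = h
  finH : ∀ i, Module.Finite ℤ_[ℓ] (H i)

attribute [instance] Adic.gC Adic.mC Adic.gH Adic.mH Adic.finH

/-- The cohomology groups of a smooth projective variety `X` of dimension `d` over a finite field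
of characteristic `p`. -/
structure Groups where
  /-- the characteristic -/
  p : Nat.Primes
  /-- the dimension -/
  d : ℕ
  /-- Weil-etale motivic cohomology of weight `n` -/
  W : ℕ → Weil
  /-- `ℓ`-adic etale cohomology of weight `n` -/
  E : ∀ ℓ : Nat.Primes, ℕ → Adic ℓ

/-- The groups with the comparison maps. -/
structure Maps extends Groups where
  /-- the cycle maps `H^i(X̄_et, ℤ(n)) → H^i(X̄_et, ℤ_ℓ(n))` -/
  cC : ∀ ℓ n i, (W n).C i →+ (E ℓ n).C i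
  /-- the comparison maps `H^i_W(X, ℤ(n)) → H^i(X_et, ℤ_ℓ(n))` -/
  cH : ∀ ℓ n i, (W n).H i →+ (E ℓ n).H i
  cH_inc : ∀ ℓ n i x, cH ℓ n (i + 1) ((W n).inc i x) = (E ℓ n).inc i (cC ℓ n i x)
  res_cH : ∀ ℓ n i h, (E ℓ n).res i (cH ℓ n i h) = cC ℓ n i ((W n).res i h)

/-- The cohomology of the cone of the comparison map: it is uniquely `ℓ`-divisible since
`H^i_W(X, ℤ/ℓ(n)) = H^i(X_et, ℤ/ℓ(n))`. -/
structure Cones extends Maps where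
  Q : Nat.Primes → ℕ → ℤ → Type
  [gQ : ∀ ℓ n i, AddCommGroup (Q ℓ n i)]
  q : ∀ ℓ n i, (E ℓ n).H i →+ Q ℓ n i
  δ : ∀ ℓ n i, Q ℓ n i →+ (W n).H (i + 1)
  cH_eq_zero : ∀ ℓ n i h, cH ℓ n (i + 1) h = 0 ↔ ∃ y, δ ℓ n i y = h
  q_eq_zero : ∀ ℓ n i e, q ℓ n i e = 0 ↔ ∃ h, cH ℓ n i h = e
  δ_eq_zero : ∀ ℓ n i y, δ ℓ n i y = 0 ↔ ∃ e, q ℓ n i e = y
  Q_div : ∀ ℓ n i, Function.Bijective (fun y : Q ℓ n i => (ℓ : ℕ) • y)

attribute [instance] Cones.gQ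

/-- The characteristic polynomials of Frobenius, and the finiteness theorems. -/
structure Weights extends Cones where
  /-- finiteness of `ℓ`-adic cohomology of `X̄`, `ℓ ≠ p` -/
  finC : ∀ ℓ, ℓ ≠ p → ∀ n i, Module.Finite ℤ_[ℓ] ((E ℓ n).C i)
  /-- Gabber: no torsion for almost all `ℓ` -/
  gabber : ∀ n i, ∃ S : Finset Nat.Primes, ∀ ℓ, ℓ ∉ S → ∀ x : (E ℓ n).C i, Tors x → x = 0
  /-- Deligne: the characteristic polynomial of Frobenius on `H^i(X̄, ℚ_ℓ(n))` is rational and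
  independent of `ℓ ≠ p`, and `1` is a root only for `i = 2 n` -/
  P : ℕ → ℤ → ℚ[X]
  charpoly : ∀ ℓ, ℓ ≠ p → ∀ n i [Module.Finite ℤ_[ℓ] ((E ℓ n).C i)],
    (((E ℓ n).F i).baseChange ℚ_[ℓ]).charpoly = (P n i).map (algebraMap ℚ ℚ_[ℓ])
  P_one : ∀ (n : ℕ) (i : ℤ), i ≠ 2 * (n : ℤ) → (P n i).eval 1 ≠ 0
  /-- no cohomology of `X̄` in degrees larger than `2 d` -/
  P_big : ∀ n : ℕ, d < n → (P n (2 * (n : ℤ))).eval 1 ≠ 0

/-- `p`-adic cohomology of `X`, and cohomology in degree and weight `0`. -/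
structure Ranks extends Weights where
  tors_p : ∀ (n : ℕ) (i : ℤ), i ≠ 2 * (n : ℤ) → i ≠ 2 * (n : ℤ) + 1 →
    ∀ x : (E p n).H i, Tors x
  rank_p : ∀ n : ℕ, Module.finrank ℤ_[p] ((E p n).H (2 * (n : ℤ))) ≤
    (P n (2 * (n : ℤ))).rootMultiplicity 1
  rank_p' : ∀ n : ℕ, Module.finrank ℤ_[p] ((E p n).H (2 * (n : ℤ) + 1)) ≤
    (P n (2 * (n : ℤ))).rootMultiplicity 1
  /-- `H^0(X, ℚ_ℓ)` is spanned by the image of `H^0_W(X, ℤ(0))` (the constant functions) -/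
  deg_zero : ∀ (ℓ : Nat.Primes) (e : (E ℓ 0).H (2 * ((0 : ℕ) : ℤ))), ∃ N : ℤ, N ≠ 0 ∧
    N • e ∈ Submodule.span ℤ_[ℓ] (Set.range (cH ℓ 0 (2 * ((0 : ℕ) : ℤ))))

/-- Cup products and Poincare duality. -/
structure Duality extends Ranks where
  /-- cup product `H^(2n+1)_W(X, ℤ(n)) × H^(2m)_W(X, ℤ(m)) → H^(2d+1)_W(X, ℤ(d)) → ℤ` -/
  pair : ∀ n m : ℕ, n + m = d → (W n).H (2 * (n : ℤ) + 1) →+ (W m).H (2 * (m : ℤ)) →+ ℤ
  /-- cup product `H^(2n+1)(X, ℤ_ℓ(n)) × H^(2m)(X, ℤ_ℓ(m)) → H^(2d+1)(X, ℤ_ℓ(d)) → ℤ_ℓ` -/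
  pairE : ∀ (ℓ : Nat.Primes) (n m : ℕ), n + m = d →
    (E ℓ n).H (2 * (n : ℤ) + 1) →ₗ[ℤ_[ℓ]] (E ℓ m).H (2 * (m : ℤ)) →ₗ[ℤ_[ℓ]] ℤ_[ℓ]
  pair_cH : ∀ ℓ n m h x y,
    pairE ℓ n m h (cH ℓ n _ x) (cH ℓ m _ y) = ((pair n m h x y : ℤ) : ℤ_[ℓ])
  /-- Poincare duality, `ℓ ≠ p` -/
  pairE_ker : ∀ ℓ, ℓ ≠ p → ∀ n m h x, (∀ y, pairE ℓ n m h x y = 0) → Tors x

/-- The cohomology of a smooth projective variety `X` of dimension `d` over a finite field of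
characteristic `p`: all data above, and the hard Lefschetz theorem. -/
structure Theory extends Duality where
  /-- product with the `(m-n)`-th power of a hyperplane class, for `n + m = d`, `n ≤ m` -/
  lef : ∀ n m : ℕ, n + m = d → n ≤ m → (W n).H (2 * (n : ℤ)) →+ (W m).H (2 * (m : ℤ))
  lefE : ∀ (ℓ : Nat.Primes) (n m : ℕ), n + m = d → n ≤ m →
    (E ℓ n).H (2 * (n : ℤ)) →ₗ[ℤ_[ℓ]] (E ℓ m).H (2 * (m : ℤ))
  lefE_cH : ∀ ℓ n m h h' x, lefE ℓ n m h h' (cH ℓ n _ x) = cH ℓ m _ (lef n m h h' x)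
  /-- hard Lefschetz, `ℓ ≠ p` -/
  lefE_coker : ∀ ℓ, ℓ ≠ p → ∀ n m h h' y, ∃ N : ℤ, N ≠ 0 ∧ ∃ x, lefE ℓ n m h h' x = N • y

/-- The `ℤ_ℓ`-linear map `ℤ_ℓ ⊗ A → E` given by an additive map `A → E`. -/
def tens (ℓ : Nat.Primes) {A E : Type} [AddCommGroup A] [AddCommGroup E] [Module ℤ_[ℓ] E]
    (c : A →+ E) : ℤ_[ℓ] ⊗[ℤ] A →ₗ[ℤ_[ℓ]] E :=
  LinearMap.liftBaseChange ℤ_[ℓ] c.toIntLinearMap

namespace Theory

variable (X : Theory)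

/-- `L^n(X)`: all groups `H^i_W(X, ℤ(n))` are finitely generated. -/
def L (n : ℕ) : Prop := ∀ i, AddGroup.FG ((X.W n).H i)

/-- `K^n(X)`: for all primes `ℓ` and all `i` the map
`H^i_W(X, ℤ(n)) ⊗ ℤ_ℓ → H^i(X_et, ℤ_ℓ(n))` is bijective. -/
def K (n : ℕ) : Prop := ∀ ℓ i, Function.Bijective (tens ℓ (X.cH ℓ n i))

/-- `K^n(X)` rationally and for the single prime `ℓ`: for all `i` the map
`H^i_W(X, ℤ(n)) ⊗ ℤ_ℓ → H^i(X_et, ℤ_ℓ(n))` has torsion kernel and torsion cokernel. -/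
def KQ (ℓ : Nat.Primes) (n : ℕ) : Prop := ∀ i,
  (∀ t, tens ℓ (X.cH ℓ n i) t = 0 → Tors t) ∧
    ∀ e, ∃ N : ℤ, N ≠ 0 ∧ ∃ t, tens ℓ (X.cH ℓ n i) t = N • e

/-- The Tate conjecture in codimension `m` for the prime `ℓ`: the map
`H^(2m)_W(X, ℤ(m)) ⊗ ℤ_ℓ → H^(2m)(X_et, ℤ_ℓ(m))` has torsion cokernel. -/
def T (ℓ : Nat.Primes) (m : ℕ) : Prop :=
  ∀ e : (X.E ℓ m).H (2 * (m : ℤ)), ∃ N : ℤ, N ≠ 0 ∧ ∃ t, tens ℓ (X.cH ℓ m _) t = N • e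

end Theory

end WE
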