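import Pool.Agent.WEt.Defs

/-!
# Weil-etale motivic cohomology: the family of all smooth projective varieties

`Fam` extends the set-up `Theory` of `Defs.lean` to all smooth projective varieties over finite
fields: blow-ups of projective spaces along smooth subvarieties, and the ring of correspondences (rational algebraic
cycles of codimension `d` on `X × X`) acting on motivic and on `ℓ`-adic cohomology of `X̄`.
-/

open TensorProduct Polynomial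

noncomputable section

namespace WE

/-- `ℚ ⊗ A → ℚ_ℓ ⊗ E` for an additive map `A → E` -/
def ratMap (ℓ : Nat.Primes) {A E : Type} [AddCommGroup A] [AddCommGroup E] [Module ℤ_[ℓ] E]
    (c : A →+ E) : ℚ ⊗[ℤ] A →+ ℚ_[ℓ] ⊗[ℤ_[ℓ]] E :=
  TensorProduct.liftAddHom
    { toFun := fun r =>
        { toFun := fun x => (r : ℚ_[ℓ]) ⊗ₜ[ℤ_[ℓ]] c x
          map_zero' := by rw [map_zero, tmul_zero]
          map_add' := fun x y => by rw [map_add, tmul_add] }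
      map_zero' := by
        ext x
        simp
      map_add' := fun r s => by
        ext x
        simp [add_tmul] }
    (fun k r x => by
      show ((k • r : ℚ) : ℚ_[ℓ]) ⊗ₜ[ℤ_[ℓ]] c x = (r : ℚ_[ℓ]) ⊗ₜ[ℤ_[ℓ]] c (k • x)
      rw [map_zsmul, tmul_smul, smul_tmul', zsmul_eq_mul, zsmul_eq_mul, Rat.cast_mul,
        Rat.cast_intCast])

namespace Theory

variable (X : Theory)

/-- The Tate conjecture in codimension `n` for `ℓ`, on `X̄`: every Frobenius invariant class in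
`H^(2n)(X̄, ℤ_ℓ(n))` is, up to a multiple, a `ℤ_ℓ`-combination of classes of Frobenius invariant
elements of `H^(2n)(X̄_et, ℤ(n))`. -/
def TC (ℓ : Nat.Primes) (n : ℕ) : Prop :=
  ∀ y : (X.E ℓ n).C (2 * (n : ℤ)), (X.E ℓ n).F _ y = y → ∃ N : ℤ, N ≠ 0 ∧
    N • y ∈ Submodule.span ℤ_[ℓ] {z | ∃ x, (X.W n).F _ x = x ∧ X.cC ℓ n _ x = z}

/-- The eigenvalue `1` of Frobenius on `H^(2n)(X̄, ℚ_ℓ(n))` is semisimple. -/
def SS (ℓ : Nat.Primes) (n : ℕ) : Prop :=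
  ∀ z : (X.E ℓ n).C (2 * (n : ℤ)), (X.E ℓ n).F _ ((X.E ℓ n).F _ z - z) = (X.E ℓ n).F _ z - z →
    Tors ((X.E ℓ n).F _ z - z)

/-- Rational and `ℓ`-adic homological equivalence agree up to torsion in codimension `n`:
`CH^n(X) ⊗ ℚ → H^(2n)(X̄, ℚ_ℓ(n))` is injective. -/
def B (ℓ : Nat.Primes) (n : ℕ) : Prop :=
  ∀ x : (X.W n).C (2 * (n : ℤ)), (X.W n).F _ x = x → Tors (X.cC ℓ n _ x) → Tors x

end Theory

/-- The numerical conditions in the blow-up formula for a subvariety of dimension `d` of `ℙ^M`. -/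
structure Adm (M0 d M n j n' : ℕ) (i i' : ℤ) : Prop where
  hM : M0 ≤ M
  one_le : 1 ≤ j
  le : j + d + 1 ≤ M
  hn : n' = n + j
  hi : i' = i + 2 * (j : ℤ)

/-- All smooth projective varieties over finite fields, with the blow-ups of projective spaces and
with the rings of correspondences. In `th X` the map `F` is the geometric Frobenius. -/
structure Fam where
  /-- the smooth projective varieties over finite fields -/
  V : Type
  th : V → Theory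
  /-- the number of elements of the base field of `X` -/
  q : V → ℕ
  q_pos : ∀ X, 0 < q X
  /-- `X` has a closed embedding in `ℙ^M` for all `M ≥ M0 X` -/
  M0 : V → ℕ
  /-- for `M ≥ M0 X`: the blow-up of `ℙ^M` along `X` -/
  BL : V → ℕ → V
  d_BL : ∀ X M, M0 X ≤ M → (th (BL X M)).d = M
  p_BL : ∀ X M, M0 X ≤ M → (th (BL X M)).p = (th X).p
  /-- blow-up formula: `H^i_W(X, ℤ(n))` is a direct summand of `H^(i+2j)_W(Y, ℤ(n+j))`, where `Y`
  is the blow-up of `ℙ^M` along `X` and `1 ≤ j ≤ M - d - 1` -/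
  blH : ∀ (X : V) (M n j n' : ℕ) (i i' : ℤ), Adm (M0 X) (th X).d M n j n' i i' →
    ((th X).W n).H i →+ ((th (BL X M)).W n').H i'
  blH_inj : ∀ X M n j n' i i' h, Function.Injective (blH X M n j n' i i' h)
  /-- the same for `H^i(X̄_et, ℤ(n))` -/
  blC : ∀ (X : V) (M n j n' : ℕ) (i i' : ℤ), Adm (M0 X) (th X).d M n j n' i i' →
    ((th X).W n).C i →+ ((th (BL X M)).W n').C i'
  blC_inj : ∀ X M n j n' i i' h, Function.Injective (blC X M n j n' i i' h)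
  blC_F : ∀ X M n j n' i i' h x, ((th (BL X M)).W n').F i' (blC X M n j n' i i' h x) =
    blC X M n j n' i i' h (((th X).W n).F i x)
  /-- the same for `H^i(X̄_et, ℤ_ℓ(n))` -/
  blE : ∀ (X : V) (ℓ : Nat.Primes) (M n j n' : ℕ) (i i' : ℤ),
    Adm (M0 X) (th X).d M n j n' i i' → ((th X).E ℓ n).C i →+ ((th (BL X M)).E ℓ n').C i'
  blE_cC : ∀ X ℓ M n j n' i i' h x, (th (BL X M)).cC ℓ n' i' (blC X M n j n' i i' h x) =
    blE X ℓ M n j n' i i' h ((th X).cC ℓ n i x)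
  /-- the product `X × X` -/
  sq : V → V
  p_sq : ∀ X, (th (sq X)).p = (th X).p
  d_sq : ∀ X, (th (sq X)).d = 2 * (th X).d
  /-- the ring of correspondences `CH^d(X × X) ⊗ ℚ`, `d = dim X` -/
  A : V → Type
  [rA : ∀ X, Ring (A X)]
  [aA : ∀ X, Algebra ℚ (A X)]
  /-- the inclusion `CH^d(X × X) ⊗ ℚ ⊆ H^(2d)(X̄ × X̄, ℚ(d))` -/
  cyc : ∀ X, A X →ₗ[ℚ] ℚ ⊗[ℤ] ((th (sq X)).W (th X).d).C (2 * ((th X).d : ℤ))
  cyc_inj : ∀ X, Function.Injective (cyc X)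
  cyc_F : ∀ X a, (((th (sq X)).W (th X).d).F (2 * ((th X).d : ℤ))).toIntLinearMap.baseChange ℚ
    (cyc X a) = cyc X a
  /-- the action of correspondences on `H^i(X̄, ℚ(n))` -/
  act : ∀ X n i, A X →ₐ[ℚ] Module.End ℚ (ℚ ⊗[ℤ] ((th X).W n).C i)
  /-- the action of correspondences on `H^i(X̄, ℚ_ℓ(n))`, `ℓ ≠ p` -/
  actE : ∀ X ℓ, ℓ ≠ (th X).p → ∀ n i,
    A X →+* Module.End ℚ_[ℓ] (ℚ_[ℓ] ⊗[ℤ_[ℓ]] ((th X).E ℓ n).C i)
  /-- Künneth formula and Poincare duality: a correspondence which acts as zero on the cohomology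
  of `X̄` is homologically equivalent to zero -/
  faithful : ∀ X ℓ hℓ n a, (∀ i : ℤ, 0 ≤ i → i ≤ 2 * ((th X).d : ℤ) → actE X ℓ hℓ n i a = 0) →
    ratMap ℓ ((th (sq X)).cC ℓ (th X).d (2 * ((th X).d : ℤ))) (cyc X a) = 0
  /-- the graph of the `q`-Frobenius of `X` -/
  γ : ∀ X, A X
  act_γ : ∀ X n i, act X n i (γ X) =
    ((q X : ℚ) ^ n) • (((th X).W n).F i).toIntLinearMap.baseChange ℚ
  actE_γ : ∀ X ℓ hℓ n i, actE X ℓ hℓ n i (γ X) =
    ((q X : ℚ_[ℓ]) ^ n) • (((th X).E ℓ n).F i).baseChange ℚ_[ℓ]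
  /-- the exterior product `z × g` of cycles of codimensions `n` and `m`, `n + m = d` -/
  ext : ∀ (X : V) (n m : ℕ), n + m = (th X).d → ((th X).W n).H (2 * (n : ℤ)) →
    ((th X).W m).H (2 * (m : ℤ)) → A X
  act_ext : ∀ X (n m : ℕ) h z g (i : ℤ), i ≠ 2 * (n : ℤ) → act X n i (ext X n m h z g) = 0
  actE_ext : ∀ X ℓ hℓ (n m : ℕ) h z g (i : ℤ), i ≠ 2 * (n : ℤ) →
    actE X ℓ hℓ n i (ext X n m h z g) = 0
  actE_ext' : ∀ X ℓ hℓ n m h z g (y : ((th X).E ℓ n).C (2 * (n : ℤ))),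
    actE X ℓ hℓ n (2 * (n : ℤ)) (ext X n m h z g) (1 ⊗ₜ y) =
      ((((th X).pairE ℓ n m h (((th X).E ℓ n).inc _ y) ((th X).cH ℓ m _ g) : ℤ_[ℓ])) : ℚ_[ℓ]) •
        (1 ⊗ₜ (th X).cC ℓ n _ (((th X).W n).res _ z))

attribute [instance] Fam.rA Fam.aA

/-- Cycles `a_j` of codimension `n` and `g_k` of codimension `m`, `n + m = d`, with nonsingular
intersection matrix, such that the `a_j` span the cycles of codimension `n` up to torsion, and as
many as the multiplicity of the eigenvalue `1` of Frobenius on `H^(2n)(X̄, ℚ_ℓ(n))`. -/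
structure Pre (X : Theory) (n m : ℕ) (hd : n + m = X.d) where
  ρ : ℕ
  a : Fin ρ → (X.W n).H (2 * (n : ℤ))
  g : Fin ρ → (X.W m).H (2 * (m : ℤ))
  det_ne : (Matrix.of fun j k =>
    X.pair n m hd ((X.W n).inc _ ((X.W n).res _ (a j))) (g k)).det ≠ 0
  maxC : ∀ x : (X.W n).C (2 * (n : ℤ)), (X.W n).F _ x = x →
    ∃ N : ℤ, N ≠ 0 ∧ ∃ c : Fin ρ → ℤ, Tors (N • x - ∑ j, c j • (X.W n).res _ (a j))
  big : (X.P n (2 * (n : ℤ))).rootMultiplicity 1 ≤ ρ

/-- MODULE PRE -/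
def S_PRE : Prop := ∀ (X : Theory) (ℓ : Nat.Primes), ℓ ≠ X.p → ∀ (n m : ℕ) (hd : n + m = X.d),
  X.TC ℓ n → X.SS ℓ n → X.B ℓ n → X.TC ℓ m → Nonempty (Pre X n m hd)

/-- MODULE PAR (Parshin's conjecture from correspondences) -/
def S_PAR : Prop := ∀ (F : Fam) (X : F.V) (ℓ : Nat.Primes), ℓ ≠ (F.th X).p →
  ∀ (n m : ℕ) (hd : n + m = (F.th X).d), Nonempty (Pre (F.th X) n m hd) →
  (F.th (F.sq X)).B ℓ (F.th X).d →
  ∀ i : ℤ, i ≠ 2 * (n : ℤ) → ∀ x : ((F.th X).W n).C i, ((F.th X).W n).F i x = x → Tors x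

/-- MODULE PGD -/
def S_PGD : Prop := ∀ (X : Theory) (n m : ℕ) (hd : n + m = X.d), Nonempty (Pre X n m hd) →
  (∀ i : ℤ, i ≠ 2 * (n : ℤ) → ∀ x : (X.W n).C i, (X.W n).F i x = x → Tors x) → X.L n

/-- MODULE FWD -/
def S_FWD : Prop := ∀ (X : Theory) (ℓ : Nat.Primes), ℓ ≠ X.p → ∀ (n m : ℕ), n + m = X.d →
  X.KQ ℓ n → X.T ℓ m → X.TC ℓ n ∧ X.SS ℓ n ∧ X.B ℓ n

end WE
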