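import Pool.Agent.WEt.Final

/-!
# Weil-etale motivic cohomology: the statement

`Coh` collects, for a smooth projective variety `X` of dimension `d` over a finite field of
characteristic `p`, its Weil-etale motivic cohomology, its continuous `ℓ`-adic etale cohomology,
the comparison maps between them, and the theorems of the literature about them that are used.
-/

open TensorProduct Polynomial

noncomputable section

namespace WEt

instance primeFact (ℓ : Nat.Primes) : Fact (ℓ : ℕ).Prime := ⟨ℓ.2⟩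

/-! ### Groups and homomorphisms -/

/-- An abelian group. -/
structure Ab where
  T : Type
  [g : AddCommGroup T]

attribute [instance] Ab.g

/-- A module over the `ℓ`-adic integers. -/
structure Zl (ℓ : Nat.Primes) where
  T : Type
  [g : AddCommGroup T]
  [m : Module ℤ_[ℓ] T]

attribute [instance] Zl.g Zl.m

/-- The underlying abelian group. -/
def Zl.ab {ℓ : Nat.Primes} (M : Zl ℓ) : Ab := ⟨M.T⟩

/-- Homomorphisms of abelian groups. -/
def Ab.Hom (A B : Ab) : Type := A.T →+ B.T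

/-- The value of a homomorphism. -/
def Ab.Hom.ap {A B : Ab} (f : A.Hom B) (x : A.T) : B.T := (show A.T →+ B.T from f) x

/-- `ℤ_ℓ`-linear maps. -/
def Zl.Hom {ℓ : Nat.Primes} (M N : Zl ℓ) : Type := M.T →ₗ[ℤ_[ℓ]] N.T

/-- The value of a linear map. -/
def Zl.Hom.ap {ℓ : Nat.Primes} {M N : Zl ℓ} (f : M.Hom N) (x : M.T) : N.T :=
  (show M.T →ₗ[ℤ_[ℓ]] N.T from f) x

/-- Homomorphisms from an abelian group to a `ℤ_ℓ`-module. -/
def Ab.HomZl {ℓ : Nat.Primes} (A : Ab) (M : Zl ℓ) : Type := A.T →+ M.T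

/-- The value of a homomorphism. -/
def Ab.HomZl.ap {ℓ : Nat.Primes} {A : Ab} {M : Zl ℓ} (f : A.HomZl M) (x : A.T) : M.T :=
  (show A.T →+ M.T from f) x

/-- Bilinear pairings of abelian groups with values in `ℤ`. -/
def Ab.Pair (A B : Ab) : Type := A.T →+ B.T →+ ℤ

/-- The value of a pairing. -/
def Ab.Pair.ap {A B : Ab} (b : A.Pair B) (x : A.T) (y : B.T) : ℤ :=
  (show A.T →+ B.T →+ ℤ from b) x y

/-- Bilinear pairings of `ℤ_ℓ`-modules with values in `ℤ_ℓ`. -/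
structure Zl.Pair {ℓ : Nat.Primes} (M N : Zl ℓ) where
  ap : M.T → N.T → ℤ_[ℓ]
  add_left : ∀ x x' y, ap (x + x') y = ap x y + ap x' y
  smul_left : ∀ (a : ℤ_[ℓ]) x y, ap (a • x) y = a * ap x y
  add_right : ∀ x y y', ap x (y + y') = ap x y + ap x y'
  smul_right : ∀ (a : ℤ_[ℓ]) x y, ap x (a • y) = a * ap x y

/-- The kernel of `f` is the image of `F - 1`. -/
def KerIsImage {A B : Type} [AddCommGroup A] [AddCommGroup B] (f : A → B) (F : A → A) : Prop :=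
  ∀ x, f x = 0 ↔ ∃ y, x = F y - y

/-- The image of `r` is the set of fixed points of `F`. -/
def ImageIsFixed {A B : Type} (r : A → B) (F : B → B) : Prop := ∀ x, (∃ h, r h = x) ↔ F x = x

/-- `f` and `g` are exact: the kernel of `g` is the image of `f`. -/
def IsExact {A B C : Type} [AddCommGroup C] (f : A → B) (g : B → C) : Prop :=
  ∀ x, g x = 0 ↔ ∃ y, f y = x

/-! ### Cohomology with Frobenius -/

/-- The groups `C i = H^i(X̄_et, ℤ(n))` with the Frobenius `F`, the groups `H i = H^i_W(X, ℤ(n))`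
and the short exact sequences
`0 → H^(i-1)(X̄_et, ℤ(n))_F → H^i_W(X, ℤ(n)) → H^i(X̄_et, ℤ(n))^F → 0`.
Every class on `X̄` is defined over a finite extension of the finite field (`orbit`). -/
structure Weil where
  C : ℤ → Ab
  H : ℤ → Ab
  F : ∀ i, (C i).Hom (C i)
  inc : ∀ i, (C i).Hom (H (i + 1))
  res : ∀ i, (H i).Hom (C i)
  inc_ker : ∀ i, KerIsImage (inc i).ap (F i).ap
  exact : ∀ i, IsExact (inc i).ap (res (i + 1)).ap
  res_image : ∀ i, ImageIsFixed (res i).ap (F i).ap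
  orbit : ∀ i x, ∃ k : ℕ, 0 < k ∧ (F i).ap^[k] x = x

/-- The groups `C i = H^i(X̄_et, ℤ_ℓ(n))` with the Frobenius `F`, the groups
`H i = H^i(X_et, ℤ_ℓ(n))` and the short exact sequences
`0 → H^(i-1)(X̄_et, ℤ_ℓ(n))_F → H^i(X_et, ℤ_ℓ(n)) → H^i(X̄_et, ℤ_ℓ(n))^F → 0`. -/
structure Adic (ℓ : Nat.Primes) where
  C : ℤ → Zl ℓ
  H : ℤ → Zl ℓ
  F : ∀ i, (C i).Hom (C i)
  inc : ∀ i, (C i).Hom (H (i + 1))
  res : ∀ i, (H i).Hom (C i)
  inc_ker : ∀ i, KerIsImage (inc i).ap (F i).ap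
  exact : ∀ i, IsExact (inc i).ap (res (i + 1)).ap
  res_image : ∀ i, ImageIsFixed (res i).ap (F i).ap
  finite : ∀ i, Module.Finite ℤ_[ℓ] (H i).T

/-- The comparison maps from Weil-etale to `ℓ`-adic cohomology, and the cohomology `Q` of their
cone; it is uniquely `ℓ`-divisible since `H^i_W(X, ℤ/ℓ(n)) = H^i(X_et, ℤ/ℓ(n))`. -/
structure Comparison {ℓ : Nat.Primes} (W : Weil) (E : Adic ℓ) where
  /-- `H^i(X̄_et, ℤ(n)) → H^i(X̄_et, ℤ_ℓ(n))` -/
  cC : ∀ i, (W.C i).HomZl (E.C i)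
  /-- `H^i_W(X, ℤ(n)) → H^i(X_et, ℤ_ℓ(n))` -/
  cH : ∀ i, (W.H i).HomZl (E.H i)
  comm_inc : ∀ i x, (cH (i + 1)).ap ((W.inc i).ap x) = (E.inc i).ap ((cC i).ap x)
  comm_res : ∀ i x, (E.res i).ap ((cH i).ap x) = (cC i).ap ((W.res i).ap x)
  Q : ℤ → Ab
  q : ∀ i, (E.H i).ab.Hom (Q i)
  δ : ∀ i, (Q i).Hom (W.H (i + 1))
  exact_q : ∀ i, IsExact (cH i).ap (q i).ap
  exact_δ : ∀ i, IsExact (q i).ap (δ i).ap
  exact_c : ∀ i, IsExact (δ i).ap (cH (i + 1)).ap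
  divisible : ∀ i, Function.Bijective (fun y : (Q i).T => (ℓ : ℕ) • y)

/-! ### Numerical properties -/

/-- `x` is killed by a non-zero integer. -/
def Tors {A : Type} [AddCommGroup A] (x : A) : Prop := ∃ N : ℤ, N ≠ 0 ∧ N • x = 0

/-- The characteristic polynomial of `F` on `M ⊗ ℚ_ℓ` is `P`. -/
def HasCharpoly {ℓ : Nat.Primes} {M : Zl ℓ} (F : M.Hom M) (P : ℚ[X]) : Prop :=
  ∀ _ : Module.Finite ℤ_[ℓ] M.T,
    (LinearMap.baseChange ℚ_[ℓ] (show M.T →ₗ[ℤ_[ℓ]] M.T from F)).charpoly =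
      P.map (algebraMap ℚ ℚ_[ℓ])

/-- The rank of a module over `ℤ_ℓ`. -/
def rank {ℓ : Nat.Primes} (M : Zl ℓ) : ℕ := Module.finrank ℤ_[ℓ] M.T

/-- The `ℤ_ℓ`-span of the image of `c` has torsion cokernel. -/
def TorsCoker {ℓ : Nat.Primes} {A : Ab} {M : Zl ℓ} (c : A.HomZl M) : Prop :=
  ∀ e, ∃ N : ℤ, N ≠ 0 ∧ N • e ∈ Submodule.span ℤ_[ℓ] (Set.range c.ap)

/-- The tensor product `ℤ_ℓ ⊗ A`. -/
def Tens (ℓ : Nat.Primes) (A : Ab) : Type := ℤ_[ℓ] ⊗[ℤ] A.T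

instance (ℓ : Nat.Primes) (A : Ab) : AddCommGroup (Tens ℓ A) :=
  TensorProduct.addCommGroup (R := ℤ)

/-- The additive map `c : A → M` as a `ℤ`-linear map. -/
def Ab.HomZl.lin {ℓ : Nat.Primes} {A : Ab} {M : Zl ℓ} (c : A.HomZl M) : A.T →ₗ[ℤ] M.T :=
  AddMonoidHom.toIntLinearMap c

/-- The `ℤ_ℓ`-linear map `ℤ_ℓ ⊗ A → M` given by an additive map `c : A → M`. -/
def Ab.HomZl.tens {ℓ : Nat.Primes} {A : Ab} {M : Zl ℓ} (c : A.HomZl M) : Tens ℓ A → M.T :=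
  (LinearMap.liftBaseChange ℤ_[ℓ] c.lin).toFun

/-- The map `ℤ_ℓ ⊗ A → M` is bijective. -/
def Ab.HomZl.IsIso {ℓ : Nat.Primes} {A : Ab} {M : Zl ℓ} (c : A.HomZl M) : Prop :=
  Function.Bijective c.tens

/-- The map `ℤ_ℓ ⊗ A → M` has torsion kernel. -/
def TorsKer {ℓ : Nat.Primes} {A : Ab} {M : Zl ℓ} (c : A.HomZl M) : Prop :=
  ∀ t, c.tens t = 0 → Tors t

/-- The cohomology of a smooth projective variety `X` of dimension `d` over a finite field of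
characteristic `p`: the groups and the comparison maps for all weights `n` and all primes `ℓ`. -/
structure Groups where
  /-- the characteristic -/
  p : Nat.Primes
  /-- the dimension -/
  d : ℕ
  /-- Weil-etale motivic cohomology of weight `n` -/
  W : ℕ → Weil
  /-- `ℓ`-adic etale cohomology of weight `n` -/
  E : ∀ ℓ : Nat.Primes, ℕ → Adic ℓ
  c : ∀ ℓ n, Comparison (W n) (E ℓ n)

/-- The characteristic polynomials of Frobenius, and the finiteness theorems. -/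
structure Weights (X : Groups) where
  /-- finiteness of `ℓ`-adic cohomology of `X̄`, `ℓ ≠ p` -/
  finite : ∀ ℓ, ℓ ≠ X.p → ∀ n i, Module.Finite ℤ_[ℓ] ((X.E ℓ n).C i).T
  /-- Gabber: no torsion for almost all `ℓ` -/
  gabber : ∀ n i, ∃ S : Finset Nat.Primes, ∀ ℓ, ℓ ∉ S → ∀ x : ((X.E ℓ n).C i).T, Tors x → x = 0
  /-- Deligne: the characteristic polynomial of Frobenius on `H^i(X̄, ℚ_ℓ(n))` is rational and
  independent of `ℓ ≠ p`, and `1` is a root only for `i = 2 n ≤ 2 d` -/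
  P : ℕ → ℤ → ℚ[X]
  charpoly : ∀ ℓ, ℓ ≠ X.p → ∀ n i, HasCharpoly ((X.E ℓ n).F i) (P n i)
  P_one : ∀ (n : ℕ) (i : ℤ), i ≠ 2 * (n : ℤ) → (P n i).eval 1 ≠ 0
  P_big : ∀ n : ℕ, X.d < n → (P n (2 * (n : ℤ))).eval 1 ≠ 0
  /-- `p`-adic cohomology: torsion outside the degrees `2 n` and `2 n + 1` -/
  tors_p : ∀ (n : ℕ) (i : ℤ), i ≠ 2 * (n : ℤ) → i ≠ 2 * (n : ℤ) + 1 →
    ∀ x : ((X.E X.p n).H i).T, Tors x
  rank_p : ∀ n : ℕ, rank ((X.E X.p n).H (2 * (n : ℤ))) ≤ (P n (2 * (n : ℤ))).rootMultiplicity 1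
  rank_p' : ∀ n : ℕ,
    rank ((X.E X.p n).H (2 * (n : ℤ) + 1)) ≤ (P n (2 * (n : ℤ))).rootMultiplicity 1
  /-- `H^0(X, ℚ_ℓ)` is spanned by the image of `H^0_W(X, ℤ(0))` (the constant functions) -/
  deg_zero : ∀ ℓ, TorsCoker ((X.c ℓ 0).cH (2 * ((0 : ℕ) : ℤ)))

/-- Cup products and Poincare duality for the weights `n + m = d`. -/
structure Duality (X : Groups) (n m : ℕ) where
  /-- cup product `H^(2n+1)_W(X, ℤ(n)) × H^(2m)_W(X, ℤ(m)) → H^(2d+1)_W(X, ℤ(d)) → ℤ` -/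
  pair : ((X.W n).H (2 * (n : ℤ) + 1)).Pair ((X.W m).H (2 * (m : ℤ)))
  /-- cup product `H^(2n+1)(X, ℤ_ℓ(n)) × H^(2m)(X, ℤ_ℓ(m)) → H^(2d+1)(X, ℤ_ℓ(d)) → ℤ_ℓ` -/
  pairE : ∀ ℓ, ((X.E ℓ n).H (2 * (n : ℤ) + 1)).Pair ((X.E ℓ m).H (2 * (m : ℤ)))
  comm : ∀ ℓ x y, (pairE ℓ).ap (((X.c ℓ n).cH _).ap x) (((X.c ℓ m).cH _).ap y) = (pair.ap x y : ℤ)
  /-- Poincare duality -/
  ker : ∀ ℓ, ℓ ≠ X.p → ∀ x, (∀ y, (pairE ℓ).ap x y = 0) → Tors x

/-- Hard Lefschetz for the weights `n + m = d`, `n ≤ m`. -/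
structure Lefschetz (X : Groups) (n m : ℕ) where
  /-- product with the `(m-n)`-th power of a hyperplane class -/
  lef : ((X.W n).H (2 * (n : ℤ))).Hom ((X.W m).H (2 * (m : ℤ)))
  lefE : ∀ ℓ, ((X.E ℓ n).H (2 * (n : ℤ))).Hom ((X.E ℓ m).H (2 * (m : ℤ)))
  comm : ∀ ℓ x, (lefE ℓ).ap (((X.c ℓ n).cH _).ap x) = ((X.c ℓ m).cH _).ap (lef.ap x)
  coker : ∀ ℓ, ℓ ≠ X.p → ∀ y, ∃ N : ℤ, N ≠ 0 ∧ ∃ x, (lefE ℓ).ap x = N • y

/-- The cohomology of a smooth projective variety `X` of dimension `d` over a finite field of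
characteristic `p`. -/
structure Coh extends Groups where
  weights : Weights toGroups
  duality : ∀ n m : ℕ, n + m = d → Duality toGroups n m
  lefschetz : ∀ n m : ℕ, n + m = d → n ≤ m → Lefschetz toGroups n m

namespace Groups

variable (X : Groups)

/-- `L^n(X)`: all groups `H^i_W(X, ℤ(n))` are finitely generated. -/
def L (n : ℕ) : Prop := ∀ i, AddGroup.FG ((X.W n).H i).T

/-- `K^n(X)`: for all primes `ℓ` and all `i` the map
`H^i_W(X, ℤ(n)) ⊗ ℤ_ℓ → H^i(X_et, ℤ_ℓ(n))` is bijective. -/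
def K (n : ℕ) : Prop := ∀ ℓ i, ((X.c ℓ n).cH i).IsIso

/-- `K^n(X)` rationally and for the single prime `ℓ`: for all `i` the map
`H^i_W(X, ℤ(n)) ⊗ ℤ_ℓ → H^i(X_et, ℤ_ℓ(n))` has torsion kernel and torsion cokernel. -/
def KQ (ℓ : Nat.Primes) (n : ℕ) : Prop :=
  ∀ i, TorsKer ((X.c ℓ n).cH i) ∧ TorsCoker ((X.c ℓ n).cH i)

/-- The Tate conjecture in codimension `m` for the prime `ℓ`: the map
`H^(2m)_W(X, ℤ(m)) ⊗ ℤ_ℓ → H^(2m)(X_et, ℤ_ℓ(m))` has torsion cokernel. -/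
def Tate (ℓ : Nat.Primes) (m : ℕ) : Prop := TorsCoker ((X.c ℓ m).cH (2 * (m : ℤ)))

end Groups

/-! ### Conversion to the structure `WE.Theory` used in the proofs -/

section Conversion

variable {A B : Ab} {ℓ : Nat.Primes} {M N : Zl ℓ}

/-- the bilinear map of a pairing -/
def Zl.Pair.lin (b : M.Pair N) : M.T →ₗ[ℤ_[ℓ]] N.T →ₗ[ℤ_[ℓ]] ℤ_[ℓ] :=
  LinearMap.mk₂ ℤ_[ℓ] b.ap b.add_left b.smul_left b.add_right b.smul_right

/-- conversion -/
def Weil.old (W : Weil) : WE.Weil where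
  C i := (W.C i).T
  H i := (W.H i).T
  F i := W.F i
  inc i := W.inc i
  res i := W.res i
  inc_eq_zero := W.inc_ker
  res_mem := W.res_image
  res_eq_zero := W.exact
  orbit := W.orbit

/-- conversion -/
def Adic.old (E : Adic ℓ) : WE.Adic ℓ where
  C i := (E.C i).T
  H i := (E.H i).T
  F i := E.F i
  inc i := E.inc i
  res i := E.res i
  inc_eq_zero := E.inc_ker
  res_mem := E.res_image
  res_eq_zero := E.exact
  finH := E.finite

/-- conversion -/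
def Coh.old (X : Coh) : WE.Theory where
  p := X.p
  d := X.d
  W n := (X.W n).old
  E ℓ n := (X.E ℓ n).old
  cC ℓ n i := (X.c ℓ n).cC i
  cH ℓ n i := (X.c ℓ n).cH i
  cH_inc ℓ n i x := (X.c ℓ n).comm_inc i x
  res_cH ℓ n i x := (X.c ℓ n).comm_res i x
  Q ℓ n i := ((X.c ℓ n).Q i).T
  q ℓ n i := (X.c ℓ n).q i
  δ ℓ n i := (X.c ℓ n).δ i
  cH_eq_zero ℓ n i h := (X.c ℓ n).exact_c i h
  q_eq_zero ℓ n i e := (X.c ℓ n).exact_q i e
  δ_eq_zero ℓ n i y := (X.c ℓ n).exact_δ i y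
  Q_div ℓ n i := (X.c ℓ n).divisible i
  finC ℓ h n i := X.weights.finite ℓ h n i
  gabber := X.weights.gabber
  P := X.weights.P
  charpoly ℓ h n i inst := X.weights.charpoly ℓ h n i inst
  P_one := X.weights.P_one
  P_big := X.weights.P_big
  tors_p := X.weights.tors_p
  rank_p := X.weights.rank_p
  rank_p' := X.weights.rank_p'
  deg_zero ℓ e := X.weights.deg_zero ℓ e
  pair n m h := (X.duality n m h).pair
  pairE ℓ n m h := ((X.duality n m h).pairE ℓ).lin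
  pair_cH ℓ n m h x y := (X.duality n m h).comm ℓ x y
  pairE_ker ℓ hℓ n m h x hx := (X.duality n m h).ker ℓ hℓ x hx
  lef n m h h' := (X.lefschetz n m h h').lef
  lefE ℓ n m h h' := (X.lefschetz n m h h').lefE ℓ
  lefE_cH ℓ n m h h' x := (X.lefschetz n m h h').comm ℓ x
  lefE_coker ℓ hℓ n m h h' y := (X.lefschetz n m h h').coker ℓ hℓ y

theorem L_iff (X : Coh) (n : ℕ) : X.L n ↔ X.old.L n := Iff.rfl

theorem K_iff (X : Coh) (n : ℕ) : X.K n ↔ X.old.K n := Iff.rfl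

theorem torsCoker_iff {A : Ab} {M : Zl ℓ} (c : A.HomZl M) :
    TorsCoker c ↔ ∀ e, ∃ N : ℤ, N ≠ 0 ∧ ∃ t, c.tens t = N • e := by
  refine forall_congr' fun e => exists_congr fun N => and_congr_right fun _ => ?_
  exact WE.mem_span_iff (show A.T →+ M.T from c) (N • e)

theorem KQ_iff (X : Coh) (ℓ : Nat.Primes) (n : ℕ) : X.KQ ℓ n ↔ X.old.KQ ℓ n := by
  refine forall_congr' fun i => and_congr Iff.rfl ?_
  exact torsCoker_iff _

theorem Tate_iff (X : Coh) (ℓ : Nat.Primes) (m : ℕ) : X.Tate ℓ m ↔ X.old.T ℓ m :=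
  torsCoker_iff _

/-- The theorem. -/
theorem final (X : Coh) (ℓ : Nat.Primes) (hℓ : ℓ ≠ X.p) (n : ℕ)
    (h : 2 * n ≤ X.d ∨ X.d ≤ n ∨ X.Tate ℓ (X.d - n)) : [X.L n, X.K n, X.KQ ℓ n].TFAE := by
  rw [L_iff, K_iff, KQ_iff]
  rw [Tate_iff] at h
  exact WE.final X.old ℓ hℓ n h

end Conversion

end WEt
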