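import Pool.Agent.WEt.SelfCore

/-!
# Weil-etale cohomology: a variety `X` and its square `X × X`
-/

open TensorProduct Polynomial Filter

noncomputable section

namespace WE

/-- The theory `T` of `X` and the theory `Z` of `X × X`: the ring of correspondences and its
actions, the Frobenius correspondence and the exterior products (cf. `Fam`). -/
structure Sq (T Z : Theory) where
  q : ℕ
  q_pos : 0 < q
  A : Type
  [rA : Ring A]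
  [aA : Algebra ℚ A]
  cyc : A →ₗ[ℚ] ℚ ⊗[ℤ] (Z.W T.d).C (2 * (T.d : ℤ))
  cyc_inj : Function.Injective cyc
  cyc_F : ∀ a, ((Z.W T.d).F (2 * (T.d : ℤ))).toIntLinearMap.baseChange ℚ (cyc a) = cyc a
  act : ∀ n i, A →ₐ[ℚ] Module.End ℚ (ℚ ⊗[ℤ] (T.W n).C i)
  actE : ∀ ℓ, ℓ ≠ T.p → ∀ n i, A →+* Module.End ℚ_[ℓ] (ℚ_[ℓ] ⊗[ℤ_[ℓ]] (T.E ℓ n).C i)
  faithful : ∀ ℓ hℓ n a, (∀ i : ℤ, 0 ≤ i → i ≤ 2 * (T.d : ℤ) → actE ℓ hℓ n i a = 0) →
    ratMap ℓ (Z.cC ℓ T.d (2 * (T.d : ℤ))) (cyc a) = 0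
  γ : A
  act_γ : ∀ n i, act n i γ = ((q : ℚ) ^ n) • ((T.W n).F i).toIntLinearMap.baseChange ℚ
  actE_γ : ∀ ℓ hℓ n i, actE ℓ hℓ n i γ = ((q : ℚ_[ℓ]) ^ n) • ((T.E ℓ n).F i).baseChange ℚ_[ℓ]
  ext : ∀ (n m : ℕ), n + m = T.d → (T.W n).H (2 * (n : ℤ)) → (T.W m).H (2 * (m : ℤ)) → A
  act_ext : ∀ (n m : ℕ) h z g (i : ℤ), i ≠ 2 * (n : ℤ) → act n i (ext n m h z g) = 0
  actE_ext : ∀ ℓ hℓ (n m : ℕ) h z g (i : ℤ), i ≠ 2 * (n : ℤ) →
    actE ℓ hℓ n i (ext n m h z g) = 0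
  actE_ext' : ∀ ℓ hℓ n m h z g (y : (T.E ℓ n).C (2 * (n : ℤ))),
    actE ℓ hℓ n (2 * (n : ℤ)) (ext n m h z g) (1 ⊗ₜ y) =
      (((T.pairE ℓ n m h ((T.E ℓ n).inc _ y) (T.cH ℓ m _ g) : ℤ_[ℓ])) : ℚ_[ℓ]) •
        (1 ⊗ₜ T.cC ℓ n _ ((T.W n).res _ z))

attribute [instance] Sq.rA Sq.aA

namespace SQ

open PAR

variable {T Z : Theory} (Sg : Sq T Z) {ℓ : Nat.Primes} (hℓ : ℓ ≠ T.p) {n m : ℕ}
  {hd : n + m = T.d}

lemma actE_ext_apply (h : n + m = T.d) (z : (T.W n).H (2 * (n : ℤ)))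
    (g : (T.W m).H (2 * (m : ℤ)))
    (y : ℚ_[ℓ] ⊗[ℤ_[ℓ]] (T.E ℓ n).C (2 * (n : ℤ))) :
    Sg.actE ℓ hℓ n (2 * (n : ℤ)) (Sg.ext n m h z g) y =
      psi T ℓ n m h g y • ((1 : ℚ_[ℓ]) ⊗ₜ T.cC ℓ n _ ((T.W n).res _ z)) := by
  induction y using TensorProduct.induction_on with
  | zero => simp
  | tmul r y =>
    have h1 : r ⊗ₜ[ℤ_[ℓ]] y = r • ((1 : ℚ_[ℓ]) ⊗ₜ[ℤ_[ℓ]] y) := by
      rw [smul_tmul', smul_eq_mul, mul_one]
    rw [h1, map_smul, map_smul, Sg.actE_ext', psi_tmul, one_mul, smul_assoc]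
  | add a b ha hb => rw [map_add, map_add, ha, hb, add_smul]

/-- the classes `z_l` -/
def zz (G : Pre T n m hd) (ℓ : Nat.Primes) (l : Fin G.ρ) :
    ℚ_[ℓ] ⊗[ℤ_[ℓ]] (T.E ℓ n).C (2 * (n : ℤ)) :=
  (1 : ℚ_[ℓ]) ⊗ₜ T.cC ℓ n _ ((T.W n).res _ (G.a l))

include Sg in
theorem main (hℓ : ℓ ≠ T.p) (G : Pre T n m hd)
    (hB : Z.B ℓ T.d) (i : ℤ)
    (hi : i ≠ 2 * (n : ℤ)) (x : (T.W n).C i) (hx : (T.W n).F i x = x) : Tors x := by
  classical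
  obtain ⟨S, r, hS1, hS2, hS3⟩ := exists_S T n (Finset.Icc 0 (2 * (T.d : ℤ)))
  -- matrices
  set DZ : Matrix (Fin G.ρ) (Fin G.ρ) ℤ := Matrix.of fun j k =>
    T.pair n m hd ((T.W n).inc _ ((T.W n).res _ (G.a j))) (G.g k) with hDZ
  set DQ : Matrix (Fin G.ρ) (Fin G.ρ) ℚ := DZ.map (Int.castRingHom ℚ) with hDQ
  have hdetQ : DQ.det ≠ 0 := by
    have : DQ.det = ((DZ.det : ℤ) : ℚ) := ((Int.castRingHom ℚ).map_det DZ).symm
    rw [this]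
    exact_mod_cast G.det_ne
  set U : Matrix (Fin G.ρ) (Fin G.ρ) ℚ := DQ⁻¹ with hU
  have hDU : DQ * U = 1 := Matrix.mul_nonsing_inv _ (isUnit_iff_ne_zero.2 hdetQ)
  set UK : Matrix (Fin G.ρ) (Fin G.ρ) ℚ_[ℓ] := U.map (algebraMap ℚ ℚ_[ℓ]) with hUK
  have hDUK : DQ.map (algebraMap ℚ ℚ_[ℓ]) * UK = 1 := by
    rw [hUK, ← Matrix.map_mul, hDU]
    exact Matrix.map_one _ (map_zero _) (map_one _)
  -- the correspondence
  set g0 : Sg.A := (((Sg.q : ℚ) ^ n)⁻¹) • Sg.γ with hg0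
  set a : Sg.A := aeval g0 S - S.eval 1 • ∑ l, ∑ k, U k l • Sg.ext n m hd (G.a l) (G.g k) with ha
  have hq : ((Sg.q : ℚ) ^ n) ≠ 0 := pow_ne_zero _ (by exact_mod_cast (Sg.q_pos).ne')
  have hgE : ∀ j : ℤ, Sg.actE ℓ hℓ n j g0 = ((T.E ℓ n).F j).baseChange ℚ_[ℓ] := by
    intro j
    rw [hg0, hom_smul (K := ℚ_[ℓ]), Sg.actE_γ, smul_smul]
    have h1 : ((((Sg.q : ℚ) ^ n)⁻¹ : ℚ) : ℚ_[ℓ]) * (Sg.q : ℚ_[ℓ]) ^ n = 1 := by
      have h2 : (Sg.q : ℚ_[ℓ]) ^ n = (((Sg.q : ℚ) ^ n : ℚ) : ℚ_[ℓ]) := by push_cast; rfl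
      rw [h2, ← Rat.cast_mul, inv_mul_cancel₀ hq, Rat.cast_one]
    rw [h1, one_smul]
  have haE : ∀ j : ℤ, 0 ≤ j → j ≤ 2 * (T.d : ℤ) → Sg.actE ℓ hℓ n j a = 0 := by
    intro j hj0 hj1
    have := T.finC ℓ hℓ n j
    have hch := T.charpoly ℓ hℓ n j
    have e1 : Sg.actE ℓ hℓ n j a = aeval (((T.E ℓ n).F j).baseChange ℚ_[ℓ])
        (S.map (algebraMap ℚ ℚ_[ℓ])) - ((S.eval 1 : ℚ) : ℚ_[ℓ]) •
          ∑ l, ∑ k, (U k l : ℚ_[ℓ]) • Sg.actE ℓ hℓ n j (Sg.ext n m hd (G.a l) (G.g k)) := by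
      rw [ha, map_sub, hom_aeval (K := ℚ_[ℓ]), hgE, hom_smul (K := ℚ_[ℓ]), map_sum]
      simp only [map_sum, hom_smul (K := ℚ_[ℓ])]
    rw [e1]
    by_cases hj : j = 2 * (n : ℤ)
    · subst hj
      refine LinearMap.ext fun y => ?_
      have hS1K : (S.map (algebraMap ℚ ℚ_[ℓ])).eval 1 = ((S.eval 1 : ℚ) : ℚ_[ℓ]) := by
        have h1 := Polynomial.eval_map_apply (f := algebraMap ℚ ℚ_[ℓ]) (p := S) (1 : ℚ)
        rw [map_one] at h1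
        exact h1
      have hmul : (((T.E ℓ n).F (2 * (n : ℤ))).baseChange ℚ_[ℓ]).charpoly.rootMultiplicity 1
          ≤ G.ρ := by
        rw [hch, RK.mult]
        exact G.big
      have hdvd : (((T.E ℓ n).F (2 * (n : ℤ))).baseChange ℚ_[ℓ]).charpoly ∣
          (X - 1) ^ r * S.map (algebraMap ℚ ℚ_[ℓ]) := by
        rw [hch]
        have h1 := Polynomial.map_dvd (algebraMap ℚ ℚ_[ℓ]) hS3
        rw [Polynomial.map_mul, Polynomial.map_pow, Polynomial.map_sub, Polynomial.map_X,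
          Polynomial.map_one] at h1
        exact h1
      have hk := key (((T.E ℓ n).F (2 * (n : ℤ))).baseChange ℚ_[ℓ])
        (zz G ℓ) (fun l => by
          rw [zz, LinearMap.baseChange_tmul, ← T.res_cH, (T.E ℓ n).F_res])
        (fun k => psi T ℓ n m hd (G.g k)) (fun k y => psi_F _ _ _ _ _ _ _) UK (by
          rw [← hDUK]
          congr 1
          ext j k
          rw [Matrix.of_apply, zz, psi_tmul, one_mul, ← T.cH_inc, T.pair_cH]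
          rw [hDQ, hDZ, Matrix.map_apply, Matrix.map_apply, Matrix.of_apply]
          simp) hmul (S.map (algebraMap ℚ ℚ_[ℓ])) r hdvd y
      rw [LinearMap.sub_apply, hk, hS1K, LinearMap.smul_apply, LinearMap.zero_apply, sub_eq_zero]
      congr 1
      rw [LinearMap.sum_apply]
      refine Finset.sum_congr rfl fun l _ => ?_
      rw [LinearMap.sum_apply, Finset.sum_smul]
      refine Finset.sum_congr rfl fun k _ => ?_
      rw [LinearMap.smul_apply, actE_ext_apply, mul_smul]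
      rfl
    · have h1 : aeval (((T.E ℓ n).F j).baseChange ℚ_[ℓ]) (S.map (algebraMap ℚ ℚ_[ℓ])) = 0 := by
        obtain ⟨Q, hQ⟩ := hS2 j (Finset.mem_Icc.2 ⟨hj0, hj1⟩) hj
        rw [hQ, Polynomial.map_mul, map_mul, ← hch, LinearMap.aeval_self_charpoly, zero_mul]
      rw [h1]
      simp only [Sg.actE_ext ℓ hℓ n m hd _ _ j hj, smul_zero, Finset.sum_const_zero, sub_zero]
  have ha0 : a = 0 := by
    apply Sg.cyc_inj
    rw [map_zero]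
    exact ratInj (ℓ := ℓ) _ _ hB _ (Sg.cyc_F a) (Sg.faithful ℓ hℓ n a haE)
  have hact : Sg.act n i a = aeval (((T.W n).F i).toIntLinearMap.baseChange ℚ) S := by
    have h1 : Sg.act n i g0 = ((T.W n).F i).toIntLinearMap.baseChange ℚ := by
      rw [hg0, map_smul, Sg.act_γ, smul_smul, inv_mul_cancel₀ hq, one_smul]
    rw [ha, map_sub, ← aeval_algHom_apply, h1, map_smul, map_sum]
    simp only [map_sum, map_smul, Sg.act_ext n m hd _ _ i hi, smul_zero, Finset.sum_const_zero,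
      sub_zero]
  rw [ha0, map_zero] at hact
  have hfix : (((T.W n).F i).toIntLinearMap.baseChange ℚ) ((1 : ℚ) ⊗ₜ[ℤ] x)
      = (1 : ℚ) ⊗ₜ[ℤ] x := by
    rw [LinearMap.baseChange_tmul]
    exact congrArg (fun y => (1 : ℚ) ⊗ₜ[ℤ] y) hx
  have h2 := aeval_fixed _ S hfix
  rw [← hact, LinearMap.zero_apply] at h2
  exact Q_zero ((smul_eq_zero.1 h2.symm).resolve_left hS1)


include Sg in
/-- Weights `n > d`. -/
theorem big (hℓ : ℓ ≠ T.p) (hn : T.d < n) (hB : Z.B ℓ T.d) (i : ℤ)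
    (x : (T.W n).C i) (hx : (T.W n).F i x = x) : Tors x := by
  classical
  set S : ℚ[X] := ∏ j ∈ Finset.Icc (0 : ℤ) (2 * (T.d : ℤ)), T.P n j with hS
  have hS1 : S.eval 1 ≠ 0 := by
    rw [hS, eval_prod]
    exact Finset.prod_ne_zero_iff.2 fun j _ => P_all _ hn j
  set g0 : Sg.A := (((Sg.q : ℚ) ^ n)⁻¹) • Sg.γ with hg0
  set a : Sg.A := aeval g0 S with ha
  have hq : ((Sg.q : ℚ) ^ n) ≠ 0 := pow_ne_zero _ (by exact_mod_cast (Sg.q_pos).ne')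
  have hgE : ∀ j : ℤ, Sg.actE ℓ hℓ n j g0 = ((T.E ℓ n).F j).baseChange ℚ_[ℓ] := by
    intro j
    rw [hg0, hom_smul (K := ℚ_[ℓ]), Sg.actE_γ, smul_smul]
    have h1 : ((((Sg.q : ℚ) ^ n)⁻¹ : ℚ) : ℚ_[ℓ]) * (Sg.q : ℚ_[ℓ]) ^ n = 1 := by
      have h2 : (Sg.q : ℚ_[ℓ]) ^ n = (((Sg.q : ℚ) ^ n : ℚ) : ℚ_[ℓ]) := by push_cast; rfl
      rw [h2, ← Rat.cast_mul, inv_mul_cancel₀ hq, Rat.cast_one]
    rw [h1, one_smul]
  have haE : ∀ j : ℤ, 0 ≤ j → j ≤ 2 * (T.d : ℤ) → Sg.actE ℓ hℓ n j a = 0 := by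
    intro j hj0 hj1
    have := T.finC ℓ hℓ n j
    have hch := T.charpoly ℓ hℓ n j
    obtain ⟨Q, hQ⟩ : T.P n j ∣ S :=
      Finset.dvd_prod_of_mem _ (Finset.mem_Icc.2 ⟨hj0, hj1⟩)
    rw [ha, hom_aeval (K := ℚ_[ℓ]), hgE, hQ, Polynomial.map_mul, map_mul, ← hch,
      LinearMap.aeval_self_charpoly, zero_mul]
  have ha0 : a = 0 := by
    apply Sg.cyc_inj
    rw [map_zero]
    exact ratInj (ℓ := ℓ) _ _ hB _ (Sg.cyc_F a) (Sg.faithful ℓ hℓ n a haE)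
  have hact : Sg.act n i a = aeval (((T.W n).F i).toIntLinearMap.baseChange ℚ) S := by
    have h1 : Sg.act n i g0 = ((T.W n).F i).toIntLinearMap.baseChange ℚ := by
      rw [hg0, map_smul, Sg.act_γ, smul_smul, inv_mul_cancel₀ hq, one_smul]
    rw [ha, ← aeval_algHom_apply, h1]
  rw [ha0, map_zero] at hact
  have hfix : (((T.W n).F i).toIntLinearMap.baseChange ℚ) ((1 : ℚ) ⊗ₜ[ℤ] x)
      = (1 : ℚ) ⊗ₜ[ℤ] x := by
    rw [LinearMap.baseChange_tmul]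
    exact congrArg (fun y => (1 : ℚ) ⊗ₜ[ℤ] y) hx
  have h2 := aeval_fixed _ S hfix
  rw [← hact, LinearMap.zero_apply] at h2
  exact Q_zero ((smul_eq_zero.1 h2.symm).resolve_left hS1)

end SQ

/-- The middle degree of `X × X`, at one prime, governs all weights of `X`. -/
theorem square_tsb {X Y : Theory} (Sg : Sq X Y) (U : ∀ n ≤ X.d, UpDown X Y n X.d)
    {ℓ : Nat.Primes} (hℓ : ℓ ≠ X.p) (hT : Y.TC ℓ X.d) (hS : Y.SS ℓ X.d) (hB : Y.B ℓ X.d)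
    (n : ℕ) : X.L n ∧ X.K n := by
  by_cases hn : X.d < n
  · have h1 := fun i x hx => SQ.big Sg hℓ hn hB i x hx
    have h2 : ∀ i, ∀ x : (X.W n).H i, Tors x := fun i x =>
      PGD.tors_of_res (X.W n) (i := i - 1) (h1 _) (by ring) x
        (h1 i _ (((X.W n).res_mem _ _).mp ⟨x, rfl⟩))
    have h3 := final X ℓ hℓ n (Or.inr (Or.inl hn.le))
    have h4 := Big.kq X hn h2 ℓ
    exact ⟨(h3.out 0 2).2 h4, (h3.out 1 2).2 h4⟩
  · have hd : n + (X.d - n) = X.d := by omega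
    have U1 := U n (by omega)
    have U2 := U (X.d - n) (by omega)
    have hpre : Nonempty (Pre X n (X.d - n) hd) :=
      pre X ℓ hℓ n _ hd (U1.tc hT) (U1.ss hS) (U1.b hB) (U2.tc hT)
    have hpar : ∀ i : ℤ, i ≠ 2 * (n : ℤ) → ∀ x : (X.W n).C i, (X.W n).F i x = x → Tors x := by
      obtain ⟨G⟩ := hpre
      exact fun i hi x hx => SQ.main Sg hℓ G hB i hi x hx
    have hL := pgd X n _ hd hpre hpar
    exact ⟨hL, K_of_L kl _ hL⟩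

/-- One finitely generated group of `X × X` governs all weights of `X`. -/
theorem square_fg {X Y : Theory} (Sg : Sq X Y) (U : ∀ n ≤ X.d, UpDown X Y n X.d)
    (h : AddGroup.FG ((Y.W X.d).H (2 * (X.d : ℤ) + 1))) (n : ℕ) : X.L n ∧ X.K n := by
  obtain ⟨ℓ, hℓ⟩ := (ev_ne X).exists
  obtain ⟨hT, hS, hB⟩ := t2 _ _ h ℓ
  exact square_tsb Sg U hℓ hT hS hB n

end WE
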