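import Pool.Agent.WEt.Light
import Pool.Agent.WEt.Square

/-!
# Weil-etale motivic cohomology: integral correspondences

The ring `R = CH^d(X × X)` of integral correspondences of a smooth projective variety `X` of
dimension `d`, acting on the cohomology of `X̄` up to torsion.
-/

open TensorProduct Polynomial

noncomputable section

namespace WEt

/-- A ring. -/
structure Rg where
  T : Type
  [r : Ring T]

attribute [instance] Rg.r

/-- `x = y` up to torsion. -/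
def Eqv {A : Type} [AddCommGroup A] (x y : A) : Prop := Tors (x - y)

/-- A biadditive map `R × A → A` which is an action of the ring `R` up to torsion. -/
structure Act (R : Rg) (A : Ab) where
  ap : R.T → A.T → A.T
  add_left : ∀ a b x, ap (a + b) x = ap a x + ap b x
  add_right : ∀ a x y, ap a (x + y) = ap a x + ap a y
  one : ∀ x, Eqv (ap 1 x) x
  mul : ∀ a b x, Eqv (ap (a * b) x) (ap a (ap b x))

/-- A `ℤ_ℓ`-linear action of the ring `R` up to torsion. -/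
structure ActE (R : Rg) {ℓ : Nat.Primes} (M : Zl ℓ) extends Act R M.ab where
  smul : ∀ a (c : ℤ_[ℓ]) (x : M.T), ap a (c • x) = c • (show M.T from ap a x)

/-- The ring `R = CH^d(X × X)` of correspondences of `X`, where `Y = X × X`. -/
structure Corr (X Y : Groups) where
  dim : Y.d = 2 * X.d
  char : Y.p = X.p
  R : Rg
  /-- the map `CH^d(X × X) → H^(2d)(X̄ × X̄, ℤ(d))` -/
  cyc : R.T → ((Y.W X.d).C (2 * (X.d : ℤ))).T
  cyc_add : ∀ a b, cyc (a + b) = cyc a + cyc b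
  cyc_tors : ∀ a, Tors (cyc a) → Tors a
  cyc_F : ∀ a, ((Y.W X.d).F _).ap (cyc a) = cyc a
  /-- the action on `H^i(X̄, ℤ(n))` -/
  act : ∀ n i, Act R ((X.W n).C i)
  /-- the action on `H^i(X̄, ℤ_ℓ(n))`, `ℓ ≠ p` -/
  actE : ∀ ℓ, ℓ ≠ X.p → ∀ n i, ActE R ((X.E ℓ n).C i)
  /-- Künneth formula and Poincare duality: a correspondence which acts as zero, up to torsion, on
  the `ℓ`-adic cohomology of `X̄` has torsion cohomology class -/
  faithful : ∀ ℓ hℓ n a,
    (∀ i : ℤ, 0 ≤ i → i ≤ 2 * (X.d : ℤ) → ∀ x, Eqv ((actE ℓ hℓ n i).ap a x) 0) →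
    Tors (((Y.c ℓ X.d).cC _).ap (cyc a))

/-- The graph of the `q`-Frobenius of `X`. -/
structure Frob {X Y : Groups} (D : Corr X Y) where
  /-- the number of elements of the base field -/
  q : ℕ
  q_pos : 0 < q
  γ : D.R.T
  act : ∀ n i x, Eqv ((D.act n i).ap γ x) (q ^ n • ((X.W n).F i).ap x)
  actE : ∀ ℓ hℓ n i x, Eqv ((D.actE ℓ hℓ n i).ap γ x) (q ^ n • ((X.E ℓ n).F i).ap x)

/-- The exterior products `z × g` for the weights `n` and `m`, `n + m = d`: a non-zero multiple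
`N • (z × g)` is algebraic, i.e. comes from a correspondence `ext z g`. -/
structure Ext {X Y : Groups} (D : Corr X Y) {n m : ℕ} (P : Duality X n m) where
  N : ((X.W n).H (2 * (n : ℤ))).T → ((X.W m).H (2 * (m : ℤ))).T → ℤ
  N_ne : ∀ z g, N z g ≠ 0
  ext : ((X.W n).H (2 * (n : ℤ))).T → ((X.W m).H (2 * (m : ℤ))).T → D.R.T
  act : ∀ z g (i : ℤ), i ≠ 2 * (n : ℤ) → ∀ x, Eqv ((D.act n i).ap (ext z g) x) 0
  actE : ∀ ℓ hℓ z g (i : ℤ), i ≠ 2 * (n : ℤ) → ∀ x, Eqv ((D.actE ℓ hℓ n i).ap (ext z g) x) 0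
  actE' : ∀ ℓ hℓ z g y, Eqv ((D.actE ℓ hℓ n _).ap (ext z g) y)
    ((P.pairE ℓ).ap (((X.E ℓ n).inc _).ap y) (((X.c ℓ m).cH _).ap g) •
      ((X.c ℓ n).cC _).ap (((X.W n).res _).ap (N z g • z)))

namespace Groups

variable (X : Groups)

/-- Frobenius invariant classes in `H^(2n)(X̄, ℤ_ℓ(n))` which come from Frobenius invariant elements
of `H^(2n)(X̄_et, ℤ(n))`, i.e. (up to multiples) from algebraic cycles on `X`. -/
def Alg (ℓ : Nat.Primes) (n : ℕ) : Set ((X.E ℓ n).C (2 * (n : ℤ))).T :=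
  {z | ∃ x, ((X.W n).F _).ap x = x ∧ ((X.c ℓ n).cC _).ap x = z}

/-- The Tate conjecture in codimension `n` for `ℓ`: every Frobenius invariant class in
`H^(2n)(X̄, ℤ_ℓ(n))` is, up to a multiple, a `ℤ_ℓ`-combination of algebraic classes. -/
def TC (ℓ : Nat.Primes) (n : ℕ) : Prop :=
  ∀ y, ((X.E ℓ n).F (2 * (n : ℤ))).ap y = y → ∃ N : ℤ, N ≠ 0 ∧
    N • y ∈ Submodule.span ℤ_[ℓ] (X.Alg ℓ n)

/-- The eigenvalue `1` of Frobenius on `H^(2n)(X̄, ℚ_ℓ(n))` is semisimple. -/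
def SS (ℓ : Nat.Primes) (n : ℕ) : Prop :=
  ∀ z, ((X.E ℓ n).F (2 * (n : ℤ))).ap (((X.E ℓ n).F _).ap z - z) = ((X.E ℓ n).F _).ap z - z →
    Tors (((X.E ℓ n).F _).ap z - z)

/-- Rational and `ℓ`-adic homological equivalence agree up to torsion in codimension `n`:
`CH^n(X) ⊗ ℚ → H^(2n)(X̄, ℚ_ℓ(n))` is injective. -/
def B (ℓ : Nat.Primes) (n : ℕ) : Prop :=
  ∀ x, ((X.W n).F (2 * (n : ℤ))).ap x = x → Tors (((X.c ℓ n).cC _).ap x) → Tors x

/-- The Tate conjecture, semisimplicity, and rational = homological equivalence in codimension `n`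
for the prime `ℓ`. -/
def TSB (ℓ : Nat.Primes) (n : ℕ) : Prop := X.TC ℓ n ∧ X.SS ℓ n ∧ X.B ℓ n

end Groups

end WEt
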