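import Pool.Agent.WEt.Light

/-!
# Weil-etale motivic cohomology: rational coefficients
-/

open TensorProduct Polynomial

noncomputable section

namespace WEt

/-! ### Rational coefficients -/

/-- The rational vector space `ℚ ⊗ A`. -/
def Ab.Q (A : Ab) : Type := ℚ ⊗[ℤ] A.T

instance Ab.gQ (A : Ab) : AddCommGroup A.Q := TensorProduct.addCommGroup (R := ℤ)

instance Ab.mQ (A : Ab) : Module ℚ A.Q := TensorProduct.leftModule

/-- The element `1 ⊗ x` of `ℚ ⊗ A`. -/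
def Ab.one (A : Ab) (x : A.T) : A.Q := (1 : ℚ) ⊗ₜ[ℤ] x

/-- The ring of endomorphisms of `ℚ ⊗ A`. -/
def Ab.End (A : Ab) : Type := Module.End ℚ A.Q

instance Ab.rEnd (A : Ab) : Ring A.End := Module.End.instRing

/-- The value of an endomorphism. -/
def Ab.End.ap {A : Ab} (f : A.End) (v : A.Q) : A.Q := (show Module.End ℚ A.Q from f) v

/-- The vector space `ℚ_ℓ ⊗ M`. -/
def Zl.Q {ℓ : Nat.Primes} (M : Zl ℓ) : Type := ℚ_[ℓ] ⊗[ℤ_[ℓ]] M.T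

instance Zl.gQ {ℓ : Nat.Primes} (M : Zl ℓ) : AddCommGroup M.Q :=
  TensorProduct.addCommGroup (R := ℤ_[ℓ])

instance Zl.mQ {ℓ : Nat.Primes} (M : Zl ℓ) : Module ℚ_[ℓ] M.Q := TensorProduct.leftModule

/-- The element `1 ⊗ x` of `ℚ_ℓ ⊗ M`. -/
def Zl.one {ℓ : Nat.Primes} (M : Zl ℓ) (x : M.T) : M.Q := (1 : ℚ_[ℓ]) ⊗ₜ[ℤ_[ℓ]] x

/-- The ring of endomorphisms of `ℚ_ℓ ⊗ M`. -/
def Zl.End {ℓ : Nat.Primes} (M : Zl ℓ) : Type := Module.End ℚ_[ℓ] M.Q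

instance Zl.rEnd {ℓ : Nat.Primes} (M : Zl ℓ) : Ring M.End := Module.End.instRing

/-- The value of an endomorphism. -/
def Zl.End.ap {ℓ : Nat.Primes} {M : Zl ℓ} (f : M.End) (v : M.Q) : M.Q :=
  (show Module.End ℚ_[ℓ] M.Q from f) v

/-- The element `t` of `ℚ ⊗ A` has image zero in `ℚ_ℓ ⊗ M`. -/
def Ab.HomZl.Kills {ℓ : Nat.Primes} {A : Ab} {M : Zl ℓ} (c : A.HomZl M) (t : A.Q) : Prop :=
  ∀ (k : ℤ) (x : A.T), k • t = A.one x → Tors (c.ap x)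

/-- The element `t` of `ℚ ⊗ A` is fixed by `f : A → A`. -/
def Ab.Hom.Fixes {A : Ab} (f : A.Hom A) (t : A.Q) : Prop :=
  ∀ (k : ℤ) (x : A.T), k • t = A.one x → Tors (f.ap x - x)

/-- A `ℚ`-algebra. -/
structure QAlg where
  T : Type
  [r : Ring T]
  [a : Algebra ℚ T]

attribute [instance] QAlg.r QAlg.a

/-- A `ℚ`-linear map `R → ℚ ⊗ A`. -/
def QAlg.Lin (R : QAlg) (A : Ab) : Type := R.T →ₗ[ℚ] A.Q

/-- The value of a linear map. -/
def QAlg.Lin.ap {R : QAlg} {A : Ab} (f : R.Lin A) (a : R.T) : A.Q :=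
  (show R.T →ₗ[ℚ] A.Q from f) a

/-- An action of `R` on `ℚ ⊗ A`. -/
def QAlg.Act (R : QAlg) (A : Ab) : Type := R.T →+* A.End

/-- The endomorphism given by an element. -/
def QAlg.Act.ap {R : QAlg} {A : Ab} (φ : R.Act A) (a : R.T) : A.End :=
  (show R.T →+* A.End from φ) a

/-- An action of `R` on `ℚ_ℓ ⊗ M`. -/
def QAlg.ActE (R : QAlg) {ℓ : Nat.Primes} (M : Zl ℓ) : Type := R.T →+* M.End

/-- The endomorphism given by an element. -/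
def QAlg.ActE.ap {R : QAlg} {ℓ : Nat.Primes} {M : Zl ℓ} (φ : R.ActE M) (a : R.T) : M.End :=
  (show R.T →+* M.End from φ) a

/-! ### Cycles -/

/-- Cycles of codimension `n` on `X`: the group `H^(2n)_W(X, ℤ(n))`. -/
def Groups.Cyc (X : Groups) (n : ℕ) : Type := ((X.W n).H (2 * (n : ℤ))).T

/-- The class of a cycle in `H^(2n)(X̄, ℤ_ℓ(n))`. -/
def Groups.cl (X : Groups) (ℓ : Nat.Primes) (n : ℕ) (z : X.Cyc n) :
    ((X.E ℓ n).C (2 * (n : ℤ))).T :=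
  ((X.c ℓ n).cC _).ap (((X.W n).res _).ap z)

/-- The intersection number of a class in `H^(2n)(X̄, ℤ_ℓ(n))` and a cycle of codimension `m`. -/
def Duality.num {X : Groups} {n m : ℕ} (P : Duality X n m) (ℓ : Nat.Primes)
    (y : ((X.E ℓ n).C (2 * (n : ℤ))).T) (g : X.Cyc m) : ℤ_[ℓ] :=
  (P.pairE ℓ).ap (((X.E ℓ n).inc _).ap y) (((X.c ℓ m).cH _).ap g)

end WEt
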