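import Pool.Agent.WEt.Light
import Pool.Agent.WEt.SingleB

/-!
# Weil-etale motivic cohomology: the single group `H^(2n+1)_W(X, ℤ(n))`, the statement
-/

open TensorProduct Polynomial

noncomputable section

namespace WEt

/-- The classes in `H^i(X̄, ℤ_ℓ(n))` of the Frobenius invariant elements of `H^i(X̄_et, ℤ(n))`. -/
def Comparison.InvClasses {ℓ : Nat.Primes} {W : Weil} {E : Adic ℓ} (c : Comparison W E) (i : ℤ) :
    Set (E.C i).T :=
  {z | ∃ x, (W.F i).ap x = x ∧ (c.cC i).ap x = z}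

/-- Every Frobenius invariant class in `H^i(X̄, ℤ_ℓ(n))` has a non-zero multiple in the `ℤ_ℓ`-span
of the classes of the Frobenius invariant elements of `H^i(X̄_et, ℤ(n))`. -/
def Comparison.InvSpanned {ℓ : Nat.Primes} {W : Weil} {E : Adic ℓ} (c : Comparison W E) (i : ℤ) :
    Prop :=
  ∀ y, (E.F i).ap y = y → ∃ N : ℤ, N ≠ 0 ∧ N • y ∈ Submodule.span ℤ_[ℓ] (c.InvClasses i)

/-- The map `H^i(X̄_et, ℤ(n))^F → H^i(X̄, ℤ_ℓ(n))` is injective up to torsion. -/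
def Comparison.InvInjective {ℓ : Nat.Primes} {W : Weil} {E : Adic ℓ} (c : Comparison W E)
    (i : ℤ) : Prop :=
  ∀ x, (W.F i).ap x = x → Tors ((c.cC i).ap x) → Tors x

/-- The eigenvalue `1` of Frobenius on `H^i(X̄, ℚ_ℓ(n))` is semisimple. -/
def Adic.Semisimple {ℓ : Nat.Primes} (E : Adic ℓ) (i : ℤ) : Prop :=
  ∀ z, (E.F i).ap ((E.F i).ap z - z) = (E.F i).ap z - z → Tors ((E.F i).ap z - z)

namespace Groups

variable (X : Groups)

/-- The Tate conjecture in codimension `n` for the prime `ℓ`, on `X̄`. -/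
def TateInv (ℓ : Nat.Primes) (n : ℕ) : Prop := (X.c ℓ n).InvSpanned (2 * (n : ℤ))

/-- In codimension `n` and for the prime `ℓ`: the Tate conjecture, the semisimplicity of the
eigenvalue `1` of Frobenius on `H^(2n)(X̄, ℚ_ℓ(n))`, and the injectivity up to torsion of the cycle
map (rational equivalence is `ℓ`-adic homological equivalence up to torsion). -/
def TateSemiInj (ℓ : Nat.Primes) (n : ℕ) : Prop :=
  X.TateInv ℓ n ∧ (X.E ℓ n).Semisimple (2 * (n : ℤ)) ∧ (X.c ℓ n).InvInjective (2 * (n : ℤ))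

/-- The group `H^(2n+1)_W(X, ℤ(n))` is finitely generated. -/
def Single (n : ℕ) : Prop := AddGroup.FG ((X.W n).H (2 * (n : ℤ) + 1)).T

/-- Parshin's conjecture in weight `n`: `H^i_W(X, ℤ(n))` is torsion for `i < 2 n`. -/
def Parshin (n : ℕ) : Prop := ∀ i : ℤ, i < 2 * (n : ℤ) → ∀ x : ((X.W n).H i).T, Tors x

/-- `H^i(X̄_et, ℤ(n))` is torsion for `i > 2 n`: indeed `H^i(X̄_et, ℚ(n)) = CH^n(X̄, 2n - i)_ℚ`. -/
def TorsAbove : Prop := ∀ (n : ℕ) (i : ℤ), 2 * (n : ℤ) < i → ∀ x : ((X.W n).C i).T, Tors x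

end Groups

section

variable (X : Coh)

theorem above_H (hv : X.TorsAbove) (n : ℕ) (i : ℤ) (hi : 2 * (n : ℤ) + 1 < i)
    (x : (X.old.W n).H i) : WE.Tors x := by
  obtain ⟨j, rfl⟩ : ∃ j, i = j + 1 := ⟨i - 1, by ring⟩
  obtain ⟨N, hN, h⟩ := hv n (j + 1) (by omega) ((X.old.W n).res _ x)
  have h1 : (X.old.W n).res (j + 1) (N • x) = 0 := by rw [map_zsmul]; exact h
  obtain ⟨w, hw⟩ := ((X.old.W n).res_eq_zero j _).mp h1
  have h2 : WE.Tors w := hv n j (by omega) w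
  exact WE.Tors.of_zsmul hN (hw ▸ h2.map _)

theorem single (hv : X.TorsAbove) (n : ℕ) :
    (X.L n ↔ X.Single n ∧ X.Parshin n) ∧ (X.Single n → ∀ ℓ, X.TateSemiInj ℓ n) ∧
      ∀ ℓ, ℓ ≠ X.p → (2 * n ≤ X.d ∨ X.d ≤ n ∨ X.TateInv ℓ (X.d - n)) →
        (X.Single n ↔ X.TateSemiInj ℓ n) := by
  have hf : X.Single n → ∀ ℓ, X.TateSemiInj ℓ n := fun h ℓ => WE.single_fwd X.old ℓ n h
  refine ⟨?_, hf, fun ℓ hℓ h => ⟨fun h1 => hf h1 ℓ, fun h1 => ?_⟩⟩
  · refine (WE.L_iff_single X.old n).trans (and_congr_right fun _ => ⟨?_, ?_⟩)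
    · intro h i hi
      exact h i (by omega) (by omega)
    · intro h i h1 h2
      rcases lt_or_gt_of_ne h1 with h3 | h3
      · exact h i h3
      · exact above_H X hv n i (by omega)
  · exact WE.single_bwd X.old hℓ n h (fun x _ => hv n _ (by omega) x) h1.1 h1.2.1 h1.2.2

end

end WEt
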