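import Pool.Agent.WEt.CorrConv

/-!
# Weil-etale motivic cohomology: a variety `X` and its square `X × X`, the statement
-/

open TensorProduct Polynomial

noncomputable section

namespace WEt

/-- Maps `up` from the cohomology of degree `2 n` and weight `n` of `X̄` to the cohomology of
degree `2 N` and weight `N` of `Ȳ` and `dn` back, motivic and `ℓ`-adic, compatible with Frobenius
and with the cycle maps, such that `dn ∘ up` is multiplication by an integer `m ≠ 0`. -/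
structure UpDown (X Y : Groups) (n N : ℕ) where
  m : ℤ
  m_ne : m ≠ 0
  up : ((X.W n).C (2 * (n : ℤ))).Hom ((Y.W N).C (2 * (N : ℤ)))
  dn : ((Y.W N).C (2 * (N : ℤ))).Hom ((X.W n).C (2 * (n : ℤ)))
  dn_up : ∀ x, dn.ap (up.ap x) = m • x
  up_F : ∀ x, up.ap (((X.W n).F _).ap x) = ((Y.W N).F _).ap (up.ap x)
  dn_F : ∀ y, dn.ap (((Y.W N).F _).ap y) = ((X.W n).F _).ap (dn.ap y)
  upE : ∀ ℓ, ((X.E ℓ n).C (2 * (n : ℤ))).Hom ((Y.E ℓ N).C (2 * (N : ℤ)))
  dnE : ∀ ℓ, ((Y.E ℓ N).C (2 * (N : ℤ))).Hom ((X.E ℓ n).C (2 * (n : ℤ)))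
  dn_upE : ∀ ℓ x, (dnE ℓ).ap ((upE ℓ).ap x) = m • x
  up_FE : ∀ ℓ x, (upE ℓ).ap (((X.E ℓ n).F _).ap x) = ((Y.E ℓ N).F _).ap ((upE ℓ).ap x)
  up_c : ∀ ℓ x, ((Y.c ℓ N).cC _).ap (up.ap x) = (upE ℓ).ap (((X.c ℓ n).cC _).ap x)
  dn_c : ∀ ℓ y, ((X.c ℓ n).cC _).ap (dn.ap y) = (dnE ℓ).ap (((Y.c ℓ N).cC _).ap y)

/-- `Y = X × X`: the ring of correspondences, the Frobenius correspondence, the exterior products,
and for `n ≤ d = dim X` the maps `up x = x × h^(d-n)` and `dn y = pr₁_*(y · pr₂^*(h^n))`, where `h`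
is the class of a hyperplane section of `X`, so that `dn (up x) = deg(h^d) x`. -/
structure Square (X Y : Coh) where
  corr : Corr X.toGroups Y.toGroups
  frob : Frob corr
  ext : ∀ n m h, Ext corr (X.duality n m h)
  upDown : ∀ n, n ≤ X.d → UpDown X.toGroups Y.toGroups n X.d

section Conversion

/-- conversion -/
def UpDown.old {X Y : Coh} {n N : ℕ} (U : UpDown X.toGroups Y.toGroups n N) :
    WE.UpDown X.old Y.old n N where
  m := U.m
  m_ne := U.m_ne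
  up := U.up
  dn := U.dn
  dn_up := U.dn_up
  up_F := U.up_F
  dn_F := U.dn_F
  upE := U.upE
  dnE := U.dnE
  dn_upE := U.dn_upE
  up_FE := U.up_FE
  up_c := U.up_c
  dn_c := U.dn_c

/-- The theorem. -/
theorem square (X Y : Coh) (S : Square X Y)
    (h : AddGroup.FG ((Y.W X.d).H (2 * (X.d : ℤ) + 1)).T ∨ ∃ ℓ, ℓ ≠ X.p ∧ Y.TSB ℓ X.d) (n : ℕ) :
    X.L n ∧ X.K n := by
  have U : ∀ n ≤ X.old.d, WE.UpDown X.old Y.old n X.old.d := fun n hn => (S.upDown n hn).old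
  have S' : WE.Sq X.old Y.old := toSq S.corr S.frob S.ext
  rcases h with h | ⟨ℓ, hℓ, hT, hS, hB⟩
  · exact WE.square_fg S' U h n
  · exact WE.square_tsb S' U hℓ hT hS hB n

end Conversion

end WEt
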