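import Pool.Agent.WEt.T2
import Pool.Agent.WEt.PRE
import Pool.Agent.WEt.PAR
import Pool.Agent.WEt.PGD

/-!
# Weil-etale cohomology: from the middle degree of `X × X` to all weights of `X`
-/

open TensorProduct Polynomial Filter

noncomputable section

namespace WE

/-- Product with a class, and a retraction up to the integer `m`, between the cohomology of `X̄`
in degree `2 n` and weight `n` and the cohomology of `Ȳ` in degree `2 N` and weight `N`. -/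
structure UpDown (X Y : Theory) (n N : ℕ) where
  m : ℤ
  m_ne : m ≠ 0
  up : (X.W n).C (2 * (n : ℤ)) →+ (Y.W N).C (2 * (N : ℤ))
  dn : (Y.W N).C (2 * (N : ℤ)) →+ (X.W n).C (2 * (n : ℤ))
  dn_up : ∀ x, dn (up x) = m • x
  up_F : ∀ x, up ((X.W n).F _ x) = (Y.W N).F _ (up x)
  dn_F : ∀ y, dn ((Y.W N).F _ y) = (X.W n).F _ (dn y)
  upE : ∀ ℓ : Nat.Primes, (X.E ℓ n).C (2 * (n : ℤ)) →ₗ[ℤ_[ℓ]] (Y.E ℓ N).C (2 * (N : ℤ))
  dnE : ∀ ℓ : Nat.Primes, (Y.E ℓ N).C (2 * (N : ℤ)) →ₗ[ℤ_[ℓ]] (X.E ℓ n).C (2 * (n : ℤ))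
  dn_upE : ∀ ℓ x, dnE ℓ (upE ℓ x) = m • x
  up_FE : ∀ ℓ x, upE ℓ ((X.E ℓ n).F _ x) = (Y.E ℓ N).F _ (upE ℓ x)
  up_c : ∀ ℓ x, Y.cC ℓ N _ (up x) = upE ℓ (X.cC ℓ n _ x)
  dn_c : ∀ ℓ y, X.cC ℓ n _ (dn y) = dnE ℓ (Y.cC ℓ N _ y)

namespace UpDown

variable {X Y : Theory} {n N : ℕ} (U : UpDown X Y n N) {ℓ : Nat.Primes}

include U

theorem tc (h : Y.TC ℓ N) : X.TC ℓ n := by
  intro y hy
  obtain ⟨M, hM, h1⟩ := h (U.upE ℓ y) (by rw [← U.up_FE, hy])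
  refine ⟨M * U.m, mul_ne_zero hM U.m_ne, ?_⟩
  have h2 : (M * U.m) • y = U.dnE ℓ (M • U.upE ℓ y) := by
    rw [map_zsmul, U.dn_upE, mul_smul]
  rw [h2]
  have h3 := Submodule.mem_map_of_mem (f := U.dnE ℓ) h1
  rw [Submodule.map_span] at h3
  refine Submodule.span_mono ?_ h3
  rintro _ ⟨_, ⟨x, hx, rfl⟩, rfl⟩
  exact ⟨U.dn x, by rw [← U.dn_F, hx], U.dn_c ℓ x⟩

theorem ss (h : Y.SS ℓ N) : X.SS ℓ n := by
  intro z hz
  have h1 : (Y.E ℓ N).F _ (U.upE ℓ z) - U.upE ℓ z = U.upE ℓ ((X.E ℓ n).F _ z - z) := by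
    rw [map_sub, U.up_FE]
  have h2 := h (U.upE ℓ z) (by rw [h1, ← U.up_FE, hz])
  rw [h1] at h2
  have h3 := h2.lmap (U.dnE ℓ)
  rw [U.dn_upE] at h3
  exact Tors.of_zsmul U.m_ne h3

theorem b (h : Y.B ℓ N) : X.B ℓ n := by
  intro x hx hc
  have h1 := h (U.up x) (by rw [← U.up_F, hx]) (by rw [U.up_c]; exact hc.lmap (U.upE ℓ))
  have h2 := h1.map U.dn
  rw [U.dn_up] at h2
  exact Tors.of_zsmul U.m_ne h2

end UpDown

namespace Big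

/-- if all groups `H i` of weight `n > d` are torsion, then `KQ` holds -/
theorem kq (X : Theory) {n : ℕ} (hn : X.d < n) (h : ∀ i, ∀ x : (X.W n).H i, Tors x)
    (ℓ : Nat.Primes) : X.KQ ℓ n := by
  intro i
  refine ⟨fun t _ => T2.tors_tens ℓ (h i) t, fun e => ?_⟩
  obtain ⟨N, hN, h1⟩ := tors_all X rk hn ℓ i e
  exact ⟨N, hN, 0, by rw [map_zero, h1]⟩

end Big

end WE
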