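import Pool.Agent.WEt.Single

/-!
# Weil-etale cohomology: `L^n` and the single group `H^(2n+1)_W(X, ℤ(n))`, part A
-/

open TensorProduct Polynomial Filter

noncomputable section

namespace WE

namespace SG

open KL

/-- The cokernel of `ℤ_ℓ ⊗ H → E` has no torsion: a subgroup of finite index generated by the
image is everything. -/
theorem sat (ℓ : Nat.Primes) (H E Q : Type) [AddCommGroup H] [AddCommGroup E]
    [Module ℤ_[ℓ] E] [AddCommGroup Q] (c : H →+ E) (q : E →+ Q)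
    (hq : ∀ e, q e = 0 ↔ ∃ h, c h = e)
    (hQ : Function.Bijective (fun y : Q => (ℓ : ℕ) • y))
    (hidx : ∀ e : E, ∃ N : ℤ, N ≠ 0 ∧ N • e ∈ Submodule.span ℤ_[ℓ] (Set.range c)) :
    Submodule.span ℤ_[ℓ] (Set.range c) = ⊤ := by
  set M := Submodule.span ℤ_[ℓ] (Set.range c) with hM
  -- saturation for powers of `ℓ`
  have key : ∀ (k : ℕ) (e : E), ((ℓ : ℕ) ^ k) • e ∈ M → e ∈ M := by
    intro k e he
    obtain ⟨t, ht⟩ := (mem_span_iff c _).mp he
    obtain ⟨h, t', rfl⟩ := dens ℓ H k t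
    rw [map_add, tens1, map_smul, hps] at ht
    have h1 : c h = ((ℓ : ℕ) ^ k) • (e - tens ℓ c t') := by
      rw [smul_sub, ← ht]
      abel
    have h2 : q (e - tens ℓ c t') = 0 := by
      apply (pdiv ℓ hQ k).1
      simp only [smul_zero]
      rw [← map_nsmul, ← h1]
      exact (hq _).mpr ⟨h, rfl⟩
    obtain ⟨h', h3⟩ := (hq _).mp h2
    have h4 : e = c h' + tens ℓ c t' := by rw [h3]; abel
    rw [h4]
    exact add_mem (Submodule.subset_span ⟨h', rfl⟩) ((mem_span_iff c _).mpr ⟨t', rfl⟩)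
  rw [eq_top_iff]
  intro e _
  obtain ⟨N, hN, h⟩ := hidx e
  rw [zsmul_eq (ℓ := ℓ), PadicInt.unitCoeff_spec (int_ne (ℓ := ℓ) hN), mul_smul] at h
  have h1 := (Submodule.smul_mem_iff_of_isUnit M (Units.isUnit _)).mp h
  rw [hps] at h1
  exact key _ e h1

/-- an extension of a finitely generated group by a finite one -/
theorem fg_of_ker_finite {A B : Type} [AddCommGroup A] [AddCommGroup B] (f : A →+ B)
    (hB : AddGroup.FG B) (hf : {x : A | f x = 0}.Finite) : AddGroup.FG A := by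
  have fB : Module.Finite ℤ B := Module.Finite.iff_addGroup_fg.2 hB
  rw [← Module.Finite.iff_addGroup_fg]
  have h1 : Module.Finite ℤ (LinearMap.ker f.toIntLinearMap) := by
    have : Finite (LinearMap.ker f.toIntLinearMap) := by
      refine Set.Finite.to_subtype (s := (LinearMap.ker f.toIntLinearMap : Set A)) ?_
      exact hf.subset fun x hx => hx
    infer_instance
  have h2 : Module.Finite ℤ (LinearMap.range f.toIntLinearMap) := inferInstance
  have h3 : Module.Finite ℤ (A ⧸ LinearMap.ker f.toIntLinearMap) :=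
    Module.Finite.equiv (LinearMap.quotKerEquivRange f.toIntLinearMap).symm
  exact Module.Finite.of_submodule_quotient (LinearMap.ker f.toIntLinearMap)

theorem fg_of_finite_tors {A : Type} [AddCommGroup A] (h : ∀ x : A, Tors x)
    (hf : {x : A | Tors x}.Finite) : AddGroup.FG A := by
  have : Finite A := by
    rw [← Set.finite_univ_iff]
    exact hf.subset fun x _ => h x
  infer_instance

theorem finrank_tens (ℓ : Nat.Primes) (A : Type) [AddCommGroup A] :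
    Module.finrank ℤ_[ℓ] (ℤ_[ℓ] ⊗[ℤ] A) = Module.finrank ℤ A :=
  IsBaseChange.finrank_eq (TensorProduct.isBaseChange ℤ A ℤ_[ℓ])

end SG

open SG

variable (X : Theory)

/-- the rank: if `H^(2n+1)_W` is finitely generated and `H^(2n-1)_W` is torsion then the algebraic
multiplicity is at most the rank of the submodule generated by `H^(2n+1)_W` -/
theorem mult_le_rank (hRK : S_RK) {ℓ : Nat.Primes} (hℓ : ℓ ≠ X.p) (n : ℕ)
    (hA : AddGroup.FG ((X.W n).H (2 * (n : ℤ) + 1))) :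
    (X.P n (2 * (n : ℤ))).rootMultiplicity 1 ≤
      Module.finrank ℤ_[ℓ] (ℤ_[ℓ] ⊗[ℤ] ((X.W n).H (2 * (n : ℤ) + 1))) := by
  have fA : Module.Finite ℤ ((X.W n).H (2 * (n : ℤ) + 1)) := Module.Finite.iff_addGroup_fg.2 hA
  obtain ⟨-, hss, -⟩ := single_fwd X ℓ n hA
  refine (rank_even_eq X hRK hℓ n _ hss).trans ?_
  -- `E (2n) → E (2n+1)` has torsion kernel and image in the range of `tens`
  have hsurj : Function.Surjective (tens ℓ (X.cH ℓ n (2 * (n : ℤ)))) :=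
    kl_surj ℓ _ _ _ _ _ (X.q ℓ n (2 * (n : ℤ))) (X.δ ℓ n (2 * (n : ℤ))) (X.q_eq_zero ℓ n _)
      (X.δ_eq_zero ℓ n _) (X.Q_div ℓ n _) hA
  have hrange : ∀ e, eE X ℓ n e ∈ LinearMap.range (tens ℓ (X.cH ℓ n (2 * (n : ℤ) + 1))) := by
    intro e
    obtain ⟨t, rfl⟩ := hsurj e
    refine ⟨(eW X n).toIntLinearMap.lTensor ℤ_[ℓ] t, ?_⟩
    rw [tens_comp, comp_tens]
    congr 2
    ext x
    exact (eE_cH X ℓ n x).symm
  have h1 : Module.finrank ℤ_[ℓ] ((X.E ℓ n).H (2 * (n : ℤ))) ≤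
      Module.finrank ℤ_[ℓ] (LinearMap.range (tens ℓ (X.cH ℓ n (2 * (n : ℤ) + 1)))) := by
    refine finrank_le_of_ker ((eE X ℓ n).codRestrict _ hrange) ?_
    intro x hx
    have hx' : eE X ℓ n x = 0 := by simpa using congrArg Subtype.val hx
    obtain ⟨z, hz⟩ := ((X.E ℓ n).inc_eq_zero _ _).mp hx'
    have h2 : Tors ((X.E ℓ n).res _ x) := by
      have h3 := hss z (by rw [← hz]; exact (X.E ℓ n).F_res _ x)
      rwa [← hz] at h3
    obtain ⟨N, hN, h3⟩ := h2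
    rw [← map_zsmul] at h3
    obtain ⟨j, hj⟩ : ∃ j, 2 * (n : ℤ) = j + 1 := ⟨2 * (n : ℤ) - 1, by ring⟩
    have h4 : ∀ (k : ℤ), k = j + 1 → ∀ y : (X.E ℓ n).H k, (X.E ℓ n).res k y = 0 → Tors y := by
      rintro k rfl y hy
      obtain ⟨w, rfl⟩ := ((X.E ℓ n).res_eq_zero j _).mp hy
      exact inc_tors X hRK hℓ n j (by omega) w
    exact Tors.of_zsmul hN (h4 _ hj _ h3)
  refine h1.trans ?_
  exact LinearMap.finrank_le_finrank_of_surjective
    (f := (tens ℓ (X.cH ℓ n (2 * (n : ℤ) + 1))).rangeRestrict)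
    (LinearMap.surjective_rangeRestrict _)

/-- finite index in all degrees -/
theorem idx_all (hRK : S_RK) (n : ℕ)
    (hA : AddGroup.FG ((X.W n).H (2 * (n : ℤ) + 1))) (ℓ : Nat.Primes) (i : ℤ)
    (e : (X.E ℓ n).H i) :
    ∃ N : ℤ, N ≠ 0 ∧ N • e ∈ Submodule.span ℤ_[ℓ] (Set.range (X.cH ℓ n i)) := by
  by_cases h1 : i = 2 * (n : ℤ)
  · subst h1
    have hsurj : Function.Surjective (tens ℓ (X.cH ℓ n (2 * (n : ℤ)))) :=
      kl_surj ℓ _ _ _ _ _ (X.q ℓ n (2 * (n : ℤ))) (X.δ ℓ n (2 * (n : ℤ))) (X.q_eq_zero ℓ n _)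
        (X.δ_eq_zero ℓ n _) (X.Q_div ℓ n _) hA
    exact ⟨1, one_ne_zero, by rw [one_smul]; exact (mem_span_iff _ _).mpr (hsurj e)⟩
  by_cases h2 : i = 2 * (n : ℤ) + 1
  · subst h2
    have fA : Module.Finite ℤ ((X.W n).H (2 * (n : ℤ) + 1)) := Module.Finite.iff_addGroup_fg.2 hA
    have hinj : Function.Injective (tens ℓ (X.cH ℓ n (2 * (n : ℤ) + 1))) :=
      kl_inj ℓ _ _ _ _ (X.δ ℓ n (2 * (n : ℤ))) _ (X.q ℓ n (2 * (n : ℤ) + 1))
        (X.cH_eq_zero ℓ n _) (X.q_eq_zero ℓ n _) (X.Q_div ℓ n _) (X.Q_div ℓ n _) hA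
    obtain ⟨ℓ', hℓ'⟩ := (ev_ne X).exists
    have h3 := mult_le_rank X hRK hℓ' n hA
    have h4 : Module.finrank ℤ_[ℓ'] (ℤ_[ℓ'] ⊗[ℤ] ((X.W n).H (2 * (n : ℤ) + 1))) =
        Module.finrank ℤ_[ℓ] (ℤ_[ℓ] ⊗[ℤ] ((X.W n).H (2 * (n : ℤ) + 1))) :=
      (finrank_tens ℓ' _).trans (finrank_tens ℓ _).symm
    have h5 := rank_odd X hRK ℓ n _ rfl
    have h6 : Module.finrank ℤ_[ℓ] ((X.E ℓ n).H (2 * (n : ℤ) + 1)) ≤
        Module.finrank ℤ_[ℓ] (LinearMap.range (tens ℓ (X.cH ℓ n (2 * (n : ℤ) + 1)))) := by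
      rw [LinearMap.finrank_range_of_inj hinj, ← h4]
      exact h5.trans h3
    have h7 := (LinearMap.range (tens ℓ (X.cH ℓ n (2 * (n : ℤ) + 1)))).finrank_quotient_add_finrank
    have h8 : Module.finrank ℤ_[ℓ] ((X.E ℓ n).H (2 * (n : ℤ) + 1) ⧸
        LinearMap.range (tens ℓ (X.cH ℓ n (2 * (n : ℤ) + 1)))) = 0 := by omega
    obtain ⟨N, hN, h9⟩ := tors_of_finrank_zero h8 (Submodule.Quotient.mk e)
    refine ⟨N, hN, ?_⟩
    rw [zsmul_eq (ℓ := ℓ), ← Submodule.Quotient.mk_smul, Submodule.Quotient.mk_eq_zero] at h9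
    rw [zsmul_eq (ℓ := ℓ)]
    exact (mem_span_iff _ _).mpr h9
  obtain ⟨N, hN, h⟩ := tors_E X hRK ℓ n i h1 h2 e
  exact ⟨N, hN, by rw [h]; exact zero_mem _⟩

end WE
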