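import Pool.Agent.WEt.Defs

/-!
# Weil-etale cohomology: statements of the modules (pure algebra)
-/

open TensorProduct Polynomial

noncomputable section

namespace WE

/-- A matrix of integers with independent rows (indexed by `Fin ρ`, columns by `G`) has a
non-zero minor. -/
def S_GLOB : Prop :=
  ∀ (G : Type) (ρ : ℕ) (b : Fin ρ → G → ℤ),
    (∀ c : Fin ρ → ℤ, (∀ g, ∑ j, c j * b j g = 0) → c = 0) →
    ∃ g : Fin ρ → G, (Matrix.of fun j k => b j (g k)).det ≠ 0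

/-- Finite generation from an integral pairing. -/
def S_FG : Prop :=
  ∀ (A : Type) [AddCommGroup A] (ρ : ℕ) (a : Fin ρ → A) (φ : Fin ρ → (A →+ ℤ)),
    (Matrix.of fun j k => φ k (a j)).det ≠ 0 →
    (∀ x : A, ∃ N : ℤ, N ≠ 0 ∧ ∃ c : Fin ρ → ℤ, Tors (N • x - ∑ j, c j • a j)) →
    {x : A | Tors x}.Finite → AddGroup.FG A

/-- Cramer's rule modulo torsion. -/
def S_LOC : Prop :=
  ∀ (ℓ : Nat.Primes) (E : Type) [AddCommGroup E] [Module ℤ_[ℓ] E] [Module.Finite ℤ_[ℓ] E]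
    (ρ : ℕ) (e : Fin ρ → E) (φ : Fin ρ → (E →ₗ[ℤ_[ℓ]] ℤ_[ℓ])) (Δ : ℤ), Δ ≠ 0 →
    (Matrix.of fun j k => φ k (e j)).det = (Δ : ℤ_[ℓ]) →
    Module.finrank ℤ_[ℓ] E ≤ ρ →
    ∀ x : E, ∃ c : Fin ρ → ℤ_[ℓ], Tors (Δ • x - ∑ j, c j • e j)

/-- The `ℓ`-primary torsion of `H^(i+1)` from the long exact sequence
`H^i → E^i → Q^i → H^(i+1) → E^(i+1)` with `Q^i` uniquely `ℓ`-divisible. -/
def S_FIN : Prop :=
  ∀ (ℓ : Nat.Primes) (H H' E E' Q : Type) [AddCommGroup H] [AddCommGroup H'] [AddCommGroup E]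
    [Module ℤ_[ℓ] E] [Module.Finite ℤ_[ℓ] E] [AddCommGroup E'] [Module ℤ_[ℓ] E']
    [Module.Finite ℤ_[ℓ] E'] [AddCommGroup Q]
    (c : H →+ E) (q : E →+ Q) (δ : Q →+ H') (c' : H' →+ E'),
    (∀ e, q e = 0 ↔ ∃ h, c h = e) → (∀ y, δ y = 0 ↔ ∃ e, q e = y) →
    (∀ h, c' h = 0 ↔ ∃ y, δ y = h) → Function.Bijective (fun y : Q => (ℓ : ℕ) • y) →
    (∀ e : E, ∃ N : ℤ, N ≠ 0 ∧ N • e ∈ Submodule.span ℤ_[ℓ] (Set.range c)) →
    {x : H' | ∃ k : ℕ, ((ℓ : ℕ) ^ k) • x = 0}.Finite ∧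
      (Submodule.span ℤ_[ℓ] (Set.range c) = ⊤ → (∀ e : E', Tors e → e = 0) →
        ∀ x : H', (∃ k : ℕ, ((ℓ : ℕ) ^ k) • x = 0) → x = 0)

/-- The torsion subgroup is finite if the primary parts are finite and almost all zero. -/
def S_TOR : Prop :=
  ∀ (A : Type) [AddCommGroup A] (S : Finset Nat.Primes),
    (∀ ℓ : Nat.Primes, {x : A | ∃ k : ℕ, ((ℓ : ℕ) ^ k) • x = 0}.Finite) →
    (∀ ℓ : Nat.Primes, ℓ ∉ S → ∀ x : A, (∃ k : ℕ, ((ℓ : ℕ) ^ k) • x = 0) → x = 0) →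
    {x : A | Tors x}.Finite

/-- `L` implies `K`: in the long exact sequence `Q₀ → H → E → Q → H'` with `H`, `H'` finitely
generated and `Q₀`, `Q` uniquely `ℓ`-divisible the map `H ⊗ ℤ_ℓ → E` is bijective. -/
def S_KL : Prop :=
  ∀ (ℓ : Nat.Primes) (H H' E Q₀ Q : Type) [AddCommGroup H] [AddCommGroup H'] [AddCommGroup E]
    [Module ℤ_[ℓ] E] [Module.Finite ℤ_[ℓ] E] [AddCommGroup Q₀] [AddCommGroup Q]
    (δ₀ : Q₀ →+ H) (c : H →+ E) (q : E →+ Q) (δ : Q →+ H'),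
    (∀ h, c h = 0 ↔ ∃ y, δ₀ y = h) → (∀ e, q e = 0 ↔ ∃ h, c h = e) →
    (∀ y, δ y = 0 ↔ ∃ e, q e = y) → Function.Bijective (fun y : Q₀ => (ℓ : ℕ) • y) →
    Function.Bijective (fun y : Q => (ℓ : ℕ) • y) →
    AddGroup.FG H → AddGroup.FG H' → Function.Bijective (tens ℓ c)

/-- Cayley-Hamilton, `1` not a root modulo `ℓ`. -/
def S_CHA : Prop :=
  ∀ (ℓ : Nat.Primes) (M : Type) [AddCommGroup M] [Module ℤ_[ℓ] M] (F : M →ₗ[ℤ_[ℓ]] M)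
    (R : ℤ[X]), aeval F (R.map (Int.castRingHom ℤ_[ℓ])) = 0 → ¬ ((ℓ : ℕ) : ℤ) ∣ R.eval 1 →
    (∀ x, F x = x → x = 0) ∧ ∀ y, ∃ z, y = F z - z

/-- Cayley-Hamilton, `1` a semisimple eigenvalue: the coinvariants have no torsion. -/
def S_CHB : Prop :=
  ∀ (ℓ : Nat.Primes) (M : Type) [AddCommGroup M] [Module ℤ_[ℓ] M] (F : M →ₗ[ℤ_[ℓ]] M)
    (r : ℕ) (R : ℤ[X]), (∀ x : M, Tors x → x = 0) →
    aeval F (((X - 1) ^ r * R).map (Int.castRingHom ℤ_[ℓ])) = 0 →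
    ¬ ((ℓ : ℕ) : ℤ) ∣ R.eval 1 →
    (∀ z, F (F z - z) = F z - z → F z - z = 0) →
    ∀ (x y : M) (N : ℤ), N ≠ 0 → N • x = F y - y → ∃ z, x = F z - z

/-- Clearing denominators. -/
def S_PQ : Prop :=
  ∀ P : ℚ[X], P ≠ 0 → ∃ (N : ℤ) (R : ℤ[X]), N ≠ 0 ∧ R.eval 1 ≠ 0 ∧
    C (N : ℚ) * P = ((X - 1) ^ (P.rootMultiplicity 1) * R).map (Int.castRingHom ℚ)

/-- The characteristic polynomial of the rationalisation, cleared of denominators, annihilates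
a torsion free module. -/
def S_ANN : Prop :=
  ∀ (ℓ : Nat.Primes) (M : Type) [AddCommGroup M] [Module ℤ_[ℓ] M] [Module.Finite ℤ_[ℓ] M]
    (F : M →ₗ[ℤ_[ℓ]] M) (P : ℚ[X]) (N : ℤ) (R : ℤ[X]), (∀ x : M, Tors x → x = 0) →
    (F.baseChange ℚ_[ℓ]).charpoly = P.map (algebraMap ℚ ℚ_[ℓ]) →
    C (N : ℚ) * P = R.map (Int.castRingHom ℚ) →
    aeval F (R.map (Int.castRingHom ℤ_[ℓ])) = 0

/-- Ranks of invariants and coinvariants against the algebraic multiplicity of the eigenvalue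
`1`. -/
def S_RK : Prop :=
  ∀ (ℓ : Nat.Primes) (M : Type) [AddCommGroup M] [Module ℤ_[ℓ] M] [Module.Finite ℤ_[ℓ] M]
    (F : M →ₗ[ℤ_[ℓ]] M) (P : ℚ[X]),
    (F.baseChange ℚ_[ℓ]).charpoly = P.map (algebraMap ℚ ℚ_[ℓ]) →
    Module.finrank ℤ_[ℓ] (LinearMap.ker (F - 1)) ≤ P.rootMultiplicity 1 ∧
      Module.finrank ℤ_[ℓ] (M ⧸ LinearMap.range (F - 1)) ≤ P.rootMultiplicity 1 ∧
      ((∀ z, F (F z - z) = F z - z → Tors (F z - z)) →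
        Module.finrank ℤ_[ℓ] (LinearMap.ker (F - 1)) = P.rootMultiplicity 1)

/-- The map `e = inc ∘ res : H^j → H^(j+1)`. -/
def S_ORB : Prop :=
  ∀ (W : Weil) (j : ℤ),
    ((∀ h : W.H (j - 1), Tors h) → ∀ h : W.H j, Tors (W.inc j (W.res j h)) → Tors h) ∧
    ((∀ h : W.H (j + 1 + 1), Tors h) →
      ∀ h : W.H (j + 1), ∃ N : ℤ, N ≠ 0 ∧ ∃ h' : W.H j, W.inc j (W.res j h') = N • h)

/-- Ranks: if `A ⊗ ℤ_ℓ → E` has torsion kernel and cokernel, then an element of `A` is torsion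
if its image is, and `A` has a maximal independent family of `finrank E` elements. -/
def S_RAT : Prop :=
  ∀ (ℓ : Nat.Primes) (A E : Type) [AddCommGroup A] [AddCommGroup E] [Module ℤ_[ℓ] E]
    [Module.Finite ℤ_[ℓ] E] (c : A →+ E),
    (∀ t, tens ℓ c t = 0 → Tors t) → (∀ e, ∃ N : ℤ, N ≠ 0 ∧ ∃ t, tens ℓ c t = N • e) →
    (∀ x, Tors (c x) → Tors x) ∧
      ∃ v : Fin (Module.finrank ℤ_[ℓ] E) → A,
        (∀ a : Fin (Module.finrank ℤ_[ℓ] E) → ℤ, Tors (∑ j, a j • v j) → a = 0) ∧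
        ∀ x : A, ∃ N : ℤ, N ≠ 0 ∧ ∃ a : Fin (Module.finrank ℤ_[ℓ] E) → ℤ,
          Tors (N • x - ∑ j, a j • v j)

end WE
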