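import Pool.Agent.WEt.Final
import Pool.Agent.WEt.FamDefs

/-!
# Weil-etale cohomology: consequences of the finite generation of `H^(2n+1)_W(X, ℤ(n))`
-/

open TensorProduct Polynomial

noncomputable section

namespace WE

namespace T2

open KL

lemma tens_one (ℓ : Nat.Primes) {H E : Type} [AddCommGroup H] [AddCommGroup E]
    [Module ℤ_[ℓ] E] (c : H →+ E) (h : H) : tens ℓ c ((1 : ℤ_[ℓ]) ⊗ₜ[ℤ] h) = c h := by
  simp [tens]

lemma hps (ℓ : Nat.Primes) (M : Type) [AddCommGroup M] [Module ℤ_[ℓ] M] (k : ℕ) (x : M) :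
    (((ℓ : ℕ) : ℤ_[ℓ]) ^ k) • x = ((ℓ : ℕ) ^ k) • x := by
  rw [← Nat.cast_pow, Nat.cast_smul_eq_nsmul]

/-- injectivity of `H ⊗ ℤ_ℓ → E` needs only that `H` is finitely generated -/
theorem inj (ℓ : Nat.Primes) (H E Q₀ Q : Type) [AddCommGroup H] [AddCommGroup E]
    [Module ℤ_[ℓ] E] [AddCommGroup Q₀] [AddCommGroup Q]
    (δ₀ : Q₀ →+ H) (c : H →+ E) (q : E →+ Q)
    (hc : ∀ h, c h = 0 ↔ ∃ y, δ₀ y = h) (hq : ∀ e, q e = 0 ↔ ∃ h, c h = e)
    (hQ0 : Function.Bijective (fun y : Q₀ => (ℓ : ℕ) • y))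
    (hQ : Function.Bijective (fun y : Q => (ℓ : ℕ) • y))
    (hH : AddGroup.FG H) : Function.Injective (tens ℓ c) := by
  have fH : Module.Finite ℤ H := Module.Finite.iff_addGroup_fg.2 hH
  rw [injective_iff_map_eq_zero]
  intro t ht
  apply krull ℓ _ t
  intro k
  obtain ⟨h, t', e⟩ := dens ℓ H k t
  have e1 : c h + ((ℓ : ℕ) ^ k) • tens ℓ c t' = 0 := by
    rw [← hps ℓ, ← tens_one ℓ, ← map_smul, ← map_add, ← e, ht]
  have e2 : q (tens ℓ c t') = 0 := by
    have hz : (ℓ : ℕ) ^ k • q (tens ℓ c t') = 0 := by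
      have : q (c h + ((ℓ : ℕ) ^ k) • tens ℓ c t') = 0 := by rw [e1, map_zero]
      rw [map_add, map_nsmul, (hq (c h)).2 ⟨h, rfl⟩, zero_add] at this
      exact this
    apply (pdiv ℓ hQ k).1
    simp only [smul_zero]
    exact hz
  obtain ⟨h', e3⟩ := (hq _).1 e2
  have e4 : c (h + ((ℓ : ℕ) ^ k) • h') = 0 := by
    rw [map_add, map_nsmul, e3, e1]
  obtain ⟨y, e5⟩ := (hc _).1 e4
  obtain ⟨y', e6⟩ := (pdiv ℓ hQ0 k).2 y
  simp only at e6
  refine ⟨(1 : ℤ_[ℓ]) ⊗ₜ[ℤ] (δ₀ y' - h') + t', ?_⟩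
  rw [e, smul_add]
  congr 1
  rw [hps ℓ, ← TensorProduct.tmul_smul, smul_sub, ← map_nsmul, e6, e5]
  congr 1
  abel

/-- surjectivity of `H ⊗ ℤ_ℓ → E` needs only that the next group `H'` is finitely generated -/
theorem surj (ℓ : Nat.Primes) (H H' E Q : Type) [AddCommGroup H] [AddCommGroup H']
    [AddCommGroup E] [Module ℤ_[ℓ] E] [Module.Finite ℤ_[ℓ] E] [AddCommGroup Q]
    (c : H →+ E) (q : E →+ Q) (δ : Q →+ H')
    (hq : ∀ e, q e = 0 ↔ ∃ h, c h = e) (hδ : ∀ y, δ y = 0 ↔ ∃ e, q e = y)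
    (hQ : Function.Bijective (fun y : Q => (ℓ : ℕ) • y))
    (hH' : AddGroup.FG H') : Function.Surjective (tens ℓ c) := by
  have fH' : Module.Finite ℤ H' := Module.Finite.iff_addGroup_fg.2 hH'
  intro e
  have hN : IsNoetherian ℤ H' := inferInstance
  let K : ℕ →o Submodule ℤ H' :=
    { toFun := fun k => LinearMap.ker (LinearMap.lsmul ℤ H' (((ℓ : ℕ) : ℤ) ^ k))
      monotone' := by
        intro a b hab x hx
        simp only [LinearMap.mem_ker, LinearMap.lsmul_apply] at hx ⊢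
        obtain ⟨m, rfl⟩ := Nat.exists_eq_add_of_le hab
        rw [pow_add, mul_comm, mul_smul, hx, smul_zero] }
  obtain ⟨a, ha⟩ := (monotone_stabilizes_iff_noetherian.2 hN) K
  have hstab : ∀ (k : ℕ) (x : H'), ((ℓ : ℕ) ^ k) • x = 0 → ((ℓ : ℕ) ^ a) • x = 0 := by
    intro k x hx
    have h1 : x ∈ K (k + a) := by
      simp only [K, OrderHom.coe_mk, LinearMap.mem_ker, LinearMap.lsmul_apply]
      have : (((ℓ : ℕ) : ℤ) ^ (k + a)) • x = ((ℓ : ℕ) ^ a) • (((ℓ : ℕ) ^ k) • x) := by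
        rw [← mul_smul, ← pow_add, add_comm a k]
        norm_cast
      rw [this, hx, smul_zero]
    rw [← ha (k + a) (Nat.le_add_left _ _)] at h1
    simp only [K, OrderHom.coe_mk, LinearMap.mem_ker, LinearMap.lsmul_apply] at h1
    have : (((ℓ : ℕ) : ℤ) ^ a) • x = ((ℓ : ℕ) ^ a) • x := by norm_cast
    rw [← this, h1]
  have key : ∀ k : ℕ, ∃ (h : H) (e' : E), e = c h + ((ℓ : ℕ) ^ k) • e' := by
    intro k
    obtain ⟨y, hy⟩ := (pdiv ℓ hQ (k + a)).2 (q e)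
    simp only at hy
    have h1 : ((ℓ : ℕ) ^ (k + a)) • δ y = 0 := by
      rw [← map_nsmul, hy]
      exact (hδ _).2 ⟨e, rfl⟩
    have h2 := hstab _ _ h1
    rw [← map_nsmul] at h2
    obtain ⟨e', he'⟩ := (hδ _).1 h2
    have h3 : q (e - ((ℓ : ℕ) ^ k) • e') = 0 := by
      rw [map_sub, map_nsmul, he', ← mul_smul, ← pow_add, hy, sub_self]
    obtain ⟨h, hh⟩ := (hq _).1 h3
    exact ⟨h, e', by rw [hh]; abel⟩
  have hmem : e ∈ LinearMap.range (tens ℓ c) := by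
    rw [← Submodule.Quotient.mk_eq_zero]
    apply krull ℓ _ _
    intro k
    obtain ⟨h, e', he⟩ := key k
    refine ⟨Submodule.Quotient.mk e', ?_⟩
    rw [← Submodule.Quotient.mk_smul, hps ℓ, Submodule.Quotient.eq]
    have : e - ((ℓ : ℕ) ^ k) • e' = c h := by rw [he]; abel
    rw [this]
    exact ⟨_, tens_one ℓ c h⟩
  obtain ⟨t, ht⟩ := hmem
  exact ⟨t, ht⟩

/-- elements of `ℤ_ℓ ⊗ K` are torsion if all elements of `K` are -/
lemma tors_tens (ℓ : Nat.Primes) {K : Type} [AddCommGroup K] (hK : ∀ x : K, Tors x)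
    (t : ℤ_[ℓ] ⊗[ℤ] K) : Tors t := by
  induction t using TensorProduct.induction_on with
  | zero => exact Tors.zero
  | tmul a x =>
    obtain ⟨N, hN, h⟩ := hK x
    exact ⟨N, hN, by rw [← TensorProduct.tmul_smul, h, TensorProduct.tmul_zero]⟩
  | add x y hx hy => exact hx.add hy

/-- if `f : A → B` has torsion kernel, so has `ℤ_ℓ ⊗ A → ℤ_ℓ ⊗ B` -/
lemma tors_of_lTensor (ℓ : Nat.Primes) {A B : Type} [AddCommGroup A] [AddCommGroup B]
    (f : A →ₗ[ℤ] B) (hf : ∀ x, f x = 0 → Tors x) (t : ℤ_[ℓ] ⊗[ℤ] A)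
    (ht : f.lTensor ℤ_[ℓ] t = 0) : Tors t := by
  have hflat : Module.Flat ℤ ℤ_[ℓ] := inferInstance
  have hex : Function.Exact (LinearMap.ker f).subtype f := LinearMap.exact_subtype_ker_map f
  have h2 := Module.Flat.lTensor_exact ℤ_[ℓ] hex
  obtain ⟨s, hs⟩ := (h2 t).1 ht
  have h3 : Tors s := tors_tens ℓ (K := LinearMap.ker f) (fun x => by
    obtain ⟨N, hN, h⟩ := hf x.1 x.2
    exact ⟨N, hN, Subtype.ext h⟩) s
  rw [← hs]
  obtain ⟨N, hN, h⟩ := h3
  exact ⟨N, hN, by rw [← map_zsmul, h, map_zero]⟩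

end T2

open T2

/-- If the single group `H^(2n+1)_W(X, ℤ(n))` is finitely generated, then the Tate conjecture,
the semisimplicity of the eigenvalue `1` and rational = homological equivalence hold in codimension `n`,
for every prime `ℓ`. -/
theorem t2 (X : Theory) (n : ℕ) (h : AddGroup.FG ((X.W n).H (2 * (n : ℤ) + 1)))
    (ℓ : Nat.Primes) : X.TC ℓ n ∧ X.SS ℓ n ∧ X.B ℓ n := by
  have hs : Function.Surjective (tens ℓ (X.cH ℓ n (2 * (n : ℤ)))) :=
    surj ℓ _ _ _ _ (X.cH ℓ n (2 * (n : ℤ))) (X.q ℓ n _) (X.δ ℓ n _) (X.q_eq_zero ℓ n _)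
      (X.δ_eq_zero ℓ n _) (X.Q_div ℓ n _) h
  have hi : Function.Injective (tens ℓ (X.cH ℓ n (2 * (n : ℤ) + 1))) :=
    inj ℓ _ _ _ _ (X.δ ℓ n _) (X.cH ℓ n _) (X.q ℓ n _) (X.cH_eq_zero ℓ n _)
      (X.q_eq_zero ℓ n _) (X.Q_div ℓ n _) (X.Q_div ℓ n _) h
  -- the fixed classes
  set Fix : AddSubgroup ((X.W n).C (2 * (n : ℤ))) :=
    ((X.W n).F _ - AddMonoidHom.id _).ker with hFix
  have memFix : ∀ x, x ∈ Fix ↔ (X.W n).F _ x = x := by
    intro x
    rw [hFix, AddMonoidHom.mem_ker, AddMonoidHom.sub_apply, AddMonoidHom.id_apply, sub_eq_zero]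
  -- `t` in `ℤ_ℓ ⊗ Fix`
  set cF : Fix →+ (X.E ℓ n).C (2 * (n : ℤ)) := (X.cC ℓ n _).comp Fix.subtype with hcF
  set iF : Fix →+ (X.W n).H (2 * (n : ℤ) + 1) := ((X.W n).inc _).comp Fix.subtype with hiF
  have hiF_tors : ∀ x : Fix, iF x = 0 → Tors x := by
    intro x hx
    obtain ⟨k, hk, h1⟩ := ORB.fix_tors (X.W n) ((memFix _).1 x.2) hx
    refine ⟨(k : ℤ), by exact_mod_cast hk.ne', Subtype.ext ?_⟩
    rw [natCast_zsmul]
    exact h1
  -- every fixed class on the `ℓ`-adic side comes from `ℤ_ℓ ⊗ Fix`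
  have hfix : ∀ y : (X.E ℓ n).C (2 * (n : ℤ)), (X.E ℓ n).F _ y = y →
      ∃ t : ℤ_[ℓ] ⊗[ℤ] Fix, tens ℓ cF t = y := by
    intro y hy
    obtain ⟨e, he⟩ := ((X.E ℓ n).res_mem _ _).2 hy
    obtain ⟨s, hs⟩ := hs e
    subst hs
    rw [← he]
    clear he hy
    induction s using TensorProduct.induction_on with
    | zero => exact ⟨0, by rw [map_zero, map_zero, map_zero]⟩
    | tmul a x =>
      refine ⟨a ⊗ₜ ⟨(X.W n).res _ x, (memFix _).2 (((X.W n).res_mem _ _).1 ⟨x, rfl⟩)⟩, ?_⟩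
      rw [tens_tmul, tens_tmul, map_smul, X.res_cH]
      rfl
    | add s t hs ht =>
      obtain ⟨s', hs'⟩ := hs
      obtain ⟨t', ht'⟩ := ht
      exact ⟨s' + t', by rw [map_add, hs', ht', map_add, map_add]⟩
  -- `inc` on both sides
  have hinc : ∀ t : ℤ_[ℓ] ⊗[ℤ] Fix, (X.E ℓ n).inc _ (tens ℓ cF t) =
      tens ℓ (X.cH ℓ n _) (iF.toIntLinearMap.lTensor ℤ_[ℓ] t) := by
    intro t
    induction t using TensorProduct.induction_on with
    | zero => simp
    | tmul a x =>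
      rw [tens_tmul, map_smul, LinearMap.lTensor_tmul, tens_tmul]
      congr 1
      exact (X.cH_inc ℓ n _ _).symm
    | add s t hs ht => rw [map_add, map_add, hs, ht, map_add, map_add]
  refine ⟨?_, ?_, ?_⟩
  · -- Tate
    intro y hy
    obtain ⟨t, rfl⟩ := hfix y hy
    refine ⟨1, one_ne_zero, ?_⟩
    rw [one_smul]
    clear hy
    induction t using TensorProduct.induction_on with
    | zero => rw [map_zero]; exact zero_mem _
    | tmul a x =>
      rw [tens_tmul]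
      exact Submodule.smul_mem _ _ (Submodule.subset_span ⟨x.1, (memFix _).1 x.2, rfl⟩)
    | add s t hs ht => rw [map_add]; exact add_mem hs ht
  · -- semisimplicity
    intro z hz
    obtain ⟨t, ht⟩ := hfix _ hz
    have h0 : (X.E ℓ n).inc _ (tens ℓ cF t) = 0 := by
      rw [ht]
      exact ((X.E ℓ n).inc_eq_zero _ _).2 ⟨z, rfl⟩
    rw [hinc] at h0
    have h1 := hi (h0.trans (map_zero _).symm)
    have h2 := tors_of_lTensor ℓ iF.toIntLinearMap hiF_tors t h1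
    obtain ⟨N, hN, h3⟩ := h2
    exact ⟨N, hN, by rw [← ht, ← map_zsmul, h3, map_zero]⟩
  · -- rational = homological
    intro x hx hcx
    have h1 : Tors ((X.W n).inc _ x) := by
      obtain ⟨N, hN, h2⟩ := hcx
      have h3 : tens ℓ (X.cH ℓ n _) ((1 : ℤ_[ℓ]) ⊗ₜ[ℤ] (N • (X.W n).inc _ x)) = 0 := by
        rw [tens_one, map_zsmul, X.cH_inc, ← map_zsmul, h2, map_zero]
      have h4 := hi (h3.trans (map_zero _).symm)
      have h5 : Tors (N • (X.W n).inc _ x) := by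
        by_contra hne
        -- the multiplication by `N • inc x` gives an injective map `ℤ → H`
        have hinj : Function.Injective
            (LinearMap.toSpanSingleton ℤ _ (N • (X.W n).inc _ x)) := by
          rw [injective_iff_map_eq_zero]
          intro a ha
          by_contra h6
          exact hne ⟨a, h6, ha⟩
        have hflat : Module.Flat ℤ ℤ_[ℓ] := inferInstance
        have h7 := Module.Flat.lTensor_preserves_injective_linearMap (M := ℤ_[ℓ]) _ hinj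
        have h8 : (LinearMap.toSpanSingleton ℤ _ (N • (X.W n).inc _ x)).lTensor ℤ_[ℓ]
            ((1 : ℤ_[ℓ]) ⊗ₜ[ℤ] (1 : ℤ)) = 0 := by
          rw [LinearMap.lTensor_tmul, LinearMap.toSpanSingleton_apply, one_smul, h4]
        have h9 := h7 (h8.trans (map_zero _).symm)
        have h10 := congrArg (TensorProduct.rid ℤ ℤ_[ℓ]) h9
        rw [TensorProduct.rid_tmul, map_zero, one_smul] at h10
        exact one_ne_zero h10
      exact Tors.of_zsmul hN h5
    obtain ⟨N, hN, h2⟩ := h1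
    rw [← map_zsmul] at h2
    have h3 : (X.W n).F _ (N • x) = N • x := by rw [map_zsmul, hx]
    obtain ⟨k, hk, h4⟩ := ORB.fix_tors (X.W n) h3 h2
    refine Tors.of_zsmul hN ⟨(k : ℤ), by exact_mod_cast hk.ne', ?_⟩
    rw [natCast_zsmul]
    exact h4

end WE
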